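import Pool.Agent.H903HT.Stmts

/-! Project H903-HT, task ApproxSwap -/

set_option autoImplicit false
set_option maxHeartbeats 4000000

open MeasureTheory Filter Topology Set
open scoped ContDiff

namespace Pool.Agent.H903HT

namespace ApproxSwapX

/-- the swap as a continuous linear equivalence -/
noncomputable abbrev sw : (ℝ × ℝ) ≃L[ℝ] (ℝ × ℝ) := ContinuousLinearEquiv.prodComm ℝ ℝ ℝ

theorem sw_apply (x : ℝ × ℝ) : sw x = (x.2, x.1) := rfl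

theorem map_sw : Measure.map (fun x : ℝ × ℝ => (x.2, x.1)) μQ = μQ := by
  have : SFinite μI := by
    unfold μI
    infer_instance
  unfold μQ
  exact Measure.prod_swap

theorem emb : MeasurableEmbedding (fun x : ℝ × ℝ => (x.2, x.1)) :=
  (MeasurableEquiv.prodComm (α := ℝ) (β := ℝ)).measurableEmbedding

theorem norm_sw (c : ℝ × ℝ → ℂ) :
    eLpNorm (fun x : ℝ × ℝ => c (x.2, x.1)) 2 μQ = eLpNorm c 2 μQ := by
  have h := emb.eLpNorm_map_measure (g := c) (p := 2) (μ := μQ)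
  rw [map_sw] at h
  exact h.symm

theorem int_sw (g : ℝ × ℝ → ℂ) : ∫ x, g (x.2, x.1) ∂μQ = ∫ x, g x ∂μQ := by
  have h := emb.integral_map (μ := μQ) g
  rw [map_sw] at h
  exact h.symm

theorem mem_sw (c : ℝ × ℝ → ℂ) (hc : MemLp c 2 μQ) : MemLp (fun x : ℝ × ℝ => c (x.2, x.1)) 2 μQ := by
  have h : MeasurePreserving (fun x : ℝ × ℝ => (x.2, x.1)) μQ μQ := ⟨emb.measurable, map_sw⟩
  exact hc.comp_measurePreserving h

theorem test_sw (φ : ℝ × ℝ → ℂ) (h : TestQ φ) : TestQ (fun x => φ (x.2, x.1)) := by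
  obtain ⟨h1, h2, h3⟩ := h
  refine ⟨?_, ?_, ?_⟩
  · exact h1.comp (contDiff_snd.prodMk contDiff_fst)
  · exact h2.comp_homeomorph sw.toHomeomorph
  · have h4 : tsupport (φ ∘ sw.toHomeomorph) = sw.toHomeomorph ⁻¹' tsupport φ :=
      tsupport_comp_eq_preimage φ sw.toHomeomorph
    change tsupport (φ ∘ sw.toHomeomorph) ⊆ _
    rw [h4]
    intro x hx
    have h5 := h3 hx
    exact ⟨h5.2, h5.1⟩

theorem fd_sw (φ : ℝ × ℝ → ℂ) (x : ℝ × ℝ) :
    fderiv ℝ (fun x : ℝ × ℝ => φ (x.2, x.1)) x ((0:ℝ), (1:ℝ)) =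
      fderiv ℝ φ (x.2, x.1) ((1:ℝ), (0:ℝ)) := by
  have h : fderiv ℝ (φ ∘ sw) x = (fderiv ℝ φ (sw x)).comp (sw : (ℝ × ℝ) →L[ℝ] (ℝ × ℝ)) :=
    sw.comp_right_fderiv
  change fderiv ℝ (φ ∘ sw) x ((0:ℝ), (1:ℝ)) = _
  rw [h]
  rfl

theorem sol_sw (ν C : ℝ) (c : ℝ × ℝ → ℂ) (hc : c ∈ Sol2 ν C) :
    (fun x : ℝ × ℝ => c (x.2, x.1)) ∈ Sol1 ν C := by
  obtain ⟨h, hc2, hh2, hcn, hhn, hw⟩ := hc
  refine ⟨fun x => h (x.2, x.1), mem_sw c hc2, mem_sw h hh2, ?_, ?_, ?_⟩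
  · rw [norm_sw]
    exact hcn
  · rw [norm_sw]
    exact hhn
  · intro φ hφ
    have h1 := hw _ (test_sw φ hφ)
    rw [← int_sw, ← int_sw (fun x => h x * φ (x.2, x.1))] at h1
    simp only [fd_sw] at h1
    exact h1

end ApproxSwapX

open ApproxSwapX

theorem taskApproxSwap : TaskApproxSwap := by
  intro ν C hA ε hε
  obtain ⟨N, p, hp, h⟩ := hA ε hε
  refine ⟨N, p, hp, ?_⟩
  intro c hc
  obtain ⟨α, hα, hn⟩ := h _ (sol_sw ν C c hc)
  refine ⟨α, hα, ?_⟩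
  rw [← norm_sw] at hn
  refine le_trans (le_of_eq ?_) hn
  congr 1
  funext x
  simp only
  congr 1
  exact Finset.sum_congr rfl fun i _ => mul_comm _ _

end Pool.Agent.H903HT
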