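import Pool.Agent.H903HT.Stmts

set_option autoImplicit false

namespace Pool.Agent.H903HT

namespace BoxClosed

variable {H0 H1 H2 : Type} [NormedAddCommGroup H0] [InnerProductSpace ℂ H0] [CompleteSpace H0]
  [NormedAddCommGroup H1] [InnerProductSpace ℂ H1] [CompleteSpace H1]
  [NormedAddCommGroup H2] [InnerProductSpace ℂ H2] [CompleteSpace H2]

omit [CompleteSpace H0] [CompleteSpace H1] in
theorem mem_adj (Γ : Submodule ℂ (H0 × H1)) (p : H1 × H0) :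
    p ∈ Adj Γ ↔ ∀ q ∈ Γ, inner ℂ q.2 p.1 = inner ℂ q.1 p.2 := Iff.rfl

omit [CompleteSpace H0] [CompleteSpace H1] in
theorem adj_add (Γ : Submodule ℂ (H0 × H1)) {p p' : H1 × H0} (hp : p ∈ Adj Γ) (hp' : p' ∈ Adj Γ) :
    p + p' ∈ Adj Γ := by
  intro q hq
  rw [Prod.fst_add, Prod.snd_add, inner_add_right, inner_add_right, hp q hq, hp' q hq]

omit [CompleteSpace H0] [CompleteSpace H1] in
theorem adj_smul (Γ : Submodule ℂ (H0 × H1)) (c : ℂ) {p : H1 × H0} (hp : p ∈ Adj Γ) :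
    c • p ∈ Adj Γ := by
  intro q hq
  rw [Prod.smul_fst, Prod.smul_snd, inner_smul_right, inner_smul_right, hp q hq]

omit [CompleteSpace H0] [CompleteSpace H1] in
theorem adj_zero (Γ : Submodule ℂ (H0 × H1)) : (0 : H1 × H0) ∈ Adj Γ := by
  intro q _
  rw [Prod.fst_zero, Prod.snd_zero, inner_zero_right, inner_zero_right]

omit [CompleteSpace H0] [CompleteSpace H1] in
theorem adj_closed (Γ : Submodule ℂ (H0 × H1)) : IsClosed (Adj Γ) := by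
  have : Adj Γ = ⋂ q ∈ Γ, {p : H1 × H0 | inner ℂ q.2 p.1 = inner ℂ q.1 p.2} := by
    ext p
    simp only [Set.mem_iInter, Set.mem_setOf_eq]
    exact Iff.rfl
  rw [this]
  refine isClosed_biInter fun q _ => isClosed_eq ?_ ?_
  · exact continuous_const.inner continuous_fst
  · exact continuous_const.inner continuous_snd

/-- the space of data -/
def D (Γ0 : Submodule ℂ (H0 × H1)) (Γ1 : Submodule ℂ (H1 × H2)) (l : ℝ) :
    Submodule ℂ (H1 × H0 × H1 × H2 × H1) where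
  carrier := {x | (x.1, x.2.1) ∈ Adj Γ0 ∧ (x.2.1, x.2.2.1) ∈ Γ0 ∧ (x.1, x.2.2.2.1) ∈ Γ1 ∧
    (x.2.2.2.1, x.2.2.2.2) ∈ Adj Γ1 ∧ (l : ℂ) • x.1 = x.2.2.1 + x.2.2.2.2}
  add_mem' := by
    rintro x y ⟨h1, h2, h3, h4, h5⟩ ⟨g1, g2, g3, g4, g5⟩
    refine ⟨adj_add Γ0 h1 g1, Γ0.add_mem h2 g2, Γ1.add_mem h3 g3, adj_add Γ1 h4 g4, ?_⟩
    show (l : ℂ) • (x.1 + y.1) = (x.2.2.1 + y.2.2.1) + (x.2.2.2.2 + y.2.2.2.2)
    rw [smul_add, h5, g5]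
    abel
  zero_mem' := ⟨adj_zero Γ0, Γ0.zero_mem, Γ1.zero_mem, adj_zero Γ1, by
    show (l : ℂ) • (0 : H1) = (0 : H1) + 0
    rw [smul_zero, add_zero]⟩
  smul_mem' := by
    rintro c x ⟨h1, h2, h3, h4, h5⟩
    refine ⟨adj_smul Γ0 c h1, Γ0.smul_mem c h2, Γ1.smul_mem c h3, adj_smul Γ1 c h4, ?_⟩
    show (l : ℂ) • (c • x.1) = c • x.2.2.1 + c • x.2.2.2.2
    rw [smul_comm, h5, smul_add]

omit [CompleteSpace H0] [CompleteSpace H1] [CompleteSpace H2] in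
theorem D_closed (Γ0 : Submodule ℂ (H0 × H1)) (Γ1 : Submodule ℂ (H1 × H2)) (l : ℝ)
    (h0 : IsClosed (Γ0 : Set (H0 × H1))) (h1 : IsClosed (Γ1 : Set (H1 × H2))) :
    IsClosed (D Γ0 Γ1 l : Set (H1 × H0 × H1 × H2 × H1)) := by
  have e : (D Γ0 Γ1 l : Set (H1 × H0 × H1 × H2 × H1)) =
      ((fun x : H1 × H0 × H1 × H2 × H1 => (x.1, x.2.1)) ⁻¹' Adj Γ0) ∩
      (((fun x : H1 × H0 × H1 × H2 × H1 => (x.2.1, x.2.2.1)) ⁻¹' (Γ0 : Set (H0 × H1))) ∩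
      (((fun x : H1 × H0 × H1 × H2 × H1 => (x.1, x.2.2.2.1)) ⁻¹' (Γ1 : Set (H1 × H2))) ∩
      (((fun x : H1 × H0 × H1 × H2 × H1 => (x.2.2.2.1, x.2.2.2.2)) ⁻¹' Adj Γ1) ∩
      {x : H1 × H0 × H1 × H2 × H1 | (l : ℂ) • x.1 = x.2.2.1 + x.2.2.2.2}))) := rfl
  rw [e]
  refine IsClosed.inter ((adj_closed Γ0).preimage (by fun_prop)) (IsClosed.inter
    (h0.preimage (by fun_prop)) (IsClosed.inter (h1.preimage (by fun_prop)) (IsClosed.inter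
    ((adj_closed Γ1).preimage (by fun_prop)) (isClosed_eq (by fun_prop) (by fun_prop)))))

omit [CompleteSpace H0] [CompleteSpace H1] [CompleteSpace H2] in
theorem bounds (Γ0 : Submodule ℂ (H0 × H1)) (Γ1 : Submodule ℂ (H1 × H2))
    (hc : ∀ u F, (u, F) ∈ Γ0 → (F, (0 : H2)) ∈ Γ1) (l : ℝ)
    (f : H1) (v : H0) (F : H1) (g : H2) (k : H1)
    (h1 : (f, v) ∈ Adj Γ0) (h2 : (v, F) ∈ Γ0) (h3 : (f, g) ∈ Γ1) (h4 : (g, k) ∈ Adj Γ1)
    (h5 : (l : ℂ) • f = F + k) :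
    ‖v‖ ≤ (1 + |l|) * ‖f‖ ∧ ‖F‖ ≤ (1 + |l|) * ‖f‖ ∧ ‖g‖ ≤ (1 + |l|) * ‖f‖ ∧
      ‖k‖ ≤ (1 + |l|) * ‖f‖ := by
  have hFk : inner ℂ F k = 0 := by
    have := h4 (F, 0) (hc v F h2)
    simp only [inner_zero_left] at this
    exact this.symm
  have hsq : ‖F‖ ^ 2 + ‖k‖ ^ 2 = (|l| * ‖f‖) ^ 2 := by
    have h6 := norm_add_sq (𝕜 := ℂ) F k
    rw [hFk, ← h5, norm_smul, Complex.norm_real, Real.norm_eq_abs] at h6
    simp only [map_zero, mul_zero, add_zero] at h6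
    exact h6.symm
  have hlf : 0 ≤ |l| * ‖f‖ := mul_nonneg (abs_nonneg _) (norm_nonneg _)
  have hF : ‖F‖ ≤ |l| * ‖f‖ := abs_le_of_sq_le_sq' (by nlinarith [sq_nonneg ‖k‖]) hlf |>.2
  have hk : ‖k‖ ≤ |l| * ‖f‖ := abs_le_of_sq_le_sq' (by nlinarith [sq_nonneg ‖F‖]) hlf |>.2
  have hv : ‖v‖ ^ 2 ≤ ‖F‖ * ‖f‖ := by
    have h6 := h1 (v, F) h2
    simp only at h6
    have h7 : ‖v‖ ^ 2 = ‖inner ℂ F f‖ := by
      rw [h6, inner_self_eq_norm_sq_to_K]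
      simp
    rw [h7]
    exact norm_inner_le_norm F f
  have hg : ‖g‖ ^ 2 ≤ ‖f‖ * ‖k‖ := by
    have h6 := h4 (f, g) h3
    simp only at h6
    have h7 : ‖g‖ ^ 2 = ‖inner ℂ f k‖ := by
      rw [← h6, inner_self_eq_norm_sq_to_K]
      simp
    rw [h7]
    exact norm_inner_le_norm f k
  have hf0 := norm_nonneg f
  have hl0 := abs_nonneg l
  have hle : |l| * ‖f‖ ≤ (1 + |l|) * ‖f‖ := by nlinarith
  have hpos : 0 ≤ (1 + |l|) * ‖f‖ := by positivity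
  have key : |l| * ‖f‖ * ‖f‖ ≤ ((1 + |l|) * ‖f‖) ^ 2 := by
    have : 0 ≤ (1 + |l| + |l| ^ 2) * ‖f‖ ^ 2 := by positivity
    nlinarith
  refine ⟨?_, hF.trans hle, ?_, hk.trans hle⟩
  · refine abs_le_of_sq_le_sq' ?_ hpos |>.2
    exact (hv.trans (mul_le_mul_of_nonneg_right hF hf0)).trans key
  · refine abs_le_of_sq_le_sq' ?_ hpos |>.2
    refine (hg.trans (mul_le_mul_of_nonneg_left hk hf0)).trans ?_
    rw [mul_comm]
    exact key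

end BoxClosed

open BoxClosed in
theorem taskBoxClosed : TaskBoxClosed := by
  intro H0 H1 H2 _ _ _ _ _ _ _ _ _ Γ0 Γ1 hΓ0 hΓ1 hc l
  have hcl := D_closed Γ0 Γ1 l hΓ0.closed hΓ1.closed
  haveI : CompleteSpace (D Γ0 Γ1 l) := hcl.completeSpace_coe
  let P : (D Γ0 Γ1 l) →L[ℂ] H1 := (ContinuousLinearMap.fst ℂ H1 (H0 × H1 × H2 × H1)).comp
    (D Γ0 Γ1 l).subtypeL
  have hP : ∀ x : D Γ0 Γ1 l, P x = x.1.1 := fun _ => rfl
  have hanti : AntilipschitzWith (⟨1 + |l|, by positivity⟩ : NNReal) P := by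
    refine AddMonoidHomClass.antilipschitz_of_bound P fun x => ?_
    obtain ⟨⟨f, v, F, g, k⟩, h1, h2, h3, h4, h5⟩ := x
    obtain ⟨b1, b2, b3, b4⟩ := bounds Γ0 Γ1 hc l f v F g k h1 h2 h3 h4 h5
    rw [hP]
    show ‖(f, v, F, g, k)‖ ≤ (1 + |l|) * ‖f‖
    have hf : ‖f‖ ≤ (1 + |l|) * ‖f‖ := by
      have := mul_nonneg (abs_nonneg l) (norm_nonneg f)
      nlinarith
    rw [Prod.norm_def, Prod.norm_def, Prod.norm_def, Prod.norm_def]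
    exact max_le hf (max_le b1 (max_le b2 (max_le b3 b4)))
  refine ⟨LinearMap.range P.toLinearMap, ?_, ?_⟩
  · ext f
    constructor
    · rintro ⟨x, rfl⟩
      obtain ⟨⟨f, v, F, g, k⟩, h1, h2, h3, h4, h5⟩ := x
      exact ⟨v, F, g, k, h1, h2, h3, h4, h5⟩
    · rintro ⟨v, F, g, k, h1, h2, h3, h4, h5⟩
      exact ⟨⟨(f, v, F, g, k), h1, h2, h3, h4, h5⟩, rfl⟩
  · have := hanti.isClosed_range P.uniformContinuous
    exact this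

end Pool.Agent.H903HT
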