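import Pool.Agent.H903HT.Stmts

/-!
Project H903-HT, task TC2: the weak `∂̄` on (0,1)-forms of the Hartogs triangle is a closed
single-valued operator.
-/

set_option autoImplicit false

open MeasureTheory Filter Topology Set
open scoped ContDiff

namespace Pool.Agent.H903HT

namespace Closed1

lemma isOpen_T : IsOpen T := by
  have h1 : IsOpen {z : ℂ × ℂ | ‖z.1‖ < ‖z.2‖} :=
    isOpen_lt (continuous_norm.comp continuous_fst) (continuous_norm.comp continuous_snd)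
  have h2 : IsOpen {z : ℂ × ℂ | ‖z.2‖ < 1} :=
    isOpen_lt (continuous_norm.comp continuous_snd) continuous_const
  exact h1.inter h2

instance : IsFiniteMeasureOnCompacts μT := by
  unfold μT
  infer_instance

lemma memLp_of {ψ : ℂ × ℂ → ℂ} (hc : Continuous ψ) (hs : HasCompactSupport ψ) :
    MemLp ψ 2 μT :=
  hc.memLp_of_hasCompactSupport hs

lemma memLp_conj {ψ : ℂ × ℂ → ℂ} (hc : Continuous ψ) (hs : HasCompactSupport ψ) :
    MemLp (fun z => (starRingEnd ℂ) (ψ z)) 2 μT :=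
  memLp_of (Complex.continuous_conj.comp hc) (hs.comp_left (g := starRingEnd ℂ) (map_zero _))

/-- pairing with a continuous compactly supported function -/
lemma exists_pair {ψ : ℂ × ℂ → ℂ} (hc : Continuous ψ) (hs : HasCompactSupport ψ) :
    ∃ ℓ : L2 →L[ℂ] ℂ, ∀ u : L2, ℓ u = ∫ z, u z * ψ z ∂μT := by
  refine ⟨innerSL ℂ (E := L2) ((memLp_conj hc hs).toLp _), fun u => ?_⟩
  rw [innerSL_apply_apply, L2.inner_def]
  refine integral_congr_ae ?_
  filter_upwards [(memLp_conj hc hs).coeFn_toLp] with z hz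
  rw [hz, RCLike.inner_apply]
  simp

lemma integrable_pair {ψ : ℂ × ℂ → ℂ} (hc : Continuous ψ) (hs : HasCompactSupport ψ) (u : L2) :
    Integrable (fun z => u z * ψ z) μT :=
  (Lp.memLp u).integrable_mul (memLp_of hc hs)

lemma test_cont {φ : ℂ × ℂ → ℂ} (h : Test φ) : Continuous φ := h.1.continuous

lemma fderiv_cont {φ : ℂ × ℂ → ℂ} (h : Test φ) (v : ℂ × ℂ) :
    Continuous fun z => fderiv ℝ φ z v :=
  (h.1.continuous_fderiv (by simp)).clm_apply continuous_const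

lemma fderiv_supp {φ : ℂ × ℂ → ℂ} (h : Test φ) : HasCompactSupport (fderiv ℝ φ) :=
  h.2.1.fderiv ℝ

lemma dbar1_cont {φ : ℂ × ℂ → ℂ} (h : Test φ) : Continuous (dbar1 φ) := by
  unfold dbar1
  exact ((fderiv_cont h _).add (continuous_const.mul (fderiv_cont h _))).div_const _

lemma dbar2_cont {φ : ℂ × ℂ → ℂ} (h : Test φ) : Continuous (dbar2 φ) := by
  unfold dbar2
  exact ((fderiv_cont h _).add (continuous_const.mul (fderiv_cont h _))).div_const _

lemma dbar1_supp {φ : ℂ × ℂ → ℂ} (h : Test φ) : HasCompactSupport (dbar1 φ) := by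
  refine (fderiv_supp h).mono' (fun z hz => ?_)
  by_contra hn
  have h0 : fderiv ℝ φ z = 0 := image_eq_zero_of_notMem_tsupport hn
  exact hz (by simp [dbar1, h0])

lemma dbar2_supp {φ : ℂ × ℂ → ℂ} (h : Test φ) : HasCompactSupport (dbar2 φ) := by
  refine (fderiv_supp h).mono' (fun z hz => ?_)
  by_contra hn
  have h0 : fderiv ℝ φ z = 0 := image_eq_zero_of_notMem_tsupport hn
  exact hz (by simp [dbar2, h0])

/-- the defining functional of a test function -/
lemma exists_fun {φ : ℂ × ℂ → ℂ} (h : Test φ) : ∃ ℓ : (L21 × L2) →L[ℂ] ℂ, ∀ p : L21 × L2,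
    ℓ p = 0 ↔ ∫ z, (p.1.snd z * dbar1 φ z - p.1.fst z * dbar2 φ z) ∂μT =
      -∫ z, p.2 z * φ z ∂μT := by
  obtain ⟨ℓ1, h1⟩ := exists_pair (dbar1_cont h) (dbar1_supp h)
  obtain ⟨ℓ2, h2⟩ := exists_pair (dbar2_cont h) (dbar2_supp h)
  obtain ⟨ℓ3, h3⟩ := exists_pair (test_cont h) h.2.1
  refine ⟨(ℓ1.comp (WithLp.sndL 2 ℂ L2 L2)).comp (ContinuousLinearMap.fst ℂ L21 L2)
    - (ℓ2.comp (WithLp.fstL 2 ℂ L2 L2)).comp (ContinuousLinearMap.fst ℂ L21 L2)
    + ℓ3.comp (ContinuousLinearMap.snd ℂ L21 L2), fun p => ?_⟩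
  rw [integral_sub (integrable_pair (dbar1_cont h) (dbar1_supp h) _)
    (integrable_pair (dbar2_cont h) (dbar2_supp h) _), ← h1, ← h2, ← h3,
    eq_neg_iff_add_eq_zero]
  rfl

lemma zero_of_test (g : L2) (h : ∀ φ, Test φ → ∫ z, g z * φ z ∂μT = 0) : g = 0 := by
  have hloc : LocallyIntegrableOn (fun z => g z) T μT :=
    ((Lp.memLp g).locallyIntegrable (by norm_num)).locallyIntegrableOn T
  have key := isOpen_T.ae_eq_zero_of_integral_contDiff_smul_eq_zero hloc (μ := μT)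
    (fun ψ hψ hψs hψt => by
      have ht : Test (fun z => ((ψ z : ℝ) : ℂ)) := by
        refine ⟨Complex.ofRealCLM.contDiff.comp hψ,
          hψs.comp_left (g := fun x : ℝ => (x : ℂ)) (by simp), ?_⟩
        refine subset_trans ?_ hψt
        exact closure_mono (fun z hz => by
          intro h0
          exact hz (by simp [h0]))
      rw [← h _ ht]
      refine integral_congr_ae (Eventually.of_forall fun z => ?_)
      simp [mul_comm])
  have hT : ∀ᵐ z ∂μT, z ∈ T := by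
    unfold μT
    exact ae_restrict_mem isOpen_T.measurableSet
  refine (Lp.eq_zero_iff_ae_eq_zero).2 ?_
  filter_upwards [key, hT] with z hz hzT
  simpa using hz hzT

end Closed1

open Closed1 in
theorem taskClosed1 : TaskClosed1 := by
  have hex : ∀ φ : ℂ × ℂ → ℂ, ∃ ℓ : (L21 × L2) →L[ℂ] ℂ, Test φ → ∀ p : L21 × L2,
      (ℓ p = 0 ↔ ∫ z, (p.1.snd z * dbar1 φ z - p.1.fst z * dbar2 φ z) ∂μT =
        -∫ z, p.2 z * φ z ∂μT) := by
    intro φ
    by_cases h : Test φ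
    · obtain ⟨ℓ, hℓ⟩ := exists_fun h
      exact ⟨ℓ, fun _ => hℓ⟩
    · exact ⟨0, fun h' => absurd h' h⟩
  choose ℓ hℓ using hex
  refine ⟨⨅ φ : {φ : ℂ × ℂ → ℂ // Test φ}, LinearMap.ker (ℓ φ.1).toLinearMap, ?_, ?_, ?_⟩
  · ext p
    simp only [Submodule.coe_iInf, mem_iInter, SetLike.mem_coe, LinearMap.mem_ker, mem_ofPred_eq,
      ContinuousLinearMap.coe_coe]
    exact ⟨fun h φ hφ => (hℓ φ hφ p).1 (h ⟨φ, hφ⟩), fun h φ => (hℓ φ.1 φ.2 p).2 (h φ.1 φ.2)⟩
  · rw [Submodule.coe_iInf]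
    exact isClosed_iInter fun φ => (ℓ φ.1).isClosed_ker
  · intro g hg
    refine zero_of_test g fun φ hφ => ?_
    rw [Submodule.mem_iInf] at hg
    have h1 := (hℓ φ hφ ((0 : L21), g)).1 (hg ⟨φ, hφ⟩)
    have h2 : ∫ z, (((0 : L21).snd z) * dbar1 φ z - ((0 : L21).fst z) * dbar2 φ z) ∂μT = 0 := by
      rw [← integral_zero (ℂ × ℂ) ℂ (μ := μT)]
      refine integral_congr_ae ?_
      have e1 : (((0 : L21).snd : L2) : ℂ × ℂ → ℂ) =ᵐ[μT] 0 := Lp.coeFn_zero ℂ 2 μT
      have e2 : (((0 : L21).fst : L2) : ℂ × ℂ → ℂ) =ᵐ[μT] 0 := Lp.coeFn_zero ℂ 2 μT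
      filter_upwards [e1, e2] with z hz1 hz2
      rw [hz1, hz2]
      simp
    have h3 := h2.symm.trans h1
    exact neg_eq_zero.1 h3.symm

end Pool.Agent.H903HT
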