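import Pool.Agent.H903HT.Stmts

/-! Project H903-HT: the domain of `∂̄` on functions is dense (`TaskDense0`). -/

set_option autoImplicit false

open MeasureTheory Filter Topology Set
open scoped ContDiff

namespace Pool.Agent.H903HT

theorem d0_isOpen_T : IsOpen T := by
  have h1 : IsOpen {z : ℂ × ℂ | ‖z.1‖ < ‖z.2‖} := isOpen_lt (by fun_prop) (by fun_prop)
  have h2 : IsOpen {z : ℂ × ℂ | ‖z.2‖ < 1} := isOpen_lt (by fun_prop) (by fun_prop)
  exact h1.inter h2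

instance d0_haarCC : (volume : Measure (ℂ × ℂ)).IsAddHaarMeasure :=
  inferInstanceAs ((volume : Measure ℂ).prod (volume : Measure ℂ)).IsAddHaarMeasure

theorem d0_integral_T {f : ℂ × ℂ → ℂ} (hf : Function.support f ⊆ T) :
    ∫ z, f z ∂μT = ∫ z, f z := by
  unfold μT
  apply setIntegral_eq_integral_of_forall_compl_eq_zero
  intro z hz
  by_contra h
  exact hz (hf h)

theorem Test.d0cont {φ : ℂ × ℂ → ℂ} (h : Test φ) : Continuous φ := h.1.continuous

theorem Test.d0diff {φ : ℂ × ℂ → ℂ} (h : Test φ) : Differentiable ℝ φ :=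
  h.1.differentiable (by simp)

theorem Test.d0supp {φ : ℂ × ℂ → ℂ} (h : Test φ) : Function.support φ ⊆ T :=
  (subset_tsupport φ).trans h.2.2

theorem Test.d0zero : Test (fun _ => 0) := by
  refine ⟨contDiff_const, ?_, ?_⟩
  · exact HasCompactSupport.zero
  · have : tsupport (fun _ : ℂ × ℂ => (0 : ℂ)) = ∅ := by
      rw [tsupport_eq_empty_iff]
      rfl
    rw [this]
    exact empty_subset _

theorem Test.d0add {φ ψ : ℂ × ℂ → ℂ} (h : Test φ) (h' : Test ψ) : Test (fun z => φ z + ψ z) := by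
  refine ⟨h.1.add h'.1, h.2.1.add h'.2.1, ?_⟩
  refine (tsupport_add φ ψ).trans ?_
  exact union_subset h.2.2 h'.2.2

theorem Test.d0const_mul {φ : ℂ × ℂ → ℂ} (h : Test φ) (c : ℂ) : Test (fun z => c * φ z) := by
  refine ⟨contDiff_const.mul h.1, h.2.1.mul_left, ?_⟩
  exact (tsupport_mul_subset_right (f := fun _ => c) (g := φ)).trans h.2.2

theorem Test.d0dir {φ : ℂ × ℂ → ℂ} (h : Test φ) (v : ℂ × ℂ) : Test (fun z => fderiv ℝ φ z v) :=
  ⟨(h.1.fderiv_right (m := ∞) (by simp)).clm_apply contDiff_const, h.2.1.fderiv_apply (𝕜 := ℝ) v,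
    (tsupport_fderiv_apply_subset ℝ v).trans h.2.2⟩

theorem Test.d0dbar1 {φ : ℂ × ℂ → ℂ} (h : Test φ) : Test (dbar1 φ) := by
  have := ((h.d0dir ((1 : ℂ), (0 : ℂ))).d0add ((h.d0dir (Complex.I, (0 : ℂ))).d0const_mul Complex.I)).d0const_mul
    (1 / 2)
  convert this using 2
  unfold Pool.Agent.H903HT.dbar1
  ring

theorem Test.d0dbar2 {φ : ℂ × ℂ → ℂ} (h : Test φ) : Test (dbar2 φ) := by
  have := ((h.d0dir ((0 : ℂ), (1 : ℂ))).d0add ((h.d0dir ((0 : ℂ), Complex.I)).d0const_mul Complex.I)).d0const_mul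
    (1 / 2)
  convert this using 2
  unfold Pool.Agent.H903HT.dbar2
  ring

instance d0_ifmoc : IsFiniteMeasureOnCompacts μT := by
  unfold μT
  infer_instance

theorem Test.d0memLp {φ : ℂ × ℂ → ℂ} (h : Test φ) : MemLp φ 2 μT :=
  h.d0cont.memLp_of_hasCompactSupport h.2.1

theorem Test.d0int_mul {φ ψ : ℂ × ℂ → ℂ} (h : Test φ) (h' : Test ψ) :
    Integrable (fun z => φ z * ψ z) :=
  (h.d0cont.mul h'.d0cont).integrable_of_hasCompactSupport h.2.1.mul_right

theorem d0_ibp {φ ψ : ℂ × ℂ → ℂ} (h : Test φ) (h' : Test ψ) (v : ℂ × ℂ) :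
    ∫ z, φ z * fderiv ℝ ψ z v = - ∫ z, fderiv ℝ φ z v * ψ z :=
  integral_mul_fderiv_eq_neg_fderiv_mul_of_integrable ((h.d0dir v).d0int_mul h') (h.d0int_mul (h'.d0dir v))
    (h.d0int_mul h') (fun x _ => h.d0diff x) (fun x _ => h'.d0diff x)

theorem d0_ibp1 {φ ψ : ℂ × ℂ → ℂ} (h : Test φ) (h' : Test ψ) :
    ∫ z, φ z * dbar1 ψ z = - ∫ z, dbar1 φ z * ψ z := by
  have i1 := h.d0int_mul (h'.d0dir ((1 : ℂ), (0 : ℂ)))
  have i2 := h.d0int_mul (h'.d0dir (Complex.I, (0 : ℂ)))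
  have j1 := (h.d0dir ((1 : ℂ), (0 : ℂ))).d0int_mul h'
  have j2 := (h.d0dir (Complex.I, (0 : ℂ))).d0int_mul h'
  have e1 : (fun z => φ z * dbar1 ψ z) = fun z => (1 / 2) * (φ z * fderiv ℝ ψ z ((1 : ℂ), (0 : ℂ))) +
      (Complex.I / 2) * (φ z * fderiv ℝ ψ z (Complex.I, (0 : ℂ))) := by
    funext z
    unfold dbar1
    ring
  have e2 : (fun z => dbar1 φ z * ψ z) = fun z => (1 / 2) * (fderiv ℝ φ z ((1 : ℂ), (0 : ℂ)) * ψ z) +
      (Complex.I / 2) * (fderiv ℝ φ z (Complex.I, (0 : ℂ)) * ψ z) := by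
    funext z
    unfold dbar1
    ring
  rw [e1, e2, integral_add (i1.const_mul _) (i2.const_mul _), integral_add (j1.const_mul _)
    (j2.const_mul _), integral_const_mul, integral_const_mul, integral_const_mul, integral_const_mul,
    d0_ibp h h', d0_ibp h h']
  ring

theorem d0_ibp2 {φ ψ : ℂ × ℂ → ℂ} (h : Test φ) (h' : Test ψ) :
    ∫ z, φ z * dbar2 ψ z = - ∫ z, dbar2 φ z * ψ z := by
  have i1 := h.d0int_mul (h'.d0dir ((0 : ℂ), (1 : ℂ)))
  have i2 := h.d0int_mul (h'.d0dir ((0 : ℂ), Complex.I))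
  have j1 := (h.d0dir ((0 : ℂ), (1 : ℂ))).d0int_mul h'
  have j2 := (h.d0dir ((0 : ℂ), Complex.I)).d0int_mul h'
  have e1 : (fun z => φ z * dbar2 ψ z) = fun z => (1 / 2) * (φ z * fderiv ℝ ψ z ((0 : ℂ), (1 : ℂ))) +
      (Complex.I / 2) * (φ z * fderiv ℝ ψ z ((0 : ℂ), Complex.I)) := by
    funext z
    unfold dbar2
    ring
  have e2 : (fun z => dbar2 φ z * ψ z) = fun z => (1 / 2) * (fderiv ℝ φ z ((0 : ℂ), (1 : ℂ)) * ψ z) +
      (Complex.I / 2) * (fderiv ℝ φ z ((0 : ℂ), Complex.I) * ψ z) := by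
    funext z
    unfold dbar2
    ring
  rw [e1, e2, integral_add (i1.const_mul _) (i2.const_mul _), integral_add (j1.const_mul _)
    (j2.const_mul _), integral_const_mul, integral_const_mul, integral_const_mul, integral_const_mul,
    d0_ibp h h', d0_ibp h h']
  ring

/-- the class of a test function -/
noncomputable def d0cls {φ : ℂ × ℂ → ℂ} (h : Test φ) : L2 := h.d0memLp.toLp φ

theorem d0_cls_ae {φ : ℂ × ℂ → ℂ} (h : Test φ) : d0cls h =ᵐ[μT] φ := h.d0memLp.coeFn_toLp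

theorem d0_int_cls {φ ψ : ℂ × ℂ → ℂ} (h : Test φ) : ∫ z, d0cls h z * ψ z ∂μT = ∫ z, φ z * ψ z := by
  have h1 : ∫ z, d0cls h z * ψ z ∂μT = ∫ z, φ z * ψ z ∂μT := by
    apply integral_congr_ae
    filter_upwards [d0_cls_ae h] with z hz
    rw [hz]
  rw [h1, d0_integral_T]
  intro z hz
  apply h.d0supp
  intro h0
  apply hz
  show φ z * ψ z = 0
  rw [h0, zero_mul]

theorem d0_dbarFun_cls {φ : ℂ × ℂ → ℂ} (h : Test φ) :
    DbarFun (d0cls h) (WithLp.toLp 2 (d0cls h.d0dbar1, d0cls h.d0dbar2)) := by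
  constructor
  · intro ψ h'
    show ∫ z, d0cls h z * dbar1 ψ z ∂μT = -∫ z, d0cls h.d0dbar1 z * ψ z ∂μT
    rw [d0_int_cls, d0_int_cls, d0_ibp1 h h']
  · intro ψ h'
    show ∫ z, d0cls h z * dbar2 ψ z ∂μT = -∫ z, d0cls h.d0dbar2 z * ψ z ∂μT
    rw [d0_int_cls, d0_int_cls, d0_ibp2 h h']

/-- the classes of test functions -/
noncomputable def d0KT : Submodule ℂ L2 where
  carrier := {u | ∃ φ, Test φ ∧ u =ᵐ[μT] φ}
  add_mem' := by
    rintro u v ⟨φ, h, hu⟩ ⟨ψ, h', hv⟩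
    refine ⟨_, h.d0add h', ?_⟩
    filter_upwards [Lp.coeFn_add u v, hu, hv] with z h1 h2 h3
    rw [h1, Pi.add_apply, h2, h3]
  zero_mem' := ⟨_, Test.d0zero, Lp.coeFn_zero _ _ _⟩
  smul_mem' := by
    rintro c u ⟨φ, h, hu⟩
    refine ⟨_, h.d0const_mul c, ?_⟩
    filter_upwards [Lp.coeFn_smul c u, hu] with z h1 h2
    rw [h1, Pi.smul_apply, h2, smul_eq_mul]

theorem d0_test_real {g : ℂ × ℂ → ℝ} (h1 : ContDiff ℝ ∞ g) (h2 : HasCompactSupport g)
    (h3 : tsupport g ⊆ T) : Test (fun z => (g z : ℂ)) := by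
  refine ⟨Complex.ofRealCLM.contDiff.comp h1, ?_, ?_⟩
  · exact h2.comp_left (g := fun x : ℝ => (x : ℂ)) Complex.ofReal_zero
  · refine subset_trans ?_ h3
    exact tsupport_comp_subset (g := fun x : ℝ => (x : ℂ)) Complex.ofReal_zero g

theorem d0_KT_dense : Dense (d0KT : Set L2) := by
  rw [Submodule.dense_iff_topologicalClosure_eq_top, Submodule.topologicalClosure_eq_top_iff,
    Submodule.eq_bot_iff]
  intro f hf
  rw [Submodule.mem_orthogonal] at hf
  have hloc : LocallyIntegrableOn f T volume := by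
    apply locallyIntegrableOn_of_locallyIntegrable_restrict
    have := (Lp.memLp f).locallyIntegrable (by norm_num : (1 : ENNReal) ≤ 2)
    exact this
  have key : ∀ᵐ x, x ∈ T → f x = 0 := by
    apply d0_isOpen_T.ae_eq_zero_of_integral_contDiff_smul_eq_zero hloc
    intro g h1 h2 h3
    have ht := d0_test_real h1 h2 h3
    have h4 := hf (d0cls ht) ⟨_, ht, d0_cls_ae ht⟩
    rw [L2.inner_def] at h4
    have h5 : ∫ z, inner ℂ (d0cls ht z) (f z) ∂μT = ∫ z, g z • f z ∂μT := by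
      apply integral_congr_ae
      filter_upwards [d0_cls_ae ht] with z hz
      rw [hz, RCLike.inner_apply, Complex.conj_ofReal, Complex.real_smul, mul_comm]
    rw [h5, d0_integral_T] at h4
    · exact h4
    · intro z hz
      apply ht.d0supp
      intro h0
      apply hz
      show g z • f z = 0
      have h6 : ((g z : ℝ) : ℂ) = 0 := h0
      have : g z = 0 := by exact_mod_cast h6
      rw [this, zero_smul]
  rw [Lp.eq_zero_iff_ae_eq_zero]
  exact (ae_restrict_iff' d0_isOpen_T.measurableSet).2 key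

theorem taskDense0 : TaskDense0 := by
  refine d0_KT_dense.mono ?_
  rintro u ⟨φ, h, hu⟩
  have : u = d0cls h := by
    apply Lp.ext
    exact hu.trans (d0_cls_ae h).symm
  rw [this]
  exact ⟨_, d0_dbarFun_cls h⟩

end Pool.Agent.H903HT
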