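import Pool.Agent.H903HT.Stmts

/-!
Task ModeInv0 of the project H903-HT: modes are invariant under the resolvent of `∂̄* ∂̄`.
-/

set_option autoImplicit false

open MeasureTheory Filter Topology Set
open scoped ContDiff

namespace Pool.Agent.H903HT.MI0

open Pool.Agent.H903HT

theorem fin_compacts : IsFiniteMeasureOnCompacts μT := by
  unfold μT
  infer_instance

attribute [local instance] fin_compacts

/-- test functions are square integrable -/
theorem test_memLp {φ : ℂ × ℂ → ℂ} (h : Test φ) : MemLp φ 2 μT :=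
  h.1.continuous.memLp_of_hasCompactSupport h.2.1

theorem fderiv_memLp {φ : ℂ × ℂ → ℂ} (h : Test φ) (e : ℂ × ℂ) :
    MemLp (fun z => fderiv ℝ φ z e) 2 μT := by
  have h1 : Continuous (fderiv ℝ φ) := h.1.continuous_fderiv (by simp)
  have h2 : Continuous (fun z => fderiv ℝ φ z e) := h1.clm_apply continuous_const
  have h3 : HasCompactSupport (fun z => fderiv ℝ φ z e) := h.2.1.fderiv_apply ℝ e
  exact h2.memLp_of_hasCompactSupport h3

theorem dbar1_memLp {φ : ℂ × ℂ → ℂ} (h : Test φ) : MemLp (dbar1 φ) 2 μT := by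
  have h1 := fderiv_memLp h ((1 : ℂ), (0 : ℂ))
  have h2 := (fderiv_memLp h (Complex.I, (0 : ℂ))).const_mul Complex.I
  have h3 := (h1.add h2).const_mul ((2 : ℂ)⁻¹)
  have e : dbar1 φ = fun z => (2 : ℂ)⁻¹ * ((fun z => fderiv ℝ φ z ((1 : ℂ), (0 : ℂ))) +
      fun z => Complex.I * fderiv ℝ φ z (Complex.I, (0 : ℂ))) z := by
    funext z
    simp only [dbar1, Pi.add_apply]
    ring
  rw [e]
  exact h3

theorem dbar2_memLp {φ : ℂ × ℂ → ℂ} (h : Test φ) : MemLp (dbar2 φ) 2 μT := by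
  have h1 := fderiv_memLp h ((0 : ℂ), (1 : ℂ))
  have h2 := (fderiv_memLp h ((0 : ℂ), Complex.I)).const_mul Complex.I
  have h3 := (h1.add h2).const_mul ((2 : ℂ)⁻¹)
  have e : dbar2 φ = fun z => (2 : ℂ)⁻¹ * ((fun z => fderiv ℝ φ z ((0 : ℂ), (1 : ℂ))) +
      fun z => Complex.I * fderiv ℝ φ z ((0 : ℂ), Complex.I)) z := by
    funext z
    simp only [dbar2, Pi.add_apply]
    ring
  rw [e]
  exact h3

/-- the pairing is linear -/
theorem pair_sub (u u' : L2) {ψ : ℂ × ℂ → ℂ} (hψ : MemLp ψ 2 μT) :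
    ∫ z, (u - u') z * ψ z ∂μT = ∫ z, u z * ψ z ∂μT - ∫ z, u' z * ψ z ∂μT := by
  have i1 : Integrable (fun z => u z * ψ z) μT := (Lp.memLp u).integrable_mul hψ
  have i2 : Integrable (fun z => u' z * ψ z) μT := (Lp.memLp u').integrable_mul hψ
  rw [← integral_sub i1 i2]
  apply integral_congr_ae
  filter_upwards [Lp.coeFn_sub u u'] with z hz
  rw [hz, Pi.sub_apply]
  ring

theorem pair_smul (c : ℂ) (u : L2) (ψ : ℂ × ℂ → ℂ) :
    ∫ z, (c • u) z * ψ z ∂μT = c * ∫ z, u z * ψ z ∂μT := by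
  rw [← integral_const_mul]
  apply integral_congr_ae
  filter_upwards [Lp.coeFn_smul c u] with z hz
  rw [hz, Pi.smul_apply, smul_eq_mul]
  ring

theorem dbar_sub {u u' : L2} {F F' : L21} (h : DbarFun u F) (h' : DbarFun u' F') :
    DbarFun (u - u') (F - F') := by
  constructor
  · intro φ hφ
    rw [WithLp.sub_fst, pair_sub u u' (dbar1_memLp hφ), pair_sub F.fst F'.fst (test_memLp hφ),
      h.1 φ hφ, h'.1 φ hφ]
    ring
  · intro φ hφ
    rw [WithLp.sub_snd, pair_sub u u' (dbar2_memLp hφ), pair_sub F.snd F'.snd (test_memLp hφ),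
      h.2 φ hφ, h'.2 φ hφ]
    ring

theorem dbar_smul (c : ℂ) {u : L2} {F : L21} (h : DbarFun u F) : DbarFun (c • u) (c • F) := by
  constructor
  · intro φ hφ
    rw [WithLp.smul_fst, pair_smul, pair_smul, h.1 φ hφ]
    ring
  · intro φ hφ
    rw [WithLp.smul_snd, pair_smul, pair_smul, h.2 φ hφ]
    ring

/-- the rotation operator -/
noncomputable def U (hR : TaskRot) (a b : Circle) : L2 →ₗᵢ[ℂ] L2 :=
  Lp.compMeasurePreservingₗᵢ ℂ (fun z : ℂ × ℂ => ((a : ℂ) * z.1, (b : ℂ) * z.2)) (hR a b)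

theorem U_ae (hR : TaskRot) (a b : Circle) (u : L2) :
    U hR a b u =ᵐ[μT] fun z => u ((a : ℂ) * z.1, (b : ℂ) * z.2) :=
  Lp.coeFn_compMeasurePreserving u (hR a b)

theorem U_inv (hR : TaskRot) (a b : Circle) (u : L2) : U hR a b (U hR a⁻¹ b⁻¹ u) = u := by
  apply Lp.ext
  have h1 := U_ae hR a b (U hR a⁻¹ b⁻¹ u)
  have h2 := U_ae hR a⁻¹ b⁻¹ u
  have h3 := (hR a b).quasiMeasurePreserving.ae h2
  filter_upwards [h1, h3] with z hz1 hz3
  rw [hz1, hz3]
  simp

theorem inner_U (hR : TaskRot) (a b : Circle) (x y : L2) :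
    inner ℂ x (U hR a b y) = inner ℂ (U hR a⁻¹ b⁻¹ x) y := by
  rw [← (U hR a b).inner_map_map (U hR a⁻¹ b⁻¹ x) y, U_inv]

theorem circle_conj_mul (a : Circle) : (starRingEnd ℂ) (a : ℂ) * (a : ℂ) = 1 := by
  rw [mul_comm, Complex.mul_conj, Circle.normSq_coe]
  simp

theorem main (hR : TaskRot) (hF : TaskRotFun) (m n : ℤ) (u : L2) (F : L21) (v : L2)
    (h1 : DbarFun u F) (h2 : DbarFunAdj F v) (h3 : Mode m n (u + v)) : Mode m n u := by
  intro a b
  set c : ℂ := ((a : ℂ) ^ m * (b : ℂ) ^ n)⁻¹ with hc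
  have hc0 : (a : ℂ) ^ m * (b : ℂ) ^ n ≠ 0 :=
    mul_ne_zero (zpow_ne_zero _ a.coe_ne_zero) (zpow_ne_zero _ b.coe_ne_zero)
  set F1 : L21 := WithLp.toLp 2 ((starRingEnd ℂ) (a : ℂ) • U hR a b F.fst,
    (starRingEnd ℂ) (b : ℂ) • U hR a b F.snd) with hF1
  have g1 : DbarFun (U hR a b u) F1 := by
    apply hF hR a b u _ F _ h1 (U_ae hR a b u)
    · have e := Lp.coeFn_smul ((starRingEnd ℂ) (a : ℂ)) (U hR a b F.fst)
      filter_upwards [e, U_ae hR a b F.fst] with z hz1 hz2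
      show ((starRingEnd ℂ) (a : ℂ) • U hR a b F.fst : L2) z = _
      rw [hz1, Pi.smul_apply, hz2, smul_eq_mul]
    · have e := Lp.coeFn_smul ((starRingEnd ℂ) (b : ℂ)) (U hR a b F.snd)
      filter_upwards [e, U_ae hR a b F.snd] with z hz1 hz2
      show ((starRingEnd ℂ) (b : ℂ) • U hR a b F.snd : L2) z = _
      rw [hz1, Pi.smul_apply, hz2, smul_eq_mul]
  have g2 : DbarFunAdj F1 (U hR a b v) := by
    intro w W hw
    set W1 : L21 := WithLp.toLp 2 ((a : ℂ) • U hR a⁻¹ b⁻¹ W.fst, (b : ℂ) • U hR a⁻¹ b⁻¹ W.snd)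
      with hW1
    have k1 : DbarFun (U hR a⁻¹ b⁻¹ w) W1 := by
      apply hF hR a⁻¹ b⁻¹ w _ W _ hw (U_ae hR a⁻¹ b⁻¹ w)
      · have e := Lp.coeFn_smul (a : ℂ) (U hR a⁻¹ b⁻¹ W.fst)
        filter_upwards [e, U_ae hR a⁻¹ b⁻¹ W.fst] with z hz1 hz2
        show ((a : ℂ) • U hR a⁻¹ b⁻¹ W.fst : L2) z = _
        rw [hz1, Pi.smul_apply, hz2, smul_eq_mul, ← Circle.coe_inv_eq_conj, inv_inv]
      · have e := Lp.coeFn_smul (b : ℂ) (U hR a⁻¹ b⁻¹ W.snd)
        filter_upwards [e, U_ae hR a⁻¹ b⁻¹ W.snd] with z hz1 hz2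
        show ((b : ℂ) • U hR a⁻¹ b⁻¹ W.snd : L2) z = _
        rw [hz1, Pi.smul_apply, hz2, smul_eq_mul, ← Circle.coe_inv_eq_conj, inv_inv]
    have k2 := h2 _ _ k1
    rw [inner_U]
    rw [← k2, WithLp.prod_inner_apply, WithLp.prod_inner_apply]
    show inner ℂ W.fst ((starRingEnd ℂ) (a : ℂ) • U hR a b F.fst) +
      inner ℂ W.snd ((starRingEnd ℂ) (b : ℂ) • U hR a b F.snd) =
      inner ℂ ((a : ℂ) • U hR a⁻¹ b⁻¹ W.fst) F.fst + inner ℂ ((b : ℂ) • U hR a⁻¹ b⁻¹ W.snd) F.snd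
    rw [inner_smul_right, inner_smul_right, inner_smul_left, inner_smul_left, inner_U, inner_U]
  have g3 : c • U hR a b (u + v) = u + v := by
    have e := h3 a b
    apply Lp.ext
    filter_upwards [e, U_ae hR a b (u + v), Lp.coeFn_smul c (U hR a b (u + v))] with z hz1 hz2 hz3
    rw [hz3, Pi.smul_apply, hz2, hz1, smul_eq_mul, ← mul_assoc, hc, inv_mul_cancel₀ hc0, one_mul]
  -- differences
  have d1 : DbarFun (u - c • U hR a b u) (F - c • F1) := dbar_sub h1 (dbar_smul c g1)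
  have d2 : DbarFunAdj (F - c • F1) (v - c • U hR a b v) := by
    intro w W hw
    rw [inner_sub_right, inner_sub_right, inner_smul_right, inner_smul_right, h2 w W hw, g2 w W hw]
  have d3 : v - c • U hR a b v = -(u - c • U hR a b u) := by
    rw [map_add, smul_add] at g3
    have : (u - c • U hR a b u) + (v - c • U hR a b v) = 0 := by
      have e : (u - c • U hR a b u) + (v - c • U hR a b v) =
        (u + v) - (c • U hR a b u + c • U hR a b v) := by abel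
      rw [e, g3, sub_self]
    exact eq_neg_of_add_eq_zero_right this
  have d4 := d2 _ _ d1
  rw [d3, inner_neg_right, inner_self_eq_norm_sq_to_K, inner_self_eq_norm_sq_to_K] at d4
  have d5 : ‖F - c • F1‖ ^ 2 = -‖u - c • U hR a b u‖ ^ 2 := by exact_mod_cast d4
  have d6 : ‖u - c • U hR a b u‖ = 0 := by
    have := sq_nonneg ‖F - c • F1‖
    nlinarith [norm_nonneg (u - c • U hR a b u)]
  have d7 : u = c • U hR a b u := sub_eq_zero.1 (norm_eq_zero.1 d6)
  have d8 : U hR a b u = ((a : ℂ) ^ m * (b : ℂ) ^ n) • u := by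
    conv_rhs => rw [d7]
    rw [smul_smul, hc, mul_inv_cancel₀ hc0, one_smul]
  have d9 := U_ae hR a b u
  rw [d8] at d9
  filter_upwards [d9, Lp.coeFn_smul ((a : ℂ) ^ m * (b : ℂ) ^ n) u] with z hz1 hz2
  rw [← hz1, hz2, Pi.smul_apply, smul_eq_mul]

end Pool.Agent.H903HT.MI0

namespace Pool.Agent.H903HT

theorem taskModeInv0 : TaskModeInv0 := by
  intro hR hF m n u F v h1 h2 h3
  exact MI0.main hR hF m n u F v h1 h2 h3

end Pool.Agent.H903HT
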