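import Pool.Agent.H903HT.Stmts

/-!
Task RotForm of project H903-HT: rotated forms.
-/

set_option autoImplicit false

open MeasureTheory Filter Topology Set
open scoped ContDiff

namespace Pool.Agent.H903HT.RotFormAux

/-- multiplication by a unimodular number as a real linear equivalence -/
noncomputable def mulE (a : Circle) : ℂ ≃L[ℝ] ℂ :=
  (ContinuousLinearEquiv.unitsEquivAut ℂ (Units.mk0 (a : ℂ) (by simp))).restrictScalars ℝ

theorem mulE_apply (a : Circle) (z : ℂ) : mulE a z = a * z := by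
  simp [mulE, mul_comm]

/-- the rotation `(z₁, z₂) ↦ (a z₁, b z₂)` -/
noncomputable def rotE (a b : Circle) : (ℂ × ℂ) ≃L[ℝ] (ℂ × ℂ) := (mulE a).prodCongr (mulE b)

theorem rotE_apply (a b : Circle) (z : ℂ × ℂ) : rotE a b z = ((a : ℂ) * z.1, (b : ℂ) * z.2) := by
  simp [rotE, mulE_apply]

theorem rot_eq (a b : Circle) :
    (fun z : ℂ × ℂ => ((a : ℂ) * z.1, (b : ℂ) * z.2)) = rotE a b := by
  funext z
  rw [rotE_apply]

theorem lin1 (D : ℂ × ℂ →L[ℝ] ℂ) (a : ℂ) :
    D (a, 0) + Complex.I * D (Complex.I * a, 0) =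
      (starRingEnd ℂ) a * (D ((1 : ℂ), (0 : ℂ)) + Complex.I * D (Complex.I, (0 : ℂ))) := by
  have e1 : ((a, 0) : ℂ × ℂ) = a.re • ((1 : ℂ), (0 : ℂ)) + a.im • (Complex.I, (0 : ℂ)) := by
    ext <;> simp
  have e2 : ((Complex.I * a, 0) : ℂ × ℂ) =
      (-a.im) • ((1 : ℂ), (0 : ℂ)) + a.re • (Complex.I, (0 : ℂ)) := by
    refine Prod.ext ?_ (by simp)
    apply Complex.ext <;> simp
  rw [e1, e2, map_add, map_add, map_smul, map_smul, map_smul, map_smul]
  have h3 : (starRingEnd ℂ) a = (a.re : ℂ) - a.im * Complex.I := by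
    apply Complex.ext <;> simp
  rw [h3]
  simp only [Complex.real_smul]
  push_cast
  linear_combination ((a.im : ℂ) * D (Complex.I, (0 : ℂ))) * Complex.I_sq

theorem lin2 (D : ℂ × ℂ →L[ℝ] ℂ) (a : ℂ) :
    D (0, a) + Complex.I * D (0, Complex.I * a) =
      (starRingEnd ℂ) a * (D ((0 : ℂ), (1 : ℂ)) + Complex.I * D ((0 : ℂ), Complex.I)) := by
  have e1 : ((0, a) : ℂ × ℂ) = a.re • ((0 : ℂ), (1 : ℂ)) + a.im • ((0 : ℂ), Complex.I) := by
    ext <;> simp
  have e2 : ((0, Complex.I * a) : ℂ × ℂ) =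
      (-a.im) • ((0 : ℂ), (1 : ℂ)) + a.re • ((0 : ℂ), Complex.I) := by
    refine Prod.ext (by simp) ?_
    apply Complex.ext <;> simp
  rw [e1, e2, map_add, map_add, map_smul, map_smul, map_smul, map_smul]
  have h3 : (starRingEnd ℂ) a = (a.re : ℂ) - a.im * Complex.I := by
    apply Complex.ext <;> simp
  rw [h3]
  simp only [Complex.real_smul]
  push_cast
  linear_combination ((a.im : ℂ) * D ((0 : ℂ), Complex.I)) * Complex.I_sq

theorem dbar1_comp (a b : Circle) (ψ : ℂ × ℂ → ℂ) (z : ℂ × ℂ) :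
    dbar1 (fun z => ψ (rotE a b z)) z = (starRingEnd ℂ) (a : ℂ) * dbar1 ψ (rotE a b z) := by
  have h : fderiv ℝ (fun z => ψ (rotE a b z)) z =
      (fderiv ℝ ψ (rotE a b z)).comp (rotE a b : (ℂ × ℂ) →L[ℝ] (ℂ × ℂ)) :=
    (rotE a b).comp_right_fderiv
  unfold dbar1
  rw [h]
  simp only [ContinuousLinearMap.comp_apply, ContinuousLinearEquiv.coe_coe, rotE_apply]
  have h1 := lin1 (fderiv ℝ ψ ((a : ℂ) * z.1, (b : ℂ) * z.2)) a
  simp only [mul_one, mul_zero]
  rw [mul_comm (a : ℂ) Complex.I, h1]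
  ring

theorem dbar2_comp (a b : Circle) (ψ : ℂ × ℂ → ℂ) (z : ℂ × ℂ) :
    dbar2 (fun z => ψ (rotE a b z)) z = (starRingEnd ℂ) (b : ℂ) * dbar2 ψ (rotE a b z) := by
  have h : fderiv ℝ (fun z => ψ (rotE a b z)) z =
      (fderiv ℝ ψ (rotE a b z)).comp (rotE a b : (ℂ × ℂ) →L[ℝ] (ℂ × ℂ)) :=
    (rotE a b).comp_right_fderiv
  unfold dbar2
  rw [h]
  simp only [ContinuousLinearMap.comp_apply, ContinuousLinearEquiv.coe_coe, rotE_apply]
  have h1 := lin2 (fderiv ℝ ψ ((a : ℂ) * z.1, (b : ℂ) * z.2)) b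
  simp only [mul_one, mul_zero]
  rw [mul_comm (b : ℂ) Complex.I, h1]
  ring

theorem mem_T_rot (a b : Circle) (z : ℂ × ℂ) : rotE a b z ∈ T ↔ z ∈ T := by
  simp only [T, rotE_apply, mem_ofPred_eq, norm_mul, Circle.norm_coe, one_mul]

theorem test_symm (a b : Circle) (φ : ℂ × ℂ → ℂ) (hφ : Test φ) :
    Test (fun z => φ ((rotE a b).symm z)) := by
  obtain ⟨h1, h2, h3⟩ := hφ
  refine ⟨h1.comp (rotE a b).symm.contDiff, ?_, ?_⟩
  · exact h2.comp_homeomorph (rotE a b).symm.toHomeomorph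
  · have h4 : tsupport (fun z => φ ((rotE a b).symm z)) =
        (rotE a b).symm ⁻¹' (tsupport φ) :=
      tsupport_comp_eq_preimage φ (rotE a b).symm.toHomeomorph
    rw [h4]
    intro z hz
    have := h3 hz
    rw [← mem_T_rot a b] at this
    simpa using this

end Pool.Agent.H903HT.RotFormAux

namespace Pool.Agent.H903HT
open RotFormAux

theorem taskRotForm : TaskRotForm := by
  intro hrot a b g g' F F' hF h1 h2 h3 φ hφ
  have hmp : MeasurePreserving (rotE a b) μT μT := by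
    have := hrot a b
    rwa [rot_eq] at this
  have hemb : MeasurableEmbedding (rotE a b) :=
    (rotE a b).toHomeomorph.measurableEmbedding
  set ψ : ℂ × ℂ → ℂ := fun z => φ ((rotE a b).symm z) with hψ
  have hφψ : φ = fun z => ψ (rotE a b z) := by
    funext z
    simp [hψ]
  have hψT : Test ψ := test_symm a b φ hφ
  have key := hF ψ hψT
  have d1 : ∀ z, dbar1 φ z = (starRingEnd ℂ) (a : ℂ) * dbar1 ψ (rotE a b z) := by
    intro z
    rw [hφψ]
    exact dbar1_comp a b ψ z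
  have d2 : ∀ z, dbar2 φ z = (starRingEnd ℂ) (b : ℂ) * dbar2 ψ (rotE a b z) := by
    intro z
    rw [hφψ]
    exact dbar2_comp a b ψ z
  have hL : ∫ z, (F'.snd z * dbar1 φ z - F'.fst z * dbar2 φ z) ∂μT =
      ∫ z, (starRingEnd ℂ) (a : ℂ) * (starRingEnd ℂ) (b : ℂ) *
        ((fun w => F.snd w * dbar1 ψ w - F.fst w * dbar2 ψ w) (rotE a b z)) ∂μT := by
    apply integral_congr_ae
    filter_upwards [h1, h2] with z hz1 hz2
    rw [hz1, hz2, d1, d2]
    simp only [rotE_apply]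
    ring
  have hR : ∫ z, g' z * φ z ∂μT =
      ∫ z, (starRingEnd ℂ) (a : ℂ) * (starRingEnd ℂ) (b : ℂ) *
        ((fun w => g w * ψ w) (rotE a b z)) ∂μT := by
    apply integral_congr_ae
    filter_upwards [h3] with z hz
    rw [hz, hφψ]
    simp only [rotE_apply]
    ring
  rw [hL, hR, integral_const_mul, integral_const_mul,
    hmp.integral_comp hemb (fun w => F.snd w * dbar1 ψ w - F.fst w * dbar2 ψ w),
    hmp.integral_comp hemb (fun w => g w * ψ w), key]
  ring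

end Pool.Agent.H903HT
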