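import Pool.Agent.H903HT.Stmts

set_option autoImplicit false

open MeasureTheory Filter Topology Set
open scoped ContDiff

namespace Pool.Agent.H903HT

namespace RotFunAux

/-- the rotation as a real linear map -/
noncomputable def LL (a b : ℂ) : ℂ × ℂ →L[ℝ] ℂ × ℂ :=
  ((ContinuousLinearMap.mul ℝ ℂ a).comp (ContinuousLinearMap.fst ℝ ℂ ℂ)).prod
    ((ContinuousLinearMap.mul ℝ ℂ b).comp (ContinuousLinearMap.snd ℝ ℂ ℂ))

theorem LL_apply (a b : ℂ) (z : ℂ × ℂ) : LL a b z = (a * z.1, b * z.2) := rfl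

/-- the rotation as a homeomorphism -/
noncomputable def hom (a b : Circle) : (ℂ × ℂ) ≃ₜ (ℂ × ℂ) where
  toFun z := ((a : ℂ) * z.1, (b : ℂ) * z.2)
  invFun z := (((a⁻¹ : Circle) : ℂ) * z.1, ((b⁻¹ : Circle) : ℂ) * z.2)
  left_inv z := by
    have h1 : ((a⁻¹ : Circle) : ℂ) * (a : ℂ) = 1 := by rw [← Circle.coe_mul]; simp
    have h2 : ((b⁻¹ : Circle) : ℂ) * (b : ℂ) = 1 := by rw [← Circle.coe_mul]; simp
    apply Prod.ext
    · show ((a⁻¹ : Circle) : ℂ) * ((a : ℂ) * z.1) = z.1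
      rw [← mul_assoc, h1, one_mul]
    · show ((b⁻¹ : Circle) : ℂ) * ((b : ℂ) * z.2) = z.2
      rw [← mul_assoc, h2, one_mul]
  right_inv z := by
    have h1 : (a : ℂ) * ((a⁻¹ : Circle) : ℂ) = 1 := by rw [← Circle.coe_mul]; simp
    have h2 : (b : ℂ) * ((b⁻¹ : Circle) : ℂ) = 1 := by rw [← Circle.coe_mul]; simp
    apply Prod.ext
    · show (a : ℂ) * (((a⁻¹ : Circle) : ℂ) * z.1) = z.1
      rw [← mul_assoc, h1, one_mul]
    · show (b : ℂ) * (((b⁻¹ : Circle) : ℂ) * z.2) = z.2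
      rw [← mul_assoc, h2, one_mul]
  continuous_toFun := by fun_prop
  continuous_invFun := by fun_prop

theorem hom_apply (a b : Circle) (z : ℂ × ℂ) : hom a b z = ((a : ℂ) * z.1, (b : ℂ) * z.2) := rfl

theorem mem_T_hom (a b : Circle) (z : ℂ × ℂ) : hom a b z ∈ T ↔ z ∈ T := by
  rw [hom_apply]
  unfold T
  simp

theorem test_comp (a b : Circle) (φ : ℂ × ℂ → ℂ) (h : Test φ) :
    Test (fun z => φ (hom a b z)) := by
  obtain ⟨h1, h2, h3⟩ := h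
  refine ⟨?_, ?_, ?_⟩
  · have : ContDiff ℝ ∞ (fun z : ℂ × ℂ => LL (a : ℂ) (b : ℂ) z) := (LL (a : ℂ) (b : ℂ)).contDiff
    exact h1.comp this
  · exact h2.comp_homeomorph (hom a b)
  · have hs : tsupport (fun z => φ (hom a b z)) = (hom a b) ⁻¹' tsupport φ := by
      unfold tsupport
      rw [(hom a b).preimage_closure]
      rfl
    rw [hs]
    intro z hz
    exact (mem_T_hom a b z).1 (h3 hz)

theorem fder (φ : ℂ × ℂ → ℂ) (h : ContDiff ℝ ∞ φ) (a b : ℂ) (w v : ℂ × ℂ) :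
    fderiv ℝ (fun z : ℂ × ℂ => φ (a * z.1, b * z.2)) w v =
      fderiv ℝ φ (a * w.1, b * w.2) (a * v.1, b * v.2) := by
  have h1 : DifferentiableAt ℝ φ (LL a b w) := (h.differentiable (by simp)).differentiableAt
  have h2 : HasFDerivAt (fun z : ℂ × ℂ => φ (LL a b z)) ((fderiv ℝ φ (LL a b w)).comp (LL a b)) w :=
    h1.hasFDerivAt.comp w (LL a b).hasFDerivAt
  have h3 : (fun z : ℂ × ℂ => φ (a * z.1, b * z.2)) = fun z : ℂ × ℂ => φ (LL a b z) := rfl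
  rw [h3, h2.fderiv]
  rfl

theorem dec1 (D : ℂ × ℂ →L[ℝ] ℂ) (c : ℂ) :
    D (c, 0) = (c.re : ℂ) * D (1, 0) + (c.im : ℂ) * D (Complex.I, 0) := by
  have : (c, (0 : ℂ)) = c.re • ((1 : ℂ), (0 : ℂ)) + c.im • (Complex.I, (0 : ℂ)) := by
    apply Prod.ext
    · simp
    · simp
  rw [this, map_add, map_smul, map_smul]
  simp

theorem dec2 (D : ℂ × ℂ →L[ℝ] ℂ) (c : ℂ) :
    D (0, c) = (c.re : ℂ) * D (0, 1) + (c.im : ℂ) * D (0, Complex.I) := by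
  have : ((0 : ℂ), c) = c.re • ((0 : ℂ), (1 : ℂ)) + c.im • ((0 : ℂ), Complex.I) := by
    apply Prod.ext
    · simp
    · simp
  rw [this, map_add, map_smul, map_smul]
  simp

theorem conj_dec (c : ℂ) : (starRingEnd ℂ) c = (c.re : ℂ) - (c.im : ℂ) * Complex.I := by
  apply Complex.ext <;> simp

theorem dbar1_comp (φ : ℂ × ℂ → ℂ) (h : ContDiff ℝ ∞ φ) (a b : ℂ) (w : ℂ × ℂ) :
    dbar1 (fun z : ℂ × ℂ => φ (a * z.1, b * z.2)) w =
      (starRingEnd ℂ) a * dbar1 φ (a * w.1, b * w.2) := by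
  unfold dbar1
  rw [fder φ h, fder φ h]
  simp only [mul_one, mul_zero]
  rw [dec1 _ a, dec1 _ (a * Complex.I), conj_dec]
  have e1 : (a * Complex.I).re = - a.im := by simp
  have e2 : (a * Complex.I).im = a.re := by simp
  rw [e1, e2]
  push_cast
  linear_combination ((a.im : ℂ) / 2 * fderiv ℝ φ (a * w.1, b * w.2) (Complex.I, 0)) * Complex.I_mul_I

theorem dbar2_comp (φ : ℂ × ℂ → ℂ) (h : ContDiff ℝ ∞ φ) (a b : ℂ) (w : ℂ × ℂ) :
    dbar2 (fun z : ℂ × ℂ => φ (a * z.1, b * z.2)) w =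
      (starRingEnd ℂ) b * dbar2 φ (a * w.1, b * w.2) := by
  unfold dbar2
  rw [fder φ h, fder φ h]
  simp only [mul_one, mul_zero]
  rw [dec2 _ b, dec2 _ (b * Complex.I), conj_dec]
  have e1 : (b * Complex.I).re = - b.im := by simp
  have e2 : (b * Complex.I).im = b.re := by simp
  rw [e1, e2]
  push_cast
  linear_combination ((b.im : ℂ) / 2 * fderiv ℝ φ (a * w.1, b * w.2) (0, Complex.I)) * Complex.I_mul_I

/-- change of variables -/
theorem change (hR : TaskRot) (a b : Circle) (f : ℂ × ℂ → ℂ) :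
    ∫ z, f (hom a b z) ∂μT = ∫ z, f z ∂μT :=
  (hR a b).integral_comp (hom a b).measurableEmbedding f

theorem hom_inv (a b : Circle) (z : ℂ × ℂ) : hom a⁻¹ b⁻¹ (hom a b z) = z := (hom a b).left_inv z

/-- one component -/
theorem comp_eq (hR : TaskRot) (a b : Circle) (u u' f f' : ℂ × ℂ → ℂ) (c : ℂ)
    (db : (ℂ × ℂ → ℂ) → ℂ × ℂ → ℂ)
    (hu : u' =ᵐ[μT] fun z => u ((a : ℂ) * z.1, (b : ℂ) * z.2))
    (hf : f' =ᵐ[μT] fun z => c * f ((a : ℂ) * z.1, (b : ℂ) * z.2))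
    (hdb : ∀ φ, Test φ → ∀ z, db φ z =
      c * db (fun w => φ (hom a⁻¹ b⁻¹ w)) (hom a b z))
    (h : ∀ φ, Test φ → ∫ z, u z * db φ z ∂μT = -∫ z, f z * φ z ∂μT) :
    ∀ φ, Test φ → ∫ z, u' z * db φ z ∂μT = -∫ z, f' z * φ z ∂μT := by
  intro φ hφ
  have hψ : Test (fun w => φ (hom a⁻¹ b⁻¹ w)) := test_comp a⁻¹ b⁻¹ φ hφ
  have h1 : ∫ z, u' z * db φ z ∂μT =
      ∫ z, (fun w => u w * (c * db (fun w => φ (hom a⁻¹ b⁻¹ w)) w)) (hom a b z) ∂μT := by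
    refine integral_congr_ae ?_
    filter_upwards [hu] with z hz
    rw [hz, hdb φ hφ z]
    rfl
  have h2 : ∫ z, f' z * φ z ∂μT =
      ∫ z, (fun w => c * f w * φ (hom a⁻¹ b⁻¹ w)) (hom a b z) ∂μT := by
    refine integral_congr_ae ?_
    filter_upwards [hf] with z hz
    rw [hz]
    show c * f (hom a b z) * φ z = c * f (hom a b z) * φ (hom a⁻¹ b⁻¹ (hom a b z))
    rw [hom_inv]
  rw [h1, h2, change hR a b (fun w => u w * (c * db (fun w => φ (hom a⁻¹ b⁻¹ w)) w)),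
    change hR a b (fun w => c * f w * φ (hom a⁻¹ b⁻¹ w))]
  have h3 := h _ hψ
  have h4 : ∫ z, u z * (c * db (fun w => φ (hom a⁻¹ b⁻¹ w)) z) ∂μT =
      c * ∫ z, u z * db (fun w => φ (hom a⁻¹ b⁻¹ w)) z ∂μT := by
    rw [← integral_const_mul]
    congr 1
    funext z
    ring
  have h5 : ∫ z, c * f z * φ (hom a⁻¹ b⁻¹ z) ∂μT = c * ∫ z, f z * φ (hom a⁻¹ b⁻¹ z) ∂μT := by
    rw [← integral_const_mul]
    congr 1
    funext z
    ring
  rw [h4, h5, h3]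
  ring

end RotFunAux

open RotFunAux in
/-- `TaskRotFun` -/
theorem taskRotFun : TaskRotFun := by
  intro hR a b u u' F F' hF hu h1 h2
  have ha : (starRingEnd ℂ) (a : ℂ) * ((starRingEnd ℂ) ((a⁻¹ : Circle) : ℂ)) = 1 := by
    rw [Circle.coe_inv_eq_conj, Complex.conj_conj, mul_comm, ← Circle.coe_inv_eq_conj,
      ← Circle.coe_mul]
    simp
  have hb : (starRingEnd ℂ) (b : ℂ) * ((starRingEnd ℂ) ((b⁻¹ : Circle) : ℂ)) = 1 := by
    rw [Circle.coe_inv_eq_conj, Complex.conj_conj, mul_comm, ← Circle.coe_inv_eq_conj,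
      ← Circle.coe_mul]
    simp
  refine ⟨?_, ?_⟩
  · refine comp_eq hR a b _ _ _ _ _ dbar1 hu h1 ?_ hF.1
    intro φ hφ z
    have h3 := dbar1_comp φ hφ.1 ((a⁻¹ : Circle) : ℂ) ((b⁻¹ : Circle) : ℂ) (hom a b z)
    have h4 : dbar1 (fun w => φ (hom a⁻¹ b⁻¹ w)) (hom a b z) =
        (starRingEnd ℂ) ((a⁻¹ : Circle) : ℂ) * dbar1 φ (hom a⁻¹ b⁻¹ (hom a b z)) := h3
    rw [h4, hom_inv, ← mul_assoc, ha, one_mul]
  · refine comp_eq hR a b _ _ _ _ _ dbar2 hu h2 ?_ hF.2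
    intro φ hφ z
    have h3 := dbar2_comp φ hφ.1 ((a⁻¹ : Circle) : ℂ) ((b⁻¹ : Circle) : ℂ) (hom a b z)
    have h4 : dbar2 (fun w => φ (hom a⁻¹ b⁻¹ w)) (hom a b z) =
        (starRingEnd ℂ) ((b⁻¹ : Circle) : ℂ) * dbar2 φ (hom a⁻¹ b⁻¹ (hom a b z)) := h3
    rw [h4, hom_inv, ← mul_assoc, hb, one_mul]

end Pool.Agent.H903HT
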