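import Pool.Agent.H903HT.Stmts

set_option autoImplicit false

/-!
Rotations preserve the measure of the Hartogs triangle.
-/

open MeasureTheory Filter Topology Set

namespace Pool.Agent.H903HT

theorem isOpen_T_rot : IsOpen T := by
  unfold T
  exact (isOpen_lt (continuous_norm.comp continuous_fst) (continuous_norm.comp continuous_snd)).inter
    (isOpen_lt (continuous_norm.comp continuous_snd) continuous_const)

theorem taskRot : TaskRot := by
  intro a b
  have h1 : MeasurePreserving (rotation a : ℂ → ℂ) volume volume := (rotation a).measurePreserving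
  have h2 : MeasurePreserving (rotation b : ℂ → ℂ) volume volume := (rotation b).measurePreserving
  have h3 := h1.prod h2
  have h4 : (Prod.map (rotation a : ℂ → ℂ) (rotation b : ℂ → ℂ)) =
      fun z : ℂ × ℂ => ((a : ℂ) * z.1, (b : ℂ) * z.2) := by
    funext z
    simp [Prod.map, rotation_apply]
  rw [h4, ← Measure.volume_eq_prod] at h3
  have h5 := h3.restrict_preimage isOpen_T_rot.measurableSet
  have h6 : (fun z : ℂ × ℂ => ((a : ℂ) * z.1, (b : ℂ) * z.2)) ⁻¹' T = T := by
    ext z
    simp only [T, mem_preimage, mem_setOf_eq, norm_mul, Circle.norm_coe, one_mul]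
  rw [h6] at h5
  exact h5

end Pool.Agent.H903HT
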