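import Pool.Agent.H903HT.Stmts2
import Pool.Agent.H903HT.ModeInv0
import Pool.Agent.H903HT.Closed1
import Pool.Agent.H903HT.Dense0
import Pool.Agent.H903HT.RotFun
import Pool.Agent.H903HT.RotForm
import Pool.Agent.H903HT.TaskRot

/-!
Task S4 of the project H903-HT: the modes of `∂̄* f` and of `∂̄ f`.
-/

set_option autoImplicit false

open MeasureTheory Filter Topology Set
open scoped ContDiff

namespace Pool.Agent.H903HT.BM

open Pool.Agent.H903HT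

theorem mode_smul {m n : ℤ} {u : L2} (h : Mode m n u) (hR : TaskRot) (a b : Circle) :
    MI0.U hR a b u = ((a : ℂ) ^ m * (b : ℂ) ^ n) • u := by
  apply Lp.ext
  filter_upwards [h a b, MI0.U_ae hR a b u, Lp.coeFn_smul ((a : ℂ) ^ m * (b : ℂ) ^ n) u]
    with z h1 h2 h3
  rw [h2, h1, h3, Pi.smul_apply, smul_eq_mul]

theorem smul_mode {m n : ℤ} {u : L2} (hR : TaskRot)
    (h : ∀ a b : Circle, MI0.U hR a b u = ((a : ℂ) ^ m * (b : ℂ) ^ n) • u) : Mode m n u := by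
  intro a b
  have h2 := MI0.U_ae hR a b u
  rw [h a b] at h2
  filter_upwards [h2, Lp.coeFn_smul ((a : ℂ) ^ m * (b : ℂ) ^ n) u] with z h3 h4
  rw [← h3, h4, Pi.smul_apply, smul_eq_mul]

/-- the rotated form -/
noncomputable def R1 (hR : TaskRot) (a b : Circle) (F : L21) : L21 :=
  WithLp.toLp 2 ((starRingEnd ℂ) (a : ℂ) • MI0.U hR a b F.fst,
    (starRingEnd ℂ) (b : ℂ) • MI0.U hR a b F.snd)

theorem R1_fst (hR : TaskRot) (a b : Circle) (F : L21) :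
    (R1 hR a b F).fst =ᵐ[μT]
      fun z => (starRingEnd ℂ) (a : ℂ) * F.fst ((a : ℂ) * z.1, (b : ℂ) * z.2) := by
  have e := Lp.coeFn_smul ((starRingEnd ℂ) (a : ℂ)) (MI0.U hR a b F.fst)
  filter_upwards [e, MI0.U_ae hR a b F.fst] with z hz1 hz2
  show ((starRingEnd ℂ) (a : ℂ) • MI0.U hR a b F.fst : L2) z = _
  rw [hz1, Pi.smul_apply, hz2, smul_eq_mul]

theorem R1_snd (hR : TaskRot) (a b : Circle) (F : L21) :
    (R1 hR a b F).snd =ᵐ[μT]
      fun z => (starRingEnd ℂ) (b : ℂ) * F.snd ((a : ℂ) * z.1, (b : ℂ) * z.2) := by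
  have e := Lp.coeFn_smul ((starRingEnd ℂ) (b : ℂ)) (MI0.U hR a b F.snd)
  filter_upwards [e, MI0.U_ae hR a b F.snd] with z hz1 hz2
  show ((starRingEnd ℂ) (b : ℂ) • MI0.U hR a b F.snd : L2) z = _
  rw [hz1, Pi.smul_apply, hz2, smul_eq_mul]

/-- the rotated form of a form in a mode -/
theorem R1_mode (hR : TaskRot) {m n : ℤ} {f : L21} (h : FormMode m n f) (a b : Circle) :
    R1 hR a b f = ((a : ℂ) ^ m * (b : ℂ) ^ n) • f := by
  have e1 : (starRingEnd ℂ) (a : ℂ) • MI0.U hR a b f.fst =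
      ((a : ℂ) ^ m * (b : ℂ) ^ n) • f.fst := by
    rw [mode_smul h.1 hR a b, smul_smul]
    congr 1
    rw [zpow_add₀ a.coe_ne_zero, zpow_one]
    calc (starRingEnd ℂ) (a : ℂ) * ((a : ℂ) ^ m * (a : ℂ) * (b : ℂ) ^ n)
        = ((starRingEnd ℂ) (a : ℂ) * (a : ℂ)) * ((a : ℂ) ^ m * (b : ℂ) ^ n) := by ring
      _ = _ := by rw [MI0.circle_conj_mul, one_mul]
  have e2 : (starRingEnd ℂ) (b : ℂ) • MI0.U hR a b f.snd =
      ((a : ℂ) ^ m * (b : ℂ) ^ n) • f.snd := by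
    rw [mode_smul h.2 hR a b, smul_smul]
    congr 1
    rw [zpow_add₀ b.coe_ne_zero, zpow_one]
    calc (starRingEnd ℂ) (b : ℂ) * ((a : ℂ) ^ m * ((b : ℂ) ^ n * (b : ℂ)))
        = ((starRingEnd ℂ) (b : ℂ) * (b : ℂ)) * ((a : ℂ) ^ m * (b : ℂ) ^ n) := by ring
      _ = _ := by rw [MI0.circle_conj_mul, one_mul]
  unfold R1
  rw [e1, e2]
  rfl

/-- rotating the adjoint -/
theorem adj_rot (hR : TaskRot) (hF : TaskRotFun) (a b : Circle) {F : L21} {v : L2}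
    (h2 : DbarFunAdj F v) : DbarFunAdj (R1 hR a b F) (MI0.U hR a b v) := by
  intro w W hw
  set W1 : L21 := WithLp.toLp 2 ((a : ℂ) • MI0.U hR a⁻¹ b⁻¹ W.fst,
    (b : ℂ) • MI0.U hR a⁻¹ b⁻¹ W.snd) with hW1
  have k1 : DbarFun (MI0.U hR a⁻¹ b⁻¹ w) W1 := by
    apply hF hR a⁻¹ b⁻¹ w _ W _ hw (MI0.U_ae hR a⁻¹ b⁻¹ w)
    · have e := Lp.coeFn_smul (a : ℂ) (MI0.U hR a⁻¹ b⁻¹ W.fst)
      filter_upwards [e, MI0.U_ae hR a⁻¹ b⁻¹ W.fst] with z hz1 hz2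
      show ((a : ℂ) • MI0.U hR a⁻¹ b⁻¹ W.fst : L2) z = _
      rw [hz1, Pi.smul_apply, hz2, smul_eq_mul, ← Circle.coe_inv_eq_conj, inv_inv]
    · have e := Lp.coeFn_smul (b : ℂ) (MI0.U hR a⁻¹ b⁻¹ W.snd)
      filter_upwards [e, MI0.U_ae hR a⁻¹ b⁻¹ W.snd] with z hz1 hz2
      show ((b : ℂ) • MI0.U hR a⁻¹ b⁻¹ W.snd : L2) z = _
      rw [hz1, Pi.smul_apply, hz2, smul_eq_mul, ← Circle.coe_inv_eq_conj, inv_inv]
  have k2 := h2 _ _ k1
  rw [MI0.inner_U, ← k2, WithLp.prod_inner_apply, WithLp.prod_inner_apply]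
  show inner ℂ W.fst ((starRingEnd ℂ) (a : ℂ) • MI0.U hR a b F.fst) +
    inner ℂ W.snd ((starRingEnd ℂ) (b : ℂ) • MI0.U hR a b F.snd) =
    inner ℂ ((a : ℂ) • MI0.U hR a⁻¹ b⁻¹ W.fst) F.fst +
      inner ℂ ((b : ℂ) • MI0.U hR a⁻¹ b⁻¹ W.snd) F.snd
  rw [inner_smul_right, inner_smul_right, inner_smul_left, inner_smul_left, MI0.inner_U,
    MI0.inner_U]

theorem part0 (hR : TaskRot) (hF : TaskRotFun) (hD : TaskDense0) (m n : ℤ) (f : L21) (v : L2)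
    (h1 : FormMode m n f) (h2 : DbarFunAdj f v) : Mode m n v := by
  refine smul_mode hR fun a b => ?_
  have g1 := adj_rot hR hF a b h2
  rw [R1_mode hR h1 a b] at g1
  have key : ∀ u : L2, inner ℂ u (MI0.U hR a b v) =
      inner ℂ u (((a : ℂ) ^ m * (b : ℂ) ^ n) • v) := by
    have hcl : IsClosed {u : L2 | inner ℂ u (MI0.U hR a b v) =
        inner ℂ u (((a : ℂ) ^ m * (b : ℂ) ^ n) • v)} :=
      isClosed_eq (by fun_prop) (by fun_prop)
    have hsub : {u : L2 | ∃ F : L21, DbarFun u F} ⊆ {u : L2 | inner ℂ u (MI0.U hR a b v) =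
        inner ℂ u (((a : ℂ) ^ m * (b : ℂ) ^ n) • v)} := by
      rintro u ⟨F, hu⟩
      have e1 := g1 u F hu
      have e2 := h2 u F hu
      show inner ℂ u (MI0.U hR a b v) = inner ℂ u (((a : ℂ) ^ m * (b : ℂ) ^ n) • v)
      rw [← e1, inner_smul_right, inner_smul_right, e2]
    intro u
    have := hcl.closure_subset_iff.mpr hsub (hD u)
    exact this
  exact ext_inner_left ℂ key

theorem part1 (hR : TaskRot) (hF : TaskRotForm) (hC : TaskClosed1) (m n : ℤ) (f : L21) (g : L2)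
    (h1 : FormMode m n f) (h2 : DbarForm f g) : Mode (m + 1) (n + 1) g := by
  obtain ⟨Γ, hΓ, -, hs⟩ := hC
  refine smul_mode hR fun a b => ?_
  have hmem : ∀ (F : L21) (G : L2), DbarForm F G ↔ (F, G) ∈ Γ := by
    intro F G
    rw [← SetLike.mem_coe, hΓ]
    rfl
  have g1 : DbarForm (R1 hR a b f)
      (((starRingEnd ℂ) (a : ℂ) * (starRingEnd ℂ) (b : ℂ)) • MI0.U hR a b g) := by
    refine hF hR a b g _ f _ h2 (R1_fst hR a b f) (R1_snd hR a b f) ?_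
    filter_upwards [MI0.U_ae hR a b g, Lp.coeFn_smul
      ((starRingEnd ℂ) (a : ℂ) * (starRingEnd ℂ) (b : ℂ)) (MI0.U hR a b g)] with z hz1 hz2
    rw [hz2, Pi.smul_apply, hz1, smul_eq_mul]
  rw [R1_mode hR h1 a b, hmem] at g1
  have g2 := Γ.smul_mem ((a : ℂ) ^ m * (b : ℂ) ^ n) ((hmem _ _).1 h2)
  have g3 := Γ.sub_mem g1 g2
  have g4 : ((starRingEnd ℂ) (a : ℂ) * (starRingEnd ℂ) (b : ℂ)) • MI0.U hR a b g -
      ((a : ℂ) ^ m * (b : ℂ) ^ n) • g = 0 := by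
    apply hs
    convert g3 using 1
    ext1
    · simp
    · simp
  have g5 := sub_eq_zero.1 g4
  have g6 : ((a : ℂ) * (b : ℂ)) • (((starRingEnd ℂ) (a : ℂ) * (starRingEnd ℂ) (b : ℂ)) •
      MI0.U hR a b g) = MI0.U hR a b g := by
    rw [smul_smul]
    have : (a : ℂ) * (b : ℂ) * ((starRingEnd ℂ) (a : ℂ) * (starRingEnd ℂ) (b : ℂ)) = 1 := by
      calc _ = ((starRingEnd ℂ) (a : ℂ) * (a : ℂ)) * ((starRingEnd ℂ) (b : ℂ) * (b : ℂ)) := by
            ring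
        _ = 1 := by rw [MI0.circle_conj_mul, MI0.circle_conj_mul, one_mul]
    rw [this, one_smul]
  rw [← g6, g5, smul_smul]
  congr 1
  rw [zpow_add₀ a.coe_ne_zero, zpow_add₀ b.coe_ne_zero, zpow_one, zpow_one]
  ring

end Pool.Agent.H903HT.BM

namespace Pool.Agent.H903HT

theorem taskBoxMode : TaskBoxMode :=
  ⟨BM.part0 taskRot taskRotFun taskDense0, BM.part1 taskRot taskRotForm taskClosed1⟩

end Pool.Agent.H903HT
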