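import Pool.Agent.H903HT.Stmts

/-! Task ONB: an orthonormal basis of eigenvectors of the box operator from a total set. -/

set_option autoImplicit false

open MeasureTheory Filter Topology Set

namespace Pool.Agent.H903HT

namespace ONBH405

variable {H0 H1 H2 : Type} [NormedAddCommGroup H0] [InnerProductSpace ℂ H0] [CompleteSpace H0]
  [NormedAddCommGroup H1] [InnerProductSpace ℂ H1] [CompleteSpace H1]
  [NormedAddCommGroup H2] [InnerProductSpace ℂ H2] [CompleteSpace H2]

theorem sym {Γ0 : Submodule ℂ (H0 × H1)} {Γ1 : Submodule ℂ (H1 × H2)} {f h f' h' : H1}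
    (H : BoxA Γ0 Γ1 f h) (H' : BoxA Γ0 Γ1 f' h') : inner ℂ h f' = inner ℂ f h' := by
  obtain ⟨v, F, g, k, a1, a2, a3, a4, rfl⟩ := H
  obtain ⟨v', F', g', k', b1, b2, b3, b4, rfl⟩ := H'
  have e1 : inner ℂ F f' = inner ℂ v v' := b1 (v, F) a2
  have e2 : inner ℂ F' f = inner ℂ v' v := a1 (v', F') b2
  have e3 : inner ℂ g' g = inner ℂ f' k := a4 (f', g') b3
  have e4 : inner ℂ g g' = inner ℂ f k' := b4 (f, g) a3
  have e2' : inner ℂ f F' = inner ℂ v v' := by
    rw [← inner_conj_symm f F', e2, inner_conj_symm]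
  have e3' : inner ℂ k f' = inner ℂ g g' := by
    rw [← inner_conj_symm k f', ← e3, inner_conj_symm]
  rw [inner_add_left, inner_add_right, e1, e2', e3', e4]

theorem ortho {Γ0 : Submodule ℂ (H0 × H1)} {Γ1 : Submodule ℂ (H1 × H2)} {f f' : H1} {l l' : ℝ}
    (hl : l ≠ l') (H : BoxA Γ0 Γ1 f ((l : ℂ) • f)) (H' : BoxA Γ0 Γ1 f' ((l' : ℂ) • f')) :
    inner ℂ f f' = 0 := by
  have h := sym H H'
  rw [inner_smul_left, inner_smul_right, Complex.conj_ofReal] at h
  have h2 : ((l : ℂ) - (l' : ℂ)) * inner ℂ f f' = 0 := by rw [sub_mul, h, sub_self]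
  rcases mul_eq_zero.1 h2 with h3 | h3
  · exact absurd (by exact_mod_cast sub_eq_zero.1 h3) hl
  · exact h3

end ONBH405

open ONBH405 in
theorem taskONB : TaskONB := by
  intro hBC H0 H1 H2 _ _ _ _ _ _ _ _ _ Γ0 Γ1 h0 h1 hcx htot
  choose E hE hEcl using hBC H0 H1 H2 Γ0 Γ1 h0 h1 hcx
  have hmem : ∀ l f, f ∈ E l ↔ BoxA Γ0 Γ1 f ((l : ℂ) • f) := by
    intro l f
    have h : f ∈ (E l : Set H1) ↔ f ∈ {f | BoxA Γ0 Γ1 f ((l : ℂ) • f)} := by rw [hE l]
    exact h
  have hcomp : ∀ l, CompleteSpace (E l) := fun l => (hEcl l).completeSpace_coe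
  choose w b hb using fun l => exists_hilbertBasis ℂ (E l)
  have hfam : OrthogonalFamily ℂ (fun l => E l) (fun l => (E l).subtypeₗᵢ) := by
    intro l l' hl x y
    exact ortho hl ((hmem l x).1 x.2) ((hmem l' y).1 y.2)
  have hON : Orthonormal ℂ (fun a : Σ l : ℝ, w l => (E a.1).subtypeₗᵢ (b a.1 a.2)) :=
    hfam.orthonormal_sigma_orthonormal (fun l => (b l).orthonormal)
  have hbot : (Submodule.span ℂ (Set.range
      (fun a : Σ l : ℝ, w l => (E a.1).subtypeₗᵢ (b a.1 a.2))))ᗮ = ⊥ := by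
    rw [Submodule.eq_bot_iff]
    intro x hx
    have hx1 : ∀ a : Σ l : ℝ, w l, inner ℂ x ((b a.1 a.2 : E a.1) : H1) = 0 := by
      intro a
      have h := (Submodule.mem_orthogonal' _ x).1 hx _ (Submodule.subset_span ⟨a, rfl⟩)
      exact h
    have hx2 : ∀ l, ∀ y : E l, inner ℂ x (y : H1) = 0 := by
      intro l y
      have hle : (Submodule.span ℂ (Set.range (b l))).topologicalClosure ≤
          LinearMap.ker ((innerSL ℂ x).comp (E l).subtypeL).toLinearMap := by
        apply Submodule.topologicalClosure_minimal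
        · rw [Submodule.span_le]
          rintro _ ⟨i, rfl⟩
          exact hx1 ⟨l, i⟩
        · exact ((innerSL ℂ x).comp (E l).subtypeL).isClosed_ker
      rw [(b l).dense_span] at hle
      exact hle (Submodule.mem_top (x := y))
    have htot' := Submodule.topologicalClosure_eq_top_iff.1 htot
    have hx3 : x ∈ (Submodule.span ℂ {f : H1 | ∃ l : ℝ, BoxA Γ0 Γ1 f ((l : ℂ) • f)})ᗮ := by
      rw [Submodule.mem_orthogonal']
      intro u hu
      induction hu using Submodule.span_induction with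
      | mem u hu =>
        obtain ⟨l, hl⟩ := hu
        exact hx2 l ⟨u, (hmem l u).2 hl⟩
      | zero => exact inner_zero_right _
      | add u v _ _ hu hv => rw [inner_add_right, hu, hv, add_zero]
      | smul c u _ hu => rw [inner_smul_right, hu, mul_zero]
    rw [htot'] at hx3
    exact hx3
  refine ⟨Σ l : ℝ, w l, HilbertBasis.mkOfOrthogonalEqBot hON hbot, fun a => a.1, fun a => ?_⟩
  rw [HilbertBasis.coe_mkOfOrthogonalEqBot]
  exact (hmem a.1 _).1 (b a.1 a.2).2

end Pool.Agent.H903HT
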