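import Pool.Agent.H903HT.Stmts2
import Pool.Agent.H903HT.ONB

/-! Task BoxSym (helper798): the box operator is symmetric and nonnegative. -/

set_option autoImplicit false

open MeasureTheory Filter Topology Set

namespace Pool.Agent.H903HT

theorem taskBoxSym : TaskBoxSym := by
  intro H0 H1 H2 _ _ _ _ _ _ _ _ _ Γ0 Γ1
  refine ⟨fun f h f' h' H H' => ONBH405.sym H H', fun f l H hf => ?_⟩
  obtain ⟨v, F, g, k, a1, a2, a3, a4, e⟩ := H
  have e1 : inner ℂ F f = inner ℂ v v := a1 (v, F) a2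
  have e2 : inner ℂ g g = inner ℂ f k := a4 (f, g) a3
  have e3 : inner ℂ k f = inner ℂ g g := by
    rw [← inner_conj_symm k f, ← e2, inner_conj_symm]
  have e4 : inner ℂ ((l : ℂ) • f) f = inner ℂ v v + inner ℂ g g := by
    rw [e, inner_add_left, e1, e3]
  rw [inner_smul_left, Complex.conj_ofReal, inner_self_eq_norm_sq_to_K, inner_self_eq_norm_sq_to_K,
    inner_self_eq_norm_sq_to_K] at e4
  have e5 : l * ‖f‖ ^ 2 = ‖v‖ ^ 2 + ‖g‖ ^ 2 := by
    have e6 := congrArg Complex.re e4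
    simpa [← Complex.ofReal_pow, ← Complex.ofReal_add, ← Complex.ofReal_mul] using e6
  have h1 : 0 < ‖f‖ ^ 2 := by positivity
  have h2 : 0 ≤ l * ‖f‖ ^ 2 := by rw [e5]; positivity
  exact nonneg_of_mul_nonneg_left h2 h1

end Pool.Agent.H903HT
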