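import Mathlib

/-!
The `∂̄`-Neumann problem on the Hartogs triangle: the definitions used in the final statement
(MP_169ce5_an).
-/

set_option autoImplicit false

open MeasureTheory Filter Topology Set
open scoped ContDiff

namespace Pool.Agent.H903HT.Br

/-- the Hartogs triangle -/
def T : Set (ℂ × ℂ) := {z | ‖z.1‖ < ‖z.2‖ ∧ ‖z.2‖ < 1}

/-- Lebesgue measure on `T` -/
noncomputable def μT : Measure (ℂ × ℂ) := volume.restrict T

/-- `L²(T)`: square integrable functions, and coefficients of (0,2)-forms `g dz̄₁ ∧ dz̄₂` -/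
def Fun : Type := Lp ℂ 2 μT

noncomputable instance instFunGroup : NormedAddCommGroup Fun := Lp.instNormedAddCommGroup (μ := μT)
noncomputable instance instFunInner : InnerProductSpace ℂ Fun := L2.innerProductSpace (μ := μT)

/-- `L²₀,₁(T)`: square integrable (0,1)-forms `f₁ dz̄₁ + f₂ dz̄₂`, `‖f‖² = ‖f₁‖² + ‖f₂‖²` -/
def Form : Type := WithLp 2 (Fun × Fun)

noncomputable instance instFormGroup : NormedAddCommGroup Form :=
  WithLp.instProdNormedAddCommGroup 2 Fun Fun
noncomputable instance instFormInner : InnerProductSpace ℂ Form :=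
  WithLp.instProdInnerProductSpace (𝕜 := ℂ) (E := Fun) (F := Fun)

/-- the values of `u` -/
noncomputable def val (u : Fun) (z : ℂ × ℂ) : ℂ := (show Lp ℂ 2 μT from u) z

/-- first coefficient of a form -/
noncomputable def c₁ (f : Form) : Fun := (show WithLp 2 (Fun × Fun) from f).fst

/-- second coefficient of a form -/
noncomputable def c₂ (f : Form) : Fun := (show WithLp 2 (Fun × Fun) from f).snd

/-- test functions on `T` -/
def Test (φ : ℂ × ℂ → ℂ) : Prop := ContDiff ℝ ∞ φ ∧ HasCompactSupport φ ∧ tsupport φ ⊆ T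

/-- directional derivative -/
noncomputable def dir (φ : ℂ × ℂ → ℂ) (z v : ℂ × ℂ) : ℂ := fderiv ℝ φ z v

/-- `∂φ/∂z̄₁` -/
noncomputable def dbar1 (φ : ℂ × ℂ → ℂ) (z : ℂ × ℂ) : ℂ :=
  (dir φ z ((1 : ℂ), (0 : ℂ)) + Complex.I * dir φ z (Complex.I, (0 : ℂ))) / 2

/-- `∂φ/∂z̄₂` -/
noncomputable def dbar2 (φ : ℂ × ℂ → ℂ) (z : ℂ × ℂ) : ℂ :=
  (dir φ z ((0 : ℂ), (1 : ℂ)) + Complex.I * dir φ z ((0 : ℂ), Complex.I)) / 2

/-- `∂̄u = f` in the sense of distributions on `T`, for functions `u` -/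
def DbarFun (u : Fun) (f : Form) : Prop :=
  (∀ φ, Test φ → ∫ z, val u z * dbar1 φ z ∂μT = -∫ z, val (c₁ f) z * φ z ∂μT) ∧
  (∀ φ, Test φ → ∫ z, val u z * dbar2 φ z ∂μT = -∫ z, val (c₂ f) z * φ z ∂μT)

/-- `∂̄f = g dz̄₁ ∧ dz̄₂` in the sense of distributions on `T`, for (0,1)-forms `f` -/
def DbarForm (f : Form) (g : Fun) : Prop :=
  ∀ φ, Test φ →
    ∫ z, (val (c₂ f) z * dbar1 φ z - val (c₁ f) z * dbar2 φ z) ∂μT = -∫ z, val g z * φ z ∂μT

/-- inner product of functions -/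
noncomputable def ip (u v : Fun) : ℂ := inner ℂ u v

/-- inner product of forms -/
noncomputable def ipf (f g : Form) : ℂ := inner ℂ f g

/-- `f` is in the domain of the Hilbert space adjoint of `∂̄` (on functions), with value `v` -/
def DbarFunAdj (f : Form) (v : Fun) : Prop := ∀ u F, DbarFun u F → ipf F f = ip u v

/-- `g` is in the domain of the Hilbert space adjoint of `∂̄` (on (0,1)-forms), with value `k` -/
def DbarFormAdj (g : Fun) (k : Form) : Prop := ∀ f G, DbarForm f G → ip G g = ipf f k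

/-- `□ f = h` for the complex Laplacian `□ = ∂̄ ∂̄* + ∂̄* ∂̄` on (0,1)-forms with its natural domain -/
def Box (f h : Form) : Prop :=
  ∃ (v : Fun) (F : Form) (g : Fun) (k : Form),
    DbarFunAdj f v ∧ DbarFun v F ∧ DbarForm f g ∧ DbarFormAdj g k ∧ h = F + k

/-- multiplication of a form by a real number -/
noncomputable def rsmul (l : ℝ) (f : Form) : Form := (l : ℂ) • f

/-- `u(a z₁, b z₂) = a^m b^n u(z₁, z₂)` for all unimodular `a`, `b` -/
def Mode (m n : ℤ) (u : Fun) : Prop := ∀ a b : Circle,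
  (fun z : ℂ × ℂ => val u ((a : ℂ) * z.1, (b : ℂ) * z.2)) =ᵐ[μT]
    fun z => (a : ℂ) ^ m * (b : ℂ) ^ n * val u z

/-- forms of weight `(m, n)` under the rotations `(z₁, z₂) ↦ (a z₁, b z₂)` -/
def FormMode (m n : ℤ) (f : Form) : Prop := Mode (m + 1) n (c₁ f) ∧ Mode m (n + 1) (c₂ f)

/-- bounded operators on `L²₀,₁(T)` -/
abbrev Op : Type := Form →L[ℂ] Form

/-- `N (□ f) = f` for all `f` in the domain of `□` -/
def Inverts (N : Op) : Prop := ∀ f h : Form, Box f h → N h = f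

/-- `N b_i = l_i⁻¹ b_i` -/
def Diag {ι : Type} (b : ι → Form) (l : ι → ℝ) (N : Op) : Prop := ∀ i, N (b i) = rsmul (l i)⁻¹ (b i)

/-- the spectrum of `N` is the closure of `{l_i⁻¹}` -/
def SpecEq {ι : Type} (l : ι → ℝ) (N : Op) : Prop :=
  spectrum ℂ N = closure (range fun i => (((l i)⁻¹ : ℝ) : ℂ))

end Pool.Agent.H903HT.Br
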