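import Pool.Agent.H903HT.Stmts

/-! Project H903-HT, task CompactAdj. -/

set_option autoImplicit false

open MeasureTheory Filter Topology Set
open scoped ContDiff

namespace Pool.Agent.H903HT

namespace CA

theorem measT : MeasurableSet T := by
  have : T = {z : ℂ × ℂ | ‖z.1‖ < ‖z.2‖} ∩ {z | ‖z.2‖ < 1} := rfl
  rw [this]
  exact (measurableSet_lt (by fun_prop) (by fun_prop)).inter
    (measurableSet_lt (by fun_prop) measurable_const)

/-- rotations preserve the measure -/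
theorem rot (a b : Circle) :
    MeasurePreserving (fun z : ℂ × ℂ => ((a : ℂ) * z.1, (b : ℂ) * z.2)) μT μT := by
  have h1 : ∀ c : Circle, MeasurePreserving (fun z : ℂ => (c : ℂ) * z) volume volume := by
    intro c
    have := (rotation c).measurePreserving
    exact this
  have h2 : MeasurePreserving (fun z : ℂ × ℂ => ((a : ℂ) * z.1, (b : ℂ) * z.2)) volume volume :=
    (h1 a).prod (h1 b)
  have h3 := h2.restrict_preimage measT
  have h4 : (fun z : ℂ × ℂ => ((a : ℂ) * z.1, (b : ℂ) * z.2)) ⁻¹' T = T := by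
    ext z
    show ‖(a : ℂ) * z.1‖ < ‖(b : ℂ) * z.2‖ ∧ ‖(b : ℂ) * z.2‖ < 1 ↔ ‖z.1‖ < ‖z.2‖ ∧ ‖z.2‖ < 1
    rw [norm_mul, norm_mul, Circle.norm_coe, Circle.norm_coe, one_mul, one_mul]
  rw [h4] at h3
  exact h3

/-- complex conjugation on `L²` -/
noncomputable def cL : L2 →L[ℝ] L2 :=
  (Complex.conjCLE : ℂ ≃L[ℝ] ℂ).toContinuousLinearMap.compLpL 2 μT

theorem cL_coe (g : L2) : cL g =ᵐ[μT] fun z => (starRingEnd ℂ) (g z) :=
  (Complex.conjCLE : ℂ ≃L[ℝ] ℂ).toContinuousLinearMap.coeFn_compLpL g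

theorem cL_cL (g : L2) : cL (cL g) = g := by
  apply Lp.ext
  filter_upwards [cL_coe (cL g), cL_coe g] with z h1 h2
  rw [h1, h2, Complex.conj_conj]

theorem cL_norm (g : L2) : ‖cL g‖ = ‖g‖ := by
  rw [Lp.norm_def, Lp.norm_def]
  congr 1
  apply eLpNorm_congr_norm_ae
  filter_upwards [cL_coe g] with z h1
  rw [h1]
  exact RCLike.norm_conj _

/-- the conjugate of a function in a mode -/
theorem cL_mode {m n : ℤ} {g : L2} (h : Mode m n g) : Mode (-m) (-n) (cL g) := by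
  intro a b
  have h1 := (rot a b).quasiMeasurePreserving.ae_eq_comp (cL_coe g)
  filter_upwards [h1, h a b, cL_coe g] with z h1 h2 h3
  have h1' : (cL g) ((a : ℂ) * z.1, (b : ℂ) * z.2) =
      (starRingEnd ℂ) (g ((a : ℂ) * z.1, (b : ℂ) * z.2)) := h1
  rw [h1', h2, h3]
  have hc : ∀ c : Circle, ∀ k : ℤ, (starRingEnd ℂ) ((c : ℂ) ^ k) = (c : ℂ) ^ (-k) := by
    intro c k
    rw [map_zpow₀, ← Circle.coe_inv_eq_conj, Circle.coe_inv, inv_zpow, zpow_neg]
  rw [map_mul, map_mul, hc, hc]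

section ibp

theorem zero_off {φ : ℂ × ℂ → ℂ} (h : Test φ) {z : ℂ × ℂ} (hz : z ∉ T) : φ z = 0 :=
  image_eq_zero_of_notMem_tsupport (fun h' => hz (h.2.2 h'))

theorem haar : (volume : Measure (ℂ × ℂ)).IsAddHaarMeasure := by
  rw [Measure.volume_eq_prod]
  infer_instance

theorem ibp (φ ψ : ℂ × ℂ → ℂ) (hφ : Test φ) (hψ : Test ψ) (v : ℂ × ℂ) :
    ∫ z, φ z * fderiv ℝ ψ z v ∂μT = -∫ z, fderiv ℝ φ z v * ψ z ∂μT := by
  have e1 : ∫ z, φ z * fderiv ℝ ψ z v ∂μT = ∫ z, φ z * fderiv ℝ ψ z v := by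
    unfold μT
    apply setIntegral_eq_integral_of_forall_compl_eq_zero
    intro z hz
    rw [zero_off hφ hz, zero_mul]
  have e2 : ∫ z, fderiv ℝ φ z v * ψ z ∂μT = ∫ z, fderiv ℝ φ z v * ψ z := by
    unfold μT
    apply setIntegral_eq_integral_of_forall_compl_eq_zero
    intro z hz
    rw [zero_off hψ hz, mul_zero]
  rw [e1, e2]
  have c1 : Continuous fun z => fderiv ℝ φ z v :=
    (hφ.1.continuous_fderiv (by simp)).clm_apply continuous_const
  have c2 : Continuous fun z => fderiv ℝ ψ z v :=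
    (hψ.1.continuous_fderiv (by simp)).clm_apply continuous_const
  have := haar
  apply integral_mul_fderiv_eq_neg_fderiv_mul_of_integrable
  · exact (c1.mul hψ.1.continuous).integrable_of_hasCompactSupport (hψ.2.1.mul_left)
  · exact (hφ.1.continuous.mul c2).integrable_of_hasCompactSupport (hφ.2.1.mul_right)
  · exact (hφ.1.continuous.mul hψ.1.continuous).integrable_of_hasCompactSupport (hφ.2.1.mul_right)
  · exact fun x _ => (hφ.1.differentiable (by simp)).differentiableAt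
  · exact fun x _ => (hψ.1.differentiable (by simp)).differentiableAt

theorem cont_dir (φ : ℂ × ℂ → ℂ) (hφ : Test φ) (v : ℂ × ℂ) : Continuous fun z => fderiv ℝ φ z v :=
  (hφ.1.continuous_fderiv (by simp)).clm_apply continuous_const

theorem supp_dir (φ : ℂ × ℂ → ℂ) (hφ : Test φ) (v : ℂ × ℂ) :
    HasCompactSupport fun z => fderiv ℝ φ z v :=
  (hφ.2.1.fderiv (𝕜 := ℝ)).comp_left (g := fun L : (ℂ × ℂ) →L[ℝ] ℂ => L v) (by simp)

theorem cont1 (φ : ℂ × ℂ → ℂ) (hφ : Test φ) : Continuous (dbar1 φ) := by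
  unfold dbar1
  exact ((cont_dir φ hφ _).add (continuous_const.mul (cont_dir φ hφ _))).div_const _

theorem cont2 (φ : ℂ × ℂ → ℂ) (hφ : Test φ) : Continuous (dbar2 φ) := by
  unfold dbar2
  exact ((cont_dir φ hφ _).add (continuous_const.mul (cont_dir φ hφ _))).div_const _

theorem supp1 (φ : ℂ × ℂ → ℂ) (hφ : Test φ) : HasCompactSupport (dbar1 φ) := by
  have h : dbar1 φ = fun z => ((fun L : (ℂ × ℂ) →L[ℝ] ℂ =>
      (L ((1 : ℂ), (0 : ℂ)) + Complex.I * L (Complex.I, (0 : ℂ))) / 2) ∘ (fderiv ℝ φ)) z := rfl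
  rw [h]
  exact (hφ.2.1.fderiv (𝕜 := ℝ)).comp_left (by simp)

theorem supp2 (φ : ℂ × ℂ → ℂ) (hφ : Test φ) : HasCompactSupport (dbar2 φ) := by
  have h : dbar2 φ = fun z => ((fun L : (ℂ × ℂ) →L[ℝ] ℂ =>
      (L ((0 : ℂ), (1 : ℂ)) + Complex.I * L ((0 : ℂ), Complex.I)) / 2) ∘ (fderiv ℝ φ)) z := rfl
  rw [h]
  exact (hφ.2.1.fderiv (𝕜 := ℝ)).comp_left (by simp)

theorem int_mul {f g : ℂ × ℂ → ℂ} (hf : Continuous f) (hg : Continuous g)
    (hs : HasCompactSupport f) : Integrable (fun z => f z * g z) μT :=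
  ((hf.mul hg).integrable_of_hasCompactSupport hs.mul_right).integrableOn

theorem ibp_comb (φ ψ : ℂ × ℂ → ℂ) (hφ : Test φ) (hψ : Test ψ) (v w : ℂ × ℂ) :
    ∫ z, φ z * ((fderiv ℝ ψ z v + Complex.I * fderiv ℝ ψ z w) / 2) ∂μT =
      -∫ z, ((fderiv ℝ φ z v + Complex.I * fderiv ℝ φ z w) / 2) * ψ z ∂μT := by
  have a1 := ibp φ ψ hφ hψ v
  have a2 := ibp φ ψ hφ hψ w
  have i1 := int_mul hφ.1.continuous (cont_dir ψ hψ v) hφ.2.1
  have i2 := int_mul hφ.1.continuous (cont_dir ψ hψ w) hφ.2.1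
  have i3 := int_mul (cont_dir φ hφ v) hψ.1.continuous (supp_dir φ hφ v)
  have i4 := int_mul (cont_dir φ hφ w) hψ.1.continuous (supp_dir φ hφ w)
  have b1 : ∀ z, φ z * ((fderiv ℝ ψ z v + Complex.I * fderiv ℝ ψ z w) / 2) =
      (1 / 2) * (φ z * fderiv ℝ ψ z v) + (Complex.I / 2) * (φ z * fderiv ℝ ψ z w) := by
    intro z; ring
  have b2 : ∀ z, ((fderiv ℝ φ z v + Complex.I * fderiv ℝ φ z w) / 2) * ψ z =
      (1 / 2) * (fderiv ℝ φ z v * ψ z) + (Complex.I / 2) * (fderiv ℝ φ z w * ψ z) := by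
    intro z; ring
  simp_rw [b1, b2]
  rw [integral_add (i1.const_mul _) (i2.const_mul _),
    integral_add (i3.const_mul _) (i4.const_mul _), integral_const_mul, integral_const_mul,
    integral_const_mul, integral_const_mul, a1, a2]
  ring

theorem ibp1 (φ ψ : ℂ × ℂ → ℂ) (hφ : Test φ) (hψ : Test ψ) :
    ∫ z, φ z * dbar1 ψ z ∂μT = -∫ z, dbar1 φ z * ψ z ∂μT := ibp_comb φ ψ hφ hψ _ _

theorem ibp2 (φ ψ : ℂ × ℂ → ℂ) (hφ : Test φ) (hψ : Test ψ) :
    ∫ z, φ z * dbar2 ψ z ∂μT = -∫ z, dbar2 φ z * ψ z ∂μT := ibp_comb φ ψ hφ hψ _ _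

theorem memLp {f : ℂ × ℂ → ℂ} (hf : Continuous f) (hs : HasCompactSupport f) : MemLp f 2 μT :=
  (hf.memLp_of_hasCompactSupport (μ := volume) hs).restrict T

/-- the inner product with a continuous function of compact support -/
theorem inner_toLp {f : ℂ × ℂ → ℂ} (hf : MemLp f 2 μT) (g : L2) :
    (starRingEnd ℂ) (inner ℂ (hf.toLp f) g) = ∫ z, cL g z * f z ∂μT := by
  rw [L2.inner_def, ← integral_conj]
  apply integral_congr_ae
  filter_upwards [hf.coeFn_toLp, cL_coe g] with z h1 h2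
  rw [h1, h2, inner_conj_symm, RCLike.inner_apply]
  ring

end ibp

/-- conjugation turns the adjoint of `∂̄` on forms into `∂̄` on functions -/
theorem conj_dbar {g : L2} {k : L21} (h : DbarFormAdj g k) :
    DbarFun (cL g) (WithLp.toLp 2 (-cL k.snd, cL k.fst)) := by
  constructor
  · intro φ hφ
    have hm := memLp hφ.1.continuous hφ.2.1
    have hm1 := memLp (cont1 φ hφ) (supp1 φ hφ)
    have hF : DbarForm (WithLp.toLp 2 ((0 : L2), hm.toLp φ)) (hm1.toLp (dbar1 φ)) := by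
      intro ψ hψ
      have e1 : ∫ z, ((WithLp.toLp 2 ((0 : L2), hm.toLp φ) : L21).snd z * dbar1 ψ z -
          (WithLp.toLp 2 ((0 : L2), hm.toLp φ) : L21).fst z * dbar2 ψ z) ∂μT =
          ∫ z, φ z * dbar1 ψ z ∂μT := by
        apply integral_congr_ae
        filter_upwards [hm.coeFn_toLp, Lp.coeFn_zero ℂ 2 μT] with z h1 h2
        show (hm.toLp φ) z * dbar1 ψ z - (0 : L2) z * dbar2 ψ z = _
        rw [h1, h2]
        simp
      have e2 : ∫ z, (hm1.toLp (dbar1 φ)) z * ψ z ∂μT = ∫ z, dbar1 φ z * ψ z ∂μT := by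
        apply integral_congr_ae
        filter_upwards [hm1.coeFn_toLp] with z h1
        rw [h1]
      rw [e1, e2, ibp1 φ ψ hφ hψ]
    have h1 := h _ _ hF
    rw [WithLp.prod_inner_apply] at h1
    have h2 : inner ℂ (hm1.toLp (dbar1 φ)) g = inner ℂ (hm.toLp φ) k.snd := by
      rw [h1]
      show inner ℂ (0 : L2) _ + inner ℂ (hm.toLp φ) k.snd = _
      rw [inner_zero_left, zero_add]
    have h3 := congrArg (starRingEnd ℂ) h2
    rw [inner_toLp, inner_toLp] at h3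
    rw [h3]
    show ∫ z, (cL k.snd) z * φ z ∂μT = -∫ z, (-cL k.snd : L2) z * φ z ∂μT
    rw [← integral_neg]
    apply integral_congr_ae
    filter_upwards [Lp.coeFn_neg (cL k.snd)] with z h4
    rw [h4]
    simp
  · intro φ hφ
    have hm := memLp hφ.1.continuous hφ.2.1
    have hm1 := memLp (cont2 φ hφ) (supp2 φ hφ)
    have hF : DbarForm (WithLp.toLp 2 (hm.toLp φ, (0 : L2))) (-hm1.toLp (dbar2 φ)) := by
      intro ψ hψ
      have e1 : ∫ z, ((WithLp.toLp 2 (hm.toLp φ, (0 : L2)) : L21).snd z * dbar1 ψ z -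
          (WithLp.toLp 2 (hm.toLp φ, (0 : L2)) : L21).fst z * dbar2 ψ z) ∂μT =
          -∫ z, φ z * dbar2 ψ z ∂μT := by
        rw [← integral_neg]
        apply integral_congr_ae
        filter_upwards [hm.coeFn_toLp, Lp.coeFn_zero ℂ 2 μT] with z h1 h2
        show (0 : L2) z * dbar1 ψ z - (hm.toLp φ) z * dbar2 ψ z = _
        rw [h1, h2]
        simp
      have e2 : ∫ z, (-hm1.toLp (dbar2 φ) : L2) z * ψ z ∂μT = -∫ z, dbar2 φ z * ψ z ∂μT := by
        rw [← integral_neg]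
        apply integral_congr_ae
        filter_upwards [hm1.coeFn_toLp, Lp.coeFn_neg (hm1.toLp (dbar2 φ))] with z h1 h2
        rw [h2, Pi.neg_apply, h1]
        simp
      rw [e1, e2, ibp2 φ ψ hφ hψ]
    have h1 := h _ _ hF
    rw [WithLp.prod_inner_apply] at h1
    have h2 : inner ℂ (-hm1.toLp (dbar2 φ)) g = inner ℂ (hm.toLp φ) k.fst := by
      rw [h1]
      show inner ℂ (hm.toLp φ) k.fst + inner ℂ (0 : L2) _ = _
      rw [inner_zero_left, add_zero]
    rw [inner_neg_left] at h2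
    have h3 := congrArg (starRingEnd ℂ) h2
    rw [map_neg, inner_toLp, inner_toLp] at h3
    show ∫ z, cL g z * dbar2 φ z ∂μT = -∫ z, (cL k.fst) z * φ z ∂μT
    rw [← h3, neg_neg]

end CA

open CA in
theorem taskCompactAdj : TaskCompactAdj := by
  intro hC m n
  have h1 := (hC (-m) (-n)).image cL.uniformContinuous
  refine h1.subset ?_
  rintro g ⟨hm, k, hk, hn⟩
  refine ⟨cL g, ⟨cL_mode hm, WithLp.toLp 2 (-cL k.snd, cL k.fst), conj_dbar hk, ?_⟩, cL_cL g⟩
  rw [WithLp.prod_norm_sq_eq_of_L2] at hn ⊢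
  show ‖cL g‖ ^ 2 + (‖(-cL k.snd : L2)‖ ^ 2 + ‖cL k.fst‖ ^ 2) ≤ 1
  rw [norm_neg, cL_norm, cL_norm, cL_norm]
  linarith

end Pool.Agent.H903HT
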