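import Mathlib

/-!
Project H903-HT: the `∂̄`-Neumann operator on (0,1)-forms of the Hartogs triangle has pure point
spectrum (MP_169ce5_an).  Definitions and task statements.
-/

set_option autoImplicit false

open MeasureTheory Filter Topology Set
open scoped ContDiff

namespace Pool.Agent.H903HT

/-- the Hartogs triangle -/
def T : Set (ℂ × ℂ) := {z | ‖z.1‖ < ‖z.2‖ ∧ ‖z.2‖ < 1}

/-- Lebesgue measure on `T` -/
noncomputable def μT : Measure (ℂ × ℂ) := volume.restrict T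

/-- square integrable functions on `T` (also: coefficients of (0,2)-forms) -/
noncomputable abbrev L2 := Lp ℂ 2 μT

/-- square integrable (0,1)-forms `f₁ dz̄₁ + f₂ dz̄₂` -/
noncomputable abbrev L21 := WithLp 2 (L2 × L2)

/-- test functions on `T` -/
def Test (φ : ℂ × ℂ → ℂ) : Prop := ContDiff ℝ ∞ φ ∧ HasCompactSupport φ ∧ tsupport φ ⊆ T

/-- `∂φ/∂z̄₁` -/
noncomputable def dbar1 (φ : ℂ × ℂ → ℂ) (z : ℂ × ℂ) : ℂ :=
  (fderiv ℝ φ z ((1 : ℂ), (0 : ℂ)) + Complex.I * fderiv ℝ φ z (Complex.I, (0 : ℂ))) / 2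

/-- `∂φ/∂z̄₂` -/
noncomputable def dbar2 (φ : ℂ × ℂ → ℂ) (z : ℂ × ℂ) : ℂ :=
  (fderiv ℝ φ z ((0 : ℂ), (1 : ℂ)) + Complex.I * fderiv ℝ φ z ((0 : ℂ), Complex.I)) / 2

/-- `∂̄u = f` in the sense of distributions on `T`, for functions `u` -/
def DbarFun (u : L2) (f : L21) : Prop :=
  (∀ φ, Test φ → ∫ z, u z * dbar1 φ z ∂μT = -∫ z, f.fst z * φ z ∂μT) ∧
  (∀ φ, Test φ → ∫ z, u z * dbar2 φ z ∂μT = -∫ z, f.snd z * φ z ∂μT)

/-- `∂̄f = g dz̄₁ ∧ dz̄₂` in the sense of distributions on `T`, for (0,1)-forms `f` -/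
def DbarForm (f : L21) (g : L2) : Prop :=
  ∀ φ, Test φ →
    ∫ z, (f.snd z * dbar1 φ z - f.fst z * dbar2 φ z) ∂μT = -∫ z, g z * φ z ∂μT

/-- `f` is in the domain of the Hilbert space adjoint of `∂̄` (on functions), with value `v` -/
def DbarFunAdj (f : L21) (v : L2) : Prop := ∀ u F, DbarFun u F → inner ℂ F f = inner ℂ u v

/-- `g` is in the domain of the Hilbert space adjoint of `∂̄` (on (0,1)-forms), with value `k` -/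
def DbarFormAdj (g : L2) (k : L21) : Prop := ∀ f G, DbarForm f G → inner ℂ G g = inner ℂ f k

/-- `□ f = h` for the complex Laplacian `□ = ∂̄ ∂̄* + ∂̄* ∂̄` on (0,1)-forms with its natural domain -/
def Box (f h : L21) : Prop :=
  ∃ (v : L2) (F : L21) (g : L2) (k : L21),
    DbarFunAdj f v ∧ DbarFun v F ∧ DbarForm f g ∧ DbarFormAdj g k ∧ h = F + k

/-- `u(a z₁, b z₂) = a^m b^n u(z₁, z₂)` for all unimodular `a`, `b` -/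
def Mode (m n : ℤ) (u : L2) : Prop := ∀ a b : Circle,
  (fun z : ℂ × ℂ => u ((a : ℂ) * z.1, (b : ℂ) * z.2)) =ᵐ[μT]
    fun z => (a : ℂ) ^ m * (b : ℂ) ^ n * u z

/-! ### abstract tasks -/

section abstract_part

variable {H0 H1 H2 : Type} [NormedAddCommGroup H0] [InnerProductSpace ℂ H0] [CompleteSpace H0]
  [NormedAddCommGroup H1] [InnerProductSpace ℂ H1] [CompleteSpace H1]
  [NormedAddCommGroup H2] [InnerProductSpace ℂ H2] [CompleteSpace H2]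

/-- adjoint of a graph -/
def Adj (Γ : Submodule ℂ (H0 × H1)) : Set (H1 × H0) :=
  {p | ∀ q ∈ Γ, inner ℂ q.2 p.1 = inner ℂ q.1 p.2}

/-- closed, single valued, densely defined -/
structure ClosedOp (Γ : Submodule ℂ (H0 × H1)) : Prop where
  closed : IsClosed (Γ : Set (H0 × H1))
  single : ∀ f : H1, ((0 : H0), f) ∈ Γ → f = 0
  dense : Dense {u : H0 | ∃ f : H1, (u, f) ∈ Γ}

/-- eigenvectors of `S* S` -/
def Eig (Γ : Submodule ℂ (H0 × H1)) : Set H0 :=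
  {u | ∃ (l : ℝ) (F : H1), (u, F) ∈ Γ ∧ (F, (l : ℂ) • u) ∈ Adj Γ}

/-- the box operator `S S* + A* A` of a complex `S : H0 → H1`, `A : H1 → H2` -/
def BoxA (Γ0 : Submodule ℂ (H0 × H1)) (Γ1 : Submodule ℂ (H1 × H2)) (f h : H1) : Prop :=
  ∃ (v : H0) (F : H1) (g : H2) (k : H1),
    (f, v) ∈ Adj Γ0 ∧ (v, F) ∈ Γ0 ∧ (f, g) ∈ Γ1 ∧ (g, k) ∈ Adj Γ1 ∧ h = F + k

end abstract_part

/-- TA1. the resolvent `(1 + S* S)⁻¹`. -/
def TaskResolvent : Prop := ∀ (H0 H1 : Type) [NormedAddCommGroup H0] [InnerProductSpace ℂ H0]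
  [CompleteSpace H0] [NormedAddCommGroup H1] [InnerProductSpace ℂ H1] [CompleteSpace H1]
  (Γ : Submodule ℂ (H0 × H1)), ClosedOp Γ → ∃ R : H0 →L[ℂ] H0, R.toLinearMap.IsSymmetric ∧
    (∀ h, R h = 0 → h = 0) ∧
    (∀ h, ∃ (F : H1) (v : H0), (R h, F) ∈ Γ ∧ (F, v) ∈ Adj Γ ∧ R h + v = h ∧
      ‖R h‖ ^ 2 + ‖F‖ ^ 2 ≤ ‖h‖ ^ 2) ∧
    (∀ u F v, (u, F) ∈ Γ → (F, v) ∈ Adj Γ → R (u + v) = u)

/-- `S* S` has a total set of eigenvectors if it has compact resolvent on invariant pieces. -/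
def EigTotal : Prop := ∀ (H0 H1 : Type) [NormedAddCommGroup H0] [InnerProductSpace ℂ H0]
  [CompleteSpace H0] [NormedAddCommGroup H1] [InnerProductSpace ℂ H1] [CompleteSpace H1]
  (Γ : Submodule ℂ (H0 × H1)), ClosedOp Γ →
  ∀ (ι : Type) (V : ι → Submodule ℂ H0), (∀ i, IsClosed (V i : Set H0)) →
  (∀ i, ∀ u F v, (u, F) ∈ Γ → (F, v) ∈ Adj Γ → u + v ∈ V i → u ∈ V i) →
  (⨆ i, V i).topologicalClosure = ⊤ →
  (∀ i, TotallyBounded {u : H0 | u ∈ V i ∧ ∃ F, (u, F) ∈ Γ ∧ ‖u‖^2 + ‖F‖^2 ≤ 1}) →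
  (Submodule.span ℂ (Eig Γ)).topologicalClosure = ⊤

/-- TA2. -/
def TaskEigTotal : Prop := TaskResolvent → EigTotal

/-- TA3. eigenvectors of `S* S` form a core of `S`: a vector orthogonal to `S u` for all
eigenvectors `u` is in the kernel of `S*`. -/
def TaskCore : Prop := ∀ (H0 H1 : Type) [NormedAddCommGroup H0] [InnerProductSpace ℂ H0]
  [CompleteSpace H0] [NormedAddCommGroup H1] [InnerProductSpace ℂ H1] [CompleteSpace H1]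
  (Γ : Submodule ℂ (H0 × H1)), ClosedOp Γ → (Submodule.span ℂ (Eig Γ)).topologicalClosure = ⊤ →
  ∀ f : H1, (∀ (l : ℝ) (u : H0) (F : H1), (u, F) ∈ Γ → (F, (l : ℂ) • u) ∈ Adj Γ →
    inner ℂ F f = 0) → (f, (0 : H0)) ∈ Adj Γ

/-- Hodge decomposition: the box operator has a total set of eigenvectors if `S* S` and `A A*` do. -/
def Hodge : Prop := ∀ (H0 H1 H2 : Type) [NormedAddCommGroup H0] [InnerProductSpace ℂ H0]
  [CompleteSpace H0] [NormedAddCommGroup H1] [InnerProductSpace ℂ H1] [CompleteSpace H1]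
  [NormedAddCommGroup H2] [InnerProductSpace ℂ H2] [CompleteSpace H2]
  (Γ0 : Submodule ℂ (H0 × H1)) (Γ1 : Submodule ℂ (H1 × H2)) (Γ1' : Submodule ℂ (H2 × H1)),
  ClosedOp Γ0 → ClosedOp Γ1 → ClosedOp Γ1' → ((Γ1' : Set (H2 × H1)) = Adj Γ1) →
  (Adj Γ1' = (Γ1 : Set (H1 × H2))) →
  (∀ u F, (u, F) ∈ Γ0 → (F, (0 : H2)) ∈ Γ1) →
  (Submodule.span ℂ (Eig Γ0)).topologicalClosure = ⊤ →
  (Submodule.span ℂ (Eig Γ1')).topologicalClosure = ⊤ →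
  (Submodule.span ℂ {f : H1 | ∃ l : ℝ, BoxA Γ0 Γ1 f ((l : ℂ) • f)}).topologicalClosure = ⊤

/-- TA4. -/
def TaskHodge : Prop := TaskCore → Hodge

/-- TA5. the adjoint of a closed operator is a closed operator, and the double adjoint is the
operator. -/
def TaskAdj : Prop := ∀ (H0 H1 : Type) [NormedAddCommGroup H0] [InnerProductSpace ℂ H0]
  [CompleteSpace H0] [NormedAddCommGroup H1] [InnerProductSpace ℂ H1] [CompleteSpace H1]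
  (Γ : Submodule ℂ (H0 × H1)), ClosedOp Γ →
  ∃ Γ' : Submodule ℂ (H1 × H0), (Γ' : Set (H1 × H0)) = Adj Γ ∧ ClosedOp Γ' ∧
    Adj Γ' = (Γ : Set (H0 × H1))

/-- TA6. the eigenspaces of the box operator are closed subspaces. -/
def TaskBoxClosed : Prop := ∀ (H0 H1 H2 : Type) [NormedAddCommGroup H0] [InnerProductSpace ℂ H0]
  [CompleteSpace H0] [NormedAddCommGroup H1] [InnerProductSpace ℂ H1] [CompleteSpace H1]
  [NormedAddCommGroup H2] [InnerProductSpace ℂ H2] [CompleteSpace H2]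
  (Γ0 : Submodule ℂ (H0 × H1)) (Γ1 : Submodule ℂ (H1 × H2)),
  ClosedOp Γ0 → ClosedOp Γ1 → (∀ u F, (u, F) ∈ Γ0 → (F, (0 : H2)) ∈ Γ1) →
  ∀ l : ℝ, ∃ E : Submodule ℂ H1, (E : Set H1) = {f | BoxA Γ0 Γ1 f ((l : ℂ) • f)} ∧
    IsClosed (E : Set H1)

/-- an orthonormal basis of eigenvectors of the box operator from a total set. -/
def ONBA : Prop := ∀ (H0 H1 H2 : Type) [NormedAddCommGroup H0] [InnerProductSpace ℂ H0]
  [CompleteSpace H0] [NormedAddCommGroup H1] [InnerProductSpace ℂ H1] [CompleteSpace H1]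
  [NormedAddCommGroup H2] [InnerProductSpace ℂ H2] [CompleteSpace H2]
  (Γ0 : Submodule ℂ (H0 × H1)) (Γ1 : Submodule ℂ (H1 × H2)),
  ClosedOp Γ0 → ClosedOp Γ1 → (∀ u F, (u, F) ∈ Γ0 → (F, (0 : H2)) ∈ Γ1) →
  (Submodule.span ℂ {f : H1 | ∃ l : ℝ, BoxA Γ0 Γ1 f ((l : ℂ) • f)}).topologicalClosure = ⊤ →
  ∃ (ι : Type) (b : HilbertBasis ι ℂ H1) (l : ι → ℝ), ∀ i, BoxA Γ0 Γ1 (b i) ((l i : ℂ) • b i)

/-- TA7. -/
def TaskONB : Prop := TaskBoxClosed → ONBA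

/-! ### the operators on the Hartogs triangle -/

/-- TC1. -/
def TaskClosed0 : Prop :=
  ∃ Γ0 : Submodule ℂ (L2 × L21), (Γ0 : Set (L2 × L21)) = {p | DbarFun p.1 p.2} ∧
    IsClosed (Γ0 : Set (L2 × L21)) ∧ ∀ f : L21, ((0 : L2), f) ∈ Γ0 → f = 0

/-- TC2. -/
def TaskClosed1 : Prop :=
  ∃ Γ1 : Submodule ℂ (L21 × L2), (Γ1 : Set (L21 × L2)) = {p | DbarForm p.1 p.2} ∧
    IsClosed (Γ1 : Set (L21 × L2)) ∧ ∀ g : L2, ((0 : L21), g) ∈ Γ1 → g = 0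

/-- TC3. -/
def TaskDense0 : Prop := Dense {u : L2 | ∃ F : L21, DbarFun u F}

/-- TC4. -/
def TaskDense1 : Prop := Dense {f : L21 | ∃ g : L2, DbarForm f g}

/-- TC5. -/
def TaskComplex : Prop := ∀ u F, DbarFun u F → DbarForm F 0

/-- TC6. rotations preserve the measure. -/
def TaskRot : Prop := ∀ a b : Circle,
  MeasurePreserving (fun z : ℂ × ℂ => ((a : ℂ) * z.1, (b : ℂ) * z.2)) μT μT

/-- TC7. modes are closed subspaces. -/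
def TaskModeClosed : Prop := TaskRot →
  ∀ m n : ℤ, ∃ V : Submodule ℂ L2, (V : Set L2) = {u | Mode m n u} ∧ IsClosed (V : Set L2)

/-- TC8. rotated functions. -/
def TaskRotFun : Prop := TaskRot → ∀ (a b : Circle) (u u' : L2) (F F' : L21), DbarFun u F →
  (u' =ᵐ[μT] fun z => u ((a : ℂ) * z.1, (b : ℂ) * z.2)) →
  (F'.fst =ᵐ[μT] fun z => (starRingEnd ℂ) (a : ℂ) * F.fst ((a : ℂ) * z.1, (b : ℂ) * z.2)) →
  (F'.snd =ᵐ[μT] fun z => (starRingEnd ℂ) (b : ℂ) * F.snd ((a : ℂ) * z.1, (b : ℂ) * z.2)) →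
  DbarFun u' F'

/-- TC9. rotated forms. -/
def TaskRotForm : Prop := TaskRot → ∀ (a b : Circle) (g g' : L2) (F F' : L21), DbarForm F g →
  (F'.fst =ᵐ[μT] fun z => (starRingEnd ℂ) (a : ℂ) * F.fst ((a : ℂ) * z.1, (b : ℂ) * z.2)) →
  (F'.snd =ᵐ[μT] fun z => (starRingEnd ℂ) (b : ℂ) * F.snd ((a : ℂ) * z.1, (b : ℂ) * z.2)) →
  (g' =ᵐ[μT] fun z => (starRingEnd ℂ) (a : ℂ) * (starRingEnd ℂ) (b : ℂ) *
    g ((a : ℂ) * z.1, (b : ℂ) * z.2)) → DbarForm F' g'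

/-- TC10. modes are invariant under the resolvent of `∂̄* ∂̄`. -/
def TaskModeInv0 : Prop := TaskRot → TaskRotFun →
  ∀ (m n : ℤ) (u : L2) (F : L21) (v : L2), DbarFun u F → DbarFunAdj F v → Mode m n (u + v) →
    Mode m n u

/-- TC11. modes are invariant under the resolvent of `∂̄ ∂̄*`. -/
def TaskModeInv2 : Prop := TaskRot → TaskRotForm →
  ∀ (m n : ℤ) (g : L2) (k : L21) (w : L2), DbarFormAdj g k → DbarForm k w → Mode m n (g + w) →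
    Mode m n g

/-- TC12. the modes span. -/
def TaskModeTotal : Prop :=
  (Submodule.span ℂ {u : L2 | ∃ m n : ℤ, Mode m n u}).topologicalClosure = ⊤

/-- compactness in each mode. -/
def Compact : Prop := ∀ m n : ℤ,
  TotallyBounded {u : L2 | Mode m n u ∧ ∃ F : L21, DbarFun u F ∧ ‖u‖^2 + ‖F‖^2 ≤ 1}

/-- TC13. compactness for the adjoint in each mode, by conjugation. -/
def TaskCompactAdj : Prop := Compact → ∀ m n : ℤ,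
  TotallyBounded {g : L2 | Mode m n g ∧ ∃ k : L21, DbarFormAdj g k ∧ ‖g‖^2 + ‖k‖^2 ≤ 1}

/-! ### compactness: reduction to the unit square -/

/-- Lebesgue measure on `(0,1)` -/
noncomputable def μI : Measure ℝ := volume.restrict (Ioo (0:ℝ) 1)

/-- Lebesgue measure on the unit square -/
noncomputable def μQ : Measure (ℝ × ℝ) := μI.prod μI

/-- test functions on the open unit square -/
def TestQ (φ : ℝ × ℝ → ℂ) : Prop :=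
  ContDiff ℝ ∞ φ ∧ HasCompactSupport φ ∧ tsupport φ ⊆ Ioo (0:ℝ) 1 ×ˢ Ioo (0:ℝ) 1

/-- `∂c/∂s - (ν/s) c = h` in the sense of distributions on the square -/
def Weak1 (ν : ℝ) (c h : ℝ × ℝ → ℂ) : Prop := ∀ φ, TestQ φ →
  ∫ x, c x * (fderiv ℝ φ x ((1:ℝ), (0:ℝ)) + ((ν / x.1 : ℝ) : ℂ) * φ x) ∂μQ = -∫ x, h x * φ x ∂μQ

/-- `∂c/∂ρ - (ν/ρ) c = h` in the sense of distributions on the square -/
def Weak2 (ν : ℝ) (c h : ℝ × ℝ → ℂ) : Prop := ∀ φ, TestQ φ →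
  ∫ x, c x * (fderiv ℝ φ x ((0:ℝ), (1:ℝ)) + ((ν / x.2 : ℝ) : ℂ) * φ x) ∂μQ = -∫ x, h x * φ x ∂μQ

/-- Lebesgue measure on `(-π, π)` -/
noncomputable def μΘ : Measure ℝ := volume.restrict (Ioo (-Real.pi) Real.pi)

/-- the coordinates `z₁ = s ρ e^{iθ₁}`, `z₂ = ρ e^{iθ₂}`; `x = ((s, ρ), (θ₁, θ₂))` -/
noncomputable def Pt (x : (ℝ × ℝ) × (ℝ × ℝ)) : ℂ × ℂ :=
  (((x.1.1 * x.1.2 : ℝ) : ℂ) * Complex.exp (x.2.1 * Complex.I),
    ((x.1.2 : ℝ) : ℂ) * Complex.exp (x.2.2 * Complex.I))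

/-- the character `e^{i(mθ₁+nθ₂)}` -/
noncomputable def chi (m n : ℤ) (θ : ℝ × ℝ) : ℂ :=
  Complex.exp ((((m : ℝ) * θ.1 + (n : ℝ) * θ.2 : ℝ) : ℂ) * Complex.I)

/-- `2 π √s ρ^(3/2)` -/
noncomputable def fac (x : ℝ × ℝ) : ℂ := ((2 * Real.pi * Real.sqrt x.1 * (x.2 * Real.sqrt x.2) : ℝ) : ℂ)

/-- `c` is the profile of `u`: `2π √s ρ^(3/2) u(s ρ e^{iθ₁}, ρ e^{iθ₂}) = e^{i(mθ₁+nθ₂)} c(s, ρ)` -/
def Prof (m n : ℤ) (u : L2) (c : Lp ℂ 2 μQ) : Prop :=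
  ∀ᵐ x ∂(μQ.prod (μΘ.prod μΘ)), fac x.1 * u (Pt x) = chi m n x.2 * c x.1

/-- TP1. polar coordinates. -/
def TaskPolar : Prop :=
  Measure.map Pt ((μQ.prod (μΘ.prod μΘ)).withDensity
    fun x => ENNReal.ofReal (x.1.1 * x.1.2 ^ 3)) = μT

/-- TP2. functions in a mode have a profile. -/
def TaskProfile : Prop := TaskPolar → ∀ (m n : ℤ) (u : L2), Mode m n u →
  ∃ c : Lp ℂ 2 μQ, Prof m n u c

/-- TP3. taking profiles is isometric. -/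
def TaskIso : Prop := TaskPolar → ∀ (m n : ℤ) (u u' : L2) (c c' : Lp ℂ 2 μQ),
  Prof m n u c → Prof m n u' c' → ‖c - c'‖ = ‖u - u'‖

/-- TP4. pairing a function in a mode with a function in the opposite mode. -/
def TaskPair : Prop := TaskPolar → ∀ (m n : ℤ) (u : L2) (c : Lp ℂ 2 μQ), Prof m n u c →
  ∀ (Ψ : ℂ × ℂ → ℂ) (g : ℝ × ℝ → ℂ), Measurable Ψ → Measurable g →
    (∀ x : (ℝ × ℝ) × (ℝ × ℝ), x.1 ∈ Ioo (0:ℝ) 1 ×ˢ Ioo (0:ℝ) 1 → Ψ (Pt x) = chi (-m) (-n) x.2 * g x.1) →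
    ∫ z, u z * Ψ z ∂μT = ∫ x, c x * (fac x * g x) ∂μQ

/-- TP5. Fourier coefficients of `F` against functions in a mode. -/
def TaskFourier : Prop := TaskPolar → ∀ (m n : ℤ) (F : L2), ∃ h : Lp ℂ 2 μQ, ‖h‖ ≤ ‖F‖ ∧
  ∀ (Φ : ℂ × ℂ → ℂ) (η : ℝ × ℝ → ℂ), Test Φ → TestQ η →
    (∀ x : (ℝ × ℝ) × (ℝ × ℝ), x.1 ∈ Ioo (0:ℝ) 1 ×ˢ Ioo (0:ℝ) 1 → Φ (Pt x) = chi (-m) (-n) x.2 * η x.1) →
    ∫ z, F z * Φ z ∂μT = ∫ x, h x * (fac x * η x) ∂μQ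

/-- TP6. multiplying a test function by a function smooth on the open square. -/
def TaskMulTest : Prop := ∀ (w φ : ℝ × ℝ → ℂ), TestQ φ →
  ContDiffOn ℝ ∞ w (Ioo (0:ℝ) 1 ×ˢ Ioo (0:ℝ) 1) → TestQ (fun x => w x * φ x)

/-- TP7. test functions in a mode. -/
def TaskTestFun : Prop := ∀ (m n : ℤ) (η : ℝ × ℝ → ℂ), TestQ η →
  ∃ Φ : ℂ × ℂ → ℂ, Test Φ ∧ ∀ x : (ℝ × ℝ) × (ℝ × ℝ), x.1 ∈ Ioo (0:ℝ) 1 ×ˢ Ioo (0:ℝ) 1 →
    Φ (Pt x) = chi (-m) (-n) x.2 * η x.1 ∧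
    dbar1 Φ (Pt x) = chi (-m + 1) (-n) x.2 * ((1 / (2 * x.1.2) : ℝ) *
      (fderiv ℝ η x.1 ((1:ℝ), (0:ℝ)) + (m / x.1.1 : ℝ) * η x.1)) ∧
    dbar2 Φ (Pt x) = chi (-m) (-n + 1) x.2 * ((1 / 2 : ℝ) *
      (fderiv ℝ η x.1 ((0:ℝ), (1:ℝ)) - (x.1.1 / x.1.2 : ℝ) * fderiv ℝ η x.1 ((1:ℝ), (0:ℝ))
        + (n / x.1.2 : ℝ) * η x.1))

/-- the weak equations for the profile of `u`, if `∂̄u = F` -/
def Transfer : Prop := ∀ (m n : ℤ) (u : L2) (F : L21) (c : Lp ℂ 2 μQ), DbarFun u F →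
  Prof m n u c → ∃ h1 h2 : Lp ℂ 2 μQ, ‖h1‖ ≤ 4 * ‖F‖ ∧ ‖h2‖ ≤ 4 * ‖F‖ ∧
      Weak1 (m + 1/2) c h1 ∧ Weak2 (m + n + 3/2) c h2

/-- TP8. -/
def TaskWeak : Prop := TaskPolar → TaskPair → TaskFourier → TaskMulTest → TaskTestFun → Transfer

/-- TQ1. integral form of the weak equation. -/
def TaskIntegral : Prop := ∀ (ν : ℝ) (c h : ℝ × ℝ → ℂ), MemLp c 2 μQ → MemLp h 2 μQ →
  Weak1 ν c h → ∃ e : ℝ → ℂ, AEStronglyMeasurable e μI ∧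
    ∀ᵐ x ∂μQ, c x = ((x.1 ^ ν : ℝ) : ℂ) *
      (e x.2 + ∫ t in (1/2 : ℝ)..x.1, ((t ^ (-ν) : ℝ) : ℂ) * h (t, x.2))

/-- approximation of a set of functions on the square by finite sums `p_i(s) α_i(ρ)` -/
def Approx1 (S : Set (ℝ × ℝ → ℂ)) : Prop := ∀ ε > 0, ∃ (N : ℕ) (p : Fin N → ℝ → ℂ),
  (∀ i, MemLp (p i) 2 μI) ∧ ∀ c ∈ S, ∃ α : Fin N → ℝ → ℂ, (∀ i, MemLp (α i) 2 μI) ∧
    eLpNorm (fun x : ℝ × ℝ => c x - ∑ i, p i x.1 * α i x.2) 2 μQ ≤ ENNReal.ofReal ε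

/-- approximation of a set of functions on the square by finite sums `α_i(s) p_i(ρ)` -/
def Approx2 (S : Set (ℝ × ℝ → ℂ)) : Prop := ∀ ε > 0, ∃ (N : ℕ) (p : Fin N → ℝ → ℂ),
  (∀ i, MemLp (p i) 2 μI) ∧ ∀ c ∈ S, ∃ α : Fin N → ℝ → ℂ, (∀ i, MemLp (α i) 2 μI) ∧
    eLpNorm (fun x : ℝ × ℝ => c x - ∑ i, α i x.1 * p i x.2) 2 μQ ≤ ENNReal.ofReal ε

/-- bounded sets of solutions of the weak equation in the first variable -/
def Sol1 (ν C : ℝ) : Set (ℝ × ℝ → ℂ) := {c | ∃ h : ℝ × ℝ → ℂ, MemLp c 2 μQ ∧ MemLp h 2 μQ ∧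
    eLpNorm c 2 μQ ≤ ENNReal.ofReal C ∧ eLpNorm h 2 μQ ≤ ENNReal.ofReal C ∧ Weak1 ν c h}

/-- bounded sets of solutions of the weak equation in the second variable -/
def Sol2 (ν C : ℝ) : Set (ℝ × ℝ → ℂ) := {c | ∃ h : ℝ × ℝ → ℂ, MemLp c 2 μQ ∧ MemLp h 2 μQ ∧
    eLpNorm c 2 μQ ≤ ENNReal.ofReal C ∧ eLpNorm h 2 μQ ≤ ENNReal.ofReal C ∧ Weak2 ν c h}

/-- TQ2. integral operators in the first variable with bounded kernel. -/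
def TaskHS : Prop := ∀ k : ℝ → ℝ → ℝ, Measurable (fun p : ℝ × ℝ => k p.1 p.2) →
  (∀ s t, |k s t| ≤ 1) → ∀ C : ℝ, 0 < C →
  Approx1 {c | ∃ h : ℝ × ℝ → ℂ, MemLp h 2 μQ ∧ eLpNorm h 2 μQ ≤ ENNReal.ofReal C ∧
    c = fun x => ∫ t, ((k x.1 t : ℝ) : ℂ) * h (t, x.2) ∂μI}

/-- TQ3. -/
def TaskPos : Prop := TaskIntegral → TaskHS → ∀ ν : ℝ, 1/2 ≤ ν → ∀ C : ℝ, 0 < C →
  Approx1 (Sol1 ν C)

/-- TQ4. -/
def TaskNeg : Prop := TaskIntegral → TaskHS → ∀ ν : ℝ, ν ≤ -(1/2) → ∀ C : ℝ, 0 < C →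
  Approx1 (Sol1 ν C)

/-- TQ5. the other variable, by the swap. -/
def TaskApproxSwap : Prop := ∀ ν C : ℝ, Approx1 (Sol1 ν C) → Approx2 (Sol2 ν C)

/-- TQ6. -/
def TaskTB : Prop := ∀ (S : Set (Lp ℂ 2 μQ)) (C : ℝ), (∀ c ∈ S, ‖c‖ ≤ C) →
  Approx1 ((fun c : Lp ℂ 2 μQ => (c : ℝ × ℝ → ℂ)) '' S) →
  Approx2 ((fun c : Lp ℂ 2 μQ => (c : ℝ × ℝ → ℂ)) '' S) → TotallyBounded S

/-- TQ7. assembly of compactness. -/
def TaskCompactAssembly : Prop :=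
  TaskPolar → TaskProfile → TaskIso → Transfer →
  (∀ ν : ℝ, 1/2 ≤ |ν| → ∀ C : ℝ, 0 < C → Approx1 (Sol1 ν C)) →
  (∀ ν : ℝ, 1/2 ≤ |ν| → ∀ C : ℝ, 0 < C → Approx2 (Sol2 ν C)) →
  TaskTB → Compact

/-! ### final -/

/-- an orthonormal basis of eigenforms of `□`; every left inverse `N` of `□` is diagonal in it -/
def Main : Prop := ∃ (ι : Type) (b : HilbertBasis ι ℂ L21) (l : ι → ℝ),
  (∀ i, Box (b i) ((l i : ℂ) • b i)) ∧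
  ∀ N : L21 →L[ℂ] L21, (∀ f h, Box f h → N h = f) → ∀ i, N (b i) = (((l i)⁻¹ : ℝ) : ℂ) • b i

/-- an orthonormal basis of eigenforms (assembly, helper903). -/
def ONB : Prop := ∃ (ι : Type) (b : HilbertBasis ι ℂ L21) (l : ι → ℝ),
  ∀ i, Box (b i) ((l i : ℂ) • b i)

end Pool.Agent.H903HT
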