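import Mathlib
import Pool.Agent.H903HT.Stmts

/-! Task Dense1: the domain of `∂̄` on (0,1)-forms is dense. -/

set_option autoImplicit false

open MeasureTheory Filter Topology Set
open scoped ContDiff

namespace Pool.Agent.H903HT

namespace D1

lemma isOpen_T : IsOpen T := by
  have h : T = {z : ℂ × ℂ | ‖z.1‖ < ‖z.2‖} ∩ {z : ℂ × ℂ | ‖z.2‖ < 1} := rfl
  rw [h]
  exact (isOpen_lt (by fun_prop) (by fun_prop)).inter (isOpen_lt (by fun_prop) continuous_const)

instance finT : IsFiniteMeasure μT := by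
  constructor
  unfold μT
  rw [Measure.restrict_apply_univ]
  have h : T ⊆ Metric.closedBall (0 : ℂ × ℂ) 1 := by
    intro z hz
    rw [mem_closedBall_zero_iff, Prod.norm_def]
    exact max_le (hz.1.trans hz.2).le hz.2.le
  exact lt_of_le_of_lt (measure_mono h) measure_closedBall_lt_top

lemma test_memLp {φ : ℂ × ℂ → ℂ} (h : Test φ) : MemLp φ 2 μT :=
  h.1.continuous.memLp_of_hasCompactSupport h.2.1

lemma test_fderiv {φ : ℂ × ℂ → ℂ} (h : Test φ) (v : ℂ × ℂ) :
    Test (fun z => fderiv ℝ φ z v) := by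
  refine ⟨?_, ?_, ?_⟩
  · exact (h.1.fderiv_right (m := ∞) (by simp)).clm_apply contDiff_const
  · exact h.2.1.fderiv_apply ℝ v
  · exact (tsupport_fderiv_apply_subset ℝ v).trans h.2.2

lemma tsupport_add_sub {φ ψ : ℂ × ℂ → ℂ} :
    tsupport (fun z => φ z + ψ z) ⊆ tsupport φ ∪ tsupport ψ := by
  refine closure_minimal ?_ ((isClosed_tsupport φ).union (isClosed_tsupport ψ))
  intro z hz
  by_contra hcon
  rw [mem_union, not_or] at hcon
  apply hz
  have h1 : φ z = 0 := image_eq_zero_of_notMem_tsupport hcon.1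
  have h2 : ψ z = 0 := image_eq_zero_of_notMem_tsupport hcon.2
  simp [h1, h2]

lemma test_add {φ ψ : ℂ × ℂ → ℂ} (h : Test φ) (h' : Test ψ) : Test (fun z => φ z + ψ z) :=
  ⟨h.1.add h'.1, h.2.1.add h'.2.1, tsupport_add_sub.trans (union_subset h.2.2 h'.2.2)⟩

lemma test_mul {φ : ℂ × ℂ → ℂ} (h : Test φ) (c : ℂ) : Test (fun z => c * φ z) :=
  ⟨contDiff_const.mul h.1, h.2.1.mul_left,
    (tsupport_mul_subset_right (f := fun _ => c) (g := φ)).trans h.2.2⟩

lemma test_zero : Test (fun _ => 0) :=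
  ⟨contDiff_const, HasCompactSupport.zero, by
    have : tsupport (fun _ : ℂ × ℂ => (0 : ℂ)) = ∅ := by
      rw [tsupport_eq_empty_iff]; rfl
    rw [this]; exact empty_subset _⟩

lemma test_int_mul {φ ψ : ℂ × ℂ → ℂ} (h : Test φ) (h' : Test ψ) (μ : Measure (ℂ × ℂ))
    [IsFiniteMeasureOnCompacts μ] : Integrable (fun z => φ z * ψ z) μ :=
  (h.1.continuous.mul h'.1.continuous).integrable_of_hasCompactSupport h.2.1.mul_right

lemma int_T {φ ψ : ℂ × ℂ → ℂ} (h : Test φ) :
    ∫ z, φ z * ψ z ∂μT = ∫ z, φ z * ψ z := by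
  unfold μT
  refine setIntegral_eq_integral_of_forall_compl_eq_zero (fun z hz => ?_)
  have h1 : φ z = 0 := image_eq_zero_of_notMem_tsupport (fun hc => hz (h.2.2 hc))
  rw [h1, zero_mul]

lemma ibp {φ ψ : ℂ × ℂ → ℂ} (h : Test φ) (h' : Test ψ) (v : ℂ × ℂ) :
    ∫ z, ψ z * fderiv ℝ φ z v ∂μT = -∫ z, fderiv ℝ ψ z v * φ z ∂μT := by
  rw [int_T h', int_T (test_fderiv h' v)]
  have hH : (volume : Measure (ℂ × ℂ)).IsAddHaarMeasure :=
    inferInstanceAs ((volume : Measure ℂ).prod volume).IsAddHaarMeasure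
  refine integral_mul_fderiv_eq_neg_fderiv_mul_of_integrable ?_ ?_ ?_ ?_ ?_
  · exact test_int_mul (test_fderiv h' v) h volume
  · exact test_int_mul h' (test_fderiv h v) volume
  · exact test_int_mul h' h volume
  · exact fun x _ => (h'.1.differentiable (by simp)).differentiableAt
  · exact fun x _ => (h.1.differentiable (by simp)).differentiableAt

lemma dbar1_test {φ : ℂ × ℂ → ℂ} (h : Test φ) : Test (dbar1 φ) := by
  have := test_mul (test_add (test_fderiv h ((1 : ℂ), (0 : ℂ)))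
    (test_mul (test_fderiv h (Complex.I, (0 : ℂ))) Complex.I)) (1 / 2)
  convert this using 2 with z
  unfold dbar1
  ring

lemma dbar2_test {φ : ℂ × ℂ → ℂ} (h : Test φ) : Test (dbar2 φ) := by
  have := test_mul (test_add (test_fderiv h ((0 : ℂ), (1 : ℂ)))
    (test_mul (test_fderiv h ((0 : ℂ), Complex.I)) Complex.I)) (1 / 2)
  convert this using 2 with z
  unfold dbar2
  ring

lemma ibp1 {φ ψ : ℂ × ℂ → ℂ} (h : Test φ) (h' : Test ψ) :
    ∫ z, ψ z * dbar1 φ z ∂μT = -∫ z, dbar1 ψ z * φ z ∂μT := by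
  have e1 : ∀ z, ψ z * dbar1 φ z = (1 / 2 : ℂ) * (ψ z * fderiv ℝ φ z ((1 : ℂ), (0 : ℂ))) +
      (Complex.I / 2) * (ψ z * fderiv ℝ φ z (Complex.I, (0 : ℂ))) := by
    intro z; unfold dbar1; ring
  have e2 : ∀ z, dbar1 ψ z * φ z = (1 / 2 : ℂ) * (fderiv ℝ ψ z ((1 : ℂ), (0 : ℂ)) * φ z) +
      (Complex.I / 2) * (fderiv ℝ ψ z (Complex.I, (0 : ℂ)) * φ z) := by
    intro z; unfold dbar1; ring
  simp only [e1, e2]
  rw [integral_add ((test_int_mul h' (test_fderiv h _) μT).const_mul _)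
      ((test_int_mul h' (test_fderiv h _) μT).const_mul _),
    integral_add ((test_int_mul (test_fderiv h' _) h μT).const_mul _)
      ((test_int_mul (test_fderiv h' _) h μT).const_mul _),
    integral_const_mul, integral_const_mul, integral_const_mul, integral_const_mul,
    ibp h h', ibp h h']
  ring

lemma ibp2 {φ ψ : ℂ × ℂ → ℂ} (h : Test φ) (h' : Test ψ) :
    ∫ z, ψ z * dbar2 φ z ∂μT = -∫ z, dbar2 ψ z * φ z ∂μT := by
  have e1 : ∀ z, ψ z * dbar2 φ z = (1 / 2 : ℂ) * (ψ z * fderiv ℝ φ z ((0 : ℂ), (1 : ℂ))) +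
      (Complex.I / 2) * (ψ z * fderiv ℝ φ z ((0 : ℂ), Complex.I)) := by
    intro z; unfold dbar2; ring
  have e2 : ∀ z, dbar2 ψ z * φ z = (1 / 2 : ℂ) * (fderiv ℝ ψ z ((0 : ℂ), (1 : ℂ)) * φ z) +
      (Complex.I / 2) * (fderiv ℝ ψ z ((0 : ℂ), Complex.I) * φ z) := by
    intro z; unfold dbar2; ring
  simp only [e1, e2]
  rw [integral_add ((test_int_mul h' (test_fderiv h _) μT).const_mul _)
      ((test_int_mul h' (test_fderiv h _) μT).const_mul _),
    integral_add ((test_int_mul (test_fderiv h' _) h μT).const_mul _)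
      ((test_int_mul (test_fderiv h' _) h μT).const_mul _),
    integral_const_mul, integral_const_mul, integral_const_mul, integral_const_mul,
    ibp h h', ibp h h']
  ring

/-- test forms -/
def TF : Submodule ℂ L21 where
  carrier := {f | ∃ φ₁ φ₂, Test φ₁ ∧ Test φ₂ ∧ f.fst =ᵐ[μT] φ₁ ∧ f.snd =ᵐ[μT] φ₂}
  zero_mem' := ⟨fun _ => 0, fun _ => 0, test_zero, test_zero,
    Lp.coeFn_zero _ _ _, Lp.coeFn_zero _ _ _⟩
  add_mem' := by
    rintro f g ⟨φ₁, φ₂, h1, h2, h3, h4⟩ ⟨ψ₁, ψ₂, k1, k2, k3, k4⟩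
    refine ⟨_, _, test_add h1 k1, test_add h2 k2, ?_, ?_⟩
    · refine (Lp.coeFn_add f.fst g.fst).trans ?_
      filter_upwards [h3, k3] with z hz kz
      simp [hz, kz]
    · refine (Lp.coeFn_add f.snd g.snd).trans ?_
      filter_upwards [h4, k4] with z hz kz
      simp [hz, kz]
  smul_mem' := by
    rintro c f ⟨φ₁, φ₂, h1, h2, h3, h4⟩
    refine ⟨_, _, test_mul h1 c, test_mul h2 c, ?_, ?_⟩
    · refine (Lp.coeFn_smul c f.fst).trans ?_
      filter_upwards [h3] with z hz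
      simp [hz]
    · refine (Lp.coeFn_smul c f.snd).trans ?_
      filter_upwards [h4] with z hz
      simp [hz]

lemma TF_sub : (TF : Set L21) ⊆ {f : L21 | ∃ g : L2, DbarForm f g} := by
  rintro f ⟨φ₁, φ₂, h1, h2, h3, h4⟩
  have ht : Test (fun z => dbar1 φ₂ z + (-1) * dbar2 φ₁ z) :=
    test_add (dbar1_test h2) (test_mul (dbar2_test h1) (-1))
  refine ⟨(test_memLp ht).toLp _, ?_⟩
  intro φ hφ
  have e1 : ∫ z, (f.snd z * dbar1 φ z - f.fst z * dbar2 φ z) ∂μT =
      ∫ z, (φ₂ z * dbar1 φ z - φ₁ z * dbar2 φ z) ∂μT := by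
    refine integral_congr_ae ?_
    filter_upwards [h3, h4] with z hz hz'
    rw [hz, hz']
  have e2 : ∫ z, ((test_memLp ht).toLp _ : L2) z * φ z ∂μT =
      ∫ z, (dbar1 φ₂ z * φ z - dbar2 φ₁ z * φ z) ∂μT := by
    refine integral_congr_ae ?_
    filter_upwards [(test_memLp ht).coeFn_toLp] with z hz
    rw [hz]
    ring
  rw [e1, e2, integral_sub (test_int_mul h2 (dbar1_test hφ) μT) (test_int_mul h1 (dbar2_test hφ) μT),
    integral_sub (test_int_mul (dbar1_test h2) hφ μT) (test_int_mul (dbar2_test h1) hφ μT),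
    ibp1 hφ h2, ibp2 hφ h1]
  ring

/-- an element of `L2` orthogonal to all test functions is zero -/
lemma eq_zero_of_orth (f : L2) (h : ∀ φ (hφ : Test φ), inner ℂ ((test_memLp hφ).toLp φ) f = 0) :
    f = 0 := by
  have key : ∀ᵐ z ∂μT, z ∈ T → f z = 0 := by
    refine isOpen_T.ae_eq_zero_of_integral_contDiff_smul_eq_zero ?_ ?_
    · exact ((Lp.memLp f).integrable (by norm_num)).locallyIntegrable.locallyIntegrableOn _
    · intro g hg1 hg2 hg3
      have ht : Test (fun z => ((g z : ℝ) : ℂ)) := by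
        refine ⟨Complex.ofRealCLM.contDiff.comp hg1, ?_, ?_⟩
        · exact hg2.comp_left (g := fun x : ℝ => (x : ℂ)) Complex.ofReal_zero
        · exact (tsupport_comp_subset (g := fun x : ℝ => (x : ℂ)) Complex.ofReal_zero _).trans hg3
      have h1 := h _ ht
      rw [L2.inner_def] at h1
      rw [← h1]
      refine integral_congr_ae ?_
      filter_upwards [(test_memLp ht).coeFn_toLp] with z hz
      rw [hz]
      simp [RCLike.inner_apply, mul_comm]
  rw [Lp.eq_zero_iff_ae_eq_zero]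
  have hT : ∀ᵐ z ∂μT, z ∈ T := ae_restrict_mem isOpen_T.measurableSet
  filter_upwards [key, hT] with z h1 h2
  exact h1 h2

end D1

open D1

theorem taskDense1 : TaskDense1 := by
  have h1 : Dense (TF : Set L21) := by
    rw [Submodule.dense_iff_topologicalClosure_eq_top,
      Submodule.topologicalClosure_eq_top_iff, Submodule.eq_bot_iff]
    intro f hf
    rw [Submodule.mem_orthogonal] at hf
    have hf1 : f.fst = 0 := by
      refine eq_zero_of_orth _ (fun φ hφ => ?_)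
      have h2 := hf (WithLp.toLp 2 ((test_memLp hφ).toLp φ, (0 : L2)))
        ⟨φ, fun _ => 0, hφ, test_zero, (test_memLp hφ).coeFn_toLp, Lp.coeFn_zero _ _ _⟩
      rw [WithLp.prod_inner_apply] at h2
      simpa using h2
    have hf2 : f.snd = 0 := by
      refine eq_zero_of_orth _ (fun φ hφ => ?_)
      have h2 := hf (WithLp.toLp 2 ((0 : L2), (test_memLp hφ).toLp φ))
        ⟨fun _ => 0, φ, test_zero, hφ, Lp.coeFn_zero _ _ _, (test_memLp hφ).coeFn_toLp⟩
      rw [WithLp.prod_inner_apply] at h2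
      simpa using h2
    have : f = WithLp.toLp 2 (f.fst, f.snd) := rfl
    rw [this, hf1, hf2]
    rfl
  exact h1.mono TF_sub

end Pool.Agent.H903HT
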