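import Pool.Agent.H903HT.Stmts

/-! # Task EigTotal of project H903-HT (helper460) -/

set_option autoImplicit false

open MeasureTheory Filter Topology Set
open scoped ContDiff

namespace Pool.Agent.H903HT

theorem eigTotal_adj_smul {H0 H1 : Type} [NormedAddCommGroup H0] [InnerProductSpace ℂ H0]
    [NormedAddCommGroup H1] [InnerProductSpace ℂ H1]
    (Γ : Submodule ℂ (H0 × H1)) (c : ℂ) {F : H1} {v : H0} (h : (F, v) ∈ Adj Γ) :
    (c • F, c • v) ∈ Adj Γ := by
  intro q hq
  have h1 := h q hq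
  show inner ℂ q.2 (c • F) = inner ℂ q.1 (c • v)
  rw [inner_smul_right, inner_smul_right]
  exact congrArg (fun z => c * z) h1

/-- an eigenvector of the resolvent is an eigenvector of `S* S` -/
theorem eigTotal_eig {H0 H1 : Type} [NormedAddCommGroup H0] [InnerProductSpace ℂ H0]
    [NormedAddCommGroup H1] [InnerProductSpace ℂ H1]
    (Γ : Submodule ℂ (H0 × H1)) (R : H0 →L[ℂ] H0) (hsymm : R.toLinearMap.IsSymmetric)
    (hinj : ∀ h, R h = 0 → h = 0)
    (hres : ∀ h, ∃ (F : H1) (v : H0), (R h, F) ∈ Γ ∧ (F, v) ∈ Adj Γ ∧ R h + v = h ∧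
      ‖R h‖ ^ 2 + ‖F‖ ^ 2 ≤ ‖h‖ ^ 2) (x : H0) (hx : x ≠ 0) (μ : ℂ) (hμ : R x = μ • x) :
    x ∈ Eig Γ := by
  have hμ0 : μ ≠ 0 := by
    rintro rfl
    rw [zero_smul] at hμ
    exact hx (hinj x hμ)
  have hreal : (starRingEnd ℂ) μ = μ := by
    have h1 : inner ℂ (R x) x = inner ℂ x (R x) := hsymm x x
    rw [hμ, inner_smul_left, inner_smul_right] at h1
    have h2 : inner ℂ x x ≠ (0 : ℂ) := inner_self_ne_zero.2 hx
    exact mul_right_cancel₀ h2 h1
  have hre : ((μ.re : ℝ) : ℂ) = μ := Complex.conj_eq_iff_re.1 hreal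
  obtain ⟨F, v, h1, h2, h3, -⟩ := hres x
  refine ⟨(μ.re)⁻¹ - 1, μ⁻¹ • F, ?_, ?_⟩
  · have h4 := Γ.smul_mem μ⁻¹ h1
    rw [hμ, Prod.smul_mk, smul_smul, inv_mul_cancel₀ hμ0, one_smul] at h4
    exact h4
  · have h4 := eigTotal_adj_smul Γ μ⁻¹ h2
    have h5 : v = (1 - μ) • x := by
      rw [hμ] at h3
      rw [sub_smul, one_smul]
      exact eq_sub_of_add_eq' h3
    have h6 : μ⁻¹ • v = (((μ.re)⁻¹ - 1 : ℝ) : ℂ) • x := by
      rw [h5, smul_smul]
      congr 1
      push_cast
      rw [hre]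
      field_simp
    rw [h6] at h4
    exact h4

theorem taskEigTotal : TaskEigTotal := by
  intro hR H0 H1 _ _ _ _ _ _ Γ hΓ ι V hVc hVinv hVtop hVtb
  obtain ⟨R, hsymm, hinj, hres, -⟩ := hR H0 H1 Γ hΓ
  set E : Submodule ℂ H0 := Submodule.span ℂ (Eig Γ) with hE
  have hRV : ∀ i, ∀ h ∈ V i, R h ∈ V i := by
    intro i h hh
    obtain ⟨F, v, h1, h2, h3, -⟩ := hres h
    exact hVinv i (R h) F v h1 h2 (by rw [h3]; exact hh)
  have hmain : ∀ i, V i ≤ E.topologicalClosure := by
    intro i
    have : CompleteSpace (V i) := (hVc i).completeSpace_coe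
    let Ri : V i →L[ℂ] V i := (R.comp (V i).subtypeL).codRestrict (V i) (fun x => hRV i x x.2)
    have hRi : ∀ x : V i, ((Ri x : V i) : H0) = R x := fun x => rfl
    have hsym : Ri.toLinearMap.IsSymmetric := by
      intro x y
      show inner ℂ ((Ri x : V i) : H0) (y : H0) = inner ℂ (x : H0) ((Ri y : V i) : H0)
      rw [hRi, hRi]
      exact hsymm x y
    have hcomp : IsCompactOperator Ri := by
      refine (isCompactOperator_iff_image_closedBall_subset_compact
        (Ri : V i →ₗ[ℂ] V i) (r := 1) one_pos).2 ?_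
      have htb : TotallyBounded ((fun x : V i => (x : H0)) ⁻¹'
          {u : H0 | u ∈ V i ∧ ∃ F, (u, F) ∈ Γ ∧ ‖u‖ ^ 2 + ‖F‖ ^ 2 ≤ 1}) :=
        totallyBounded_preimage (isUniformInducing_val (V i : Set H0)) (hVtb i)
      refine ⟨closure ((fun x : V i => (x : H0)) ⁻¹'
          {u : H0 | u ∈ V i ∧ ∃ F, (u, F) ∈ Γ ∧ ‖u‖ ^ 2 + ‖F‖ ^ 2 ≤ 1}), ?_, ?_⟩
      · exact htb.closure.isCompact_of_isClosed isClosed_closure
      · rintro _ ⟨x, hx, rfl⟩
        apply subset_closure
        obtain ⟨F, v, h1, h2, h3, h4⟩ := hres x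
        refine ⟨(Ri x).2, F, h1, ?_⟩
        have h5 : ‖(x : H0)‖ ≤ 1 := by
          have := mem_closedBall_zero_iff.1 hx
          exact this
        have h6 : ‖(x : H0)‖ ^ 2 ≤ 1 := by
          have := norm_nonneg (x : H0)
          nlinarith
        exact h4.trans h6
    have hbot := ContinuousLinearMap.orthogonalComplement_iSup_eigenspaces_eq_bot hcomp hsym
    have htop := (Submodule.topologicalClosure_eq_top_iff
      (K := ⨆ μ, Module.End.eigenspace (Ri : Module.End ℂ (V i)) μ)).2 hbot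
    have hle : (⨆ μ, Module.End.eigenspace (Ri : Module.End ℂ (V i)) μ) ≤
        E.topologicalClosure.comap (V i).subtype := by
      apply iSup_le
      intro μ x hx
      rw [Module.End.mem_eigenspace_iff] at hx
      have hx' : R (x : H0) = μ • (x : H0) := by
        have := congrArg (fun z : V i => (z : H0)) hx
        exact this
      by_cases h0 : (x : H0) = 0
      · show (x : H0) ∈ E.topologicalClosure
        rw [h0]
        exact Submodule.zero_mem _
      · show (x : H0) ∈ E.topologicalClosure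
        apply Submodule.le_topologicalClosure
        apply Submodule.subset_span
        exact eigTotal_eig Γ R hsymm hinj hres x h0 μ hx'
    have hcl : IsClosed ((E.topologicalClosure.comap (V i).subtype : Submodule ℂ (V i)) :
        Set (V i)) :=
      (Submodule.isClosed_topologicalClosure E).preimage continuous_subtype_val
    have h7 := Submodule.topologicalClosure_minimal _ hle hcl
    rw [htop] at h7
    intro x hx
    have h8 : (⟨x, hx⟩ : V i) ∈ (⊤ : Submodule ℂ (V i)) := trivial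
    exact h7 h8
  rw [eq_top_iff, ← hVtop]
  exact Submodule.topologicalClosure_minimal _ (iSup_le hmain)
    (Submodule.isClosed_topologicalClosure E)

end Pool.Agent.H903HT
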