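import Mathlib

/-!
Spectrum of a bounded operator which is diagonal with real entries in a Hilbert basis.
-/

set_option autoImplicit false

open Filter Topology Set

namespace Pool.Agent.H903HT

variable {H : Type} [NormedAddCommGroup H] [InnerProductSpace ℂ H] [CompleteSpace H]

theorem diag_inner {ι : Type} (b : HilbertBasis ι ℂ H) (μ : ι → ℝ) (N : H →L[ℂ] H)
    (hN : ∀ i, N (b i) = ((μ i : ℝ) : ℂ) • b i) (i : ι) (x : H) :
    inner ℂ (b i) (N x) = (μ i : ℂ) * inner ℂ (b i) x := by
  classical
  have hd : Dense ((Submodule.span ℂ (range b) : Submodule ℂ H) : Set H) := by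
    exact (Submodule.dense_iff_topologicalClosure_eq_top).2 b.dense_span
  have key : (innerSL ℂ (b i)).comp N = (μ i : ℂ) • innerSL ℂ (b i) := by
    refine ContinuousLinearMap.ext_on hd ?_
    rintro _ ⟨j, rfl⟩
    simp only [ContinuousLinearMap.comp_apply, _root_.smul_apply, innerSL_apply_apply,
      hN j, inner_smul_right, smul_eq_mul]
    rcases eq_or_ne i j with rfl | h
    · rfl
    · rw [b.orthonormal.2 h]; simp
  have := congrArg (fun f => f x) key
  simpa using this

theorem spectrum_diag {ι : Type} (b : HilbertBasis ι ℂ H) (μ : ι → ℝ) (N : H →L[ℂ] H)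
    (hN : ∀ i, N (b i) = ((μ i : ℝ) : ℂ) • b i) :
    spectrum ℂ N = closure (range fun i => ((μ i : ℝ) : ℂ)) := by
  classical
  apply Subset.antisymm
  · intro z hz
    by_contra hcl
    have hopen := isClosed_closure (s := range fun i => ((μ i : ℝ) : ℂ)) |>.isOpen_compl
    obtain ⟨δ, hδ, hball⟩ := Metric.isOpen_iff.1 hopen z hcl
    have hdist : ∀ i, δ ≤ ‖z - (μ i : ℂ)‖ := by
      intro i
      by_contra hlt
      push Not at hlt
      have : ((μ i : ℝ) : ℂ) ∈ Metric.ball z δ := by
        rw [Metric.mem_ball, dist_comm, dist_eq_norm]; exact hlt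
      exact hball this (subset_closure ⟨i, rfl⟩)
    let A : H →L[ℂ] H := algebraMap ℂ (H →L[ℂ] H) z - N
    have hA : ∀ x, A x = z • x - N x := by
      intro x; simp [A, Algebra.algebraMap_eq_smul_one]
    have hAi : ∀ i x, inner ℂ (b i) (A x) = (z - μ i) * inner ℂ (b i) x := by
      intro i x
      rw [hA, inner_sub_right, inner_smul_right, diag_inner b μ N hN]
      ring
    have hbelow : ∀ x, δ * ‖x‖ ≤ ‖A x‖ := by
      intro x
      have h1 : HasSum (fun i => ‖inner ℂ (b i) x‖ ^ 2) (‖x‖ ^ 2) := by
        have := b.hasSum_inner_mul_inner x x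
        have h2 := this.mapL Complex.reCLM
        simp only [Complex.reCLM_apply] at h2
        convert h2 using 1
        · ext i
          rw [← inner_conj_symm x (b i), mul_comm, Complex.mul_conj, Complex.normSq_eq_norm_sq,
            Complex.ofReal_re]
        · rw [inner_self_eq_norm_sq_to_K]; norm_cast
      have h1' : HasSum (fun i => ‖inner ℂ (b i) (A x)‖ ^ 2) (‖A x‖ ^ 2) := by
        have := b.hasSum_inner_mul_inner (A x) (A x)
        have h2 := this.mapL Complex.reCLM
        simp only [Complex.reCLM_apply] at h2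
        convert h2 using 1
        · ext i
          rw [← inner_conj_symm (A x) (b i), mul_comm, Complex.mul_conj, Complex.normSq_eq_norm_sq,
            Complex.ofReal_re]
        · rw [inner_self_eq_norm_sq_to_K]; norm_cast
      have h3 : δ ^ 2 * ‖x‖ ^ 2 ≤ ‖A x‖ ^ 2 := by
        refine hasSum_le ?_ (h1.mul_left (δ ^ 2)) h1'
        intro i
        rw [hAi, norm_mul, mul_pow]
        have := hdist i
        gcongr
      have : (δ * ‖x‖) ^ 2 ≤ ‖A x‖ ^ 2 := by rw [mul_pow]; exact h3
      exact le_of_sq_le_sq this (norm_nonneg _)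
    have hanti : AntilipschitzWith (Real.toNNReal δ⁻¹) A := by
      refine A.antilipschitz_of_bound fun x => ?_
      rw [Real.coe_toNNReal _ (inv_nonneg.2 hδ.le)]
      rw [inv_mul_eq_div, le_div_iff₀ hδ, mul_comm]
      exact hbelow x
    have hclosed : IsClosed (range A) := hanti.isClosed_range A.uniformContinuous
    have hne : ∀ i, z - (μ i : ℂ) ≠ 0 := by
      intro i h0
      have := hdist i
      rw [h0, norm_zero] at this
      linarith
    have hdense : Dense (range A) := by
      have hd : Dense ((Submodule.span ℂ (range b) : Submodule ℂ H) : Set H) :=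
        (Submodule.dense_iff_topologicalClosure_eq_top).2 b.dense_span
      refine hd.mono ?_
      have : (Submodule.span ℂ (range b) : Submodule ℂ H) ≤ LinearMap.range A.toLinearMap := by
        rw [Submodule.span_le]
        rintro _ ⟨i, rfl⟩
        refine ⟨(z - μ i)⁻¹ • b i, ?_⟩
        show A ((z - μ i)⁻¹ • b i) = b i
        rw [map_smul, hA, hN, ← sub_smul, smul_smul, inv_mul_cancel₀ (hne i), one_smul]
      intro x hx
      obtain ⟨y, hy⟩ := this hx
      exact ⟨y, hy⟩
    have hsurj : Function.Surjective A := by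
      rw [← range_eq_univ, ← hclosed.closure_eq]
      exact hdense.closure_eq
    have hunit : IsUnit A := (ContinuousLinearMap.isUnit_iff_bijective).2 ⟨hanti.injective, hsurj⟩
    exact hz hunit
  · apply closure_minimal _ (spectrum.isClosed N)
    rintro _ ⟨i, rfl⟩
    intro hu
    have hinj := ((ContinuousLinearMap.isUnit_iff_bijective).1 hu).1
    have h0 : (algebraMap ℂ (H →L[ℂ] H) ((μ i : ℝ) : ℂ) - N) (b i) = 0 := by
      simp [Algebra.algebraMap_eq_smul_one, hN i]
    have : b i = 0 := hinj (by rw [h0, map_zero])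
    have h1 := b.orthonormal.1 i
    rw [this, norm_zero] at h1
    exact zero_ne_one h1

end Pool.Agent.H903HT
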