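import Pool.Agent.H903HT.Stmts
import Pool.Agent.H903HT.Spec

/-!
Assembly of the pure point spectrum theorem for the `∂̄`-Neumann operator of the Hartogs triangle
(MP_169ce5_an), from the tasks.
-/

set_option autoImplicit false

open MeasureTheory Filter Topology Set
open scoped ContDiff

namespace Pool.Agent.H903HT

theorem onb_of_tasks (hRes : TaskResolvent) (hEig : TaskEigTotal) (hCore : TaskCore)
    (hHodge : TaskHodge) (hAdj : TaskAdj) (hBox : TaskBoxClosed) (hONB : TaskONB)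
    (hC0 : TaskClosed0) (hC1 : TaskClosed1) (hD0 : TaskDense0) (hD1 : TaskDense1)
    (hCx : TaskComplex) (hRot : TaskRot) (hMC : TaskModeClosed) (hRF : TaskRotFun)
    (hRFm : TaskRotForm) (hM0 : TaskModeInv0) (hM2 : TaskModeInv2) (hMT : TaskModeTotal)
    (hCpt : Compact) (hCA : TaskCompactAdj) : ONB := by
  classical
  obtain ⟨Γ0, hΓ0, hcl0, hs0⟩ := hC0
  obtain ⟨Γ1, hΓ1, hcl1, hs1⟩ := hC1
  have m0 : ∀ u F, (u, F) ∈ Γ0 ↔ DbarFun u F := by
    intro u F
    have : ((u, F) ∈ (Γ0 : Set (L2 × L21))) ↔ (u, F) ∈ {p : L2 × L21 | DbarFun p.1 p.2} := by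
      rw [hΓ0]
    simpa using this
  have m1 : ∀ f g, (f, g) ∈ Γ1 ↔ DbarForm f g := by
    intro f g
    have : ((f, g) ∈ (Γ1 : Set (L21 × L2))) ↔ (f, g) ∈ {p : L21 × L2 | DbarForm p.1 p.2} := by
      rw [hΓ1]
    simpa using this
  have a0 : ∀ f v, (f, v) ∈ Adj Γ0 ↔ DbarFunAdj f v := by
    intro f v
    constructor
    · intro h u F huF
      exact h (u, F) ((m0 u F).2 huF)
    · intro h q hq
      exact h q.1 q.2 ((m0 q.1 q.2).1 hq)
  have a1 : ∀ g k, (g, k) ∈ Adj Γ1 ↔ DbarFormAdj g k := by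
    intro g k
    constructor
    · intro h f G hfG
      exact h (f, G) ((m1 f G).2 hfG)
    · intro h q hq
      exact h q.1 q.2 ((m1 q.1 q.2).1 hq)
  have op0 : ClosedOp Γ0 := ⟨hcl0, hs0, by
    have : {u : L2 | ∃ f : L21, (u, f) ∈ Γ0} = {u : L2 | ∃ F : L21, DbarFun u F} := by
      ext u; simp only [mem_ofPred_eq, m0]
    rw [this]; exact hD0⟩
  have op1 : ClosedOp Γ1 := ⟨hcl1, hs1, by
    have : {f : L21 | ∃ g : L2, (f, g) ∈ Γ1} = {f : L21 | ∃ g : L2, DbarForm f g} := by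
      ext u; simp only [mem_ofPred_eq, m1]
    rw [this]; exact hD1⟩
  obtain ⟨Γ1', hΓ1', op1', hdd⟩ := hAdj L21 L2 Γ1 op1
  have m1' : ∀ g k, (g, k) ∈ Γ1' ↔ DbarFormAdj g k := by
    intro g k
    have : ((g, k) ∈ (Γ1' : Set (L2 × L21))) ↔ (g, k) ∈ Adj Γ1 := by rw [hΓ1']
    rw [← a1]; simpa using this
  have a1' : ∀ k w, (k, w) ∈ Adj Γ1' ↔ DbarForm k w := by
    intro k w
    rw [hdd, ← m1]; rfl
  have hcx : ∀ u F, (u, F) ∈ Γ0 → (F, (0 : L2)) ∈ Γ1 := by
    intro u F h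
    exact (m1 _ _).2 (hCx u F ((m0 _ _).1 h))
  -- modes
  choose V hV hVc using hMC hRot
  let W : ℤ × ℤ → Submodule ℂ L2 := fun i => V i.1 i.2
  have hW : ∀ i u, u ∈ W i ↔ Mode i.1 i.2 u := by
    intro i u
    have : (u ∈ (V i.1 i.2 : Set L2)) ↔ u ∈ {u : L2 | Mode i.1 i.2 u} := by rw [hV]
    simpa [W] using this
  have hWtop : (⨆ i, W i).topologicalClosure = ⊤ := by
    rw [eq_top_iff, ← hMT]
    apply Submodule.topologicalClosure_mono
    rw [Submodule.span_le]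
    rintro u ⟨m, n, hu⟩
    exact (le_iSup W (m, n)) ((hW (m, n) u).2 hu)
  have e0 : (Submodule.span ℂ (Eig Γ0)).topologicalClosure = ⊤ := by
    refine hEig hRes L2 L21 Γ0 op0 (ℤ × ℤ) W (fun i => hVc i.1 i.2) ?_ hWtop ?_
    · intro i u F v h1 h2 h3
      rw [hW] at h3 ⊢
      exact hM0 hRot (hRF) i.1 i.2 u F v ((m0 _ _).1 h1) ((a0 _ _).1 h2) h3
    · intro i
      refine (hCpt i.1 i.2).subset ?_
      rintro u ⟨hu, F, hF, hn⟩
      exact ⟨(hW i u).1 hu, F, (m0 _ _).1 hF, hn⟩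
  have e1 : (Submodule.span ℂ (Eig Γ1')).topologicalClosure = ⊤ := by
    refine hEig hRes L2 L21 Γ1' op1' (ℤ × ℤ) W (fun i => hVc i.1 i.2) ?_ hWtop ?_
    · intro i g k w h1 h2 h3
      rw [hW] at h3 ⊢
      exact hM2 hRot hRFm i.1 i.2 g k w ((m1' _ _).1 h1) ((a1' _ _).1 h2) h3
    · intro i
      refine (hCA hCpt i.1 i.2).subset ?_
      rintro u ⟨hu, F, hF, hn⟩
      exact ⟨(hW i u).1 hu, F, (m1' _ _).1 hF, hn⟩
  have hH := hHodge hCore L2 L21 L2 Γ0 Γ1 Γ1' op0 op1 op1' hΓ1' hdd hcx e0 e1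
  obtain ⟨ι, b, l, hb⟩ := hONB hBox L2 L21 L2 Γ0 Γ1 op0 op1 hcx hH
  refine ⟨ι, b, l, fun i => ?_⟩
  obtain ⟨v, F, g, k, h1, h2, h3, h4, h5⟩ := hb i
  exact ⟨v, F, g, k, (a0 _ _).1 h1, (m0 _ _).1 h2, (m1 _ _).1 h3, (a1 _ _).1 h4, h5⟩

theorem main_of_onb (h : ONB) : Main := by
  obtain ⟨ι, b, l, hb⟩ := h
  refine ⟨ι, b, l, hb, ?_⟩
  intro N hN i
  have h1 : N ((l i : ℂ) • b i) = b i := hN _ _ (hb i)
  rw [map_smul] at h1
  have hbi : b i ≠ 0 := by
    intro h0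
    have := b.orthonormal.1 i
    rw [h0, norm_zero] at this
    exact zero_ne_one this
  have hl : (l i : ℂ) ≠ 0 := by
    intro h0
    rw [h0, zero_smul] at h1
    exact hbi h1.symm
  have : N (b i) = ((l i : ℂ))⁻¹ • b i := by
    conv_rhs => rw [← h1]
    rw [smul_smul, inv_mul_cancel₀ hl, one_smul]
  rw [this]
  push_cast
  rfl

theorem compact_of_tasks (hPolar : TaskPolar) (hProf : TaskProfile) (hIso : TaskIso)
    (hPair : TaskPair) (hFou : TaskFourier) (hMul : TaskMulTest) (hTF : TaskTestFun)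
    (hWeak : TaskWeak) (hInt : TaskIntegral) (hHS : TaskHS) (hPos : TaskPos) (hNeg : TaskNeg)
    (hSwap : TaskApproxSwap) (hTB : TaskTB) (hAs : TaskCompactAssembly) : Compact := by
  have hA : ∀ ν : ℝ, 1/2 ≤ |ν| → ∀ C : ℝ, 0 < C → Approx1 (Sol1 ν C) := by
    intro ν hν C hC
    rcases le_abs.1 hν with h | h
    · exact hPos hInt hHS ν h C hC
    · exact hNeg hInt hHS ν (by linarith) C hC
  exact hAs hPolar hProf hIso (hWeak hPolar hPair hFou hMul hTF) hA
    (fun ν hν C hC => hSwap ν C (hA ν hν C hC)) hTB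

theorem fact_two_ne_top : Fact ((2:ENNReal) ≠ ⊤) := ⟨by simp⟩

theorem sFinite_muT : SFinite μT := by unfold μT; infer_instance

theorem separable21 : TopologicalSpace.SeparableSpace L21 := by
  haveI := fact_two_ne_top
  haveI := sFinite_muT
  haveI : SecondCountableTopology L2 := inferInstance
  haveI : SecondCountableTopology (L2 × L2) := inferInstance
  haveI : TopologicalSpace.SeparableSpace (L2 × L2) := inferInstance
  exact (WithLp.prodContinuousLinearEquiv 2 ℂ L2 L2).symm.surjective.denseRange.separableSpace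
    (WithLp.prodContinuousLinearEquiv 2 ℂ L2 L2).symm.continuous

theorem countable_index {ι : Type} (b : HilbertBasis ι ℂ L21) : Countable ι := by
  haveI := separable21
  have hdist : ∀ i j, i ≠ j → 1 ≤ dist (b i) (b j) := by
    intro i j hij
    have h1 : ‖b i - b j‖ ^ 2 = 2 := by
      rw [@norm_sub_sq ℂ, b.orthonormal.2 hij, b.orthonormal.1 i, b.orthonormal.1 j]
      simp; norm_num
    rw [dist_eq_norm]
    nlinarith [norm_nonneg (b i - b j)]
  refine Pairwise.countable_of_isOpen_disjoint (s := fun i => Metric.ball (b i) (1/2)) ?_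
    (fun i => Metric.isOpen_ball) (fun i => ⟨b i, Metric.mem_ball_self (by norm_num)⟩)
  intro i j hij
  refine Metric.ball_disjoint_ball ?_
  linarith [hdist i j hij]

end Pool.Agent.H903HT
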