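import Pool.Agent.H903HT.Stmts

/-!
Project H903-HT, second part: the eigenforms of the `∂̄`-Neumann operator of the Hartogs triangle
can be chosen in torus modes, and each mode carries a null sequence of eigenvalues of finite
multiplicity.
-/

set_option autoImplicit false

open MeasureTheory Filter Topology Set
open scoped ContDiff

namespace Pool.Agent.H903HT

/-- (0,1)-forms of weight `(m, n)` under the torus action:
`f(a z₁, b z₂)` pulled back equals `a^m b^n f` -/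
def FormMode (m n : ℤ) (f : L21) : Prop := Mode (m + 1) n f.fst ∧ Mode m (n + 1) f.snd

/-- S1. the torus action on forms. -/
def TaskFormRot : Prop := ∃ U : Circle → Circle → (L21 ≃ₗᵢ[ℂ] L21),
  (∀ a b f h, Box f h → Box (U a b f) (U a b h)) ∧
  (∀ a b f, (U a b).symm f = U a⁻¹ b⁻¹ f) ∧
  (∀ (m n : ℤ) (f : L21), FormMode m n f ↔
    ∀ a b, U a b f = ((a : ℂ) ^ m * (b : ℂ) ^ n) • f)

/-- S2. the form modes span. -/
def TaskFormTotal : Prop :=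
  (Submodule.span ℂ {f : L21 | ∃ m n : ℤ, FormMode m n f}).topologicalClosure = ⊤

/-- S3. invariant subspaces split into modes (abstract). -/
def TaskInvSub : Prop := ∀ (H : Type) [NormedAddCommGroup H] [InnerProductSpace ℂ H]
  [CompleteSpace H] (κ J : Type) (U : κ → (H ≃ₗᵢ[ℂ] H)) (χ : J → κ → ℂ)
  (W : J → Submodule ℂ H), (∀ j, IsClosed (W j : Set H)) →
  (∀ j f, f ∈ W j ↔ ∀ k, U k f = χ j k • f) → (⨆ j, W j).topologicalClosure = ⊤ →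
  ∀ E : Submodule ℂ H, IsClosed (E : Set H) → (∀ k, ∀ f ∈ E, U k f ∈ E) →
  (∀ k, ∀ f ∈ E, (U k).symm f ∈ E) → E ≤ (⨆ j, E ⊓ W j).topologicalClosure

/-- S4. the modes of `∂̄* f` and `∂̄ f`. -/
def TaskBoxMode : Prop :=
  (∀ (m n : ℤ) (f : L21) (v : L2), FormMode m n f → DbarFunAdj f v → Mode m n v) ∧
  (∀ (m n : ℤ) (f : L21) (g : L2), FormMode m n f → DbarForm f g → Mode (m + 1) (n + 1) g)

/-- S5. finite multiplicity (abstract). -/
def TaskFinite : Prop := ∀ (H0 H1 H2 : Type) [NormedAddCommGroup H0] [InnerProductSpace ℂ H0]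
  [CompleteSpace H0] [NormedAddCommGroup H1] [InnerProductSpace ℂ H1] [CompleteSpace H1]
  [NormedAddCommGroup H2] [InnerProductSpace ℂ H2] [CompleteSpace H2]
  (Γ0 : Submodule ℂ (H0 × H1)) (Γ1 : Submodule ℂ (H1 × H2))
  (V0 : Submodule ℂ H0) (V2 : Submodule ℂ H2),
  (∀ u F, (u, F) ∈ Γ0 → (F, (0 : H2)) ∈ Γ1) →
  TotallyBounded {u : H0 | u ∈ V0 ∧ ∃ F, (u, F) ∈ Γ0 ∧ ‖u‖^2 + ‖F‖^2 ≤ 1} →
  TotallyBounded {g : H2 | g ∈ V2 ∧ ∃ k, (g, k) ∈ Adj Γ1 ∧ ‖g‖^2 + ‖k‖^2 ≤ 1} →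
  ∀ (ι : Type) (b : ι → H1) (l : ι → ℝ) (c C : ℝ), 0 < c → Orthonormal ℂ b →
  (∀ i, c ≤ l i ∧ l i ≤ C) →
  (∀ i, ∃ (v : H0) (F : H1) (g : H2) (k : H1), (b i, v) ∈ Adj Γ0 ∧ (v, F) ∈ Γ0 ∧
    (b i, g) ∈ Γ1 ∧ (g, k) ∈ Adj Γ1 ∧ (l i : ℂ) • b i = F + k ∧ v ∈ V0 ∧ g ∈ V2) →
  Finite ι

/-- S6. an orthonormal basis adapted to two commuting decompositions (abstract). -/
def TaskONB2 : Prop := ∀ (H : Type) [NormedAddCommGroup H] [InnerProductSpace ℂ H]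
  [CompleteSpace H] (J : Type) (E : ℝ → Submodule ℂ H) (W : J → Submodule ℂ H),
  (∀ l, IsClosed (E l : Set H)) → (∀ j, IsClosed (W j : Set H)) →
  (∀ l l', l ≠ l' → ∀ f ∈ E l, ∀ g ∈ E l', inner ℂ f g = 0) →
  (∀ j j', j ≠ j' → ∀ f ∈ W j, ∀ g ∈ W j', inner ℂ f g = 0) →
  (⨆ l, E l).topologicalClosure = ⊤ → (∀ l, E l ≤ (⨆ j, E l ⊓ W j).topologicalClosure) →
  ∃ (ι : Type) (b : HilbertBasis ι ℂ H) (l : ι → ℝ) (κ : ι → J),
    ∀ i, b i ∈ E (l i) ∧ b i ∈ W (κ i)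

/-- S7. different form modes are orthogonal. -/
def TaskFormOrth : Prop := TaskFormRot → ∀ (m n m' n' : ℤ) (f g : L21), (m, n) ≠ (m', n') →
  FormMode m n f → FormMode m' n' g → inner ℂ f g = 0

/-- S8. form modes are closed subspaces. -/
def TaskFormClosed : Prop := ∀ m n : ℤ, ∃ W : Submodule ℂ L21,
  (W : Set L21) = {f | FormMode m n f} ∧ IsClosed (W : Set L21)

/-- S9. the box operator is symmetric and nonnegative (abstract). -/
def TaskBoxSym : Prop := ∀ (H0 H1 H2 : Type) [NormedAddCommGroup H0] [InnerProductSpace ℂ H0]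
  [CompleteSpace H0] [NormedAddCommGroup H1] [InnerProductSpace ℂ H1] [CompleteSpace H1]
  [NormedAddCommGroup H2] [InnerProductSpace ℂ H2] [CompleteSpace H2]
  (Γ0 : Submodule ℂ (H0 × H1)) (Γ1 : Submodule ℂ (H1 × H2)),
  (∀ f h f' h', BoxA Γ0 Γ1 f h → BoxA Γ0 Γ1 f' h' → inner ℂ h f' = inner ℂ f h') ∧
  (∀ (f : H1) (l : ℝ), BoxA Γ0 Γ1 f ((l : ℂ) • f) → f ≠ 0 → 0 ≤ l)

end Pool.Agent.H903HT
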