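import Pool.Agent.H903HT.Final
import Pool.Agent.H903HT.Stmts2

/-!
Assembly of the structure theorem for the `∂̄`-Neumann operator of the Hartogs triangle
(MP_169ce5_an), from the tasks.
-/

set_option autoImplicit false

open MeasureTheory Filter Topology Set
open scoped ContDiff

namespace Pool.Agent.H903HT

/-- the operators and their properties -/
theorem setup (hRes : TaskResolvent) (hEig : TaskEigTotal) (hCore : TaskCore)
    (hHodge : TaskHodge) (hAdj : TaskAdj)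
    (hC0 : TaskClosed0) (hC1 : TaskClosed1) (hD0 : TaskDense0) (hD1 : TaskDense1)
    (hCx : TaskComplex) (hRot : TaskRot) (hMC : TaskModeClosed) (hRF : TaskRotFun)
    (hRFm : TaskRotForm) (hM0 : TaskModeInv0) (hM2 : TaskModeInv2) (hMT : TaskModeTotal)
    (hCpt : Compact) (hCA : TaskCompactAdj) :
    ∃ (Γ0 : Submodule ℂ (L2 × L21)) (Γ1 : Submodule ℂ (L21 × L2)),
      (∀ u F, (u, F) ∈ Γ0 ↔ DbarFun u F) ∧ (∀ f g, (f, g) ∈ Γ1 ↔ DbarForm f g) ∧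
      (∀ f v, (f, v) ∈ Adj Γ0 ↔ DbarFunAdj f v) ∧ (∀ g k, (g, k) ∈ Adj Γ1 ↔ DbarFormAdj g k) ∧
      ClosedOp Γ0 ∧ ClosedOp Γ1 ∧ (∀ u F, (u, F) ∈ Γ0 → (F, (0 : L2)) ∈ Γ1) ∧
      (Submodule.span ℂ {f : L21 | ∃ l : ℝ, BoxA Γ0 Γ1 f ((l : ℂ) • f)}).topologicalClosure = ⊤ := by
  classical
  obtain ⟨Γ0, hΓ0, hcl0, hs0⟩ := hC0
  obtain ⟨Γ1, hΓ1, hcl1, hs1⟩ := hC1
  have m0 : ∀ u F, (u, F) ∈ Γ0 ↔ DbarFun u F := by
    intro u F
    have : ((u, F) ∈ (Γ0 : Set (L2 × L21))) ↔ (u, F) ∈ {p : L2 × L21 | DbarFun p.1 p.2} := by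
      rw [hΓ0]
    simpa using this
  have m1 : ∀ f g, (f, g) ∈ Γ1 ↔ DbarForm f g := by
    intro f g
    have : ((f, g) ∈ (Γ1 : Set (L21 × L2))) ↔ (f, g) ∈ {p : L21 × L2 | DbarForm p.1 p.2} := by
      rw [hΓ1]
    simpa using this
  have a0 : ∀ f v, (f, v) ∈ Adj Γ0 ↔ DbarFunAdj f v := by
    intro f v
    constructor
    · intro h u F huF
      exact h (u, F) ((m0 u F).2 huF)
    · intro h q hq
      exact h q.1 q.2 ((m0 q.1 q.2).1 hq)
  have a1 : ∀ g k, (g, k) ∈ Adj Γ1 ↔ DbarFormAdj g k := by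
    intro g k
    constructor
    · intro h f G hfG
      exact h (f, G) ((m1 f G).2 hfG)
    · intro h q hq
      exact h q.1 q.2 ((m1 q.1 q.2).1 hq)
  have op0 : ClosedOp Γ0 := ⟨hcl0, hs0, by
    have : {u : L2 | ∃ f : L21, (u, f) ∈ Γ0} = {u : L2 | ∃ F : L21, DbarFun u F} := by
      ext u; simp only [mem_ofPred_eq, m0]
    rw [this]; exact hD0⟩
  have op1 : ClosedOp Γ1 := ⟨hcl1, hs1, by
    have : {f : L21 | ∃ g : L2, (f, g) ∈ Γ1} = {f : L21 | ∃ g : L2, DbarForm f g} := by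
      ext u; simp only [mem_ofPred_eq, m1]
    rw [this]; exact hD1⟩
  obtain ⟨Γ1', hΓ1', op1', hdd⟩ := hAdj L21 L2 Γ1 op1
  have m1' : ∀ g k, (g, k) ∈ Γ1' ↔ DbarFormAdj g k := by
    intro g k
    have : ((g, k) ∈ (Γ1' : Set (L2 × L21))) ↔ (g, k) ∈ Adj Γ1 := by rw [hΓ1']
    rw [← a1]; simpa using this
  have a1' : ∀ k w, (k, w) ∈ Adj Γ1' ↔ DbarForm k w := by
    intro k w
    rw [hdd, ← m1]; rfl
  have hcx : ∀ u F, (u, F) ∈ Γ0 → (F, (0 : L2)) ∈ Γ1 := by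
    intro u F h
    exact (m1 _ _).2 (hCx u F ((m0 _ _).1 h))
  choose V hV hVc using hMC hRot
  let W : ℤ × ℤ → Submodule ℂ L2 := fun i => V i.1 i.2
  have hW : ∀ i u, u ∈ W i ↔ Mode i.1 i.2 u := by
    intro i u
    have : (u ∈ (V i.1 i.2 : Set L2)) ↔ u ∈ {u : L2 | Mode i.1 i.2 u} := by rw [hV]
    simpa [W] using this
  have hWtop : (⨆ i, W i).topologicalClosure = ⊤ := by
    rw [eq_top_iff, ← hMT]
    apply Submodule.topologicalClosure_mono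
    rw [Submodule.span_le]
    rintro u ⟨m, n, hu⟩
    exact (le_iSup W (m, n)) ((hW (m, n) u).2 hu)
  have e0 : (Submodule.span ℂ (Eig Γ0)).topologicalClosure = ⊤ := by
    refine hEig hRes L2 L21 Γ0 op0 (ℤ × ℤ) W (fun i => hVc i.1 i.2) ?_ hWtop ?_
    · intro i u F v h1 h2 h3
      rw [hW] at h3 ⊢
      exact hM0 hRot (hRF) i.1 i.2 u F v ((m0 _ _).1 h1) ((a0 _ _).1 h2) h3
    · intro i
      refine (hCpt i.1 i.2).subset ?_
      rintro u ⟨hu, F, hF, hn⟩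
      exact ⟨(hW i u).1 hu, F, (m0 _ _).1 hF, hn⟩
  have e1 : (Submodule.span ℂ (Eig Γ1')).topologicalClosure = ⊤ := by
    refine hEig hRes L2 L21 Γ1' op1' (ℤ × ℤ) W (fun i => hVc i.1 i.2) ?_ hWtop ?_
    · intro i g k w h1 h2 h3
      rw [hW] at h3 ⊢
      exact hM2 hRot hRFm i.1 i.2 g k w ((m1' _ _).1 h1) ((a1' _ _).1 h2) h3
    · intro i
      refine (hCA hCpt i.1 i.2).subset ?_
      rintro u ⟨hu, F, hF, hn⟩
      exact ⟨(hW i u).1 hu, F, (m1' _ _).1 hF, hn⟩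
  exact ⟨Γ0, Γ1, m0, m1, a0, a1, op0, op1, hcx,
    hHodge hCore L2 L21 L2 Γ0 Γ1 Γ1' op0 op1 op1' hΓ1' hdd hcx e0 e1⟩

/-- the structure theorem -/
def Structure : Prop :=
  ∃ (ι : Type) (b : HilbertBasis ι ℂ L21) (l : ι → ℝ) (κ : ι → ℤ × ℤ), Countable ι ∧
    (∀ i, FormMode (κ i).1 (κ i).2 (b i)) ∧
    (∀ i, Box (b i) ((l i : ℂ) • b i)) ∧
    ∀ N : L21 →L[ℂ] L21, (∀ f h, Box f h → N h = f) →
      (∀ i, N (b i) = (((l i)⁻¹ : ℝ) : ℂ) • b i) ∧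
      spectrum ℂ N = closure (range fun i => (((l i)⁻¹ : ℝ) : ℂ)) ∧
      ∀ (m n : ℤ) (ε : ℝ), 0 < ε → {i | κ i = (m, n) ∧ ε ≤ |(l i)⁻¹|}.Finite

theorem structure_of_tasks (hRes : TaskResolvent) (hEig : TaskEigTotal) (hCore : TaskCore)
    (hHodge : TaskHodge) (hAdj : TaskAdj) (hBox : TaskBoxClosed)
    (hC0 : TaskClosed0) (hC1 : TaskClosed1) (hD0 : TaskDense0) (hD1 : TaskDense1)
    (hCx : TaskComplex) (hRot : TaskRot) (hMC : TaskModeClosed) (hRF : TaskRotFun)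
    (hRFm : TaskRotForm) (hM0 : TaskModeInv0) (hM2 : TaskModeInv2) (hMT : TaskModeTotal)
    (hCpt : Compact) (hCA : TaskCompactAdj)
    (hFR : TaskFormRot) (hFT : TaskFormTotal) (hIS : TaskInvSub) (hBM : TaskBoxMode)
    (hFin : TaskFinite) (hOB : TaskONB2) (hFO : TaskFormOrth) (hFC : TaskFormClosed)
    (hBS : TaskBoxSym) : Structure := by
  classical
  obtain ⟨Γ0, Γ1, m0, m1, a0, a1, op0, op1, hcx, htot⟩ := setup hRes hEig hCore hHodge hAdj hC0 hC1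
    hD0 hD1 hCx hRot hMC hRF hRFm hM0 hM2 hMT hCpt hCA
  have box : ∀ f h, BoxA Γ0 Γ1 f h ↔ Box f h := by
    intro f h
    constructor
    · rintro ⟨v, F, g, k, h1, h2, h3, h4, h5⟩
      exact ⟨v, F, g, k, (a0 _ _).1 h1, (m0 _ _).1 h2, (m1 _ _).1 h3, (a1 _ _).1 h4, h5⟩
    · rintro ⟨v, F, g, k, h1, h2, h3, h4, h5⟩
      exact ⟨v, F, g, k, (a0 _ _).2 h1, (m0 _ _).2 h2, (m1 _ _).2 h3, (a1 _ _).2 h4, h5⟩
  obtain ⟨hsym, hnn⟩ := hBS L2 L21 L2 Γ0 Γ1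
  choose E hE hEc using hBox L2 L21 L2 Γ0 Γ1 op0 op1 hcx
  have memE : ∀ l f, f ∈ E l ↔ Box f ((l : ℂ) • f) := by
    intro l f
    have : (f ∈ (E l : Set L21)) ↔ f ∈ {f : L21 | BoxA Γ0 Γ1 f ((l : ℂ) • f)} := by rw [hE]
    rw [← box]; simpa using this
  choose W' hW' hWc' using hFC
  let W : ℤ × ℤ → Submodule ℂ L21 := fun j => W' j.1 j.2
  have memW : ∀ j f, f ∈ W j ↔ FormMode j.1 j.2 f := by
    intro j f
    have : (f ∈ (W' j.1 j.2 : Set L21)) ↔ f ∈ {f : L21 | FormMode j.1 j.2 f} := by rw [hW']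
    simpa [W] using this
  have hEtop : (⨆ l, E l).topologicalClosure = ⊤ := by
    rw [eq_top_iff, ← htot]
    apply Submodule.topologicalClosure_mono
    rw [Submodule.span_le]
    rintro f ⟨l, hf⟩
    exact (le_iSup E l) ((memE l f).2 ((box _ _).1 hf))
  have hEorth : ∀ l l', l ≠ l' → ∀ f ∈ E l, ∀ g ∈ E l', inner ℂ f g = 0 := by
    intro l l' hne f hf g hg
    have h1 := hsym f _ g _ ((box _ _).2 ((memE l f).1 hf)) ((box _ _).2 ((memE l' g).1 hg))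
    rw [inner_smul_left, inner_smul_right, Complex.conj_ofReal] at h1
    have h2 : ((l : ℂ) - (l' : ℂ)) * inner ℂ f g = 0 := by rw [sub_mul, h1, sub_self]
    rcases mul_eq_zero.1 h2 with h3 | h3
    · exact absurd (by exact_mod_cast sub_eq_zero.1 h3) hne
    · exact h3
  have hWorth : ∀ j j', j ≠ j' → ∀ f ∈ W j, ∀ g ∈ W j', inner ℂ f g = 0 := by
    intro j j' hne f hf g hg
    exact hFO hFR j.1 j.2 j'.1 j'.2 f g (by simpa using hne) ((memW _ _).1 hf) ((memW _ _).1 hg)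
  have hWtop : (⨆ j, W j).topologicalClosure = ⊤ := by
    rw [eq_top_iff, ← hFT]
    apply Submodule.topologicalClosure_mono
    rw [Submodule.span_le]
    rintro f ⟨m, n, hf⟩
    exact (le_iSup W (m, n)) ((memW (m, n) f).2 hf)
  obtain ⟨U, hU1, hU2, hU3⟩ := hFR
  have hinv : ∀ l (k : Circle × Circle), ∀ f ∈ E l, U k.1 k.2 f ∈ E l := by
    intro l k f hf
    rw [memE] at hf ⊢
    have := hU1 k.1 k.2 _ _ hf
    rwa [map_smul] at this
  have hsplit : ∀ l, E l ≤ (⨆ j, E l ⊓ W j).topologicalClosure := by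
    intro l
    refine hIS L21 (Circle × Circle) (ℤ × ℤ) (fun k => U k.1 k.2)
      (fun j k => ((k.1 : ℂ) ^ j.1 * (k.2 : ℂ) ^ j.2)) W (fun j => hWc' j.1 j.2) ?_ hWtop (E l)
      (hEc l) (fun k => hinv l k) ?_
    · intro j f
      rw [memW, hU3]
      exact ⟨fun h k => h k.1 k.2, fun h a b => h (a, b)⟩
    · intro k f hf
      have : (U k.1 k.2).symm f = U k.1⁻¹ k.2⁻¹ f := hU2 k.1 k.2 f
      show (U k.1 k.2).symm f ∈ E l
      rw [this]
      exact hinv l (k.1⁻¹, k.2⁻¹) f hf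
  obtain ⟨ι, b, l, κ, hb⟩ := hOB L21 (ℤ × ℤ) E W hEc (fun j => hWc' j.1 j.2) hEorth hWorth hEtop
    hsplit
  have hbox : ∀ i, Box (b i) ((l i : ℂ) • b i) := fun i => (memE _ _).1 (hb i).1
  have hmode : ∀ i, FormMode (κ i).1 (κ i).2 (b i) := fun i => (memW _ _).1 (hb i).2
  have hbi : ∀ i, b i ≠ 0 := by
    intro i h0
    have := b.orthonormal.1 i
    rw [h0, norm_zero] at this
    exact zero_ne_one this
  refine ⟨ι, b, l, κ, countable_index b, hmode, hbox, ?_⟩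
  intro N hN
  have hNl : ∀ i, (l i : ℂ) • N (b i) = b i := by
    intro i
    have h1 : N ((l i : ℂ) • b i) = b i := hN _ _ (hbox i)
    rwa [map_smul] at h1
  have hl0 : ∀ i, (l i : ℂ) ≠ 0 := by
    intro i h0
    have h1 := hNl i
    rw [h0, zero_smul] at h1
    exact hbi i h1.symm
  have hdiag : ∀ i, N (b i) = (((l i)⁻¹ : ℝ) : ℂ) • b i := by
    intro i
    have : N (b i) = ((l i : ℂ))⁻¹ • b i := by
      conv_rhs => rw [← hNl i]
      rw [smul_smul, inv_mul_cancel₀ (hl0 i), one_smul]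
    rw [this]
    push_cast
    rfl
  refine ⟨hdiag, spectrum_diag b _ N hdiag, ?_⟩
  intro m n ε hε
  have hlpos : ∀ i, 0 < l i := by
    intro i
    have h1 := hnn (b i) (l i) ((box _ _).2 (hbox i)) (hbi i)
    rcases h1.lt_or_eq with h2 | h2
    · exact h2
    · exact absurd (by rw [← h2]; simp) (hl0 i)
  have hlow : ∀ i, 1 / (‖N‖ + 1) ≤ l i := by
    intro i
    have h1 : ‖b i‖ = 1 := b.orthonormal.1 i
    have h2 : ‖b i‖ ≤ l i * (‖N‖ * ‖b i‖) := by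
      conv_lhs => rw [← hNl i]
      rw [norm_smul, Complex.norm_real, Real.norm_of_nonneg (hlpos i).le]
      exact mul_le_mul_of_nonneg_left (N.le_opNorm _) (hlpos i).le
    rw [h1, mul_one] at h2
    rw [div_le_iff₀ (by positivity)]
    nlinarith [hlpos i, norm_nonneg N]
  have hVV := hMC hRot
  obtain ⟨V0, hV0, -⟩ := hVV m n
  obtain ⟨V2, hV2, -⟩ := hVV (m + 1) (n + 1)
  have mem0 : ∀ u, u ∈ V0 ↔ Mode m n u := by
    intro u
    have : (u ∈ (V0 : Set L2)) ↔ u ∈ {u : L2 | Mode m n u} := by rw [hV0]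
    simpa using this
  have mem2 : ∀ u, u ∈ V2 ↔ Mode (m + 1) (n + 1) u := by
    intro u
    have : (u ∈ (V2 : Set L2)) ↔ u ∈ {u : L2 | Mode (m + 1) (n + 1) u} := by rw [hV2]
    simpa using this
  let S : Set ι := {i | κ i = (m, n) ∧ ε ≤ |(l i)⁻¹|}
  have hfin : Finite S := by
    refine hFin L2 L21 L2 Γ0 Γ1 V0 V2 hcx ?_ ?_ S (fun i => b i) (fun i => l i)
      (1 / (‖N‖ + 1)) (1 / ε) (by positivity) ?_ ?_ ?_
    · refine (hCpt m n).subset ?_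
      rintro u ⟨hu, F, hF, hn⟩
      exact ⟨(mem0 u).1 hu, F, (m0 _ _).1 hF, hn⟩
    · refine (hCA hCpt (m + 1) (n + 1)).subset ?_
      rintro u ⟨hu, F, hF, hn⟩
      exact ⟨(mem2 u).1 hu, F, (a1 _ _).1 hF, hn⟩
    · exact b.orthonormal.comp _ Subtype.val_injective
    · rintro ⟨i, hi1, hi2⟩
      refine ⟨hlow i, ?_⟩
      show l i ≤ 1 / ε
      rw [abs_of_pos (inv_pos.2 (hlpos i))] at hi2
      rw [le_div_iff₀ hε]
      have h3 := mul_le_mul_of_nonneg_left hi2 (hlpos i).le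
      rwa [mul_inv_cancel₀ (hlpos i).ne'] at h3
    · rintro ⟨i, hi1, hi2⟩
      obtain ⟨v, F, g, k, h1, h2, h3, h4, h5⟩ := hbox i
      have hm := hmode i
      rw [hi1] at hm
      exact ⟨v, F, g, k, (a0 _ _).2 h1, (m0 _ _).2 h2, (m1 _ _).2 h3, (a1 _ _).2 h4, h5,
        (mem0 v).2 (hBM.1 m n (b i) v hm h1), (mem2 g).2 (hBM.2 m n (b i) g hm h3)⟩
  exact Set.toFinite S

end Pool.Agent.H903HT
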