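import Pool.Agent.H903HT.Stmts

set_option autoImplicit false

open MeasureTheory Filter Topology Set

namespace Pool.Agent.H903HT

theorem taskModeClosed : TaskModeClosed := by
  intro hrot m n
  have key : ∀ u : L2, Mode m n u ↔ ∀ a b : Circle,
      Lp.compMeasurePreservingₗᵢ ℂ (fun z : ℂ × ℂ => ((a : ℂ) * z.1, (b : ℂ) * z.2)) (hrot a b) u =
        ((a : ℂ) ^ m * (b : ℂ) ^ n) • u := by
    intro u
    unfold Mode
    refine forall_congr' fun a => forall_congr' fun b => ?_
    have h1 : (Lp.compMeasurePreservingₗᵢ ℂ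
        (fun z : ℂ × ℂ => ((a : ℂ) * z.1, (b : ℂ) * z.2)) (hrot a b) u : ℂ × ℂ → ℂ) =ᵐ[μT]
        fun z : ℂ × ℂ => u ((a : ℂ) * z.1, (b : ℂ) * z.2) :=
      Lp.coeFn_compMeasurePreserving u (hrot a b)
    have h2 : ((((a : ℂ) ^ m * (b : ℂ) ^ n) • u : L2) : ℂ × ℂ → ℂ) =ᵐ[μT]
        fun z => (a : ℂ) ^ m * (b : ℂ) ^ n * u z := by
      refine (Lp.coeFn_smul _ _).trans ?_
      exact Eventually.of_forall fun z => by simp [smul_eq_mul]
    constructor
    · intro h
      exact Lp.ext (h1.trans (h.trans h2.symm))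
    · intro h
      rw [h] at h1
      exact h1.symm.trans h2
  refine ⟨{ carrier := {u | Mode m n u}
            add_mem' := ?_
            zero_mem' := ?_
            smul_mem' := ?_ }, rfl, ?_⟩
  · intro u v hu hv
    simp only [mem_ofPred_eq] at hu hv ⊢
    rw [key] at hu hv ⊢
    intro a b
    rw [map_add, hu a b, hv a b, smul_add]
  · simp only [mem_ofPred_eq]
    rw [key]
    intro a b
    rw [map_zero, smul_zero]
  · intro c u hu
    simp only [mem_ofPred_eq] at hu ⊢
    rw [key] at hu ⊢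
    intro a b
    rw [map_smul, hu a b, smul_comm]
  · have e : ({u : L2 | Mode m n u}) = ⋂ (a : Circle), ⋂ (b : Circle),
        {u : L2 | Lp.compMeasurePreservingₗᵢ ℂ
          (fun z : ℂ × ℂ => ((a : ℂ) * z.1, (b : ℂ) * z.2)) (hrot a b) u =
            ((a : ℂ) ^ m * (b : ℂ) ^ n) • u} := by
      ext u
      simp only [mem_ofPred_eq, mem_iInter]
      exact key u
    change IsClosed {u : L2 | Mode m n u}
    rw [e]
    refine isClosed_iInter fun a => isClosed_iInter fun b => ?_
    exact isClosed_eq (LinearIsometry.continuous _) (continuous_const_smul _)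

end Pool.Agent.H903HT
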