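import Pool.Agent.H903HT.Stmts2
import Pool.Agent.H903HT.TaskRot
import Pool.Agent.H903HT.TaskModeClosed

set_option autoImplicit false

open MeasureTheory Filter Topology Set

namespace Pool.Agent.H903HT

theorem taskFormClosed : TaskFormClosed := by
  intro m n
  obtain ⟨W1, hW1, hc1⟩ := taskModeClosed taskRot (m + 1) n
  obtain ⟨W2, hW2, hc2⟩ := taskModeClosed taskRot m (n + 1)
  have k1 : ∀ u : L2, u ∈ W1 ↔ Mode (m + 1) n u := fun u => by
    rw [← SetLike.mem_coe, hW1]; rfl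
  have k2 : ∀ u : L2, u ∈ W2 ↔ Mode m (n + 1) u := fun u => by
    rw [← SetLike.mem_coe, hW2]; rfl
  refine ⟨{ carrier := {f | FormMode m n f}
            add_mem' := ?_
            zero_mem' := ?_
            smul_mem' := ?_ }, rfl, ?_⟩
  · intro f g hf hg
    exact ⟨(k1 _).1 (W1.add_mem ((k1 _).2 hf.1) ((k1 _).2 hg.1)),
      (k2 _).1 (W2.add_mem ((k2 _).2 hf.2) ((k2 _).2 hg.2))⟩
  · exact ⟨(k1 _).1 W1.zero_mem, (k2 _).1 W2.zero_mem⟩
  · intro c f hf
    exact ⟨(k1 _).1 (W1.smul_mem c ((k1 _).2 hf.1)), (k2 _).1 (W2.smul_mem c ((k2 _).2 hf.2))⟩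
  · change IsClosed {f : L21 | FormMode m n f}
    have e : {f : L21 | FormMode m n f} =
        (fun f : L21 => f.fst) ⁻¹' (W1 : Set L2) ∩ (fun f : L21 => f.snd) ⁻¹' (W2 : Set L2) := by
      ext f
      constructor
      · intro h
        exact ⟨(k1 _).2 h.1, (k2 _).2 h.2⟩
      · intro h
        exact ⟨(k1 _).1 h.1, (k2 _).1 h.2⟩
    rw [e]
    refine IsClosed.inter (hc1.preimage ?_) (hc2.preimage ?_)
    · exact (WithLp.fstL 2 ℂ L2 L2).continuous
    · exact (WithLp.sndL 2 ℂ L2 L2).continuous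

end Pool.Agent.H903HT
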