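import Pool.Agent.H903HT.Stmts2

set_option autoImplicit false

/-!
Different form modes are orthogonal (project H903-HT, task S7).
-/

open MeasureTheory Filter Topology Set

namespace Pool.Agent.H903HT

theorem zpow_circle_eq_zero (k : ℤ) (h : ∀ a : Circle, (a : ℂ) ^ k = 1) : k = 0 := by
  by_contra hk
  have h1 := h (Circle.exp (Real.pi / k))
  rw [Circle.coe_exp, ← Complex.exp_int_mul] at h1
  have hk' : (k : ℂ) ≠ 0 := by exact_mod_cast hk
  have h2 : (k : ℂ) * (((Real.pi / (k : ℝ) : ℝ) : ℂ) * Complex.I) = (Real.pi : ℂ) * Complex.I := by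
    push_cast
    field_simp
  rw [h2, Complex.exp_pi_mul_I] at h1
  norm_num at h1

theorem conj_zpow_circle (a : Circle) (m : ℤ) :
    (starRingEnd ℂ) ((a : ℂ) ^ m) = ((a : ℂ) ^ m)⁻¹ := by
  rw [map_zpow₀, ← Circle.coe_inv_eq_conj, Circle.coe_inv, inv_zpow]

theorem taskFormOrth : TaskFormOrth := by
  rintro ⟨U, -, -, hU⟩ m n m' n' f g hne hf hg
  have hUf := (hU m n f).1 hf
  have hUg := (hU m' n' g).1 hg
  by_contra h0
  have key : ∀ a b : Circle,
      (starRingEnd ℂ) ((a : ℂ) ^ m * (b : ℂ) ^ n) * ((a : ℂ) ^ m' * (b : ℂ) ^ n') = 1 := by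
    intro a b
    have h1 : inner ℂ (U a b f) (U a b g) = inner ℂ f g := (U a b).inner_map_map f g
    rw [hUf, hUg, inner_smul_left, inner_smul_right, ← mul_assoc] at h1
    exact mul_right_cancel₀ h0 (h1.trans (one_mul _).symm)
  apply hne
  have hm : m' - m = 0 := by
    apply zpow_circle_eq_zero
    intro a
    have h1 := key a 1
    simp only [Circle.coe_one, one_zpow, mul_one] at h1
    rw [conj_zpow_circle] at h1
    rw [zpow_sub₀ (Circle.coe_ne_zero a), div_eq_mul_inv, mul_comm]
    exact h1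
  have hn : n' - n = 0 := by
    apply zpow_circle_eq_zero
    intro b
    have h1 := key 1 b
    simp only [Circle.coe_one, one_zpow, one_mul] at h1
    rw [conj_zpow_circle] at h1
    rw [zpow_sub₀ (Circle.coe_ne_zero b), div_eq_mul_inv, mul_comm]
    exact h1
  rw [Prod.mk.injEq]
  omega

end Pool.Agent.H903HT
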