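import Pool.Agent.H903HT.Stmts

/-! Task ModeInv2 (helper608). -/

set_option autoImplicit false

open MeasureTheory Filter Topology Set
open scoped ContDiff

namespace Pool.Agent.H903HT

namespace MI2

/-- rotation of functions -/
noncomputable def Ru (hR : TaskRot) (a b : Circle) : L2 →ₗᵢ[ℂ] L2 :=
  Lp.compMeasurePreservingₗᵢ ℂ (fun z : ℂ × ℂ => ((a : ℂ) * z.1, (b : ℂ) * z.2)) (hR a b)

theorem Ru_ae (hR : TaskRot) (a b : Circle) (u : L2) :
    Ru hR a b u =ᵐ[μT] fun z => u ((a : ℂ) * z.1, (b : ℂ) * z.2) :=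
  Lp.coeFn_compMeasurePreserving u (hR a b)

theorem Ru_inv (hR : TaskRot) (a b : Circle) (u : L2) : Ru hR a b (Ru hR a⁻¹ b⁻¹ u) = u := by
  apply Lp.ext
  filter_upwards [Ru_ae hR a b (Ru hR a⁻¹ b⁻¹ u),
    (hR a b).quasiMeasurePreserving.ae_eq_comp (Ru_ae hR a⁻¹ b⁻¹ u)] with z h1 h2
  rw [h1]
  refine h2.trans ?_
  have ha : ((a⁻¹ : Circle) : ℂ) * ((a : ℂ) * z.1) = z.1 := by
    rw [← mul_assoc, ← Circle.coe_mul, inv_mul_cancel, Circle.coe_one, one_mul]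
  have hb : ((b⁻¹ : Circle) : ℂ) * ((b : ℂ) * z.2) = z.2 := by
    rw [← mul_assoc, ← Circle.coe_mul, inv_mul_cancel, Circle.coe_one, one_mul]
  show u (((a⁻¹ : Circle) : ℂ) * ((a : ℂ) * z.1), ((b⁻¹ : Circle) : ℂ) * ((b : ℂ) * z.2)) = u z
  rw [ha, hb]

theorem inner_Ru (hR : TaskRot) (a b : Circle) (u v : L2) :
    inner ℂ u (Ru hR a b v) = inner ℂ (Ru hR a⁻¹ b⁻¹ u) v := by
  conv_lhs => rw [← Ru_inv hR a b u]
  exact (Ru hR a b).inner_map_map _ _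

/-- pair of functions as a form -/
noncomputable def mk (u v : L2) : L21 := WithLp.toLp 2 (u, v)

theorem mk_fst (u v : L2) : (mk u v).fst = u := rfl
theorem mk_snd (u v : L2) : (mk u v).snd = v := rfl

theorem form_smul (c : ℂ) {F : L21} {g : L2} (h : DbarForm F g) : DbarForm (c • F) (c • g) := by
  intro φ hφ
  have h1 := h φ hφ
  have e1 : ∫ z, ((c • F).snd z * dbar1 φ z - (c • F).fst z * dbar2 φ z) ∂μT =
      c * ∫ z, (F.snd z * dbar1 φ z - F.fst z * dbar2 φ z) ∂μT := by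
    rw [← integral_const_mul]
    refine integral_congr_ae ?_
    filter_upwards [Lp.coeFn_smul c F.snd, Lp.coeFn_smul c F.fst] with z h2 h3
    have e2 : (c • F).snd z = c * F.snd z := h2
    have e3 : (c • F).fst z = c * F.fst z := h3
    rw [e2, e3]
    ring
  have e4 : ∫ z, (c • g : L2) z * φ z ∂μT = c * ∫ z, g z * φ z ∂μT := by
    rw [← integral_const_mul]
    refine integral_congr_ae ?_
    filter_upwards [Lp.coeFn_smul c g] with z h2
    have e2 : (c • g : L2) z = c * g z := h2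
    rw [e2]
    ring
  rw [e1, e4, h1]
  ring

theorem adj_smul (c : ℂ) {g : L2} {k : L21} (h : DbarFormAdj g k) :
    DbarFormAdj (c • g) (c • k) := by
  intro f G hf
  rw [inner_smul_right, inner_smul_right, h f G hf]

theorem conj_inv (a : Circle) : (starRingEnd ℂ) ((a⁻¹ : Circle) : ℂ) = a := by
  rw [Circle.coe_inv_eq_conj, Complex.conj_conj]

/-- rotated forms -/
noncomputable def R1 (hR : TaskRot) (a b : Circle) (F : L21) : L21 :=
  mk ((starRingEnd ℂ) (a : ℂ) • Ru hR a b F.fst) ((starRingEnd ℂ) (b : ℂ) • Ru hR a b F.snd)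

/-- rotated 2-forms -/
noncomputable def R2 (hR : TaskRot) (a b : Circle) (g : L2) : L2 :=
  ((starRingEnd ℂ) (a : ℂ) * (starRingEnd ℂ) (b : ℂ)) • Ru hR a b g

theorem form_rot (hR : TaskRot) (hF : TaskRotForm) (a b : Circle) {F : L21} {g : L2}
    (h : DbarForm F g) : DbarForm (R1 hR a b F) (R2 hR a b g) := by
  refine hF hR a b g _ F _ h ?_ ?_ ?_
  · filter_upwards [Lp.coeFn_smul ((starRingEnd ℂ) (a : ℂ)) (Ru hR a b F.fst),
      Ru_ae hR a b F.fst] with z h1 h2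
    show ((starRingEnd ℂ) (a : ℂ) • Ru hR a b F.fst : L2) z = _
    rw [h1, Pi.smul_apply, smul_eq_mul, h2]
  · filter_upwards [Lp.coeFn_smul ((starRingEnd ℂ) (b : ℂ)) (Ru hR a b F.snd),
      Ru_ae hR a b F.snd] with z h1 h2
    show ((starRingEnd ℂ) (b : ℂ) • Ru hR a b F.snd : L2) z = _
    rw [h1, Pi.smul_apply, smul_eq_mul, h2]
  · filter_upwards [Lp.coeFn_smul ((starRingEnd ℂ) (a : ℂ) * (starRingEnd ℂ) (b : ℂ))
      (Ru hR a b g), Ru_ae hR a b g] with z h1 h2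
    show (((starRingEnd ℂ) (a : ℂ) * (starRingEnd ℂ) (b : ℂ)) • Ru hR a b g : L2) z = _
    rw [h1, Pi.smul_apply, smul_eq_mul, h2]

theorem adj_rot (hR : TaskRot) (hF : TaskRotForm) (a b : Circle) {g : L2} {k : L21}
    (h : DbarFormAdj g k) : DbarFormAdj (R2 hR a b g) (R1 hR a b k) := by
  intro f G hf
  have h1 := h _ _ (form_rot hR hF a⁻¹ b⁻¹ hf)
  unfold R1 R2 at h1 ⊢
  rw [WithLp.prod_inner_apply] at h1 ⊢
  simp only [conj_inv] at h1
  have e1 : inner ℂ ((((a : ℂ) * (b : ℂ)) • Ru hR a⁻¹ b⁻¹ G : L2)) g =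
      ((starRingEnd ℂ) (a : ℂ) * (starRingEnd ℂ) (b : ℂ)) * inner ℂ (Ru hR a⁻¹ b⁻¹ G) g := by
    rw [inner_smul_left, map_mul]
  have e2 : inner ℂ (((a : ℂ) • Ru hR a⁻¹ b⁻¹ f.fst : L2)) k.fst =
      (starRingEnd ℂ) (a : ℂ) * inner ℂ (Ru hR a⁻¹ b⁻¹ f.fst) k.fst := inner_smul_left _ _ _
  have e3 : inner ℂ (((b : ℂ) • Ru hR a⁻¹ b⁻¹ f.snd : L2)) k.snd =
      (starRingEnd ℂ) (b : ℂ) * inner ℂ (Ru hR a⁻¹ b⁻¹ f.snd) k.snd := inner_smul_left _ _ _
  rw [e1] at h1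
  rw [inner_smul_right, inner_Ru]
  rw [h1]
  show inner ℂ (((a : ℂ) • Ru hR a⁻¹ b⁻¹ f.fst : L2)) k.fst +
    inner ℂ (((b : ℂ) • Ru hR a⁻¹ b⁻¹ f.snd : L2)) k.snd =
    inner ℂ f.fst ((starRingEnd ℂ) (a : ℂ) • Ru hR a b k.fst) +
      inner ℂ f.snd ((starRingEnd ℂ) (b : ℂ) • Ru hR a b k.snd)
  rw [e2, e3, inner_smul_right, inner_smul_right, inner_Ru, inner_Ru]

end MI2

open MI2 in
theorem taskModeInv2 : TaskModeInv2 := by
  intro hR hF m n g k w hgk hkw hmode a b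
  set c : ℂ := ((a : ℂ) ^ m * (b : ℂ) ^ n)⁻¹ with hc
  have ha0 : (a : ℂ) ≠ 0 := Circle.coe_ne_zero a
  have hb0 : (b : ℂ) ≠ 0 := Circle.coe_ne_zero b
  have hc0 : (a : ℂ) ^ m * (b : ℂ) ^ n ≠ 0 := mul_ne_zero (zpow_ne_zero _ ha0) (zpow_ne_zero _ hb0)
  set d : ℂ := c * ((a : ℂ) * (b : ℂ)) with hd
  have hab : ((a : ℂ) * (b : ℂ)) * ((starRingEnd ℂ) (a : ℂ) * (starRingEnd ℂ) (b : ℂ)) = 1 := by
    have h1 : (a : ℂ) * (starRingEnd ℂ) (a : ℂ) = 1 := by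
      rw [← Circle.coe_inv_eq_conj, ← Circle.coe_mul, mul_inv_cancel, Circle.coe_one]
    have h2 : (b : ℂ) * (starRingEnd ℂ) (b : ℂ) = 1 := by
      rw [← Circle.coe_inv_eq_conj, ← Circle.coe_mul, mul_inv_cancel, Circle.coe_one]
    calc _ = ((a : ℂ) * (starRingEnd ℂ) (a : ℂ)) * ((b : ℂ) * (starRingEnd ℂ) (b : ℂ)) := by ring
      _ = 1 := by rw [h1, h2, one_mul]
  have hR2 : ∀ u : L2, d • R2 hR a b u = c • Ru hR a b u := by
    intro u
    unfold R2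
    rw [smul_smul, hd, mul_assoc, hab, mul_one]
  set k' : L21 := d • R1 hR a b k with hk'
  have A1 : DbarFormAdj (c • Ru hR a b g) k' := by
    rw [← hR2]
    exact adj_smul d (adj_rot hR hF a b hgk)
  have A2 : DbarForm k' (c • Ru hR a b w) := by
    rw [← hR2]
    exact form_smul d (form_rot hR hF a b hkw)
  set g' : L2 := c • Ru hR a b g with hg'
  set w' : L2 := c • Ru hR a b w with hw'
  have hsum : g' + w' = g + w := by
    have h1 : Ru hR a b (g + w) = ((a : ℂ) ^ m * (b : ℂ) ^ n) • (g + w) := by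
      apply Lp.ext
      filter_upwards [Ru_ae hR a b (g + w), hmode a b,
        Lp.coeFn_smul ((a : ℂ) ^ m * (b : ℂ) ^ n) (g + w)] with z h1 h2 h3
      rw [h1, h2, h3, Pi.smul_apply, smul_eq_mul]
    rw [hg', hw', ← smul_add, ← map_add, h1, smul_smul, hc, inv_mul_cancel₀ hc0, one_smul]
  have B1 := hgk _ _ hkw
  have B2 := hgk _ _ A2
  have B3 := A1 _ _ hkw
  have B4 := A1 _ _ A2
  have key : inner ℂ (w - w') (g - g') = inner ℂ (k - k') (k - k') := by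
    simp only [inner_sub_left, inner_sub_right]
    rw [B1, B2, B3, B4]
  have hw : w - w' = -(g - g') := by
    have : w - w' + (g - g') = 0 := by
      have : w - w' + (g - g') = (g + w) - (g' + w') := by abel
      rw [this, hsum, sub_self]
    exact eq_neg_of_add_eq_zero_left this
  rw [hw, inner_neg_left, inner_self_eq_norm_sq_to_K, inner_self_eq_norm_sq_to_K] at key
  have key2 : -(‖g - g'‖ ^ 2) = ‖k - k'‖ ^ 2 := by exact_mod_cast key
  have hz : ‖g - g'‖ = 0 := by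
    have h1 := sq_nonneg ‖k - k'‖
    have h2 := sq_nonneg ‖g - g'‖
    have h3 : ‖g - g'‖ ^ 2 = 0 := by linarith
    exact pow_eq_zero_iff (two_ne_zero) |>.1 h3
  have hgg : g = g' := sub_eq_zero.1 (norm_eq_zero.1 hz)
  have hfin : Ru hR a b g = ((a : ℂ) ^ m * (b : ℂ) ^ n) • g := by
    conv_rhs => rw [hgg, hg', smul_smul, hc, mul_inv_cancel₀ hc0, one_smul]
  filter_upwards [Ru_ae hR a b g, Lp.coeFn_smul ((a : ℂ) ^ m * (b : ℂ) ^ n) g] with z h1 h2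
  rw [← h1, hfin, h2, Pi.smul_apply, smul_eq_mul]

end Pool.Agent.H903HT
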