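import Pool.Agent.H903HT.Stmts2
import Pool.Agent.H903HT.TaskRot
import Pool.Agent.H903HT.RotFun
import Pool.Agent.H903HT.RotForm
import Pool.Agent.H903HT.ModeInv2

/-! Task S1 (FormRot), second part of the project H903-HT: the torus action on forms. -/

set_option autoImplicit false

open MeasureTheory Filter Topology Set
open scoped ContDiff

namespace Pool.Agent.H903HT

namespace FR

open MI2

theorem conj_mul_self (a : Circle) : (starRingEnd ℂ) (a : ℂ) * (a : ℂ) = 1 := by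
  rw [← Circle.coe_inv_eq_conj, ← Circle.coe_mul, inv_mul_cancel, Circle.coe_one]

theorem norm_conj (a : Circle) : ‖(starRingEnd ℂ) (a : ℂ)‖ = 1 := by
  rw [RCLike.norm_conj, Circle.norm_coe]

theorem R1_fst (hR : TaskRot) (a b : Circle) (F : L21) :
    (R1 hR a b F).fst = (starRingEnd ℂ) (a : ℂ) • Ru hR a b F.fst := rfl

theorem R1_snd (hR : TaskRot) (a b : Circle) (F : L21) :
    (R1 hR a b F).snd = (starRingEnd ℂ) (b : ℂ) • Ru hR a b F.snd := rfl

theorem ext_form {F G : L21} (h1 : F.fst = G.fst) (h2 : F.snd = G.snd) : F = G := by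
  have e : WithLp.ofLp F = WithLp.ofLp G := Prod.ext h1 h2
  exact WithLp.ofLp_injective 2 e

theorem R1_add (hR : TaskRot) (a b : Circle) (F G : L21) :
    R1 hR a b (F + G) = R1 hR a b F + R1 hR a b G := by
  apply ext_form
  · rw [R1_fst, WithLp.add_fst, WithLp.add_fst, R1_fst, R1_fst, map_add, smul_add]
  · rw [R1_snd, WithLp.add_snd, WithLp.add_snd, R1_snd, R1_snd, map_add, smul_add]

theorem R1_smul (hR : TaskRot) (a b : Circle) (c : ℂ) (F : L21) :
    R1 hR a b (c • F) = c • R1 hR a b F := by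
  apply ext_form
  · rw [R1_fst, WithLp.smul_fst, WithLp.smul_fst, R1_fst, map_smul, smul_comm]
  · rw [R1_snd, WithLp.smul_snd, WithLp.smul_snd, R1_snd, map_smul, smul_comm]

theorem R1_inv (hR : TaskRot) (a b : Circle) (F : L21) :
    R1 hR a b (R1 hR a⁻¹ b⁻¹ F) = F := by
  apply ext_form
  · rw [R1_fst, R1_fst, map_smul, Ru_inv, smul_smul, conj_inv, conj_mul_self, one_smul]
  · rw [R1_snd, R1_snd, map_smul, Ru_inv, smul_smul, conj_inv, conj_mul_self, one_smul]

theorem R1_norm (hR : TaskRot) (a b : Circle) (F : L21) : ‖R1 hR a b F‖ = ‖F‖ := by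
  have h1 : ‖R1 hR a b F‖ ^ 2 = ‖F‖ ^ 2 := by
    rw [WithLp.prod_norm_sq_eq_of_L2, WithLp.prod_norm_sq_eq_of_L2, R1_fst, R1_snd, norm_smul,
      norm_smul, norm_conj, norm_conj, one_mul, one_mul, LinearIsometry.norm_map,
      LinearIsometry.norm_map]
  exact (pow_left_inj₀ (norm_nonneg _) (norm_nonneg _) two_ne_zero).mp h1

/-- the torus action on forms -/
noncomputable def UU (hR : TaskRot) (a b : Circle) : L21 ≃ₗᵢ[ℂ] L21 where
  toFun := R1 hR a b
  map_add' := R1_add hR a b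
  map_smul' := R1_smul hR a b
  invFun := R1 hR a⁻¹ b⁻¹
  left_inv := fun F => by
    have h := R1_inv hR a⁻¹ b⁻¹ F
    rwa [inv_inv, inv_inv] at h
  right_inv := fun F => R1_inv hR a b F
  norm_map' := R1_norm hR a b

theorem UU_apply (hR : TaskRot) (a b : Circle) (F : L21) : UU hR a b F = R1 hR a b F := rfl

theorem fun_rot (hR : TaskRot) (hF : TaskRotFun) (a b : Circle) {u : L2} {F : L21}
    (h : DbarFun u F) : DbarFun (Ru hR a b u) (R1 hR a b F) := by
  refine hF hR a b u _ F _ h (Ru_ae hR a b u) ?_ ?_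
  · filter_upwards [Lp.coeFn_smul ((starRingEnd ℂ) (a : ℂ)) (Ru hR a b F.fst),
      Ru_ae hR a b F.fst] with z h1 h2
    show ((starRingEnd ℂ) (a : ℂ) • Ru hR a b F.fst : L2) z = _
    rw [h1, Pi.smul_apply, smul_eq_mul, h2]
  · filter_upwards [Lp.coeFn_smul ((starRingEnd ℂ) (b : ℂ)) (Ru hR a b F.snd),
      Ru_ae hR a b F.snd] with z h1 h2
    show ((starRingEnd ℂ) (b : ℂ) • Ru hR a b F.snd : L2) z = _
    rw [h1, Pi.smul_apply, smul_eq_mul, h2]

theorem funadj_rot (hR : TaskRot) (hF : TaskRotFun) (a b : Circle) {f : L21} {v : L2}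
    (h : DbarFunAdj f v) : DbarFunAdj (R1 hR a b f) (Ru hR a b v) := by
  intro u F hu
  have h1 := h _ _ (fun_rot hR hF a⁻¹ b⁻¹ hu)
  rw [inner_Ru]
  rw [← h1]
  have h2 : inner ℂ F (UU hR a b f) = inner ℂ ((UU hR a b).symm F) f := by
    conv_lhs => rw [← (UU hR a b).apply_symm_apply F]
    exact (UU hR a b).inner_map_map _ _
  exact h2

theorem mode_iff (hR : TaskRot) (m n : ℤ) (u : L2) :
    Mode m n u ↔ ∀ a b, Ru hR a b u = ((a : ℂ) ^ m * (b : ℂ) ^ n) • u := by
  constructor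
  · intro h a b
    apply Lp.ext
    filter_upwards [Ru_ae hR a b u, h a b, Lp.coeFn_smul ((a : ℂ) ^ m * (b : ℂ) ^ n) u]
      with z h1 h2 h3
    rw [h1, h2, h3, Pi.smul_apply, smul_eq_mul]
  · intro h a b
    filter_upwards [Ru_ae hR a b u, Lp.coeFn_smul ((a : ℂ) ^ m * (b : ℂ) ^ n) u] with z h1 h3
    rw [← h1, h a b, h3, Pi.smul_apply, smul_eq_mul]

theorem smul_conj_iff (a : Circle) (c : ℂ) (x y : L2) :
    (starRingEnd ℂ) (a : ℂ) • x = c • y ↔ x = ((a : ℂ) * c) • y := by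
  have h1 : (a : ℂ) * (starRingEnd ℂ) (a : ℂ) = 1 := by
    rw [mul_comm]
    exact conj_mul_self a
  constructor
  · intro h
    rw [mul_smul, ← h, smul_smul, h1, one_smul]
  · intro h
    rw [h, smul_smul, ← mul_assoc, conj_mul_self, one_mul]

end FR

open FR MI2 in
theorem taskFormRot : TaskFormRot := by
  have hR := taskRot
  refine ⟨fun a b => UU hR a b, ?_, ?_, ?_⟩
  · rintro a b f h ⟨v, F, g, k, h1, h2, h3, h4, rfl⟩
    refine ⟨Ru hR a b v, R1 hR a b F, R2 hR a b g, R1 hR a b k, funadj_rot hR taskRotFun a b h1,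
      fun_rot hR taskRotFun a b h2, form_rot hR taskRotForm a b h3,
      adj_rot hR taskRotForm a b h4, ?_⟩
    exact R1_add hR a b F k
  · intro a b f
    rfl
  · intro m n f
    have key : ∀ a b : Circle, UU hR a b f = ((a : ℂ) ^ m * (b : ℂ) ^ n) • f ↔
        (Ru hR a b f.fst = ((a : ℂ) ^ (m + 1) * (b : ℂ) ^ n) • f.fst ∧
          Ru hR a b f.snd = ((a : ℂ) ^ m * (b : ℂ) ^ (n + 1)) • f.snd) := by
      intro a b
      have ha0 : (a : ℂ) ≠ 0 := Circle.coe_ne_zero a
      have hb0 : (b : ℂ) ≠ 0 := Circle.coe_ne_zero b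
      have e1 : (a : ℂ) ^ (m + 1) * (b : ℂ) ^ n = (a : ℂ) * ((a : ℂ) ^ m * (b : ℂ) ^ n) := by
        rw [zpow_add_one₀ ha0]
        ring
      have e2 : (a : ℂ) ^ m * (b : ℂ) ^ (n + 1) = (b : ℂ) * ((a : ℂ) ^ m * (b : ℂ) ^ n) := by
        rw [zpow_add_one₀ hb0]
        ring
      rw [e1, e2, ← smul_conj_iff, ← smul_conj_iff, UU_apply]
      constructor
      · intro h
        exact ⟨congrArg (fun G : L21 => G.fst) h, congrArg (fun G : L21 => G.snd) h⟩
      · rintro ⟨h1, h2⟩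
        exact ext_form h1 h2
    unfold FormMode
    rw [mode_iff hR, mode_iff hR]
    constructor
    · rintro ⟨h1, h2⟩ a b
      exact (key a b).mpr ⟨h1 a b, h2 a b⟩
    · intro h
      exact ⟨fun a b => ((key a b).mp (h a b)).1, fun a b => ((key a b).mp (h a b)).2⟩

end Pool.Agent.H903HT
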