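import Pool.Agent.H903HT.Stmts

set_option autoImplicit false

open MeasureTheory Filter Topology Set
open scoped ContDiff

namespace Pool.Agent.H903HT

namespace MT

/-- the closed unit disc -/
abbrev B : Type := Metric.closedBall (0 : ℂ) 1

instance : CompactSpace B := isCompact_iff_compactSpace.mp (isCompact_closedBall (0 : ℂ) 1)

/-- radial retraction onto the closed disc -/
noncomputable def rho (w : ℂ) : ℂ := w / ((max 1 ‖w‖ : ℝ) : ℂ)

theorem max_pos (w : ℂ) : 0 < max 1 ‖w‖ := lt_of_lt_of_le one_pos (le_max_left _ _)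

theorem rho_norm (w : ℂ) : ‖rho w‖ ≤ 1 := by
  unfold rho
  rw [norm_div, Complex.norm_real, Real.norm_eq_abs, abs_of_pos (max_pos w),
    div_le_one (max_pos w)]
  exact le_max_right _ _

theorem rho_cont : Continuous rho := by
  unfold rho
  refine continuous_id.div ?_ ?_
  · exact Complex.continuous_ofReal.comp (continuous_const.max continuous_norm)
  · intro w
    exact_mod_cast (max_pos w).ne'

theorem rho_eq {w : ℂ} (h : ‖w‖ ≤ 1) : rho w = w := by
  unfold rho
  rw [max_eq_left h]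
  simp

theorem rho_rot (a : Circle) (w : ℂ) : rho ((a : ℂ) * w) = (a : ℂ) * rho w := by
  unfold rho
  rw [norm_mul, Circle.norm_coe, one_mul, mul_div_assoc]

/-- retraction onto the closed bidisc -/
noncomputable def ret : C(ℂ × ℂ, B × B) where
  toFun z := (⟨rho z.1, by simpa using rho_norm z.1⟩, ⟨rho z.2, by simpa using rho_norm z.2⟩)
  continuous_toFun := by
    refine Continuous.prodMk ?_ ?_
    · exact Continuous.subtype_mk (rho_cont.comp continuous_fst) _
    · exact Continuous.subtype_mk (rho_cont.comp continuous_snd) _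

/-- the extension of a function on the bidisc -/
noncomputable def ext (f : C(B × B, ℂ)) : BoundedContinuousFunction (ℂ × ℂ) ℂ :=
  (BoundedContinuousFunction.mkOfCompact f).compContinuous ret

theorem ext_apply (f : C(B × B, ℂ)) (z : ℂ × ℂ) : ext f z = f (ret z) := rfl

theorem T_open : IsOpen T := by
  unfold T
  exact (isOpen_lt (continuous_fst.norm) (continuous_snd.norm)).inter
    (isOpen_lt (continuous_snd.norm) continuous_const)

theorem T_sub : T ⊆ Metric.closedBall (0 : ℂ × ℂ) 1 := by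
  rintro z ⟨h1, h2⟩
  rw [mem_closedBall_zero_iff, Prod.norm_def]
  exact max_le (h1.le.trans h2.le) h2.le

instance : IsFiniteMeasure μT := by
  refine ⟨?_⟩
  unfold μT
  rw [Measure.restrict_apply_univ]
  exact lt_of_le_of_lt (measure_mono T_sub) measure_closedBall_lt_top

/-- the map to `L2` -/
noncomputable def Lam : C(B × B, ℂ) →L[ℂ] L2 :=
  LinearMap.mkContinuous
    { toFun := fun f => BoundedContinuousFunction.toLp 2 μT ℂ (ext f)
      map_add' := by
        intro f g
        rw [← map_add]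
        rfl
      map_smul' := by
        intro c f
        rw [RingHom.id_apply, ← map_smul]
        rfl }
    ‖(BoundedContinuousFunction.toLp 2 μT ℂ : (BoundedContinuousFunction (ℂ × ℂ) ℂ) →L[ℂ] L2)‖
    (by
      intro f
      refine (ContinuousLinearMap.le_opNorm (BoundedContinuousFunction.toLp 2 μT ℂ :
        (BoundedContinuousFunction (ℂ × ℂ) ℂ) →L[ℂ] L2) (ext f)).trans ?_
      refine mul_le_mul_of_nonneg_left ?_ (norm_nonneg _)
      refine (BoundedContinuousFunction.norm_le (norm_nonneg _)).2 fun z => ?_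
      exact f.norm_coe_le_norm _)

theorem Lam_apply (f : C(B × B, ℂ)) : Lam f = BoundedContinuousFunction.toLp 2 μT ℂ (ext f) := rfl

theorem rot (a b : Circle) :
    MeasurePreserving (fun z : ℂ × ℂ => ((a : ℂ) * z.1, (b : ℂ) * z.2)) μT μT := by
  have h1 : ∀ a : Circle, MeasurePreserving (fun z : ℂ => (a : ℂ) * z) volume volume := by
    intro a
    exact (rotation a).measurePreserving
  have h2 : MeasurePreserving (fun z : ℂ × ℂ => ((a : ℂ) * z.1, (b : ℂ) * z.2)) volume volume :=
    (h1 a).prod (h1 b)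
  have h3 := h2.restrict_preimage (s := T) T_open.measurableSet
  have h4 : (fun z : ℂ × ℂ => ((a : ℂ) * z.1, (b : ℂ) * z.2)) ⁻¹' T = T := by
    ext z
    simp [T]
  rw [h4] at h3
  exact h3

/-- functions of a mode on the closed bidisc -/
def MK (f : C(B × B, ℂ)) : Prop := ∃ m n : ℤ, ∀ (a b : Circle) (x y : B × B),
  (y.1 : ℂ) = a * x.1 → (y.2 : ℂ) = b * x.2 → f y = (a : ℂ) ^ m * (b : ℂ) ^ n * f x

theorem mode_of_MK (f : C(B × B, ℂ)) (h : MK f) : ∃ m n : ℤ, Mode m n (Lam f) := by
  obtain ⟨m, n, h⟩ := h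
  refine ⟨m, n, fun a b => ?_⟩
  have h1 : (Lam f : ℂ × ℂ → ℂ) =ᵐ[μT] ext f := BoundedContinuousFunction.coeFn_toLp 2 μT ℂ _
  have h2 := (rot a b).quasiMeasurePreserving.ae_eq_comp h1
  filter_upwards [h1, h2] with z e1 e2
  simp only [Function.comp] at e2
  rw [e2, e1, ext_apply, ext_apply]
  exact h a b (ret z) _ (rho_rot a z.1) (rho_rot b z.2)

/-- first coordinate -/
def c1 : C(B × B, ℂ) := ⟨fun z => (z.1 : ℂ), by fun_prop⟩
/-- second coordinate -/
def c2 : C(B × B, ℂ) := ⟨fun z => (z.2 : ℂ), by fun_prop⟩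

theorem MK_one : MK 1 := ⟨0, 0, fun a b x y _ _ => by simp⟩

theorem MK_mul {f g : C(B × B, ℂ)} (hf : MK f) (hg : MK g) : MK (f * g) := by
  obtain ⟨m, n, hf⟩ := hf
  obtain ⟨m', n', hg⟩ := hg
  refine ⟨m + m', n + n', fun a b x y h1 h2 => ?_⟩
  rw [ContinuousMap.mul_apply, ContinuousMap.mul_apply, hf a b x y h1 h2, hg a b x y h1 h2,
    zpow_add₀ (Circle.coe_ne_zero a), zpow_add₀ (Circle.coe_ne_zero b)]
  ring

theorem MK_star {f : C(B × B, ℂ)} (hf : MK f) : MK (star f) := by
  obtain ⟨m, n, hf⟩ := hf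
  refine ⟨-m, -n, fun a b x y h1 h2 => ?_⟩
  rw [ContinuousMap.star_apply, ContinuousMap.star_apply, hf a b x y h1 h2, star_mul', star_mul']
  have key : ∀ (a : Circle) (m : ℤ), star ((a : ℂ) ^ m) = (a : ℂ) ^ (-m) := by
    intro a m
    rw [zpow_neg, star_zpow₀, ← inv_zpow]
    congr 1
    rw [← Circle.coe_inv, Circle.coe_inv_eq_conj]
    rfl
  rw [key, key]

theorem MK_c1 : MK c1 := ⟨1, 0, fun a b x y h1 _ => by simpa [c1] using h1⟩
theorem MK_c2 : MK c2 := ⟨0, 1, fun a b x y _ h2 => by simpa [c2] using h2⟩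

theorem MK_closure (f : C(B × B, ℂ))
    (hf : f ∈ Submonoid.closure (({c1, c2} : Set C(B × B, ℂ)) ∪ star {c1, c2})) : MK f := by
  induction hf using Submonoid.closure_induction with
  | mem x hx =>
    rcases hx with hx | hx
    · rcases hx with rfl | hx
      · exact MK_c1
      · rw [mem_singleton_iff] at hx
        rw [hx]; exact MK_c2
    · rw [Set.mem_star] at hx
      rw [← star_star x]
      rcases hx with hx | hx
      · rw [hx]; exact MK_star MK_c1
      · rw [mem_singleton_iff] at hx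
        rw [hx]; exact MK_star MK_c2
  | one => exact MK_one
  | mul x y _ _ hx hy => exact MK_mul hx hy

end MT

open MT in
theorem taskModeTotal : TaskModeTotal := by
  unfold TaskModeTotal
  set W := (Submodule.span ℂ {u : L2 | ∃ m n : ℤ, Mode m n u}).topologicalClosure with hW
  have hWc : IsClosed (W : Set L2) := Submodule.isClosed_topologicalClosure _
  have h1 : ∀ f ∈ StarAlgebra.adjoin ℂ ({c1, c2} : Set C(B × B, ℂ)), Lam f ∈ W := by
    intro f hf
    have h2 : f ∈ Algebra.adjoin ℂ (({c1, c2} : Set C(B × B, ℂ)) ∪ star {c1, c2}) := by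
      rw [← StarAlgebra.adjoin_toSubalgebra]; exact hf
    have h3 : f ∈ Submodule.span ℂ
        (Submonoid.closure (({c1, c2} : Set C(B × B, ℂ)) ∪ star {c1, c2}) : Set C(B × B, ℂ)) := by
      rw [← Algebra.adjoin_eq_span]; exact h2
    have h4 : Submodule.span ℂ
        (Submonoid.closure (({c1, c2} : Set C(B × B, ℂ)) ∪ star {c1, c2}) : Set C(B × B, ℂ)) ≤
        W.comap (Lam : C(B × B, ℂ) →ₗ[ℂ] L2) := by
      refine Submodule.span_le.2 fun x hx => ?_
      exact subset_closure (Submodule.subset_span (mode_of_MK x (MK_closure x hx)))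
    exact h4 h3
  have hsep : (StarAlgebra.adjoin ℂ ({c1, c2} : Set C(B × B, ℂ))).SeparatesPoints := by
    intro x y hxy
    by_cases h : (x.1 : ℂ) = y.1
    · refine ⟨c2, ⟨c2, StarAlgebra.subset_adjoin ℂ _ (by simp), rfl⟩, fun h' => hxy ?_⟩
      exact Prod.ext (Subtype.ext h) (Subtype.ext h')
    · exact ⟨c1, ⟨c1, StarAlgebra.subset_adjoin ℂ _ (by simp), rfl⟩, h⟩
  have htop := ContinuousMap.starSubalgebra_topologicalClosure_eq_top_of_separatesPoints _ hsep
  have h2 : ∀ f : C(B × B, ℂ), Lam f ∈ W := by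
    intro f
    have hf : f ∈ closure ((StarAlgebra.adjoin ℂ ({c1, c2} : Set C(B × B, ℂ))) :
        Set C(B × B, ℂ)) := by
      rw [← StarSubalgebra.topologicalClosure_coe, htop]
      trivial
    exact closure_minimal (s := ((StarAlgebra.adjoin ℂ ({c1, c2} : Set C(B × B, ℂ))) :
        Set C(B × B, ℂ))) (t := Lam ⁻¹' (W : Set L2)) h1 (hWc.preimage Lam.continuous) hf
  have h3 : ∀ g : BoundedContinuousFunction (ℂ × ℂ) ℂ,
      BoundedContinuousFunction.toLp 2 μT ℂ g ∈ W := by
    intro g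
    let j : C(B × B, ℂ × ℂ) := ⟨fun z => ((z.1 : ℂ), (z.2 : ℂ)), by fun_prop⟩
    have e : BoundedContinuousFunction.toLp 2 μT ℂ g = Lam (g.toContinuousMap.comp j) := by
      refine Lp.ext ?_
      have e1 : (BoundedContinuousFunction.toLp 2 μT ℂ g : ℂ × ℂ → ℂ) =ᵐ[μT] g :=
        BoundedContinuousFunction.coeFn_toLp 2 μT ℂ _
      have e2 : (Lam (g.toContinuousMap.comp j) : ℂ × ℂ → ℂ) =ᵐ[μT]
        ext (g.toContinuousMap.comp j) := BoundedContinuousFunction.coeFn_toLp 2 μT ℂ _
      have e3 : ∀ᵐ z ∂μT, z ∈ T := ae_restrict_mem T_open.measurableSet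
      filter_upwards [e1, e2, e3] with z h1 h2 h3
      rw [h1, h2, ext_apply]
      have r1 : rho z.1 = z.1 := rho_eq (h3.1.trans h3.2).le
      have r2 : rho z.2 = z.2 := rho_eq h3.2.le
      show g z = g (rho z.1, rho z.2)
      rw [r1, r2]
    rw [e]
    exact h2 _
  have hdense : DenseRange (BoundedContinuousFunction.toLp 2 μT ℂ :
      (BoundedContinuousFunction (ℂ × ℂ) ℂ) →L[ℂ] L2) :=
    BoundedContinuousFunction.toLp_denseRange _ _ ℂ (by norm_num)
  rw [eq_top_iff]
  intro u _
  have : closure (Set.range (BoundedContinuousFunction.toLp 2 μT ℂ :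
      (BoundedContinuousFunction (ℂ × ℂ) ℂ) →L[ℂ] L2)) ⊆ (W : Set L2) :=
    closure_minimal (by rintro _ ⟨g, rfl⟩; exact h3 g) hWc
  exact this (hdense u)

end Pool.Agent.H903HT
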