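import Mathlib
import Pool.Agent.H903HT.Stmts2
import Pool.Agent.H903HT.ModeTotal
import Pool.Agent.H903HT.TaskModeClosed
import Pool.Agent.H903HT.TaskRot

set_option autoImplicit false

open MeasureTheory Filter Topology Set

namespace Pool.Agent.H903HT

theorem ft_mode_zero (hR : TaskRot) (hC : TaskModeClosed) (m n : ℤ) : Mode m n (0 : L2) := by
  obtain ⟨W, hW, _⟩ := hC hR m n
  have : (0 : L2) ∈ (W : Set L2) := W.zero_mem
  rw [hW] at this
  exact this

theorem formTotal_of (hR : TaskRot) (hC : TaskModeClosed) (hT : TaskModeTotal) : TaskFormTotal := by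
  unfold TaskFormTotal
  unfold TaskModeTotal at hT
  set S : Submodule ℂ L21 :=
    (Submodule.span ℂ {f : L21 | ∃ m n : ℤ, FormMode m n f}).topologicalClosure with hS
  have hSc : IsClosed (S : Set L21) := Submodule.isClosed_topologicalClosure _
  let ι1 : L2 →L[ℂ] L21 :=
    ((WithLp.prodContinuousLinearEquiv 2 ℂ L2 L2).symm : (L2 × L2) →L[ℂ] L21).comp
      (ContinuousLinearMap.inl ℂ L2 L2)
  let ι2 : L2 →L[ℂ] L21 :=
    ((WithLp.prodContinuousLinearEquiv 2 ℂ L2 L2).symm : (L2 × L2) →L[ℂ] L21).comp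
      (ContinuousLinearMap.inr ℂ L2 L2)
  have key : ∀ ι : L2 →L[ℂ] L21, (∀ u, (∃ m n : ℤ, Mode m n u) → ∃ m n : ℤ, FormMode m n (ι u)) →
      ∀ u, ι u ∈ S := by
    intro ι hι u
    have h1 : (Submodule.span ℂ {u : L2 | ∃ m n : ℤ, Mode m n u}).topologicalClosure ≤
        S.comap (ι : L2 →ₗ[ℂ] L21) := by
      apply Submodule.topologicalClosure_minimal
      · rw [Submodule.span_le]
        intro w hw
        exact Submodule.le_topologicalClosure _ (Submodule.subset_span (hι w hw))
      · exact hSc.preimage ι.continuous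
    rw [hT] at h1
    exact h1 (Submodule.mem_top : u ∈ ⊤)
  have k1 := key ι1 (by
    rintro u ⟨m, n, hu⟩
    refine ⟨m - 1, n, ?_, ?_⟩
    · have : (ι1 u).fst = u := rfl
      rw [this, sub_add_cancel]; exact hu
    · have : (ι1 u).snd = 0 := rfl
      rw [this]; exact ft_mode_zero hR hC _ _)
  have k2 := key ι2 (by
    rintro u ⟨m, n, hu⟩
    refine ⟨m, n - 1, ?_, ?_⟩
    · have : (ι2 u).fst = 0 := rfl
      rw [this]; exact ft_mode_zero hR hC _ _
    · have : (ι2 u).snd = u := rfl
      rw [this, sub_add_cancel]; exact hu)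
  rw [eq_top_iff]
  rintro f -
  have hf : f = ι1 f.fst + ι2 f.snd := by
    apply (WithLp.prodContinuousLinearEquiv 2 ℂ L2 L2).injective
    refine Prod.ext ?_ ?_
    · change f.fst = f.fst + 0
      rw [add_zero]
    · change f.snd = 0 + f.snd
      rw [zero_add]
  rw [hf]
  exact S.add_mem (k1 _) (k2 _)

theorem taskFormTotal : TaskFormTotal := formTotal_of taskRot taskModeClosed taskModeTotal

end Pool.Agent.H903HT
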