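import Pool.Agent.H903HT.Stmts

/-!
Task TP5 of project H903-HT (helper939): Fourier coefficients of `F` against functions in a mode.
-/

set_option autoImplicit false

open MeasureTheory Filter Topology Set
open scoped ContDiff ENNReal

namespace Pool.Agent.H903HT

namespace Fou

/-- the angular measure -/
noncomputable abbrev ν : Measure (ℝ × ℝ) := μΘ.prod μΘ

/-- the full measure in the coordinates -/
noncomputable abbrev PP : Measure ((ℝ × ℝ) × (ℝ × ℝ)) := μQ.prod ν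

instance fin_μI : IsFiniteMeasure μI := by unfold μI; infer_instance
instance fin_μQ : IsFiniteMeasure μQ := by unfold μQ; infer_instance
instance fin_μΘ : IsFiniteMeasure μΘ := by unfold μΘ; infer_instance

lemma continuous_Pt : Continuous Pt := by unfold Pt; fun_prop

lemma measurable_Pt : Measurable Pt := continuous_Pt.measurable

lemma continuous_chi (m n : ℤ) : Continuous (chi m n) := by unfold chi; fun_prop

lemma norm_chi (m n : ℤ) (θ : ℝ × ℝ) : ‖chi m n θ‖ = 1 := by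
  unfold chi; exact Complex.norm_exp_ofReal_mul_I _

lemma continuous_fac : Continuous fac := by unfold fac; fun_prop

lemma ae_mem_Q : ∀ᵐ x ∂μQ, x ∈ Ioo (0:ℝ) 1 ×ˢ Ioo (0:ℝ) 1 := by
  unfold μQ μI
  rw [Measure.prod_restrict]
  exact ae_restrict_mem (measurableSet_Ioo.prod measurableSet_Ioo)

lemma ae_mem_PP : ∀ᵐ x ∂PP, x.1 ∈ Ioo (0:ℝ) 1 ×ˢ Ioo (0:ℝ) 1 :=
  Measure.quasiMeasurePreserving_fst.ae ae_mem_Q

/-- the density -/
noncomputable def dens (x : (ℝ × ℝ) × (ℝ × ℝ)) : ℝ≥0∞ := ENNReal.ofReal (x.1.1 * x.1.2 ^ 3)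

lemma measurable_dens : Measurable dens := by
  unfold dens
  exact ENNReal.measurable_ofReal.comp (by fun_prop)

lemma lint_T (hP : TaskPolar) {g : ℂ × ℂ → ℝ≥0∞} (hg : Measurable g) :
    ∫⁻ z, g z ∂μT = ∫⁻ x, dens x * g (Pt x) ∂PP := by
  have h0 : Measure.map Pt (PP.withDensity dens) = μT := hP
  have h1 := lintegral_withDensity_eq_lintegral_mul PP measurable_dens (hg.comp measurable_Pt)
  rw [← h0, lintegral_map hg measurable_Pt]
  exact h1

lemma int_T (hP : TaskPolar) {g : ℂ × ℂ → ℂ} (hg : Measurable g) :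
    ∫ z, g z ∂μT = ∫ x, (dens x).toReal • g (Pt x) ∂PP := by
  have h0 : Measure.map Pt (PP.withDensity dens) = μT := hP
  rw [← h0, integral_map measurable_Pt.aemeasurable hg.aestronglyMeasurable,
    integral_withDensity_eq_integral_toReal_smul measurable_dens
      (Eventually.of_forall fun x => ENNReal.ofReal_lt_top)]

lemma fac_sq {x : ℝ × ℝ} (h1 : 0 ≤ x.1) (h2 : 0 ≤ x.2) :
    fac x * fac x = ((4 * Real.pi ^ 2 * (x.1 * x.2 ^ 3) : ℝ) : ℂ) := by
  unfold fac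
  rw [← Complex.ofReal_mul]
  congr 1
  have e1 := Real.mul_self_sqrt h1
  have e2 := Real.mul_self_sqrt h2
  calc 2 * Real.pi * √x.1 * (x.2 * √x.2) * (2 * Real.pi * √x.1 * (x.2 * √x.2))
      = 4 * Real.pi ^ 2 * ((√x.1 * √x.1) * (x.2 ^ 2 * (√x.2 * √x.2))) := by ring
    _ = _ := by rw [e1, e2]; ring

lemma norm_fac_le {x : ℝ × ℝ} (hx : x ∈ Ioo (0:ℝ) 1 ×ˢ Ioo (0:ℝ) 1) :
    ‖fac x‖ ≤ 2 * Real.pi := by
  have h1 := hx.1.1
  have h2 := hx.2.1
  have h3 := hx.1.2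
  have h4 := hx.2.2
  unfold fac
  rw [Complex.norm_real, Real.norm_of_nonneg (by positivity)]
  have e1 : √x.1 ≤ 1 := Real.sqrt_le_one.2 h3.le
  have e2 : √x.2 ≤ 1 := Real.sqrt_le_one.2 h4.le
  have e3 : x.2 * √x.2 ≤ 1 := by
    have := Real.sqrt_nonneg x.2
    nlinarith
  have e4 : √x.1 * (x.2 * √x.2) ≤ 1 := by
    have := Real.sqrt_nonneg x.2
    have := Real.sqrt_nonneg x.1
    calc √x.1 * (x.2 * √x.2) ≤ 1 * 1 := mul_le_mul e1 e3 (by positivity) zero_le_one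
      _ = 1 := one_mul 1
  have := Real.pi_pos
  calc 2 * Real.pi * √x.1 * (x.2 * √x.2) = 2 * Real.pi * (√x.1 * (x.2 * √x.2)) := by ring
    _ ≤ 2 * Real.pi * 1 := by gcongr
    _ = 2 * Real.pi := mul_one _

/-- the constant `4 π²` -/
noncomputable def K : ℝ := 4 * Real.pi ^ 2

lemma K_pos : 0 < K := by unfold K; positivity

lemma ν_univ : ν univ = ENNReal.ofReal K := by
  have h1 : μΘ univ = ENNReal.ofReal (2 * Real.pi) := by
    unfold μΘ
    rw [Measure.restrict_apply_univ, Real.volume_Ioo]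
    congr 1; ring
  have h2 : ν univ = μΘ univ * μΘ univ := by
    rw [← univ_prod_univ]; exact Measure.prod_prod _ _
  rw [h2, h1, ← ENNReal.ofReal_mul (by positivity)]
  congr 1; unfold K; ring

variable (F : L2)

/-- the function in the coordinates -/
noncomputable def G (x : (ℝ × ℝ) × (ℝ × ℝ)) : ℂ := fac x.1 * F (Pt x)

lemma meas_F : Measurable (F : ℂ × ℂ → ℂ) := (Lp.stronglyMeasurable F).measurable

lemma meas_G : Measurable (G F) := by
  unfold G
  exact (continuous_fac.measurable.comp measurable_fst).mul ((meas_F F).comp measurable_Pt)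

lemma enorm_sq_G {x : (ℝ × ℝ) × (ℝ × ℝ)} (hx : x.1 ∈ Ioo (0:ℝ) 1 ×ˢ Ioo (0:ℝ) 1) :
    ‖G F x‖ₑ ^ (2:ℝ) = ENNReal.ofReal K * (dens x * ‖F (Pt x)‖ₑ ^ (2:ℝ)) := by
  have h1 : 0 < x.1.1 := hx.1.1
  have h2 : 0 < x.1.2 := hx.2.1
  have e : ‖fac x.1‖ₑ ^ (2:ℝ) = ENNReal.ofReal K * dens x := by
    have e1 : ‖fac x.1 * fac x.1‖ₑ = ENNReal.ofReal K * dens x := by
      rw [fac_sq h1.le h2.le]
      unfold dens K
      rw [← ENNReal.ofReal_mul (by positivity), ← ofReal_norm, Complex.norm_real,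
        Real.norm_of_nonneg (by positivity)]
    rw [← e1, enorm_mul, ENNReal.rpow_two, sq]
  unfold G
  rw [enorm_mul, ENNReal.mul_rpow_of_nonneg _ _ (by norm_num), e, mul_assoc]

lemma lint_G (hP : TaskPolar) :
    ∫⁻ x, ‖G F x‖ₑ ^ (2:ℝ) ∂PP = ENNReal.ofReal K * ∫⁻ z, ‖F z‖ₑ ^ (2:ℝ) ∂μT := by
  have hm : Measurable fun z => ‖F z‖ₑ ^ (2:ℝ) := ((meas_F F).enorm).pow_const _
  have hm2 : Measurable fun x => dens x * ‖F (Pt x)‖ₑ ^ (2:ℝ) :=
    measurable_dens.mul (hm.comp measurable_Pt)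
  rw [lint_T hP hm, ← lintegral_const_mul _ hm2]
  apply lintegral_congr_ae
  filter_upwards [ae_mem_PP] with x hx
  exact enorm_sq_G F hx

/-- the Fourier coefficient -/
noncomputable def h0 (m n : ℤ) (x : ℝ × ℝ) : ℂ :=
  ((1 / K : ℝ) : ℂ) * ∫ θ, G F (x, θ) * chi (-m) (-n) θ ∂ν

lemma meas_Gchi (m n : ℤ) :
    Measurable fun x : (ℝ × ℝ) × (ℝ × ℝ) => G F x * chi (-m) (-n) x.2 :=
  (meas_G F).mul ((continuous_chi _ _).measurable.comp measurable_snd)

lemma sm_h0 (m n : ℤ) : StronglyMeasurable (h0 F m n) := by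
  unfold h0
  have h := (meas_Gchi F m n).stronglyMeasurable.integral_prod_right' (ν := ν)
  exact stronglyMeasurable_const.mul h

lemma h0_sq (m n : ℤ) (x : ℝ × ℝ) :
    ‖h0 F m n x‖ₑ ^ (2:ℝ) ≤ ENNReal.ofReal (1 / K) * ∫⁻ θ, ‖G F (x, θ)‖ₑ ^ (2:ℝ) ∂ν := by
  have hK := K_pos
  have hGm : Measurable fun θ => G F (x, θ) := (meas_G F).comp measurable_prodMk_left
  have h1 : ‖h0 F m n x‖ₑ ≤ ENNReal.ofReal (1 / K) * ∫⁻ θ, ‖G F (x, θ)‖ₑ ∂ν := by
    unfold h0
    rw [enorm_mul]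
    gcongr
    · rw [← ofReal_norm, Complex.norm_real, Real.norm_of_nonneg (by positivity)]
    · refine (enorm_integral_le_lintegral_enorm _).trans ?_
      apply lintegral_mono
      intro θ
      have : ‖chi (-m) (-n) θ‖ₑ = 1 := by
        rw [← ofReal_norm, norm_chi, ENNReal.ofReal_one]
      simp only [enorm_mul, this, mul_one, le_refl]
  have h2 : ∫⁻ θ, ‖G F (x, θ)‖ₑ ∂ν ≤
      (∫⁻ θ, ‖G F (x, θ)‖ₑ ^ (2:ℝ) ∂ν) ^ (1 / 2 : ℝ) * ENNReal.ofReal K ^ (1 / 2 : ℝ) := by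
    have h3 := eLpNorm_le_eLpNorm_mul_rpow_measure_univ (μ := ν) (p := 1) (q := 2)
      (f := fun θ => G F (x, θ)) (by norm_num) hGm.aestronglyMeasurable
    rw [eLpNorm_one_eq_lintegral_enorm, eLpNorm_eq_lintegral_rpow_enorm_toReal (by norm_num) (by norm_num)] at h3
    rw [ν_univ] at h3
    have e : (1 / (1 : ℝ≥0∞).toReal - 1 / (2 : ℝ≥0∞).toReal) = (1 / 2 : ℝ) := by norm_num
    rw [e] at h3
    simpa using h3
  calc ‖h0 F m n x‖ₑ ^ (2:ℝ)
      ≤ (ENNReal.ofReal (1 / K) * ((∫⁻ θ, ‖G F (x, θ)‖ₑ ^ (2:ℝ) ∂ν) ^ (1 / 2 : ℝ) *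
          ENNReal.ofReal K ^ (1 / 2 : ℝ))) ^ (2:ℝ) := by
        gcongr
        exact h1.trans (by gcongr)
    _ = ENNReal.ofReal (1 / K) ^ (2:ℝ) * (∫⁻ θ, ‖G F (x, θ)‖ₑ ^ (2:ℝ) ∂ν) * ENNReal.ofReal K := by
        rw [ENNReal.mul_rpow_of_nonneg _ _ (by norm_num),
          ENNReal.mul_rpow_of_nonneg _ _ (by norm_num), ← ENNReal.rpow_mul, ← ENNReal.rpow_mul]
        norm_num
        rw [mul_assoc]
    _ = ENNReal.ofReal (1 / K) * ∫⁻ θ, ‖G F (x, θ)‖ₑ ^ (2:ℝ) ∂ν := by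
        have e : ENNReal.ofReal (1 / K) * ENNReal.ofReal K = 1 := by
          rw [← ENNReal.ofReal_mul (by positivity), one_div, inv_mul_cancel₀ hK.ne',
            ENNReal.ofReal_one]
        rw [ENNReal.rpow_two, sq]
        calc _ = (ENNReal.ofReal (1 / K) * ENNReal.ofReal K) *
              (ENNReal.ofReal (1 / K) * ∫⁻ θ, ‖G F (x, θ)‖ₑ ^ (2:ℝ) ∂ν) := by ring
          _ = _ := by rw [e, one_mul]

lemma lint_h0 (hP : TaskPolar) (m n : ℤ) :
    ∫⁻ x, ‖h0 F m n x‖ₑ ^ (2:ℝ) ∂μQ ≤ ∫⁻ z, ‖F z‖ₑ ^ (2:ℝ) ∂μT := by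
  have hK := K_pos
  have hGm : Measurable fun x => ‖G F x‖ₑ ^ (2:ℝ) := ((meas_G F).enorm).pow_const _
  calc ∫⁻ x, ‖h0 F m n x‖ₑ ^ (2:ℝ) ∂μQ
      ≤ ∫⁻ x, ENNReal.ofReal (1 / K) * ∫⁻ θ, ‖G F (x, θ)‖ₑ ^ (2:ℝ) ∂ν ∂μQ :=
        lintegral_mono fun x => h0_sq F m n x
    _ = ENNReal.ofReal (1 / K) * ∫⁻ x, ∫⁻ θ, ‖G F (x, θ)‖ₑ ^ (2:ℝ) ∂ν ∂μQ :=
        lintegral_const_mul _ hGm.lintegral_prod_right'
    _ = ENNReal.ofReal (1 / K) * ∫⁻ x, ‖G F x‖ₑ ^ (2:ℝ) ∂PP := by
        rw [lintegral_prod _ hGm.aemeasurable]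
    _ = ∫⁻ z, ‖F z‖ₑ ^ (2:ℝ) ∂μT := by
        rw [lint_G F hP, ← mul_assoc, ← ENNReal.ofReal_mul (by positivity), one_div,
          inv_mul_cancel₀ hK.ne', ENNReal.ofReal_one, one_mul]

lemma eLp_h0 (hP : TaskPolar) (m n : ℤ) :
    eLpNorm (h0 F m n) 2 μQ ≤ eLpNorm F 2 μT := by
  rw [eLpNorm_eq_lintegral_rpow_enorm_toReal (by norm_num) (by norm_num),
    eLpNorm_eq_lintegral_rpow_enorm_toReal (by norm_num) (by norm_num)]
  have e : (2 : ℝ≥0∞).toReal = 2 := by norm_num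
  rw [e]
  exact ENNReal.rpow_le_rpow (lint_h0 F hP m n) (by norm_num)

lemma memLp_h0 (hP : TaskPolar) (m n : ℤ) : MemLp (h0 F m n) 2 μQ :=
  ⟨(sm_h0 F m n).aestronglyMeasurable, lt_of_le_of_lt (eLp_h0 F hP m n) (Lp.eLpNorm_lt_top F)⟩

lemma integrable_G (hP : TaskPolar) : Integrable (G F) PP := by
  have h : MemLp (G F) 2 PP := by
    refine ⟨(meas_G F).aestronglyMeasurable, ?_⟩
    rw [eLpNorm_eq_lintegral_rpow_enorm_toReal (by norm_num) (by norm_num)]
    have e : (2 : ℝ≥0∞).toReal = 2 := by norm_num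
    rw [e, lint_G F hP]
    apply ENNReal.rpow_lt_top_of_nonneg (by norm_num)
    have h1 : ∫⁻ z, ‖F z‖ₑ ^ (2:ℝ) ∂μT < ⊤ := by
      have := lintegral_rpow_enorm_lt_top_of_eLpNorm_lt_top (p := 2) (by norm_num) (by norm_num)
        (Lp.eLpNorm_lt_top F)
      simpa using this
    exact (ENNReal.mul_lt_top ENNReal.ofReal_lt_top h1).ne
  exact h.integrable (by norm_num)

end Fou

open Fou in
/-- TP5. -/
theorem taskFourier : TaskFourier := by
  intro hP m n F
  have hK := K_pos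
  refine ⟨(memLp_h0 F hP m n).toLp, ?_, ?_⟩
  · rw [Lp.norm_toLp, Lp.norm_def]
    exact ENNReal.toReal_mono (Lp.eLpNorm_ne_top F) (eLp_h0 F hP m n)
  · intro Φ η hΦ hη hrel
    have hηc : Continuous η := hη.1.continuous
    obtain ⟨C, hC⟩ := hη.2.1.exists_bound_of_continuous hηc
    have hmeas : Measurable fun z => F z * Φ z := (meas_F F).mul hΦ.1.continuous.measurable
    have hint : Integrable (fun x : (ℝ × ℝ) × (ℝ × ℝ) => (((1 / K : ℝ) : ℂ) *
        (G F x * chi (-m) (-n) x.2)) * (fac x.1 * η x.1)) PP := by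
      have h1 : Integrable (fun x : (ℝ × ℝ) × (ℝ × ℝ) =>
          G F x * (((1 / K : ℝ) : ℂ) * chi (-m) (-n) x.2 * (fac x.1 * η x.1))) PP := by
        refine (integrable_G F hP).mul_bdd (c := 1 / K * (2 * Real.pi * C)) ?_ ?_
        · apply Measurable.aestronglyMeasurable
          refine (measurable_const.mul ((continuous_chi _ _).measurable.comp measurable_snd)).mul ?_
          exact ((continuous_fac.measurable.comp measurable_fst).mul
            (hηc.measurable.comp measurable_fst))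
        · filter_upwards [ae_mem_PP] with x hx
          rw [norm_mul, norm_mul, norm_mul, norm_chi, mul_one, Complex.norm_real,
            Real.norm_of_nonneg (by positivity)]
          have := norm_fac_le hx
          have := hC x.1
          gcongr
      refine h1.congr (Eventually.of_forall fun x => ?_)
      simp only
      ring
    calc ∫ z, F z * Φ z ∂μT
        = ∫ x, (dens x).toReal • (F (Pt x) * Φ (Pt x)) ∂PP := int_T hP hmeas
      _ = ∫ x, (((1 / K : ℝ) : ℂ) * (G F x * chi (-m) (-n) x.2)) * (fac x.1 * η x.1) ∂PP := by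
          apply integral_congr_ae
          filter_upwards [ae_mem_PP] with x hx
          have h1 : 0 < x.1.1 := hx.1.1
          have h2 : 0 < x.1.2 := hx.2.1
          rw [hrel x hx]
          unfold G dens
          rw [ENNReal.toReal_ofReal (by positivity), Complex.real_smul]
          have e := fac_sq h1.le h2.le
          have e2 : ((1 / K : ℝ) : ℂ) * (fac x.1 * fac x.1) = ((x.1.1 * x.1.2 ^ 3 : ℝ) : ℂ) := by
            rw [e, ← Complex.ofReal_mul]
            congr 1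
            have : 4 * Real.pi ^ 2 = K := rfl
            rw [this]
            field_simp
          rw [← e2]
          ring
      _ = ∫ x, ∫ θ, (((1 / K : ℝ) : ℂ) * (G F (x, θ) * chi (-m) (-n) θ)) * (fac x * η x) ∂ν ∂μQ := by
          rw [integral_prod _ hint]
      _ = ∫ x, h0 F m n x * (fac x * η x) ∂μQ := by
          apply integral_congr_ae
          refine Eventually.of_forall fun x => ?_
          simp only
          rw [integral_mul_const, integral_const_mul]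
          rfl
      _ = ∫ x, ((memLp_h0 F hP m n).toLp : ℝ × ℝ → ℂ) x * (fac x * η x) ∂μQ := by
          apply integral_congr_ae
          filter_upwards [(memLp_h0 F hP m n).coeFn_toLp] with x hx
          rw [hx]

end Pool.Agent.H903HT
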