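import Pool.Agent.H903HT.Stmts

/-!
Task HS of project H903-HT: integral operators in the first variable with bounded kernel.
-/

set_option autoImplicit false

open MeasureTheory Filter Topology Set
open scoped ContDiff ENNReal

namespace Pool.Agent.H903HT

namespace HSAux

theorem finI : IsFiniteMeasure μI := by unfold μI; infer_instance

theorem measI : μI univ = 1 := by
  unfold μI; simp

theorem probI : IsProbabilityMeasure μI := ⟨measI⟩

theorem cs (f g : ℝ → ℝ≥0∞) (hf : AEMeasurable f μI) (hg : AEMeasurable g μI) :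
    (∫⁻ t, f t * g t ∂μI) ^ 2 ≤ (∫⁻ t, f t ^ 2 ∂μI) * (∫⁻ t, g t ^ 2 ∂μI) := by
  have h := ENNReal.lintegral_mul_le_Lp_mul_Lq μI Real.HolderConjugate.two_two hf hg
  have h2 := pow_le_pow_left' h 2
  refine h2.trans (le_of_eq ?_)
  rw [mul_pow]
  have e : ∀ a : ℝ≥0∞, (a ^ (1 / (2:ℝ))) ^ 2 = a := by
    intro a
    rw [← ENNReal.rpow_natCast, ← ENNReal.rpow_mul]
    norm_num
  rw [e, e]
  congr 1 <;> · congr 1; ext t; rw [← ENNReal.rpow_natCast]; norm_num

theorem hsbound (κ : ℝ → ℝ → ℂ) (hκ : Measurable (fun p : ℝ × ℝ => κ p.1 p.2))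
    (h : ℝ × ℝ → ℂ) (hh : AEStronglyMeasurable h μQ) :
    ∫⁻ x, ‖∫ t, κ x.1 t * h (t, x.2) ∂μI‖ₑ ^ 2 ∂μQ ≤
      (∫⁻ x, ‖κ x.1 x.2‖ₑ ^ 2 ∂μQ) * (∫⁻ x, ‖h x‖ₑ ^ 2 ∂μQ) := by
  have := finI
  have hhs : AEStronglyMeasurable (fun z : ℝ × ℝ => h z.swap) (μI.prod μI) := hh.prod_swap
  have hsec : ∀ᵐ ρ ∂μI, AEStronglyMeasurable (fun t => h (t, ρ)) μI := hhs.prodMk_left
  have hA : Measurable (fun s => ∫⁻ t, ‖κ s t‖ₑ ^ 2 ∂μI) :=
    Measurable.lintegral_prod_right' (hκ.enorm.pow_const 2)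
  have hB : AEMeasurable (fun ρ => ∫⁻ t, ‖h (t, ρ)‖ₑ ^ 2 ∂μI) μI := by
    have := AEMeasurable.lintegral_prod_right' (hhs.enorm.pow_const 2)
    exact this
  have hae : ∀ᵐ x ∂μQ, AEStronglyMeasurable (fun t => h (t, x.2)) μI :=
    (Measure.quasiMeasurePreserving_snd (μ := μI) (ν := μI)).ae hsec
  have h1 : ∫⁻ x, ‖∫ t, κ x.1 t * h (t, x.2) ∂μI‖ₑ ^ 2 ∂μQ ≤
      ∫⁻ x, (∫⁻ t, ‖κ x.1 t‖ₑ ^ 2 ∂μI) * (∫⁻ t, ‖h (t, x.2)‖ₑ ^ 2 ∂μI) ∂μQ := by
    refine lintegral_mono_ae ?_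
    filter_upwards [hae] with x hx
    have hk : Measurable (fun t => κ x.1 t) := hκ.comp measurable_prodMk_left
    calc ‖∫ t, κ x.1 t * h (t, x.2) ∂μI‖ₑ ^ 2
        ≤ (∫⁻ t, ‖κ x.1 t * h (t, x.2)‖ₑ ∂μI) ^ 2 :=
          pow_le_pow_left' (enorm_integral_le_lintegral_enorm _) 2
      _ = (∫⁻ t, ‖κ x.1 t‖ₑ * ‖h (t, x.2)‖ₑ ∂μI) ^ 2 := by
          simp only [enorm_mul]
      _ ≤ _ := cs _ _ hk.enorm.aemeasurable hx.enorm
  refine h1.trans (le_of_eq ?_)
  unfold μQ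
  rw [lintegral_prod_mul hA.aemeasurable hB]
  congr 1
  · rw [lintegral_prod _ (hκ.enorm.pow_const 2).aemeasurable]
  · have hm : AEMeasurable (fun x => ‖h x‖ₑ ^ 2) (μI.prod μI) := by
      have := hh.enorm.pow_const 2
      exact this
    rw [lintegral_prod_symm _ hm]

theorem eL2 {α : Type*} [MeasurableSpace α] (μ : Measure α) (f : α → ℂ) :
    eLpNorm f 2 μ = (∫⁻ x, ‖f x‖ₑ ^ 2 ∂μ) ^ (1 / (2:ℝ)) := by
  rw [eLpNorm_eq_lintegral_rpow_enorm_toReal (by norm_num) (by norm_num)]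
  simp only [ENNReal.toReal_ofNat]
  congr 2
  ext x
  rw [← ENNReal.rpow_natCast]; norm_num

theorem hsnorm (κ : ℝ → ℝ → ℂ) (hκ : Measurable (fun p : ℝ × ℝ => κ p.1 p.2))
    (h : ℝ × ℝ → ℂ) (hh : AEStronglyMeasurable h μQ) :
    eLpNorm (fun x : ℝ × ℝ => ∫ t, κ x.1 t * h (t, x.2) ∂μI) 2 μQ ≤
      eLpNorm (fun x : ℝ × ℝ => κ x.1 x.2) 2 μQ * eLpNorm h 2 μQ := by
  rw [eL2, eL2, eL2, ← ENNReal.mul_rpow_of_nonneg _ _ (by norm_num)]
  exact ENNReal.rpow_le_rpow (hsbound κ hκ h hh) (by norm_num)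

/-- approximation of the kernel -/
theorem approxk (k : ℝ → ℝ → ℝ) (hk : Measurable (fun p : ℝ × ℝ => k p.1 p.2))
    (hb : ∀ s t, |k s t| ≤ 1) (δ : ℝ) (hδ : 0 < δ) :
    ∃ (N : ℕ) (p q : Fin N → ℝ → ℂ), (∀ i, Measurable (p i)) ∧ (∀ i, Measurable (q i)) ∧
      (∃ B : ℝ, ∀ i s, ‖p i s‖ ≤ B ∧ ‖q i s‖ ≤ B) ∧
      eLpNorm (fun x : ℝ × ℝ => ((k x.1 x.2 : ℝ) : ℂ) - ∑ i, p i x.1 * q i x.2) 2 μQ ≤
        ENNReal.ofReal δ := by
  have := finI
  have := probI
  have hQ : IsProbabilityMeasure μQ := by unfold μQ; infer_instance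
  have hK : MemLp (fun x : ℝ × ℝ => ((k x.1 x.2 : ℝ) : ℂ)) 2 μQ := by
    refine MemLp.of_bound (Complex.measurable_ofReal.comp hk).aestronglyMeasurable 1 ?_
    filter_upwards with x
    rw [Complex.norm_real]
    exact hb _ _
  obtain ⟨g, hgc, hgn, hgcont, hgm⟩ := hK.exists_hasCompactSupport_eLpNorm_sub_le
    (by norm_num) (ε := ENNReal.ofReal (δ / 2)) (by positivity)
  obtain ⟨B, hB⟩ := hgcont.bounded_above_of_compact_support hgc
  have huc : UniformContinuous g := hgc.uniformContinuous_of_continuous hgcont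
  obtain ⟨η, hη, hgη⟩ := Metric.uniformContinuous_iff.1 huc (δ / 2) (by positivity)
  obtain ⟨N, hN⟩ := exists_nat_one_div_lt hη
  have hN0 : (0:ℝ) < (N:ℝ) + 1 := by positivity
  refine ⟨N + 1, fun i s => (Ico ((i:ℕ) / ((N:ℝ) + 1)) (((i:ℕ) + 1) / ((N:ℝ) + 1))).indicator 1 s,
    fun i t => g ((i:ℕ) / ((N:ℝ) + 1), t), ?_, ?_, ?_, ?_⟩
  · intro i
    exact (measurable_one.indicator measurableSet_Ico)
  · intro i
    exact (hgcont.comp (by fun_prop)).measurable
  · refine ⟨max 1 B, fun i s => ⟨?_, (hB _).trans (le_max_right _ _)⟩⟩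
    refine le_trans ?_ (le_max_left _ _)
    by_cases hs : s ∈ Ico ((i:ℕ) / ((N:ℝ) + 1)) (((i:ℕ) + 1) / ((N:ℝ) + 1))
    · simp [indicator_of_mem hs]
    · simp [indicator_of_notMem hs]
  · set G : ℝ × ℝ → ℂ := fun x => ∑ i : Fin (N + 1),
      (Ico ((i:ℕ) / ((N:ℝ) + 1)) (((i:ℕ) + 1) / ((N:ℝ) + 1))).indicator 1 x.1 *
        g ((i:ℕ) / ((N:ℝ) + 1), x.2) with hG
    have hGm : Measurable G := by
      rw [hG]
      refine Finset.measurable_sum _ fun i _ => ?_
      refine Measurable.mul ?_ ?_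
      · exact (measurable_one.indicator measurableSet_Ico).comp measurable_fst
      · exact (hgcont.comp (by fun_prop)).measurable
    have hQae : ∀ᵐ x ∂μQ, x.1 ∈ Ioo (0:ℝ) 1 := by
      have h0 : ∀ᵐ s ∂μI, s ∈ Ioo (0:ℝ) 1 := by
        unfold μI; exact ae_restrict_mem measurableSet_Ioo
      exact (Measure.quasiMeasurePreserving_fst (μ := μI) (ν := μI)).ae h0
    have hclose : ∀ᵐ x ∂μQ, ‖g x - G x‖ ≤ δ / 2 := by
      filter_upwards [hQae] with x hx
      set j := ⌊x.1 * ((N:ℝ) + 1)⌋₊ with hj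
      have hx0 : 0 ≤ x.1 * ((N:ℝ) + 1) := mul_nonneg hx.1.le hN0.le
      have hj1 : (j:ℝ) ≤ x.1 * ((N:ℝ) + 1) := Nat.floor_le hx0
      have hj2 : x.1 * ((N:ℝ) + 1) < (j:ℝ) + 1 := Nat.lt_floor_add_one _
      have hjN : j < N + 1 := by
        have : (j:ℝ) < ((N + 1 : ℕ) : ℝ) := by
          push_cast
          calc (j:ℝ) ≤ x.1 * ((N:ℝ) + 1) := hj1
            _ < 1 * ((N:ℝ) + 1) := mul_lt_mul_of_pos_right hx.2 hN0
            _ = _ := one_mul _
        exact_mod_cast this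
      have hmem : x.1 ∈ Ico ((j:ℝ) / ((N:ℝ) + 1)) (((j:ℝ) + 1) / ((N:ℝ) + 1)) :=
        ⟨(div_le_iff₀ hN0).2 hj1, (lt_div_iff₀ hN0).2 hj2⟩
      have hGx : G x = g ((j:ℝ) / ((N:ℝ) + 1), x.2) := by
        rw [hG]
        simp only
        rw [Finset.sum_eq_single (⟨j, hjN⟩ : Fin (N + 1))]
        · simp only [indicator_of_mem hmem, Pi.one_apply, one_mul]
        · intro i _ hi
          have : x.1 ∉ Ico ((i:ℕ) / ((N:ℝ) + 1)) (((i:ℕ) + 1) / ((N:ℝ) + 1)) := by
            rintro ⟨ha, hb'⟩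
            apply hi
            rw [div_le_iff₀ hN0] at ha
            rw [lt_div_iff₀ hN0] at hb'
            apply Fin.ext
            simp only
            have : j = (i:ℕ) := by
              rw [hj, Nat.floor_eq_iff hx0]
              exact ⟨ha, hb'⟩
            exact this.symm
          rw [indicator_of_notMem this, zero_mul]
        · intro h0; exact absurd (Finset.mem_univ _) h0
      rw [hGx, ← dist_eq_norm]
      refine (hgη ?_).le
      rw [Prod.dist_eq]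
      simp only [dist_self]
      rw [max_eq_left dist_nonneg, Real.dist_eq]
      have hd : |x.1 - (j:ℝ) / ((N:ℝ) + 1)| ≤ 1 / ((N:ℝ) + 1) := by
        rw [abs_of_nonneg (by linarith [hmem.1])]
        have := hmem.2
        have e : ((j:ℝ) + 1) / ((N:ℝ) + 1) = (j:ℝ) / ((N:ℝ) + 1) + 1 / ((N:ℝ) + 1) := by
          ring
        rw [e] at this
        linarith
      exact lt_of_le_of_lt hd hN
    have h2 : eLpNorm (g - G) 2 μQ ≤ ENNReal.ofReal (δ / 2) := by
      have := eLpNorm_le_of_ae_bound (p := 2) (μ := μQ) (f := g - G) (C := δ / 2)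
        (by filter_upwards [hclose] with x hx; exact hx)
      refine this.trans (le_of_eq ?_)
      simp
    calc eLpNorm (fun x : ℝ × ℝ => ((k x.1 x.2 : ℝ) : ℂ) - G x) 2 μQ
        = eLpNorm (((fun x : ℝ × ℝ => ((k x.1 x.2 : ℝ) : ℂ)) - g) + (g - G)) 2 μQ := by
          congr 1; ext x; simp
      _ ≤ eLpNorm ((fun x : ℝ × ℝ => ((k x.1 x.2 : ℝ) : ℂ)) - g) 2 μQ + eLpNorm (g - G) 2 μQ :=
          eLpNorm_add_le (hK.1.sub hgm.1) (hgm.1.sub hGm.aestronglyMeasurable) (by norm_num)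
      _ ≤ ENNReal.ofReal (δ / 2) + ENNReal.ofReal (δ / 2) := add_le_add hgn h2
      _ = ENNReal.ofReal δ := by
          rw [← ENNReal.ofReal_add (by positivity) (by positivity)]; congr 1; ring

end HSAux

open HSAux in
/-- Task HS. -/
theorem taskHS : TaskHS := by
  intro k hk hb C hC ε hε
  have := finI
  obtain ⟨N, p, q, hp, hq, ⟨B, hB⟩, hapx⟩ := approxk k hk hb (ε / C) (by positivity)
  refine ⟨N, p, fun i => MemLp.of_bound (hp i).aestronglyMeasurable B
    (Eventually.of_forall fun s => (hB i s).1), ?_⟩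
  rintro c ⟨h, hh, hhC, rfl⟩
  have hhs : AEStronglyMeasurable (fun z : ℝ × ℝ => h z.swap) (μI.prod μI) := hh.1.prod_swap
  have hfin : ∀ᵐ ρ ∂μI, ∫⁻ t, ‖h (t, ρ)‖ₑ ^ 2 ∂μI < (⊤ : ℝ≥0∞) := by
    have hB' : AEMeasurable (fun ρ => ∫⁻ t, ‖h (t, ρ)‖ₑ ^ 2 ∂μI) μI := by
      have := AEMeasurable.lintegral_prod_right' (hhs.enorm.pow_const 2)
      exact this
    refine ae_lt_top' hB' ?_
    have hm : AEMeasurable (fun x => ‖h x‖ₑ ^ 2) (μI.prod μI) := by
      have := hh.1.enorm.pow_const 2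
      exact this
    rw [← lintegral_prod_symm _ hm]
    have := hh.2
    rw [eL2] at this
    intro htop
    unfold μQ at this
    rw [htop, ENNReal.top_rpow_of_pos (by norm_num)] at this
    exact absurd this (lt_irrefl _)
  have hsec : ∀ᵐ ρ ∂μI, AEStronglyMeasurable (fun t => h (t, ρ)) μI := hhs.prodMk_left
  have hmem : ∀ᵐ ρ ∂μI, MemLp (fun t => h (t, ρ)) 2 μI := by
    filter_upwards [hfin, hsec] with ρ h1 h2
    refine ⟨h2, ?_⟩
    rw [eL2]
    exact ENNReal.rpow_lt_top_of_nonneg (by norm_num) h1.ne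
  have hint : ∀ᵐ ρ ∂μI, Integrable (fun t => h (t, ρ)) μI := by
    filter_upwards [hmem] with ρ h1
    exact h1.integrable (by norm_num)
  refine ⟨fun i ρ => ∫ t, q i t * h (t, ρ) ∂μI, fun i => ?_, ?_⟩
  · refine ⟨?_, ?_⟩
    · have : AEStronglyMeasurable (fun z : ℝ × ℝ => q i z.2 * h z.swap) (μI.prod μI) :=
        ((hq i).comp measurable_snd).aestronglyMeasurable.mul hhs
      exact this.integral_prod_right'
    · rw [eL2]
      refine ENNReal.rpow_lt_top_of_nonneg (by norm_num) ?_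
      have hb1 : ∫⁻ ρ, ‖∫ t, q i t * h (t, ρ) ∂μI‖ₑ ^ 2 ∂μI ≤
          ∫⁻ ρ, (∫⁻ t, ‖q i t‖ₑ ^ 2 ∂μI) * (∫⁻ t, ‖h (t, ρ)‖ₑ ^ 2 ∂μI) ∂μI := by
        refine lintegral_mono_ae ?_
        filter_upwards [hsec] with ρ hx
        calc ‖∫ t, q i t * h (t, ρ) ∂μI‖ₑ ^ 2
            ≤ (∫⁻ t, ‖q i t * h (t, ρ)‖ₑ ∂μI) ^ 2 :=
              pow_le_pow_left' (enorm_integral_le_lintegral_enorm _) 2
          _ = (∫⁻ t, ‖q i t‖ₑ * ‖h (t, ρ)‖ₑ ∂μI) ^ 2 := by
              simp only [enorm_mul]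
          _ ≤ _ := cs _ _ (hq i).enorm.aemeasurable hx.enorm
      refine (lt_of_le_of_lt hb1 ?_).ne
      have hB' : AEMeasurable (fun ρ => ∫⁻ t, ‖h (t, ρ)‖ₑ ^ 2 ∂μI) μI := by
        have := AEMeasurable.lintegral_prod_right' (hhs.enorm.pow_const 2)
        exact this
      rw [lintegral_const_mul'' _ hB']
      refine ENNReal.mul_lt_top ?_ ?_
      · have : MemLp (q i) 2 μI := MemLp.of_bound (hq i).aestronglyMeasurable B
          (Eventually.of_forall fun s => (hB i s).2)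
        have h2 := this.2
        rw [eL2] at h2
        by_contra hcon
        rw [not_lt, top_le_iff] at hcon
        rw [hcon, ENNReal.top_rpow_of_pos (by norm_num)] at h2
        exact absurd h2 (lt_irrefl _)
      · have hm : AEMeasurable (fun x => ‖h x‖ₑ ^ 2) (μI.prod μI) := by
          have := hh.1.enorm.pow_const 2
          exact this
        rw [← lintegral_prod_symm _ hm]
        have := hh.2
        rw [eL2] at this
        by_contra hcon
        rw [not_lt, top_le_iff] at hcon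
        unfold μQ at this
        rw [hcon, ENNReal.top_rpow_of_pos (by norm_num)] at this
        exact absurd this (lt_irrefl _)
  · set κ : ℝ → ℝ → ℂ := fun s t => ((k s t : ℝ) : ℂ) - ∑ i, p i s * q i t with hκdef
    have hκ : Measurable (fun x : ℝ × ℝ => κ x.1 x.2) := by
      refine (Complex.measurable_ofReal.comp hk).sub ?_
      refine Finset.measurable_sum _ fun i _ => ?_
      exact ((hp i).comp measurable_fst).mul ((hq i).comp measurable_snd)
    have hint' : ∀ᵐ x ∂μQ, Integrable (fun t => h (t, x.2)) μI :=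
      (Measure.quasiMeasurePreserving_snd (μ := μI) (ν := μI)).ae hint
    have heq : (fun x : ℝ × ℝ => (∫ t, ((k x.1 t : ℝ) : ℂ) * h (t, x.2) ∂μI) -
        ∑ i, p i x.1 * ∫ t, q i t * h (t, x.2) ∂μI) =ᵐ[μQ]
        fun x => ∫ t, κ x.1 t * h (t, x.2) ∂μI := by
      filter_upwards [hint'] with x hx
      have i1 : Integrable (fun t => ((k x.1 t : ℝ) : ℂ) * h (t, x.2)) μI := by
        refine hx.bdd_mul (c := 1) ?_ ?_
        · exact (Complex.measurable_ofReal.comp (hk.comp measurable_prodMk_left)).aestronglyMeasurable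
        · filter_upwards with t
          rw [Complex.norm_real]
          exact hb _ _
      have i2 : ∀ i, Integrable (fun t => q i t * h (t, x.2)) μI := by
        intro i
        refine hx.bdd_mul (c := B) (hq i).aestronglyMeasurable ?_
        filter_upwards with t
        exact (hB i t).2
      have i3 : ∀ i ∈ Finset.univ, Integrable (fun t => p i x.1 * (q i t * h (t, x.2))) μI :=
        fun i _ => (i2 i).const_mul _
      calc (∫ t, ((k x.1 t : ℝ) : ℂ) * h (t, x.2) ∂μI) - ∑ i, p i x.1 * ∫ t, q i t * h (t, x.2) ∂μI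
          = (∫ t, ((k x.1 t : ℝ) : ℂ) * h (t, x.2) ∂μI) -
            ∑ i, ∫ t, p i x.1 * (q i t * h (t, x.2)) ∂μI := by
            congr 1
            refine Finset.sum_congr rfl fun i _ => ?_
            rw [integral_const_mul]
        _ = (∫ t, ((k x.1 t : ℝ) : ℂ) * h (t, x.2) ∂μI) -
            ∫ t, ∑ i, p i x.1 * (q i t * h (t, x.2)) ∂μI := by
            rw [integral_finset_sum _ i3]
        _ = ∫ t, (((k x.1 t : ℝ) : ℂ) * h (t, x.2) - ∑ i, p i x.1 * (q i t * h (t, x.2))) ∂μI := by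
            rw [integral_sub i1 (integrable_finset_sum _ i3)]
        _ = _ := by
            congr 1
            ext t
            rw [hκdef]
            simp only
            rw [sub_mul, Finset.sum_mul]
            congr 1
            refine Finset.sum_congr rfl fun i _ => ?_
            ring
    rw [eLpNorm_congr_ae heq]
    calc eLpNorm (fun x : ℝ × ℝ => ∫ t, κ x.1 t * h (t, x.2) ∂μI) 2 μQ
        ≤ eLpNorm (fun x : ℝ × ℝ => κ x.1 x.2) 2 μQ * eLpNorm h 2 μQ := hsnorm κ hκ h hh.1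
      _ ≤ ENNReal.ofReal (ε / C) * ENNReal.ofReal C := mul_le_mul' hapx hhC
      _ = ENNReal.ofReal ε := by
          rw [← ENNReal.ofReal_mul (by positivity)]
          congr 1
          field_simp

end Pool.Agent.H903HT
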