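import Pool.Agent.H903HT.Stmts

/-! Task Hodge of project H903-HT (written by helper182). -/

set_option autoImplicit false

open MeasureTheory Filter Topology Set

namespace Pool.Agent.H903HT

theorem taskHodge : TaskHodge := by
  intro hCore H0 H1 H2 _ _ _ _ _ _ _ _ _ Γ0 Γ1 Γ1' h0 h1 h1' hAdj hAdj' hcx hE0 hE1
  rw [Submodule.topologicalClosure_eq_top_iff, Submodule.eq_bot_iff]
  intro f hf
  have hf' : ∀ e ∈ {f : H1 | ∃ l : ℝ, BoxA Γ0 Γ1 f ((l : ℂ) • f)}, inner ℂ e f = 0 := by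
    intro e he
    exact (Submodule.mem_orthogonal _ _).1 hf e (Submodule.subset_span he)
  have hmem1 : ∀ q : H2 × H1, q ∈ Γ1' ↔ q ∈ Adj Γ1 := by
    intro q
    rw [← hAdj]; rfl
  have hmem2 : ∀ q : H1 × H2, q ∈ Adj Γ1' ↔ q ∈ Γ1 := by
    intro q
    rw [hAdj']; rfl
  have hz1 : ((0 : H2), (0 : H1)) ∈ Adj Γ1 := by
    intro q _
    simp
  -- (i)
  have hi : ∀ (l : ℝ) (u : H0) (F : H1), (u, F) ∈ Γ0 → (F, (l : ℂ) • u) ∈ Adj Γ0 →
      inner ℂ F f = 0 := by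
    intro l u F hu hF
    apply hf'
    refine ⟨l, (l : ℂ) • u, (l : ℂ) • F, 0, 0, hF, ?_, hcx u F hu, hz1, by simp⟩
    exact Γ0.smul_mem (l : ℂ) hu
  -- (ii)
  have hii : ∀ (l : ℝ) (g : H2) (k : H1), (g, k) ∈ Γ1' → (k, (l : ℂ) • g) ∈ Adj Γ1' →
      inner ℂ k f = 0 := by
    intro l g k hg hk
    apply hf'
    refine ⟨l, 0, 0, (l : ℂ) • g, (l : ℂ) • k, ?_, Γ0.zero_mem, (hmem2 _).1 hk, ?_, by simp⟩
    · intro q hq
      have h3 := (hmem1 _).1 hg _ (hcx q.1 q.2 hq)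
      simp only [inner_zero_left] at h3
      simp only [inner_zero_right]
      exact h3.symm
    · exact (hmem1 _).1 (Γ1'.smul_mem (l : ℂ) hg)
  have h3 : (f, (0 : H0)) ∈ Adj Γ0 := hCore H0 H1 Γ0 h0 hE0 f hi
  have h4 : (f, (0 : H2)) ∈ Adj Γ1' := hCore H2 H1 Γ1' h1' hE1 f hii
  have h5 : inner ℂ f f = 0 := by
    apply hf'
    refine ⟨0, 0, 0, 0, 0, h3, Γ0.zero_mem, (hmem2 _).1 h4, hz1, by simp⟩
  exact inner_self_eq_zero.1 h5

end Pool.Agent.H903HT
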