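import Mathlib
import Pool.Agent.H903HT.Stmts

set_option autoImplicit false

/-! The lemma of du Bois-Reymond on the unit interval. -/

open MeasureTheory Filter Topology Set
open scoped ContDiff

namespace Pool.Agent.H903HT.Intg

/-- one variable test functions -/
def T1 (a : ℝ → ℝ) : Prop := ContDiff ℝ ∞ a ∧ HasCompactSupport a ∧ tsupport a ⊆ Ioo (0:ℝ) 1

theorem exists_pq {K : Set ℝ} (hK : IsCompact K) (hK1 : K ⊆ Ioo (0:ℝ) 1) :
    ∃ p q : ℝ, 0 < p ∧ p < 1/2 ∧ 1/2 < q ∧ q < 1 ∧ K ⊆ Ioo p q := by
  rcases K.eq_empty_or_nonempty with rfl | hne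
  · exact ⟨1/4, 3/4, by norm_num, by norm_num, by norm_num, by norm_num, empty_subset _⟩
  · obtain ⟨m, hm, hm'⟩ := hK.exists_isLeast hne
    obtain ⟨M, hM, hM'⟩ := hK.exists_isGreatest hne
    have h1 := hK1 hm
    have h2 := hK1 hM
    refine ⟨min (m/2) (1/4), max ((M+1)/2) (3/4), ?_, ?_, ?_, ?_, ?_⟩
    · exact lt_min (by linarith [h1.1]) (by norm_num)
    · exact (min_le_right _ _).trans_lt (by norm_num)
    · exact lt_of_lt_of_le (by norm_num) (le_max_right _ _)
    · exact max_lt (by linarith [h2.2]) (by norm_num)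
    · intro x hx
      have h3 := hm' hx
      have h4 := hM' hx
      exact ⟨(min_le_left _ _).trans_lt (by linarith [h1.1]),
        lt_of_lt_of_le (by linarith [h2.2]) (le_max_left _ _)⟩

theorem integrable_mul' {P a : ℝ → ℝ} (hP : LocallyIntegrableOn P (Ioo (0:ℝ) 1))
    (ha : Continuous a) (hc : HasCompactSupport a) (hs : tsupport a ⊆ Ioo (0:ℝ) 1) :
    Integrable (fun s => P s * a s) := by
  have h1 : IntegrableOn P (tsupport a) := hP.integrableOn_compact_subset hs hc
  have h2 : IntegrableOn (fun s => P s * a s) (tsupport a) :=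
    h1.mul_continuousOn ha.continuousOn hc
  rw [integrableOn_iff_integrable_of_support_subset] at h2
  · exact h2
  · intro x hx
    apply subset_tsupport a
    rw [Function.mem_support] at hx ⊢
    exact right_ne_zero_of_mul hx

/-- bump function -/
noncomputable def bump : ContDiffBump (1/2 : ℝ) := ⟨1/8, 1/4, by norm_num, by norm_num⟩

theorem exists_chi : ∃ χ : ℝ → ℝ, T1 χ ∧ ∫ s, χ s = 1 := by
  refine ⟨bump.normed volume, ⟨bump.contDiff_normed, bump.hasCompactSupport_normed, ?_⟩,
    bump.integral_normed⟩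
  rw [bump.tsupport_normed_eq]
  intro x hx
  rw [Metric.mem_closedBall, Real.dist_eq, abs_le] at hx
  have : bump.rOut = 1/4 := rfl
  rw [this] at hx
  constructor <;> linarith [hx.1, hx.2]

/-- primitives of test functions with integral zero -/
theorem primitive {b : ℝ → ℝ} (hb : T1 b) (h0 : ∫ s, b s = 0) :
    ∃ a : ℝ → ℝ, T1 a ∧ deriv a = b := by
  obtain ⟨hb1, hb2, hb3⟩ := hb
  obtain ⟨p, q, hp, hp2, hq2, hq, hpq⟩ := exists_pq hb2 hb3
  have hz : ∀ x, x ∉ Ioo p q → b x = 0 := fun x hx =>
    image_eq_zero_of_notMem_tsupport (fun h => hx (hpq h))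
  set a : ℝ → ℝ := fun s => ∫ t in (0:ℝ)..s, b t with ha
  have hd : ∀ s, HasDerivAt a (b s) s := fun s =>
    (hb1.continuous.integral_hasStrictDerivAt 0 s).hasDerivAt
  have hda : deriv a = b := funext fun s => (hd s).deriv
  have hsupp : Function.support a ⊆ Icc p q := by
    intro s hs
    by_contra hns
    apply hs
    rw [mem_Icc, not_and_or, not_le, not_le] at hns
    rcases hns with h | h
    · show ∫ t in (0:ℝ)..s, b t = 0
      rw [intervalIntegral.integral_congr (g := fun _ => (0:ℝ))]
      · simp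
      · intro t ht
        apply hz
        intro h'
        rw [mem_uIcc] at ht
        rcases ht with ht | ht
        · linarith [h'.1]
        · linarith [h'.1]
    · show ∫ t in (0:ℝ)..s, b t = 0
      rw [intervalIntegral.integral_eq_integral_of_support_subset, h0]
      intro t ht
      have : t ∈ Ioo p q := by
        by_contra h'
        exact ht (hz t h')
      exact ⟨by linarith [this.1], by linarith [this.2]⟩
  have hcl : tsupport a ⊆ Icc p q := closure_minimal hsupp isClosed_Icc
  refine ⟨a, ⟨?_, ?_, ?_⟩, hda⟩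
  · rw [contDiff_infty_iff_deriv]
    exact ⟨fun s => (hd s).differentiableAt, by rw [hda]; exact hb1⟩
  · exact HasCompactSupport.of_support_subset_isCompact isCompact_Icc hsupp
  · exact hcl.trans fun x hx => ⟨by linarith [hx.1], by linarith [hx.2]⟩

theorem dbr_real {u v : ℝ → ℝ} (hu : LocallyIntegrableOn u (Ioo (0:ℝ) 1))
    (hv : LocallyIntegrableOn v (Ioo (0:ℝ) 1))
    (h : ∀ a, T1 a → (∫ s, u s * deriv a s) + ∫ s, v s * a s = 0) :
    ∃ κ : ℝ, ∀ᵐ s, s ∈ Ioo (0:ℝ) 1 → u s = κ + ∫ t in (1/2:ℝ)..s, v t := by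
  set V : ℝ → ℝ := fun s => ∫ t in (1/2:ℝ)..s, v t with hV
  have hvi : ∀ p q : ℝ, 0 < p → p ≤ q → q < 1 → IntervalIntegrable v volume p q := by
    intro p q hp hpq hq
    rw [intervalIntegrable_iff_integrableOn_Icc_of_le hpq]
    exact hv.integrableOn_compact_subset
      (fun x hx => ⟨hp.trans_le hx.1, hx.2.trans_lt hq⟩) isCompact_Icc
  have hhalf : ∀ p q : ℝ, p < 1/2 → 1/2 < q → (1/2 : ℝ) ∈ uIcc p q := by
    intro p q h1 h2
    rw [mem_uIcc]
    exact Or.inl ⟨h1.le, h2.le⟩
  have hVac : ∀ p q : ℝ, 0 < p → p < 1/2 → 1/2 < q → q < 1 →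
      AbsolutelyContinuousOnInterval V p q := by
    intro p q hp hp2 hq2 hq
    exact (hvi p q hp (by linarith) hq).absolutelyContinuousOnInterval_intervalIntegral
      (hhalf p q hp2 hq2)
  have hVc : ContinuousOn V (Ioo 0 1) := by
    intro x hx
    obtain ⟨p, q, hp, hp2, hq2, hq, hpq⟩ := exists_pq isCompact_singleton
      (singleton_subset_iff.2 hx)
    have h1 := (hVac p q hp hp2 hq2 hq).continuousOn
    rw [uIcc_of_le (by linarith)] at h1
    exact (h1.continuousAt (Icc_mem_nhds (singleton_subset_iff.1 hpq).1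
      (singleton_subset_iff.1 hpq).2)).continuousWithinAt
  have hVl : LocallyIntegrableOn V (Ioo (0:ℝ) 1) := hVc.locallyIntegrableOn measurableSet_Ioo
  set P : ℝ → ℝ := fun s => u s - V s with hP
  have hPl : LocallyIntegrableOn P (Ioo (0:ℝ) 1) := hu.sub hVl
  have hda : ∀ {a : ℝ → ℝ}, T1 a → Continuous (deriv a) ∧ HasCompactSupport (deriv a) ∧
      tsupport (deriv a) ⊆ Ioo (0:ℝ) 1 := by
    intro a ha
    exact ⟨ha.1.continuous_deriv (by simp), ha.2.1.deriv,
      (closure_minimal (support_deriv_subset) (isClosed_tsupport a)).trans ha.2.2⟩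
  -- integration by parts
  have hparts : ∀ a, T1 a → ∫ s, V s * deriv a s = - ∫ s, v s * a s := by
    intro a ha
    obtain ⟨p, q, hp, hp2, hq2, hq, hpq⟩ := exists_pq ha.2.1 ha.2.2
    have hz : ∀ x, x ∉ Ioo p q → a x = 0 := fun x hx =>
      image_eq_zero_of_notMem_tsupport (fun h => hx (hpq h))
    have h1 : ∫ s, V s * deriv a s = ∫ s in p..q, V s * deriv a s := by
      rw [intervalIntegral.integral_eq_integral_of_support_subset]
      intro x hx
      have hx' : x ∈ tsupport a := support_deriv_subset (right_ne_zero_of_mul hx)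
      exact ⟨(hpq hx').1, (hpq hx').2.le⟩
    have h2 : ∫ s, v s * a s = ∫ s in p..q, v s * a s := by
      rw [intervalIntegral.integral_eq_integral_of_support_subset]
      intro x hx
      have hx' : x ∈ tsupport a := subset_tsupport a (right_ne_zero_of_mul hx)
      exact ⟨(hpq hx').1, (hpq hx').2.le⟩
    have haac : AbsolutelyContinuousOnInterval a p q :=
      (ha.1.contDiffOn.of_le (by simp)).absolutelyContinuousOnInterval
    rw [h1, h2, (hVac p q hp hp2 hq2 hq).integral_mul_deriv_eq_deriv_mul haac,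
      hz p (by simp), hz q (by simp), mul_zero, mul_zero, sub_zero, zero_sub]
    congr 1
    apply intervalIntegral.integral_congr_ae
    filter_upwards [(hvi p q hp (by linarith) hq).ae_hasDerivAt_integral] with x hx hx2
    rw [(hx (uIoc_subset_uIcc hx2) (1/2) (hhalf p q hp2 hq2)).deriv]
  have key1 : ∀ a, T1 a → ∫ s, P s * deriv a s = 0 := by
    intro a ha
    have h1 := hda ha
    have e : (fun s => P s * deriv a s) = fun s => u s * deriv a s - V s * deriv a s := by
      funext s; simp only [hP]; ring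
    rw [e, integral_sub (integrable_mul' hu h1.1 h1.2.1 h1.2.2)
      (integrable_mul' hVl h1.1 h1.2.1 h1.2.2), hparts a ha]
    have := h a ha
    linarith
  obtain ⟨χ, hχ, hχ1⟩ := exists_chi
  refine ⟨∫ s, P s * χ s, ?_⟩
  set κ := ∫ s, P s * χ s with hκ
  have hcl : LocallyIntegrableOn (fun s => P s - κ) (Ioo (0:ℝ) 1) :=
    hPl.sub ((locallyIntegrable_const κ).locallyIntegrableOn _)
  have hfin := isOpen_Ioo.ae_eq_zero_of_integral_contDiff_smul_eq_zero hcl (by
    intro α hα1 hα2 hα3
    set J := ∫ s, α s with hJ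
    have hαi : Integrable α := hα1.continuous.integrable_of_hasCompactSupport hα2
    have hχi : Integrable χ := hχ.1.continuous.integrable_of_hasCompactSupport hχ.2.1
    have hb : T1 (fun s => α s - J * χ s) := by
      refine ⟨hα1.sub (contDiff_const.mul hχ.1), hα2.sub hχ.2.1.mul_left, ?_⟩
      have : tsupport (fun s => α s - J * χ s) ⊆ tsupport α ∪ tsupport χ := by
        apply closure_minimal _ ((isClosed_tsupport α).union (isClosed_tsupport χ))
        intro x hx
        by_contra hx'
        rw [mem_union, not_or] at hx'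
        apply hx
        show α x - J * χ x = 0
        rw [image_eq_zero_of_notMem_tsupport hx'.1, image_eq_zero_of_notMem_tsupport hx'.2]
        simp
      exact this.trans (union_subset hα3 hχ.2.2)
    have hb0 : ∫ s, (α s - J * χ s) = 0 := by
      rw [integral_sub hαi (hχi.const_mul J), integral_const_mul, hχ1]
      simp [hJ]
    obtain ⟨a, ha, hab⟩ := primitive hb hb0
    have h1 := key1 a ha
    rw [hab] at h1
    have hPα := integrable_mul' hPl hα1.continuous hα2 hα3
    have hPχ := integrable_mul' hPl hχ.1.continuous hχ.2.1 hχ.2.2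
    have e : (fun s => P s * (α s - J * χ s)) = fun s => P s * α s - J * (P s * χ s) := by
      funext s; ring
    rw [e, integral_sub hPα (hPχ.const_mul J), integral_const_mul] at h1
    have e2 : (fun s => α s • (P s - κ)) = fun s => P s * α s - κ * α s := by
      funext s; rw [smul_eq_mul]; ring
    rw [e2, integral_sub hPα (hαi.const_mul κ), integral_const_mul]
    linarith)
  filter_upwards [hfin] with s hs hs1
  have := hs hs1
  simp only [hP] at this
  linarith

end Pool.Agent.H903HT.Intg
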