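import Mathlib
import Pool.Agent.H903HT.IntA

set_option autoImplicit false

/-! Test functions on the square and the complex version of the lemma. -/

open MeasureTheory Filter Topology Set
open scoped ContDiff

namespace Pool.Agent.H903HT.Intg

theorem integrable_mulC {P : ℝ → ℂ} {a : ℝ → ℝ} (hP : LocallyIntegrableOn P (Ioo (0:ℝ) 1))
    (ha : Continuous a) (hc : HasCompactSupport a) (hs : tsupport a ⊆ Ioo (0:ℝ) 1) :
    Integrable (fun s => (a s : ℂ) * P s) := by
  have h1 : IntegrableOn P (tsupport a) := hP.integrableOn_compact_subset hs hc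
  have h2 : IntegrableOn (fun s => (a s : ℂ) * P s) (tsupport a) :=
    h1.continuousOn_mul (Complex.continuous_ofReal.comp ha).continuousOn hc
  rw [integrableOn_iff_integrable_of_support_subset] at h2
  · exact h2
  · intro x hx
    apply subset_tsupport a
    rw [Function.mem_support] at hx ⊢
    intro h
    apply hx
    rw [h]
    simp

theorem T1.deriv {a : ℝ → ℝ} (ha : T1 a) : T1 (_root_.deriv a) := by
  refine ⟨?_, ha.2.1.deriv, (closure_minimal support_deriv_subset (isClosed_tsupport a)).trans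
    ha.2.2⟩
  exact (contDiff_infty_iff_deriv.1 ha.1).2

theorem locInt_re {u : ℝ → ℂ} {S : Set ℝ} (hu : LocallyIntegrableOn u S) :
    LocallyIntegrableOn (fun s => (u s).re) S := by
  intro x hx
  obtain ⟨t, ht, hi⟩ := hu x hx
  exact ⟨t, ht, hi.re⟩

theorem locInt_im {u : ℝ → ℂ} {S : Set ℝ} (hu : LocallyIntegrableOn u S) :
    LocallyIntegrableOn (fun s => (u s).im) S := by
  intro x hx
  obtain ⟨t, ht, hi⟩ := hu x hx
  exact ⟨t, ht, hi.im⟩

theorem intInt {v : ℝ → ℂ} (hv : LocallyIntegrableOn v (Ioo (0:ℝ) 1)) {s : ℝ}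
    (hs : s ∈ Ioo (0:ℝ) 1) : IntervalIntegrable v volume (1/2) s := by
  have h1 : IntegrableOn v (uIcc (1/2) s) := by
    apply hv.integrableOn_compact_subset _ isCompact_uIcc
    intro x hx
    rw [mem_uIcc] at hx
    rcases hx with hx | hx
    · exact ⟨by linarith [hx.1], by linarith [hx.2, hs.2]⟩
    · exact ⟨by linarith [hx.1, hs.1], by linarith [hx.2]⟩
  rw [intervalIntegrable_iff]
  exact h1.mono_set uIoc_subset_uIcc

theorem dbr {u v : ℝ → ℂ} (hu : LocallyIntegrableOn u (Ioo (0:ℝ) 1))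
    (hv : LocallyIntegrableOn v (Ioo (0:ℝ) 1))
    (h : ∀ a : ℝ → ℝ, T1 a → (∫ s, ((deriv a s : ℝ) : ℂ) * u s) + ∫ s, (a s : ℂ) * v s = 0) :
    ∃ κ : ℂ, ∀ᵐ s, s ∈ Ioo (0:ℝ) 1 → u s = κ + ∫ t in (1/2:ℝ)..s, v t := by
  obtain ⟨κ1, h1⟩ := dbr_real (locInt_re hu) (locInt_re hv) (by
    intro a ha
    have h0 := congrArg Complex.re (h a ha)
    rw [Complex.add_re, Complex.zero_re] at h0
    have e1 := integral_re (integrable_mulC hu ha.deriv.1.continuous ha.deriv.2.1 ha.deriv.2.2)
    have e2 := integral_re (integrable_mulC hv ha.1.continuous ha.2.1 ha.2.2)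
    simp only [RCLike.re_eq_complex_re, Complex.re_ofReal_mul] at e1 e2
    rw [← e1, ← e2] at h0
    simp only [mul_comm (Complex.re _)]
    exact h0)
  obtain ⟨κ2, h2⟩ := dbr_real (locInt_im hu) (locInt_im hv) (by
    intro a ha
    have h0 := congrArg Complex.im (h a ha)
    rw [Complex.add_im, Complex.zero_im] at h0
    have e1 := integral_im (integrable_mulC hu ha.deriv.1.continuous ha.deriv.2.1 ha.deriv.2.2)
    have e2 := integral_im (integrable_mulC hv ha.1.continuous ha.2.1 ha.2.2)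
    simp only [RCLike.im_eq_complex_im, Complex.im_ofReal_mul] at e1 e2
    rw [← e1, ← e2] at h0
    simp only [mul_comm (Complex.im _)]
    exact h0)
  refine ⟨⟨κ1, κ2⟩, ?_⟩
  filter_upwards [h1, h2] with s hs1 hs2 hs
  have hvi := intInt hv hs
  have r1 := Complex.reCLM.intervalIntegral_comp_comm hvi
  have r2 := Complex.imCLM.intervalIntegral_comp_comm hvi
  simp only [Complex.reCLM_apply, Complex.imCLM_apply] at r1 r2
  apply Complex.ext
  · rw [Complex.add_re, ← r1]
    exact hs1 hs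
  · rw [Complex.add_im, ← r2]
    exact hs2 hs

theorem T1.rpow {a : ℝ → ℝ} (ha : T1 a) (ν : ℝ) : T1 (fun s => s ^ ν * a s) := by
  have hts : tsupport (fun s => s ^ ν * a s) ⊆ tsupport a :=
    closure_minimal (fun x hx => subset_tsupport a (right_ne_zero_of_mul hx)) (isClosed_tsupport a)
  refine ⟨?_, ha.2.1.mul_left, hts.trans ha.2.2⟩
  rw [contDiff_iff_contDiffAt]
  intro s
  by_cases hs : s ∈ tsupport a
  · have h0 : s ≠ 0 := (ha.2.2 hs).1.ne'
    exact (Real.contDiffAt_rpow_const_of_ne h0).mul ha.1.contDiffAt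
  · have : (fun s => s ^ ν * a s) =ᶠ[𝓝 s] fun _ => 0 := by
      filter_upwards [(isClosed_tsupport a).isOpen_compl.mem_nhds hs] with x hx
      rw [image_eq_zero_of_notMem_tsupport hx, mul_zero]
    exact contDiffAt_const.congr_of_eventuallyEq this

theorem deriv_rpow_mul {a : ℝ → ℝ} (ha : T1 a) (ν : ℝ) {s : ℝ} (hs : 0 < s) :
    deriv (fun s => s ^ (-ν) * a s) s + (ν / s) * (s ^ (-ν) * a s) = s ^ (-ν) * deriv a s := by
  have h1 : HasDerivAt (fun s : ℝ => s ^ (-ν)) (-ν * s ^ (-ν - 1)) s :=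
    Real.hasDerivAt_rpow_const (Or.inl hs.ne')
  have h2 : HasDerivAt a (deriv a s) s :=
    ((ha.1.differentiable (by simp)) s).hasDerivAt
  rw [(h1.fun_mul h2).deriv, Real.rpow_sub_one hs.ne']
  field_simp
  ring

/-- products of test functions -/
noncomputable def pr (A β : ℝ → ℝ) (x : ℝ × ℝ) : ℂ := ((A x.1 * β x.2 : ℝ) : ℂ)

theorem testQ_pr {A β : ℝ → ℝ} (hA : T1 A) (hβ : T1 β) : TestQ (pr A β) := by
  have hsup : Function.support (pr A β) ⊆ tsupport A ×ˢ tsupport β := by
    intro x hx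
    have hx' : ((A x.1 * β x.2 : ℝ) : ℂ) ≠ 0 := hx
    rw [Ne, Complex.ofReal_eq_zero] at hx'
    exact ⟨subset_tsupport A (left_ne_zero_of_mul hx'),
      subset_tsupport β (right_ne_zero_of_mul hx')⟩
  have hcomp : IsCompact (tsupport A ×ˢ tsupport β) :=
    IsCompact.prod hA.2.1 hβ.2.1
  refine ⟨?_, HasCompactSupport.of_support_subset_isCompact hcomp hsup, ?_⟩
  · exact Complex.ofRealCLM.contDiff.comp ((hA.1.comp contDiff_fst).mul (hβ.1.comp contDiff_snd))
  · exact (closure_minimal hsup hcomp.isClosed).trans (prod_mono hA.2.2 hβ.2.2)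

theorem fderiv_pr {A β : ℝ → ℝ} (hA : T1 A) (hβ : T1 β) (x : ℝ × ℝ) :
    fderiv ℝ (pr A β) x ((1:ℝ), (0:ℝ)) = ((deriv A x.1 * β x.2 : ℝ) : ℂ) := by
  have h1 : HasDerivAt A (deriv A x.1) x.1 := ((hA.1.differentiable (by simp)) x.1).hasDerivAt
  have h2 : HasDerivAt β (deriv β x.2) x.2 := ((hβ.1.differentiable (by simp)) x.2).hasDerivAt
  have h3 : HasFDerivAt (fun x : ℝ × ℝ => A x.1)
      (deriv A x.1 • ContinuousLinearMap.fst ℝ ℝ ℝ) x :=
    h1.comp_hasFDerivAt x hasFDerivAt_fst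
  have h4 : HasFDerivAt (fun x : ℝ × ℝ => β x.2)
      (deriv β x.2 • ContinuousLinearMap.snd ℝ ℝ ℝ) x :=
    h2.comp_hasFDerivAt x hasFDerivAt_snd
  have h5 := h3.mul h4
  have h6 : HasFDerivAt (pr A β) _ x := Complex.ofRealCLM.hasFDerivAt.comp x h5
  rw [h6.fderiv]
  simp
  ring

/-- uniqueness from a countable family of sets -/
def fam : Option ℚ → Set ℝ
  | none => univ
  | some r => Iic (r : ℝ)

theorem meas_fam (i : Option ℚ) : MeasurableSet (fam i) := by
  cases i with
  | none => exact MeasurableSet.univ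
  | some r => exact measurableSet_Iic

theorem unique_of_fam {μ : Measure ℝ} {f : ℝ → ℂ} (hf : Integrable f μ)
    (h : ∀ i, ∫ x in fam i, f x ∂μ = 0) : f =ᵐ[μ] 0 := by
  have hu : ∫ x, f x ∂μ = 0 := by
    have := h none
    simpa [fam] using this
  have key : ∀ s, MeasurableSet s → ∫ x in s, f x ∂μ = 0 := by
    intro s hs
    induction s, hs using MeasurableSpace.induction_on_inter
      ((BorelSpace.measurable_eq (α := ℝ)).trans Real.borel_eq_generateFrom_Iic_rat)
      Real.isPiSystem_Iic_rat with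
    | empty => simp
    | basic t ht =>
      rw [mem_iUnion] at ht
      obtain ⟨r, hr⟩ := ht
      rw [mem_singleton_iff] at hr
      rw [hr]
      exact h (some r)
    | compl t ht ih =>
      have h1 := integral_add_compl ht hf
      rw [ih, zero_add, hu] at h1
      exact h1
    | iUnion g hd hg ih =>
      rw [integral_iUnion hg hd hf.integrableOn]
      simp [ih]
  exact hf.ae_eq_zero_of_forall_setIntegral_eq_zero fun s hs _ => key s hs

end Pool.Agent.H903HT.Intg
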