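import Mathlib
import Pool.Agent.H903HT.IntB

set_option autoImplicit false

/-! TQ1: integral form of the weak equation. -/

open MeasureTheory Filter Topology Set
open scoped ContDiff

namespace Pool.Agent.H903HT.Intg

instance finI : IsFiniteMeasure μI := by unfold μI; infer_instance
instance finQ : IsFiniteMeasure μQ := by unfold μQ; infer_instance

theorem ae_μI : ∀ᵐ s ∂μI, s ∈ Ioo (0:ℝ) 1 := ae_restrict_mem measurableSet_Ioo

theorem ae_μQ : ∀ᵐ x ∂μQ, x ∈ Ioo (0:ℝ) 1 ×ˢ Ioo (0:ℝ) 1 := by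
  unfold μQ μI
  rw [Measure.prod_restrict]
  exact ae_restrict_mem (measurableSet_Ioo.prod measurableSet_Ioo)

theorem prod_restr (A B : Set ℝ) : (μI.restrict A).prod (μI.restrict B) =
    μQ.restrict (A ×ˢ B) := by
  unfold μQ
  rw [← Measure.prod_restrict]

theorem prod_restr' (B : Set ℝ) : μI.prod (μI.restrict B) = μQ.restrict (univ ×ˢ B) := by
  rw [← prod_restr, Measure.restrict_univ]

theorem int_mul {A : ℝ → ℝ} (hA : T1 A) {c : ℝ × ℝ → ℂ} {μ : Measure (ℝ × ℝ)}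
    (hc : Integrable c μ) : Integrable (fun x => ((A x.1 : ℝ) : ℂ) * c x) μ := by
  obtain ⟨C, hC⟩ := hA.1.continuous.bounded_above_of_compact_support hA.2.1
  exact hc.bdd_mul (c := C) (Complex.continuous_ofReal.comp
    (hA.1.continuous.comp continuous_fst)).aestronglyMeasurable
    (Eventually.of_forall fun x => by rw [Complex.norm_real]; exact hC x.1)

theorem int_mul2 {A : ℝ → ℝ} (hA : T1 A) {c : ℝ × ℝ → ℂ} {μ : Measure (ℝ × ℝ)}
    (hc : Integrable c μ) : Integrable (fun x => ((A x.2 : ℝ) : ℂ) * c x) μ := by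
  obtain ⟨C, hC⟩ := hA.1.continuous.bounded_above_of_compact_support hA.2.1
  exact hc.bdd_mul (c := C) (Complex.continuous_ofReal.comp
    (hA.1.continuous.comp continuous_snd)).aestronglyMeasurable
    (Eventually.of_forall fun x => by rw [Complex.norm_real]; exact hC x.2)

section main

variable {ν : ℝ} {c h : ℝ × ℝ → ℂ}

/-- the combination of `c` and `h` given by a test function -/
noncomputable def qq (ν : ℝ) (c h : ℝ × ℝ → ℂ) (a : ℝ → ℝ) (x : ℝ × ℝ) : ℂ :=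
  ((x.1 ^ (-ν) * deriv a x.1 : ℝ) : ℂ) * c x + ((x.1 ^ (-ν) * a x.1 : ℝ) : ℂ) * h x

theorem int_qq {a : ℝ → ℝ} (ha : T1 a) {μ : Measure (ℝ × ℝ)} (hc : Integrable c μ)
    (hh : Integrable h μ) : Integrable (qq ν c h a) μ :=
  (int_mul (ha.deriv.rpow (-ν)) hc).add (int_mul (ha.rpow (-ν)) hh)

theorem step1 (hc : Integrable c μQ) (hh : Integrable h μQ) (hW : Weak1 ν c h) {a β : ℝ → ℝ}
    (ha : T1 a) (hβ : T1 β) : ∫ x, ((β x.2 : ℝ) : ℂ) * qq ν c h a x ∂μQ = 0 := by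
  have h1 := hW _ (testQ_pr (ha.rpow (-ν)) hβ)
  have e1 : ∫ x, c x * (fderiv ℝ (pr (fun s => s ^ (-ν) * a s) β) x ((1:ℝ), (0:ℝ)) +
      ((ν / x.1 : ℝ) : ℂ) * pr (fun s => s ^ (-ν) * a s) β x) ∂μQ =
      ∫ x, ((β x.2 : ℝ) : ℂ) * (((x.1 ^ (-ν) * deriv a x.1 : ℝ) : ℂ) * c x) ∂μQ := by
    apply integral_congr_ae
    filter_upwards [ae_μQ] with x hx
    rw [fderiv_pr (ha.rpow (-ν)) hβ]
    unfold pr
    have h2 := deriv_rpow_mul ha ν (s := x.1) hx.1.1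
    rw [← h2]
    push_cast
    ring
  have e2 : ∫ x, h x * pr (fun s => s ^ (-ν) * a s) β x ∂μQ =
      ∫ x, ((β x.2 : ℝ) : ℂ) * (((x.1 ^ (-ν) * a x.1 : ℝ) : ℂ) * h x) ∂μQ := by
    congr 1
    funext x
    unfold pr
    push_cast
    ring
  rw [e1, e2] at h1
  have e3 : (fun x => ((β x.2 : ℝ) : ℂ) * qq ν c h a x) = fun x =>
      ((β x.2 : ℝ) : ℂ) * (((x.1 ^ (-ν) * deriv a x.1 : ℝ) : ℂ) * c x) +
      ((β x.2 : ℝ) : ℂ) * (((x.1 ^ (-ν) * a x.1 : ℝ) : ℂ) * h x) := by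
    funext x
    unfold qq
    ring
  rw [e3, integral_add (int_mul2 hβ (int_mul (ha.deriv.rpow (-ν)) hc))
    (int_mul2 hβ (int_mul (ha.rpow (-ν)) hh)), h1]
  simp

theorem step2 (hc : Integrable c μQ) (hh : Integrable h μQ) (hW : Weak1 ν c h) {a : ℝ → ℝ}
    (ha : T1 a) : ∀ᵐ ρ ∂μI, ∫ s, qq ν c h a (s, ρ) ∂μI = 0 := by
  have hq : Integrable (qq ν c h a) (μI.prod μI) := int_qq ha hc hh
  set F : ℝ → ℂ := fun ρ => ∫ s, qq ν c h a (s, ρ) ∂μI with hF
  have hFi : Integrable F μI := hq.integral_prod_right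
  have hFo : IntegrableOn F (Ioo (0:ℝ) 1) := hFi
  have h0 := isOpen_Ioo.ae_eq_zero_of_integral_contDiff_smul_eq_zero hFo.locallyIntegrableOn (by
    intro β hβ1 hβ2 hβ3
    have hβ : T1 β := ⟨hβ1, hβ2, hβ3⟩
    have h1 := step1 hc hh hW ha hβ
    have h2 : ∫ x, ((β x.2 : ℝ) : ℂ) * qq ν c h a x ∂(μI.prod μI) =
        ∫ ρ, ∫ s, ((β ρ : ℝ) : ℂ) * qq ν c h a (s, ρ) ∂μI ∂μI :=
      integral_prod_symm _ (int_mul2 hβ hq)
    have h3 : ∫ ρ, β ρ • F ρ = ∫ ρ in Ioo (0:ℝ) 1, β ρ • F ρ := by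
      rw [setIntegral_eq_integral_of_forall_compl_eq_zero]
      intro x hx
      rw [image_eq_zero_of_notMem_tsupport (fun h => hx (hβ3 h)), zero_smul]
    rw [h3]
    have h4 : ∫ ρ in Ioo (0:ℝ) 1, β ρ • F ρ =
        ∫ ρ, ∫ s, ((β ρ : ℝ) : ℂ) * qq ν c h a (s, ρ) ∂μI ∂μI := by
      show ∫ ρ, β ρ • F ρ ∂μI = _
      congr 1
      funext ρ
      rw [integral_const_mul, Complex.real_smul]
    rw [h4, ← h2]
    exact h1)
  have h5 : ∀ᵐ ρ ∂(volume.restrict (Ioo (0:ℝ) 1)), F ρ = 0 := by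
    filter_upwards [ae_restrict_of_ae h0, ae_restrict_mem measurableSet_Ioo] with ρ h1 h2
    exact h1 h2
  exact h5

/-- partial integral over `B` -/
noncomputable def pI (c : ℝ × ℝ → ℂ) (B : Set ℝ) (s : ℝ) : ℂ := ∫ ρ in B, c (s, ρ) ∂μI

theorem step3 (hc : Integrable c μQ) (hh : Integrable h μQ) (hW : Weak1 ν c h) (B : Set ℝ)
    {a : ℝ → ℝ} (ha : T1 a) :
    (∫ s, ((s ^ (-ν) * deriv a s : ℝ) : ℂ) * pI c B s ∂μI) +
      ∫ s, ((s ^ (-ν) * a s : ℝ) : ℂ) * pI h B s ∂μI = 0 := by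
  have hcB : Integrable c (μI.prod (μI.restrict B)) := by
    rw [prod_restr']; exact hc.restrict
  have hhB : Integrable h (μI.prod (μI.restrict B)) := by
    rw [prod_restr']; exact hh.restrict
  have h1 : ∫ x, qq ν c h a x ∂(μI.prod (μI.restrict B)) = 0 := by
    rw [integral_prod_symm _ (int_qq ha hcB hhB)]
    have := ae_restrict_of_ae (s := B) (step2 hc hh hW ha)
    rw [integral_congr_ae this]
    simp
  have h2 : ∫ x, qq ν c h a x ∂(μI.prod (μI.restrict B)) =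
      (∫ x, ((x.1 ^ (-ν) * deriv a x.1 : ℝ) : ℂ) * c x ∂(μI.prod (μI.restrict B))) +
      ∫ x, ((x.1 ^ (-ν) * a x.1 : ℝ) : ℂ) * h x ∂(μI.prod (μI.restrict B)) :=
    integral_add (int_mul (ha.deriv.rpow (-ν)) hcB) (int_mul (ha.rpow (-ν)) hhB)
  rw [h2, integral_prod _ (int_mul (ha.deriv.rpow (-ν)) hcB),
    integral_prod _ (int_mul (ha.rpow (-ν)) hhB)] at h1
  simp only [integral_const_mul] at h1
  exact h1

theorem int_pI (hc : Integrable c μQ) (B : Set ℝ) : Integrable (pI c B) μI := by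
  have hcB : Integrable c (μI.prod (μI.restrict B)) := by
    rw [prod_restr']; exact hc.restrict
  exact hcB.integral_prod_left

theorem loc_pI (hc : Integrable c μQ) (B : Set ℝ) (ν : ℝ) :
    LocallyIntegrableOn (fun s => ((s ^ (-ν) : ℝ) : ℂ) * pI c B s) (Ioo (0:ℝ) 1) := by
  have h1 : IntegrableOn (pI c B) (Ioo (0:ℝ) 1) := int_pI hc B
  refine h1.locallyIntegrableOn.continuousOn_mul ?_ isOpen_Ioo.isLocallyClosed
  apply Complex.continuous_ofReal.comp_continuousOn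
  intro s hs
  exact (Real.continuousAt_rpow_const s (-ν) (Or.inl hs.1.ne')).continuousWithinAt

theorem step4 (hc : Integrable c μQ) (hh : Integrable h μQ) (hW : Weak1 ν c h) (B : Set ℝ) :
    ∃ κ : ℂ, ∀ᵐ s ∂μI, ((s ^ (-ν) : ℝ) : ℂ) * pI c B s =
      κ + ∫ t in (1/2:ℝ)..s, ((t ^ (-ν) : ℝ) : ℂ) * pI h B t := by
  obtain ⟨κ, hκ⟩ := dbr (loc_pI hc B ν) (loc_pI hh B ν) (by
    intro a ha
    have h1 := step3 hc hh hW B ha
    have e1 : ∫ s, ((deriv a s : ℝ) : ℂ) * (((s ^ (-ν) : ℝ) : ℂ) * pI c B s) =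
        ∫ s in Ioo (0:ℝ) 1, ((s ^ (-ν) * deriv a s : ℝ) : ℂ) * pI c B s := by
      rw [← setIntegral_eq_integral_of_forall_compl_eq_zero (s := Ioo (0:ℝ) 1)]
      · congr 1
        funext s
        push_cast
        ring
      · intro x hx
        rw [image_eq_zero_of_notMem_tsupport (fun h => hx (ha.deriv.2.2 h))]
        simp
    have e2 : ∫ s, ((a s : ℝ) : ℂ) * (((s ^ (-ν) : ℝ) : ℂ) * pI h B s) =
        ∫ s in Ioo (0:ℝ) 1, ((s ^ (-ν) * a s : ℝ) : ℂ) * pI h B s := by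
      rw [← setIntegral_eq_integral_of_forall_compl_eq_zero (s := Ioo (0:ℝ) 1)]
      · congr 1
        funext s
        push_cast
        ring
      · intro x hx
        rw [image_eq_zero_of_notMem_tsupport (fun h => hx (ha.2.2 h))]
        simp
    rw [e1, e2]
    exact h1)
  refine ⟨κ, ?_⟩
  unfold μI
  filter_upwards [ae_restrict_of_ae hκ, ae_restrict_mem measurableSet_Ioo] with s h1 h2
  exact h1 h2

theorem uIoc_sub {s : ℝ} (hs : s ∈ Ioo (0:ℝ) 1) : uIcc (1/2) s ⊆ Ioo (0:ℝ) 1 := by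
  intro x hx
  rw [mem_uIcc] at hx
  rcases hx with hx | hx
  · exact ⟨by linarith [hx.1], by linarith [hx.2, hs.2]⟩
  · exact ⟨by linarith [hx.1, hs.1], by linarith [hx.2]⟩

theorem int_g (hh : Integrable h μQ) (B : Set ℝ) (ν : ℝ) {s : ℝ} (hs : s ∈ Ioo (0:ℝ) 1) :
    Integrable (Function.uncurry fun t ρ => ((t ^ (-ν) : ℝ) : ℂ) * h (t, ρ))
      ((volume.restrict (uIoc (1/2) s)).prod (μI.restrict B)) := by
  have hsub : uIoc (1/2) s ⊆ Ioo (0:ℝ) 1 := uIoc_subset_uIcc.trans (uIoc_sub hs)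
  have e : (volume.restrict (uIoc (1/2) s)).prod (μI.restrict B) =
      μQ.restrict (uIoc (1/2) s ×ˢ B) := by
    rw [← prod_restr]
    unfold μI
    rw [Measure.restrict_restrict_of_subset hsub]
  rw [e]
  have hcont : ContinuousOn (fun t : ℝ => t ^ (-ν)) (uIcc (1/2) s) := by
    intro t ht
    exact (Real.continuousAt_rpow_const t (-ν)
      (Or.inl (uIoc_sub hs ht).1.ne')).continuousWithinAt
  obtain ⟨C, hC⟩ := isCompact_uIcc.exists_bound_of_continuousOn hcont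
  have hm : MeasurableSet (uIoc (1/2) s) := measurableSet_uIoc
  have hx : ∀ᵐ x ∂(μQ.restrict (uIoc (1/2) s ×ˢ B)), x.1 ∈ uIoc (1/2) s := by
    have h1 : ∀ᵐ x ∂(μQ.restrict ((uIoc (1/2) s) ×ˢ univ)), x.1 ∈ uIoc (1/2) s := by
      filter_upwards [ae_restrict_mem (hm.prod MeasurableSet.univ)] with x hx
      exact hx.1
    exact ae_mono (Measure.restrict_mono (prod_mono le_rfl (subset_univ B)) le_rfl) h1
  have := (hh.restrict (s := uIoc (1/2) s ×ˢ B)).bdd_mul (c := C)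
    (f := fun x : ℝ × ℝ => ((x.1 ^ (-ν) : ℝ) : ℂ)) (by
      apply Measurable.aestronglyMeasurable
      exact Complex.measurable_ofReal.comp (measurable_fst.pow_const _))
    (by
      filter_upwards [hx] with x hx
      rw [Complex.norm_real]
      exact hC x.1 (uIoc_subset_uIcc hx))
  exact this

/-- the primitive of `s^(-ν) h` -/
noncomputable def GG (ν : ℝ) (h : ℝ × ℝ → ℂ) (s ρ : ℝ) : ℂ :=
  ∫ t in (1/2:ℝ)..s, ((t ^ (-ν) : ℝ) : ℂ) * h (t, ρ)

theorem int_GG (hh : Integrable h μQ) (B : Set ℝ) (ν : ℝ) {s : ℝ} (hs : s ∈ Ioo (0:ℝ) 1) :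
    Integrable (GG ν h s) (μI.restrict B) := by
  have h1 := (int_g hh B ν hs).integral_prod_right
  have e : GG ν h s = fun ρ => (if (1/2:ℝ) ≤ s then (1:ℝ) else -1) •
      ∫ t in uIoc (1/2) s, ((t ^ (-ν) : ℝ) : ℂ) * h (t, ρ) := by
    funext ρ
    unfold GG
    rw [intervalIntegral.intervalIntegral_eq_integral_uIoc]
  rw [e]
  exact h1.smul (if (1/2:ℝ) ≤ s then (1:ℝ) else -1)

theorem swap_GG (hh : Integrable h μQ) (B : Set ℝ) (ν : ℝ) {s : ℝ} (hs : s ∈ Ioo (0:ℝ) 1) :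
    ∫ t in (1/2:ℝ)..s, ((t ^ (-ν) : ℝ) : ℂ) * pI h B t = ∫ ρ in B, GG ν h s ρ ∂μI := by
  unfold GG
  rw [← intervalIntegral_integral_swap (int_g hh B ν hs)]
  congr 1
  funext t
  unfold pI
  rw [integral_const_mul]

theorem step5 (hc : Integrable c μQ) (hh : Integrable h μQ) (hW : Weak1 ν c h) :
    ∃ κ : Option ℚ → ℂ, ∀ᵐ s ∂μI, s ∈ Ioo (0:ℝ) 1 ∧
      Integrable (fun ρ => ((s ^ (-ν) : ℝ) : ℂ) * c (s, ρ) - GG ν h s ρ) μI ∧
      ∀ i, ∫ ρ in fam i, (((s ^ (-ν) : ℝ) : ℂ) * c (s, ρ) - GG ν h s ρ) ∂μI = κ i := by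
  choose κ hκ using fun i : Option ℚ => step4 hc hh hW (fam i)
  refine ⟨κ, ?_⟩
  have h1 : ∀ᵐ s ∂μI, Integrable (fun ρ => c (s, ρ)) μI := hc.prod_right_ae
  filter_upwards [ae_all_iff.2 hκ, h1, ae_μI] with s hs hs1 hs2
  have hG : Integrable (GG ν h s) μI := by
    have := int_GG hh univ ν hs2
    rwa [Measure.restrict_univ] at this
  refine ⟨hs2, (hs1.const_mul _).sub hG, fun i => ?_⟩
  rw [integral_sub (hs1.const_mul _).restrict hG.restrict, integral_const_mul]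
  have h3 := hs i
  rw [swap_GG hh (fam i) ν hs2] at h3
  unfold pI at h3
  rw [h3]
  ring

theorem meas_GG (hh : StronglyMeasurable h) (ν : ℝ) :
    StronglyMeasurable (fun x : ℝ × ℝ => GG ν h x.1 x.2) := by
  have hg : StronglyMeasurable (fun p : (ℝ × ℝ) × ℝ => ((p.2 ^ (-ν) : ℝ) : ℂ) * h (p.2, p.1.2)) := by
    refine StronglyMeasurable.mul ?_ (hh.comp_measurable (by fun_prop))
    exact (Complex.measurable_ofReal.comp (measurable_snd.pow_const _)).stronglyMeasurable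
  have m1 : MeasurableSet {p : (ℝ × ℝ) × ℝ | 1/2 < p.2 ∧ p.2 ≤ p.1.1} :=
    (measurableSet_lt measurable_const measurable_snd).inter
      (measurableSet_le measurable_snd (measurable_fst.comp measurable_fst))
  have m2 : MeasurableSet {p : (ℝ × ℝ) × ℝ | p.1.1 < p.2 ∧ p.2 ≤ 1/2} :=
    (measurableSet_lt (measurable_fst.comp measurable_fst) measurable_snd).inter
      (measurableSet_le measurable_snd measurable_const)
  have i1 := (hg.indicator m1).integral_prod_right' (ν := (volume : Measure ℝ))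
  have i2 := (hg.indicator m2).integral_prod_right' (ν := (volume : Measure ℝ))
  have e : (fun x : ℝ × ℝ => GG ν h x.1 x.2) = fun x =>
      (∫ t, {p : (ℝ × ℝ) × ℝ | 1/2 < p.2 ∧ p.2 ≤ p.1.1}.indicator
        (fun p : (ℝ × ℝ) × ℝ => ((p.2 ^ (-ν) : ℝ) : ℂ) * h (p.2, p.1.2)) (x, t)) -
      ∫ t, {p : (ℝ × ℝ) × ℝ | p.1.1 < p.2 ∧ p.2 ≤ 1/2}.indicator
        (fun p : (ℝ × ℝ) × ℝ => ((p.2 ^ (-ν) : ℝ) : ℂ) * h (p.2, p.1.2)) (x, t) := by
    funext x
    unfold GG intervalIntegral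
    rw [← integral_indicator measurableSet_Ioc, ← integral_indicator measurableSet_Ioc]
    rfl
  rw [e]
  exact i1.sub i2

theorem main_sm (hcm : StronglyMeasurable c) (hhm : StronglyMeasurable h) (hc : Integrable c μQ)
    (hh : Integrable h μQ) (hW : Weak1 ν c h) : ∃ e : ℝ → ℂ, StronglyMeasurable e ∧
    ∀ᵐ x ∂μQ, c x = ((x.1 ^ ν : ℝ) : ℂ) * (e x.2 + GG ν h x.1 x.2) := by
  obtain ⟨κ, hκ⟩ := step5 hc hh hW
  have hne : μI ≠ 0 := by
    unfold μI
    rw [Ne, Measure.restrict_eq_zero]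
    simp
  haveI : NeBot (ae μI) := ae_neBot.2 hne
  obtain ⟨s0, h01, h02, h03⟩ := hκ.exists
  set D0 : ℝ → ℂ := fun ρ => ((s0 ^ (-ν) : ℝ) : ℂ) * c (s0, ρ) - GG ν h s0 ρ with hD0
  have hD0m : StronglyMeasurable D0 := by
    refine StronglyMeasurable.sub ?_ ?_
    · exact (hcm.comp_measurable measurable_prodMk_left).const_mul _
    · exact (meas_GG hhm ν).comp_measurable (measurable_prodMk_left (x := s0))
  refine ⟨D0, hD0m, ?_⟩
  have hset : MeasurableSet {x : ℝ × ℝ | c x = ((x.1 ^ ν : ℝ) : ℂ) * (D0 x.2 + GG ν h x.1 x.2)} := by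
    refine measurableSet_eq_fun hcm.measurable ?_
    refine Measurable.mul ?_ ?_
    · exact Complex.measurable_ofReal.comp (measurable_fst.pow_const _)
    · exact (hD0m.measurable.comp measurable_snd).add (meas_GG hhm ν).measurable
  unfold μQ
  rw [Measure.ae_prod_iff_ae_ae hset]
  filter_upwards [hκ] with s hs
  obtain ⟨hs1, hs2, hs3⟩ := hs
  have h1 : (fun ρ => (((s ^ (-ν) : ℝ) : ℂ) * c (s, ρ) - GG ν h s ρ) - D0 ρ) =ᵐ[μI] 0 := by
    apply unique_of_fam (hs2.sub h02)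
    intro i
    have h5 := integral_sub (hs2.restrict (s := fam i)) (h02.restrict (s := fam i))
    rw [hs3 i] at h5
    refine h5.trans ?_
    have h6 : ∫ ρ in fam i, D0 ρ ∂μI = κ i := h03 i
    rw [h6, sub_self]
  filter_upwards [h1] with ρ hρ
  have h2 : ((s ^ (-ν) : ℝ) : ℂ) * c (s, ρ) - GG ν h s ρ - D0 ρ = 0 := hρ
  have h3 : ((s ^ ν : ℝ) : ℂ) * ((s ^ (-ν) : ℝ) : ℂ) = 1 := by
    rw [← Complex.ofReal_mul, ← Real.rpow_add hs1.1]
    simp
  show c (s, ρ) = ((s ^ ν : ℝ) : ℂ) * (D0 ρ + GG ν h s ρ)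
  have h4 : D0 ρ + GG ν h s ρ = ((s ^ (-ν) : ℝ) : ℂ) * c (s, ρ) := by
    linear_combination -h2
  rw [h4, ← mul_assoc, h3, one_mul]

end main

end Pool.Agent.H903HT.Intg

namespace Pool.Agent.H903HT

open Intg

theorem taskIntegral : TaskIntegral := by
  intro ν c h hc hh hW
  set c' := hc.1.mk c with hc'
  set h' := hh.1.mk h with hh'
  have ec : c =ᵐ[μQ] c' := hc.1.ae_eq_mk
  have eh : h =ᵐ[μQ] h' := hh.1.ae_eq_mk
  have hci : Integrable c' μQ := (hc.integrable (by norm_num)).congr ec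
  have hhi : Integrable h' μQ := (hh.integrable (by norm_num)).congr eh
  have hW' : Weak1 ν c' h' := by
    intro φ hφ
    have h1 := hW φ hφ
    have e1 : ∫ x, c' x * (fderiv ℝ φ x ((1:ℝ), (0:ℝ)) + ((ν / x.1 : ℝ) : ℂ) * φ x) ∂μQ =
        ∫ x, c x * (fderiv ℝ φ x ((1:ℝ), (0:ℝ)) + ((ν / x.1 : ℝ) : ℂ) * φ x) ∂μQ := by
      apply integral_congr_ae
      filter_upwards [ec] with x hx
      rw [hx]
    have e2 : ∫ x, h' x * φ x ∂μQ = ∫ x, h x * φ x ∂μQ := by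
      apply integral_congr_ae
      filter_upwards [eh] with x hx
      rw [hx]
    rw [e1, e2]
    exact h1
  obtain ⟨e, he, hmain⟩ := main_sm hc.1.stronglyMeasurable_mk hh.1.stronglyMeasurable_mk hci hhi hW'
  refine ⟨e, he.aestronglyMeasurable, ?_⟩
  have hsw : ∀ᵐ z ∂(μI.prod μI), h z.swap = h' z.swap :=
    Measure.measurePreserving_swap.quasiMeasurePreserving.ae eh
  have hsw2 : ∀ᵐ ρ ∂μI, ∀ᵐ t ∂μI, h (t, ρ) = h' (t, ρ) := Measure.ae_ae_of_ae_prod hsw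
  have hsw3 : ∀ᵐ x ∂μQ, ∀ᵐ t ∂μI, h (t, x.2) = h' (t, x.2) :=
    Measure.quasiMeasurePreserving_snd.ae hsw2
  filter_upwards [hmain, ec, hsw3, ae_μQ] with x h1 h2 h3 h4
  rw [h2]
  refine h1.trans ?_
  congr 2
  unfold GG
  apply intervalIntegral.integral_congr_ae
  have h5 : ∀ᵐ t, t ∈ Ioo (0:ℝ) 1 → h (t, x.2) = h' (t, x.2) := by
    unfold μI at h3
    exact (ae_restrict_iff' measurableSet_Ioo).1 h3
  filter_upwards [h5] with t ht ht2
  rw [ht (uIoc_sub h4.1 (uIoc_subset_uIcc ht2))]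

end Pool.Agent.H903HT
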