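import Pool.Agent.H903HT.Stmts2

/-!
Project H903-HT, S3: invariant subspaces split into modes.
-/

set_option autoImplicit false

namespace Pool.Agent.H903HT

namespace InvSubAux

variable {H : Type} [NormedAddCommGroup H] [InnerProductSpace ℂ H]

/-- the parts in `E` and in its orthogonal complement of a joint eigenvector are eigenvectors -/
theorem split (U : H ≃ₗᵢ[ℂ] H) (c : ℂ) (E : Submodule ℂ H) (hE : ∀ f ∈ E, U f ∈ E)
    (hE' : ∀ f ∈ E, U.symm f ∈ E) (h1 h2 : H) (m1 : h1 ∈ E) (m2 : h2 ∈ Eᗮ)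
    (h : U (h1 + h2) = c • (h1 + h2)) : U h1 = c • h1 ∧ U h2 = c • h2 := by
  have hU2 : U h2 ∈ Eᗮ := by
    rw [Submodule.mem_orthogonal]
    intro e he
    have := (Submodule.mem_orthogonal E h2).1 m2 (U.symm e) (hE' e he)
    rw [← this, ← U.inner_map_map (U.symm e) h2, U.apply_symm_apply]
  have e1 : U h1 - c • h1 = c • h2 - U h2 := by
    rw [map_add, smul_add] at h
    rw [sub_eq_sub_iff_add_eq_add, h, add_comm]
  have mE : U h1 - c • h1 ∈ E := E.sub_mem (hE h1 m1) (E.smul_mem c m1)
  have mO : U h1 - c • h1 ∈ Eᗮ := by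
    rw [e1]
    exact Eᗮ.sub_mem (Eᗮ.smul_mem c m2) hU2
  have z : U h1 - c • h1 = 0 := by
    have := (Submodule.mem_orthogonal E _).1 mO _ mE
    exact inner_self_eq_zero.1 this
  refine ⟨sub_eq_zero.1 z, ?_⟩
  rw [z] at e1
  exact (sub_eq_zero.1 e1.symm).symm

end InvSubAux

open InvSubAux in
theorem taskInvSub : TaskInvSub := by
  intro H _ _ _ κ J U χ W hWc hW htot E hEc hE hE'
  set K : Submodule ℂ H := (⨆ j, E ⊓ W j).topologicalClosure with hK
  have hKE : K ≤ E := by
    refine Submodule.topologicalClosure_minimal _ ?_ hEc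
    exact iSup_le fun j => inf_le_left
  have hjK : ∀ j, E ⊓ W j ≤ K := fun j =>
    (le_iSup (fun j => E ⊓ W j) j).trans (Submodule.le_topologicalClosure _)
  haveI : CompleteSpace K := (Submodule.isClosed_topologicalClosure _).completeSpace_coe
  haveI : CompleteSpace E := hEc.completeSpace_coe
  haveI : ∀ j, CompleteSpace (W j) := fun j => (hWc j).completeSpace_coe
  intro f hf
  obtain ⟨y, hy, z, hz, rfl⟩ := K.exists_add_mem_mem_orthogonal f
  have hzE : z ∈ E := by
    have := E.sub_mem hf (hKE hy)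
    rwa [add_sub_cancel_left] at this
  have hzj : ∀ j, z ∈ (W j)ᗮ := by
    intro j
    obtain ⟨p, hp, q, hq, hpq⟩ := (W j).exists_add_mem_mem_orthogonal z
    obtain ⟨h1, m1, h2, m2, h12⟩ := E.exists_add_mem_mem_orthogonal p
    have hs : ∀ k, U k h1 = χ j k • h1 ∧ U k h2 = χ j k • h2 := fun k =>
      split (U k) (χ j k) E (hE k) (hE' k) h1 h2 m1 m2 (by
        rw [← h12]
        exact (hW j p).1 hp k)
    have w1 : h1 ∈ W j := (hW j h1).2 fun k => (hs k).1
    have w2 : h2 ∈ W j := (hW j h2).2 fun k => (hs k).2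
    have z2 : h2 = 0 := by
      have a : inner ℂ z h2 = 0 := (Submodule.mem_orthogonal E h2).1 m2 z hzE
      have b : inner ℂ h2 q = 0 := (Submodule.mem_orthogonal (W j) q).1 hq h2 w2
      have c : inner ℂ h1 h2 = 0 := (Submodule.mem_orthogonal E h2).1 m2 h1 m1
      have b' : inner ℂ q h2 = 0 := inner_eq_zero_symm.1 b
      rw [hpq, inner_add_left, b', add_zero, h12, inner_add_left, c, zero_add] at a
      exact inner_self_eq_zero.1 a
    have mp : p ∈ E ⊓ W j := by
      rw [z2, add_zero] at h12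
      rw [h12]
      exact ⟨m1, w1⟩
    have z3 : p = 0 := by
      have a : inner ℂ p z = 0 := (Submodule.mem_orthogonal K z).1 hz p (hjK j mp)
      have b : inner ℂ p q = 0 := (Submodule.mem_orthogonal (W j) q).1 hq p hp
      rw [hpq, inner_add_right, b, add_zero] at a
      exact inner_self_eq_zero.1 a
    rw [z3, zero_add] at hpq
    rw [hpq]
    exact hq
  have hz0 : z = 0 := by
    have h1 : z ∈ (⨆ j, W j)ᗮ := by
      rw [← Submodule.iInf_orthogonal, Submodule.mem_iInf]
      exact hzj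
    have h2 : (⨆ j, W j)ᗮ = ⊥ := Submodule.topologicalClosure_eq_top_iff.1 htot
    rw [h2, Submodule.mem_bot] at h1
    exact h1
  rw [hz0, add_zero]
  exact hy

end Pool.Agent.H903HT
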