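import Pool.Agent.H903HT.Stmts

set_option autoImplicit false

open MeasureTheory Filter Topology Set
open scoped ContDiff

namespace Pool.Agent.H903HT

theorem taskMulTest : TaskMulTest := by
  intro w φ hφ hw
  obtain ⟨h1, h2, h3⟩ := hφ
  have hU : IsOpen (Ioo (0:ℝ) 1 ×ˢ Ioo (0:ℝ) 1) := isOpen_Ioo.prod isOpen_Ioo
  refine ⟨?_, ?_, ?_⟩
  · rw [contDiff_iff_contDiffAt]
    intro x
    by_cases hx : x ∈ Ioo (0:ℝ) 1 ×ˢ Ioo (0:ℝ) 1
    · exact (hw.contDiffAt (hU.mem_nhds hx)).mul h1.contDiffAt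
    · have hx' : x ∉ tsupport φ := fun h => hx (h3 h)
      have h4 : φ =ᶠ[𝓝 x] 0 := notMem_tsupport_iff_eventuallyEq.mp hx'
      have h5 : (fun x => w x * φ x) =ᶠ[𝓝 x] fun _ => (0 : ℂ) := by
        filter_upwards [h4] with y hy
        rw [hy]
        simp
      exact contDiffAt_const.congr_of_eventuallyEq h5
  · exact h2.mul_left
  · exact (tsupport_mul_subset_right (f := w) (g := φ)).trans h3

end Pool.Agent.H903HT
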