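import Pool.Agent.H903HT.Stmts

/-!
# Task Neg: approximation for negative exponents
-/

set_option autoImplicit false

open MeasureTheory Filter Topology Set
open scoped ContDiff

namespace Pool.Agent.H903HT

namespace NegAux

instance : IsFiniteMeasure μI := by
  unfold μI
  infer_instance

/-- slices of an `L²` function are in `L²` -/
theorem slice {f : ℝ × ℝ → ℂ} (hf : MemLp f 2 μQ) :
    ∀ᵐ ρ ∂μI, MemLp (fun s => f (s, ρ)) 2 μI := by
  have h1 : AEStronglyMeasurable f (μI.prod μI) := hf.1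
  have h2 := h1.prodMk_right
  have h3 : Integrable (fun x => ‖f x‖ ^ 2) (μI.prod μI) :=
    (memLp_two_iff_integrable_sq_norm hf.1).1 hf
  have h4 := h3.prod_left_ae
  filter_upwards [h2, h4] with ρ g2 g4
  exact (memLp_two_iff_integrable_sq_norm g2).2 g4

/-- the kernel -/
noncomputable def ker (a : ℝ) (s t : ℝ) : ℝ := if 0 < t ∧ t < s then (t / s) ^ a else 0

theorem ker_meas (a : ℝ) : Measurable (fun p : ℝ × ℝ => ker a p.1 p.2) := by
  unfold ker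
  apply Measurable.ite
  · exact (measurableSet_lt measurable_const measurable_snd).inter
      (measurableSet_lt measurable_snd measurable_fst)
  · exact (measurable_snd.div measurable_fst).pow_const a
  · exact measurable_const

theorem ker_le {a : ℝ} (ha : 0 ≤ a) (s t : ℝ) : |ker a s t| ≤ 1 := by
  unfold ker
  split_ifs with h
  · have h1 : 0 ≤ t / s := div_nonneg h.1.le (h.1.trans h.2).le
    have h2 : t / s ≤ 1 := (div_le_one (h.1.trans h.2)).2 h.2.le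
    rw [abs_of_nonneg (Real.rpow_nonneg h1 a)]
    exact Real.rpow_le_one h1 h2 ha
  · simp

theorem ker_int {ν : ℝ} (hν : ν ≤ 0) {g : ℝ → ℂ} (hg : Integrable g μI) {s : ℝ}
    (hs : s ∈ Ioo (0 : ℝ) 1) :
    ∫ t, ((ker (-ν) s t : ℝ) : ℂ) * g t ∂μI =
      ((s ^ ν : ℝ) : ℂ) * ((∫ t in (0 : ℝ)..(1 / 2), ((t ^ (-ν) : ℝ) : ℂ) * g t) +
        ∫ t in (1 / 2 : ℝ)..s, ((t ^ (-ν) : ℝ) : ℂ) * g t) := by
  -- integrability of the integrand on `(0,1)`
  have hi : IntegrableOn (fun t => ((t ^ (-ν) : ℝ) : ℂ) * g t) (Ioo 0 1) := by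
    have h1 : Integrable g (volume.restrict (Ioo (0 : ℝ) 1)) := hg
    refine Integrable.mono' h1.norm ?_ ?_
    · refine AEStronglyMeasurable.mul ?_ h1.1
      exact (Complex.measurable_ofReal.comp (measurable_id.pow_const (-ν))).aestronglyMeasurable
    · rw [ae_restrict_iff' measurableSet_Ioo]
      refine Eventually.of_forall fun t ht => ?_
      rw [norm_mul, Complex.norm_real, Real.norm_eq_abs,
        abs_of_nonneg (Real.rpow_nonneg ht.1.le _)]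
      have h2 : t ^ (-ν) ≤ 1 := Real.rpow_le_one ht.1.le ht.2.le (by linarith)
      calc t ^ (-ν) * ‖g t‖ ≤ 1 * ‖g t‖ := mul_le_mul_of_nonneg_right h2 (norm_nonneg _)
        _ = ‖g t‖ := one_mul _
  have hii : ∀ u v : ℝ, u ∈ Icc (0 : ℝ) 1 → v ∈ Icc (0 : ℝ) 1 →
      IntervalIntegrable (fun t => ((t ^ (-ν) : ℝ) : ℂ) * g t) volume u v := by
    intro u v hu hv
    rw [intervalIntegrable_iff]
    have h1 : IntegrableOn (fun t => ((t ^ (-ν) : ℝ) : ℂ) * g t) (Ioc 0 1) :=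
      (integrableOn_Ioc_iff_integrableOn_Ioo (by simp)).2 hi
    exact h1.mono_set (Ioc_subset_Ioc (le_min hu.1 hv.1) (max_le hu.2 hv.2))
  rw [intervalIntegral.integral_add_adjacent_intervals (hii 0 (1 / 2) ⟨le_rfl, by norm_num⟩
    ⟨by norm_num, by norm_num⟩) (hii (1 / 2) s ⟨by norm_num, by norm_num⟩ ⟨hs.1.le, hs.2.le⟩)]
  rw [intervalIntegral.integral_of_le hs.1.le, integral_Ioc_eq_integral_Ioo]
  rw [← integral_const_mul]
  have h3 : (fun t => ((ker (-ν) s t : ℝ) : ℂ) * g t) = (Ioo 0 s).indicator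
      (fun t => ((s ^ ν : ℝ) : ℂ) * (((t ^ (-ν) : ℝ) : ℂ) * g t)) := by
    funext t
    unfold ker
    by_cases ht : 0 < t ∧ t < s
    · rw [if_pos ht, indicator_of_mem (show t ∈ Ioo 0 s from ht), Real.div_rpow ht.1.le hs.1.le,
        Real.rpow_neg hs.1.le, div_inv_eq_mul]
      push_cast
      ring
    · rw [if_neg ht, indicator_of_notMem (show t ∉ Ioo 0 s from ht)]
      simp
  rw [h3, integral_indicator measurableSet_Ioo]
  unfold μI
  rw [Measure.restrict_restrict measurableSet_Ioo]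
  have h4 : Ioo 0 s ∩ Ioo (0 : ℝ) 1 = Ioo 0 s :=
    inter_eq_left.2 (Ioo_subset_Ioo_right hs.2.le)
  rw [h4]

theorem ker_bound {a : ℝ} (ha : 0 ≤ a) {g : ℝ → ℂ} (hg : Integrable g μI) (s : ℝ) :
    ‖∫ t, ((ker a s t : ℝ) : ℂ) * g t ∂μI‖ ≤ ∫ t, ‖g t‖ ∂μI := by
  refine (norm_integral_le_integral_norm _).trans ?_
  refine integral_mono_of_nonneg (Eventually.of_forall fun t => norm_nonneg _) hg.norm
    (Eventually.of_forall fun t => ?_)
  change ‖((ker a s t : ℝ) : ℂ) * g t‖ ≤ ‖g t‖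
  rw [norm_mul, Complex.norm_real, Real.norm_eq_abs]
  calc |ker a s t| * ‖g t‖ ≤ 1 * ‖g t‖ := mul_le_mul_of_nonneg_right (ker_le ha s t) (norm_nonneg _)
    _ = ‖g t‖ := one_mul _

/-- a function `s ^ ν z` which is in `L²` up to a bounded function vanishes -/
theorem zero_of_bound {ν : ℝ} (hν : ν ≤ -(1 / 2)) {f : ℝ → ℂ} (hf : MemLp f 2 μI) (z : ℂ) (H : ℝ)
    (h : ∀ᵐ s ∂μI, ‖((s ^ ν : ℝ) : ℂ) * z‖ ≤ ‖f s‖ + H) : z = 0 := by
  by_contra hz
  have hz0 : 0 < ‖z‖ := norm_pos_iff.2 hz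
  have h1 : MemLp (fun s => (‖f s‖ + H) * ‖z‖⁻¹) 2 μI :=
    (hf.norm.add (memLp_const H)).mul_const _
  have h2 : MemLp (fun s : ℝ => s ^ ν) 2 μI := by
    refine h1.mono (measurable_id.pow_const ν).aestronglyMeasurable ?_
    have hmem : ∀ᵐ s ∂μI, s ∈ Ioo (0 : ℝ) 1 := by
      unfold μI
      exact ae_restrict_mem measurableSet_Ioo
    filter_upwards [h, hmem] with s hs hs1
    rw [norm_mul, Complex.norm_real] at hs
    rw [norm_mul, norm_inv, norm_norm]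
    have h3 : ‖s ^ ν‖ ≤ (‖f s‖ + H) * ‖z‖⁻¹ := by
      rw [← div_eq_mul_inv, le_div_iff₀ hz0]
      exact hs
    refine h3.trans ?_
    exact mul_le_mul_of_nonneg_right (Real.le_norm_self _) (by positivity)
  have h3 := (memLp_two_iff_integrable_sq_norm h2.1).1 h2
  have h4 : IntegrableOn (fun s : ℝ => s ^ (2 * ν)) (Ioo 0 1) := by
    have h5 : IntegrableOn (fun s : ℝ => ‖s ^ ν‖ ^ 2) (Ioo 0 1) := h3
    refine h5.congr_fun ?_ measurableSet_Ioo
    intro s hs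
    change ‖s ^ ν‖ ^ 2 = s ^ (2 * ν)
    rw [Real.norm_eq_abs, abs_of_nonneg (Real.rpow_nonneg hs.1.le _), ← Real.rpow_natCast,
      ← Real.rpow_mul hs.1.le]
    congr 1
    push_cast
    ring
  rw [intervalIntegral.integrableOn_Ioo_rpow_iff one_pos] at h4
  linarith

end NegAux

open NegAux

theorem taskNeg : TaskNeg := by
  intro hInt hHS ν hν C hC ε hε
  obtain ⟨N, p, hp, hap⟩ := hHS (ker (-ν)) (ker_meas (-ν)) (ker_le (by linarith)) C hC ε hε
  refine ⟨N, p, hp, ?_⟩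
  rintro c ⟨h, hc, hh, -, hhC, hw⟩
  obtain ⟨α, hα, hle⟩ := hap _ ⟨h, hh, hhC, rfl⟩
  refine ⟨α, hα, ?_⟩
  obtain ⟨e, -, he⟩ := hInt ν c h hc hh hw
  -- the slices
  have sc := slice hc
  have sh := slice hh
  have hmem : ∀ᵐ s ∂μI, s ∈ Ioo (0 : ℝ) 1 := by
    unfold μI
    exact ae_restrict_mem measurableSet_Ioo
  have he' : ∀ᵐ ρ ∂μI, ∀ᵐ s ∂μI, c (s, ρ) = ((s ^ ν : ℝ) : ℂ) *
      (e ρ + ∫ t in (1/2 : ℝ)..s, ((t ^ (-ν) : ℝ) : ℂ) * h (t, ρ)) := by
    have h1 : ∀ᵐ x ∂(μI.prod μI), c x.swap = ((x.swap.1 ^ ν : ℝ) : ℂ) *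
        (e x.swap.2 + ∫ t in (1/2 : ℝ)..x.swap.1, ((t ^ (-ν) : ℝ) : ℂ) * h (t, x.swap.2)) :=
      (Measure.measurePreserving_swap (μ := μI) (ν := μI)).quasiMeasurePreserving.ae he
    exact Measure.ae_ae_of_ae_prod h1
  have hzero : ∀ᵐ ρ ∂μI, e ρ - ∫ t in (0 : ℝ)..(1 / 2), ((t ^ (-ν) : ℝ) : ℂ) * h (t, ρ) = 0 := by
    filter_upwards [sc, sh, he'] with ρ g1 g2 g3
    have gi : Integrable (fun t => h (t, ρ)) μI := g2.integrable (by norm_num)
    refine zero_of_bound hν g1 _ (∫ t, ‖h (t, ρ)‖ ∂μI) ?_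
    filter_upwards [g3, hmem] with s hs hs1
    have h4 := ker_int (ν := ν) (by linarith) gi hs1
    have h5 : ((s ^ ν : ℝ) : ℂ) *
        (e ρ - ∫ t in (0 : ℝ)..(1 / 2), ((t ^ (-ν) : ℝ) : ℂ) * h (t, ρ)) =
        c (s, ρ) - ∫ t, ((ker (-ν) s t : ℝ) : ℂ) * h (t, ρ) ∂μI := by
      rw [hs, h4]
      ring
    rw [h5]
    refine (norm_sub_le _ _).trans ?_
    have h6 := ker_bound (a := -ν) (by linarith) gi s
    linarith
  have key : c =ᵐ[μQ] fun x => ∫ t, ((ker (-ν) x.1 t : ℝ) : ℂ) * h (t, x.2) ∂μI := by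
    have q1 : ∀ᵐ x ∂μQ, e x.2 -
        ∫ t in (0 : ℝ)..(1 / 2), ((t ^ (-ν) : ℝ) : ℂ) * h (t, x.2) = 0 :=
      (Measure.quasiMeasurePreserving_snd (μ := μI) (ν := μI)).ae hzero
    have q2 : ∀ᵐ x ∂μQ, MemLp (fun s => h (s, x.2)) 2 μI :=
      (Measure.quasiMeasurePreserving_snd (μ := μI) (ν := μI)).ae sh
    have q3 : ∀ᵐ x ∂μQ, x.1 ∈ Ioo (0 : ℝ) 1 :=
      (Measure.quasiMeasurePreserving_fst (μ := μI) (ν := μI)).ae hmem
    filter_upwards [q1, q2, q3, he] with x r1 r2 r3 r4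
    have gi : Integrable (fun t => h (t, x.2)) μI := r2.integrable (by norm_num)
    rw [r4, ker_int (ν := ν) (by linarith) gi r3, sub_eq_zero.1 r1]
  refine le_trans (le_of_eq (eLpNorm_congr_ae ?_)) hle
  filter_upwards [key] with x hx
  rw [hx]

end Pool.Agent.H903HT
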