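import Pool.Agent.H903HT.Fourier

/-!
Task TP4 of project H903-HT: pairing a function in a mode with a function in the opposite mode.
-/

set_option autoImplicit false

open MeasureTheory Filter Topology Set
open scoped ContDiff ENNReal

namespace Pool.Agent.H903HT

namespace PairB

open Fou

lemma chi_mul (m n : ℤ) (θ : ℝ × ℝ) : chi m n θ * chi (-m) (-n) θ = 1 := by
  unfold chi
  rw [← Complex.exp_add, ← Complex.exp_zero]
  congr 1
  push_cast
  ring

end PairB

open Fou PairB in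
/-- TP4. -/
theorem taskPairB : TaskPair := by
  intro hP m n u c hc Ψ g hΨ hg hΨg
  have hu : Measurable (u : ℂ × ℂ → ℂ) := (Lp.stronglyMeasurable u).measurable
  have hI : ∫ z, u z * Ψ z ∂μT = ∫ x, (dens x).toReal • (u (Pt x) * Ψ (Pt x)) ∂PP :=
    int_T hP (hu.mul hΨ)
  rw [hI]
  have h1 : ∫ x, (dens x).toReal • (u (Pt x) * Ψ (Pt x)) ∂PP =
      ∫ x, (fun y : ℝ × ℝ => ((1 / K : ℝ) : ℂ) * (c y * (fac y * g y))) x.1 ∂PP := by
    apply integral_congr_ae
    have hc' : ∀ᵐ x ∂PP, fac x.1 * u (Pt x) = chi m n x.2 * c x.1 := hc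
    filter_upwards [ae_mem_PP, hc'] with x hx hx2
    have p1 : 0 < x.1.1 := hx.1.1
    have p2 : 0 < x.1.2 := hx.2.1
    have hd : ((dens x).toReal : ℂ) = ((1 / K : ℝ) : ℂ) * (fac x.1 * fac x.1) := by
      rw [fac_sq p1.le p2.le]
      unfold dens K
      rw [ENNReal.toReal_ofReal (by positivity), ← Complex.ofReal_mul]
      congr 1
      have := Real.pi_pos
      field_simp
    have hs : (dens x).toReal • (u (Pt x) * Ψ (Pt x)) =
        ((dens x).toReal : ℂ) * (u (Pt x) * Ψ (Pt x)) := rfl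
    rw [hs, hd, hΨg x hx]
    calc ((1 / K : ℝ) : ℂ) * (fac x.1 * fac x.1) * (u (Pt x) * (chi (-m) (-n) x.2 * g x.1))
        = ((1 / K : ℝ) : ℂ) * (fac x.1 * (fac x.1 * u (Pt x)) * (chi (-m) (-n) x.2 * g x.1)) := by
          ring
      _ = ((1 / K : ℝ) : ℂ) * ((chi m n x.2 * chi (-m) (-n) x.2) * (c x.1 * (fac x.1 * g x.1))) := by
          rw [hx2]; ring
      _ = _ := by rw [chi_mul, one_mul]
  have h2 : ∫ x, (fun y : ℝ × ℝ => ((1 / K : ℝ) : ℂ) * (c y * (fac y * g y))) x.1 ∂PP =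
      ν.real univ • ∫ y, ((1 / K : ℝ) : ℂ) * (c y * (fac y * g y)) ∂μQ :=
    integral_fun_fst (μ := μQ) (ν := ν)
      (fun y : ℝ × ℝ => ((1 / K : ℝ) : ℂ) * (c y * (fac y * g y)))
  have h3 : ν.real univ = K := by
    rw [Measure.real, ν_univ, ENNReal.toReal_ofReal K_pos.le]
  refine Eq.trans h1 (Eq.trans h2 ?_)
  · rw [h3, integral_const_mul]
    have hK := K_pos
    have hs : ∀ w : ℂ, K • (((1 / K : ℝ) : ℂ) * w) = w := by
      intro w
      rw [Complex.real_smul, ← mul_assoc, ← Complex.ofReal_mul, mul_one_div_cancel hK.ne',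
        Complex.ofReal_one, one_mul]
    exact hs _

end Pool.Agent.H903HT
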