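import Pool.Agent.H903HT.Stmts

/-! Task TP1 (polar coordinates) of project H903-HT, by helper651. -/

set_option autoImplicit false

open MeasureTheory Filter Topology Set
open scoped ContDiff ENNReal

namespace Pool.Agent.H903HT

namespace PolarAux

/-- polar coordinates on the plane, iterated form -/
theorem polar1 (h : ℂ → ℝ≥0∞) (hh : Measurable h) :
    ∫⁻ z, h z = ∫⁻ r in Ioi (0 : ℝ), ∫⁻ θ, ENNReal.ofReal r *
      h ((r : ℂ) * Complex.exp (θ * Complex.I)) ∂μΘ := by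
  rw [← Complex.lintegral_comp_polarCoord_symm, polarCoord_target,
    Measure.volume_eq_prod, ← Measure.prod_restrict]
  rw [lintegral_prod]
  · refine lintegral_congr fun r => ?_
    unfold μΘ
    refine lintegral_congr fun θ => ?_
    rw [Complex.polarCoord_symm_apply, Complex.exp_mul_I, smul_eq_mul]
    simp only [Complex.ofReal_cos, Complex.ofReal_sin]
  · refine Measurable.aemeasurable ?_
    have : Measurable fun p : ℝ × ℝ => Complex.polarCoord.symm p := by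
      have h1 : (fun p : ℝ × ℝ => Complex.polarCoord.symm p) =
          fun p : ℝ × ℝ => (p.1 : ℂ) * ((Real.cos p.2 : ℂ) + (Real.sin p.2 : ℂ) * Complex.I) := by
        funext p
        rw [Complex.polarCoord_symm_apply]
      rw [h1]
      fun_prop
    exact (by fun_prop : Measurable fun p : ℝ × ℝ => ENNReal.ofReal p.1).smul (hh.comp this)

/-- scaling -/
theorem scale (k : ℝ → ℝ≥0∞) (hk : Measurable k) (ρ : ℝ) (hρ : 0 < ρ) :
    ∫⁻ r in Ioi (0 : ℝ), k r = ENNReal.ofReal ρ * ∫⁻ s in Ioi (0 : ℝ), k (s * ρ) := by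
  have h1 := Real.smul_map_volume_mul_right hρ.ne'
  rw [abs_of_pos hρ] at h1
  rw [← lintegral_indicator measurableSet_Ioi, ← lintegral_indicator measurableSet_Ioi]
  conv_lhs => rw [← h1]
  rw [lintegral_smul_measure, smul_eq_mul, lintegral_map (hk.indicator measurableSet_Ioi)
    (by fun_prop)]
  congr 1
  refine lintegral_congr fun s => ?_
  by_cases hs : 0 < s
  · rw [indicator_of_mem (by exact mul_pos hs hρ : s * ρ ∈ Ioi (0 : ℝ)),
      indicator_of_mem (by exact hs : s ∈ Ioi (0 : ℝ))]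
  · have : ¬ 0 < s * ρ := by
      intro h
      exact hs ((mul_pos_iff_of_pos_right hρ).1 h)
    rw [indicator_of_notMem (by simpa using this), indicator_of_notMem (by simpa using hs)]

theorem measurable_Pt : Measurable Pt := by
  unfold Pt
  fun_prop

theorem Pt_mem {s ρ θ₁ θ₂ : ℝ} (hs : 0 < s) (hρ : 0 < ρ) :
    Pt ((s, ρ), (θ₁, θ₂)) ∈ T ↔ s < 1 ∧ ρ < 1 := by
  unfold T Pt
  simp only [mem_ofPred_eq, norm_mul, Complex.norm_exp_ofReal_mul_I, mul_one, Complex.norm_real,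
    Real.norm_eq_abs, abs_of_pos hρ, abs_of_pos hs, Complex.ofReal_mul]
  constructor
  · rintro ⟨h1, h2⟩
    exact ⟨by nlinarith, h2⟩
  · rintro ⟨h1, h2⟩
    exact ⟨by nlinarith, h2⟩

theorem measurableSet_T : MeasurableSet T := by
  have h1 : MeasurableSet {z : ℂ × ℂ | ‖z.1‖ < ‖z.2‖} :=
    measurableSet_lt (f := fun z : ℂ × ℂ => ‖z.1‖) (g := fun z : ℂ × ℂ => ‖z.2‖)
      (by fun_prop) (by fun_prop)
  have h2 : MeasurableSet {z : ℂ × ℂ | ‖z.2‖ < 1} :=
    measurableSet_lt (f := fun z : ℂ × ℂ => ‖z.2‖) (g := fun _ : ℂ × ℂ => (1 : ℝ))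
      (by fun_prop) (by fun_prop)
  exact h1.inter h2

/-- the inner integral -/
theorem inner_eq (f : ℂ × ℂ → ℝ≥0∞) (hf : Measurable f) (ρ θ₂ : ℝ) (hρ : 0 < ρ) :
    ENNReal.ofReal ρ * ∫⁻ z₁, T.indicator f (z₁, (ρ : ℂ) * Complex.exp (θ₂ * Complex.I)) =
      (Iio (1 : ℝ)).indicator (fun ρ : ℝ => ∫⁻ s, ∫⁻ θ₁,
        ENNReal.ofReal (s * ρ ^ 3) * f (Pt ((s, ρ), (θ₁, θ₂))) ∂μΘ ∂μI) ρ := by
  have hg : Measurable (T.indicator f) := hf.indicator measurableSet_T
  rw [polar1 (fun z₁ : ℂ => T.indicator f (z₁, (ρ : ℂ) * Complex.exp (θ₂ * Complex.I)))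
    (hg.comp (by fun_prop : Measurable fun z₁ : ℂ =>
      (z₁, (ρ : ℂ) * Complex.exp (θ₂ * Complex.I))))]
  have hsc := scale (fun r => ∫⁻ θ, ENNReal.ofReal r *
    T.indicator f ((r : ℂ) * Complex.exp (θ * Complex.I),
      (ρ : ℂ) * Complex.exp (θ₂ * Complex.I)) ∂μΘ) ?_ ρ hρ
  swap
  · have : Measurable fun q : ℝ × ℝ => ENNReal.ofReal q.1 *
      T.indicator f ((q.1 : ℂ) * Complex.exp (q.2 * Complex.I),
        (ρ : ℂ) * Complex.exp (θ₂ * Complex.I)) :=
      (by fun_prop : Measurable fun q : ℝ × ℝ => ENNReal.ofReal q.1).mul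
        (hg.comp (by fun_prop : Measurable fun q : ℝ × ℝ =>
          ((q.1 : ℂ) * Complex.exp (q.2 * Complex.I), (ρ : ℂ) * Complex.exp (θ₂ * Complex.I))))
    unfold μΘ
    exact Measurable.lintegral_prod_right' this
  rw [hsc]
  have hkey : ∀ s θ₁ : ℝ, 0 < s →
      ENNReal.ofReal (s * ρ) * T.indicator f (((s * ρ : ℝ) : ℂ) * Complex.exp (θ₁ * Complex.I),
        (ρ : ℂ) * Complex.exp (θ₂ * Complex.I)) =
      if s < 1 ∧ ρ < 1 then ENNReal.ofReal (s * ρ) * f (Pt ((s, ρ), (θ₁, θ₂))) else 0 := by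
    intro s θ₁ hs
    have e : (((s * ρ : ℝ) : ℂ) * Complex.exp (θ₁ * Complex.I),
        (ρ : ℂ) * Complex.exp (θ₂ * Complex.I)) = Pt ((s, ρ), (θ₁, θ₂)) := rfl
    rw [e]
    by_cases h : s < 1 ∧ ρ < 1
    · rw [if_pos h, indicator_of_mem ((Pt_mem hs hρ).2 h)]
    · rw [if_neg h, indicator_of_notMem (fun h' => h ((Pt_mem hs hρ).1 h')), mul_zero]
  by_cases hρ1 : ρ < 1
  · rw [indicator_of_mem (by exact hρ1 : ρ ∈ Iio (1 : ℝ))]
    have e1 : ∫⁻ s in Ioi (0 : ℝ), ∫⁻ θ₁, ENNReal.ofReal (s * ρ) *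
        T.indicator f (((s * ρ : ℝ) : ℂ) * Complex.exp (θ₁ * Complex.I),
          (ρ : ℂ) * Complex.exp (θ₂ * Complex.I)) ∂μΘ =
        ∫⁻ s in Ioi (0 : ℝ), (Iio (1 : ℝ)).indicator (fun s => ∫⁻ θ₁, ENNReal.ofReal (s * ρ) *
          f (Pt ((s, ρ), (θ₁, θ₂))) ∂μΘ) s := by
      refine setLIntegral_congr_fun measurableSet_Ioi fun s hs => ?_
      by_cases hs1 : s < 1
      · rw [indicator_of_mem (by exact hs1 : s ∈ Iio (1 : ℝ))]
        refine lintegral_congr fun θ₁ => ?_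
        rw [hkey s θ₁ hs, if_pos ⟨hs1, hρ1⟩]
      · rw [indicator_of_notMem (by simpa using hs1)]
        rw [lintegral_congr (g := fun _ => 0)]
        · simp
        · intro θ₁
          rw [hkey s θ₁ hs, if_neg (fun h => hs1 h.1)]
    rw [e1, lintegral_indicator measurableSet_Iio, Measure.restrict_restrict measurableSet_Iio,
      Iio_inter_Ioi, ← mul_assoc, ← ENNReal.ofReal_mul hρ.le]
    unfold μI
    rw [← lintegral_const_mul' _ _ ENNReal.ofReal_ne_top]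
    refine setLIntegral_congr_fun measurableSet_Ioo fun s hs => ?_
    rw [← lintegral_const_mul' _ _ ENNReal.ofReal_ne_top]
    refine lintegral_congr fun θ₁ => ?_
    rw [← mul_assoc, ← ENNReal.ofReal_mul (by positivity)]
    congr 2
    ring
  · rw [indicator_of_notMem (by simpa using hρ1)]
    have e1 : ∫⁻ s in Ioi (0 : ℝ), ∫⁻ θ₁, ENNReal.ofReal (s * ρ) *
        T.indicator f (((s * ρ : ℝ) : ℂ) * Complex.exp (θ₁ * Complex.I),
          (ρ : ℂ) * Complex.exp (θ₂ * Complex.I)) ∂μΘ = ∫⁻ s in Ioi (0 : ℝ), 0 := by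
      refine setLIntegral_congr_fun measurableSet_Ioi fun s hs => ?_
      rw [lintegral_congr (g := fun _ => 0)]
      · simp
      · intro θ₁
        rw [hkey s θ₁ hs, if_neg (fun h => hρ1 h.2)]
    rw [e1]
    simp

instance : SFinite μI := by unfold μI; infer_instance
instance : SFinite μΘ := by unfold μΘ; infer_instance
instance : SFinite μQ := by unfold μQ; infer_instance

theorem main (f : ℂ × ℂ → ℝ≥0∞) (hf : Measurable f) :
    ∫⁻ z in T, f z = ∫⁻ x, ENNReal.ofReal (x.1.1 * x.1.2 ^ 3) * f (Pt x)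
      ∂(μQ.prod (μΘ.prod μΘ)) := by
  have hg : Measurable (T.indicator f) := hf.indicator measurableSet_T
  have hF : Measurable fun x : (ℝ × ℝ) × (ℝ × ℝ) =>
      ENNReal.ofReal (x.1.1 * x.1.2 ^ 3) * f (Pt x) :=
    (by fun_prop : Measurable fun x : (ℝ × ℝ) × (ℝ × ℝ) =>
      ENNReal.ofReal (x.1.1 * x.1.2 ^ 3)).mul (hf.comp measurable_Pt)
  -- left side
  have hL : ∫⁻ z in T, f z = ∫⁻ ρ, ∫⁻ θ₂, ∫⁻ s, ∫⁻ θ₁,
      ENNReal.ofReal (s * ρ ^ 3) * f (Pt ((s, ρ), (θ₁, θ₂))) ∂μΘ ∂μI ∂μΘ ∂μI := by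
    rw [← lintegral_indicator measurableSet_T, Measure.volume_eq_prod,
      lintegral_prod_symm' _ hg, polar1 _ hg.lintegral_prod_left']
    have e1 : ∀ ρ ∈ Ioi (0 : ℝ), ∫⁻ θ₂, ENNReal.ofReal ρ * (∫⁻ z₁, T.indicator f
        (z₁, (ρ : ℂ) * Complex.exp (θ₂ * Complex.I))) ∂μΘ =
        (Iio (1 : ℝ)).indicator (fun ρ : ℝ => ∫⁻ θ₂, ∫⁻ s, ∫⁻ θ₁,
          ENNReal.ofReal (s * ρ ^ 3) * f (Pt ((s, ρ), (θ₁, θ₂))) ∂μΘ ∂μI ∂μΘ) ρ := by
      intro ρ hρ
      have e2 : ∀ θ₂ : ℝ, ENNReal.ofReal ρ * (∫⁻ z₁, T.indicator f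
          (z₁, (ρ : ℂ) * Complex.exp (θ₂ * Complex.I))) = _ :=
        fun θ₂ => inner_eq f hf ρ θ₂ hρ
      rw [lintegral_congr e2]
      by_cases h1 : ρ < 1
      · simp only [indicator_of_mem (by exact h1 : ρ ∈ Iio (1 : ℝ))]
      · simp only [indicator_of_notMem (by simpa using h1 : ρ ∉ Iio (1 : ℝ)), lintegral_zero]
    rw [setLIntegral_congr_fun measurableSet_Ioi e1, lintegral_indicator measurableSet_Iio,
      Measure.restrict_restrict measurableSet_Iio, Iio_inter_Ioi]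
    rfl
  rw [hL, lintegral_prod _ hF.aemeasurable]
  unfold μQ
  rw [lintegral_prod_symm' _ (hF.lintegral_prod_right')]
  refine lintegral_congr fun ρ => ?_
  rw [lintegral_lintegral_swap]
  · refine lintegral_congr fun s => ?_
    have hFs : Measurable fun y : ℝ × ℝ =>
        ENNReal.ofReal (s * ρ ^ 3) * f (Pt ((s, ρ), y)) :=
      hF.comp (by fun_prop : Measurable fun y : ℝ × ℝ => ((s, ρ), y))
    rw [lintegral_prod_symm' _ hFs]
  · have hFs : Measurable fun y : (ℝ × ℝ) × ℝ =>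
        ENNReal.ofReal (y.1.2 * ρ ^ 3) * f (Pt ((y.1.2, ρ), (y.2, y.1.1))) :=
      hF.comp (by fun_prop : Measurable fun y : (ℝ × ℝ) × ℝ => ((y.1.2, ρ), (y.2, y.1.1)))
    exact hFs.lintegral_prod_right'.aemeasurable

end PolarAux

theorem taskPolar : TaskPolar := by
  unfold TaskPolar
  refine Measure.ext fun A hA => ?_
  have hden : Measurable fun x : (ℝ × ℝ) × (ℝ × ℝ) => ENNReal.ofReal (x.1.1 * x.1.2 ^ 3) := by
    fun_prop
  rw [Measure.map_apply PolarAux.measurable_Pt hA,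
    withDensity_apply _ (PolarAux.measurable_Pt hA), μT, Measure.restrict_apply hA]
  have h1 := PolarAux.main (A.indicator 1) (measurable_one.indicator hA)
  rw [lintegral_indicator_one hA, Measure.restrict_apply hA] at h1
  rw [h1, ← lintegral_indicator (PolarAux.measurable_Pt hA)]
  refine lintegral_congr fun x => ?_
  by_cases hx : Pt x ∈ A
  · rw [indicator_of_mem (by exact hx : x ∈ Pt ⁻¹' A), indicator_of_mem hx]
    simp
  · rw [indicator_of_notMem (by exact hx : x ∉ Pt ⁻¹' A), indicator_of_notMem hx]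
    simp

end Pool.Agent.H903HT
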