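import Pool.Agent.H903HT.Stmts

/-!
Task Pos of project H903-HT: for nu at least 1/2 the bounded sets of solutions of the weak equation
in the first variable are approximated by finite sums.
-/

set_option autoImplicit false

open MeasureTheory Filter Topology Set
open scoped ContDiff

namespace Pool.Agent.H903HT

namespace PosAux

instance instFinI : IsFiniteMeasure μI := by
  unfold μI; infer_instance

/-- the kernel `(s / t) ^ ν` for `0 < s < t` -/
noncomputable def kk (ν : ℝ) (s t : ℝ) : ℝ := if 0 < s ∧ s < t then (s / t) ^ ν else 0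

lemma kk_meas (ν : ℝ) : Measurable (fun p : ℝ × ℝ => kk ν p.1 p.2) := by
  unfold kk
  refine Measurable.ite ?_ ((measurable_fst.div measurable_snd).pow_const ν) measurable_const
  exact (measurableSet_lt measurable_const measurable_fst).inter
    (measurableSet_lt measurable_fst measurable_snd)

lemma kk_le (ν : ℝ) (hν : 0 ≤ ν) (s t : ℝ) : |kk ν s t| ≤ 1 := by
  unfold kk
  split_ifs with h
  · have ht : 0 < t := h.1.trans h.2
    rw [abs_of_nonneg (Real.rpow_nonneg (div_nonneg h.1.le ht.le) _)]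
    exact Real.rpow_le_one (div_nonneg h.1.le ht.le) ((div_le_one ht).2 h.2.le) hν
  · simp

lemma int_a (ν : ℝ) (hν : 0 ≤ ν) (g : ℝ → ℂ) (hg : Integrable g μI) (a : ℝ) (ha : 0 < a)
    (ha1 : a ≤ 1) :
    IntervalIntegrable (fun t => ((t ^ (-ν) : ℝ) : ℂ) * g t) volume a 1 := by
  rw [intervalIntegrable_iff_integrableOn_Ioo_of_le ha1]
  have h1 : Integrable g (volume.restrict (Ioo a 1)) := by
    have : IntegrableOn g (Ioo (0:ℝ) 1) volume := hg
    exact this.mono_set (Ioo_subset_Ioo_left ha.le)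
  refine h1.bdd_mul (c := a ^ (-ν)) ?_ ?_
  · have : Measurable fun t : ℝ => ((t ^ (-ν) : ℝ) : ℂ) :=
      Complex.measurable_ofReal.comp (measurable_id.pow_const _)
    exact this.aestronglyMeasurable
  · refine (ae_restrict_iff' measurableSet_Ioo).2 (Eventually.of_forall fun t ht => ?_)
    have ht0 : 0 < t := ha.trans ht.1
    rw [Complex.norm_real, Real.norm_eq_abs, abs_of_nonneg (Real.rpow_nonneg ht0.le _)]
    exact Real.rpow_le_rpow_of_nonpos ha ht.1.le (by linarith)

lemma key (ν : ℝ) (hν : 0 ≤ ν) (g : ℝ → ℂ) (hg : Integrable g μI) (s : ℝ)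
    (hs : s ∈ Ioo (0:ℝ) 1) :
    ((s ^ ν : ℝ) : ℂ) * ∫ t in (1/2 : ℝ)..s, ((t ^ (-ν) : ℝ) : ℂ) * g t =
      ((s ^ ν : ℝ) : ℂ) * (∫ t in (1/2 : ℝ)..1, ((t ^ (-ν) : ℝ) : ℂ) * g t) -
        ∫ t, ((kk ν s t : ℝ) : ℂ) * g t ∂μI := by
  have i1 := int_a ν hν g hg (1/2) (by norm_num) (by norm_num)
  have i2 := int_a ν hν g hg s hs.1 hs.2.le
  have h3 := intervalIntegral.integral_add_adjacent_intervals (i1.trans i2.symm) i2
  rw [← h3, mul_add, add_sub_assoc]
  have h4 : ((s ^ ν : ℝ) : ℂ) * ∫ t in s..1, ((t ^ (-ν) : ℝ) : ℂ) * g t =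
      ∫ t, ((kk ν s t : ℝ) : ℂ) * g t ∂μI := by
    rw [intervalIntegral.integral_of_le hs.2.le, integral_Ioc_eq_integral_Ioo,
      ← integral_const_mul]
    have h5 : Ioo s 1 = Ioo (0:ℝ) 1 ∩ Ioi s := by
      ext t
      simp only [mem_Ioo, mem_inter_iff, mem_Ioi]
      constructor
      · rintro ⟨h, h'⟩
        exact ⟨⟨hs.1.trans h, h'⟩, h⟩
      · rintro ⟨⟨_, h'⟩, h⟩
        exact ⟨h, h'⟩
    rw [h5, ← setIntegral_indicator measurableSet_Ioi]
    unfold μI
    refine setIntegral_congr_fun measurableSet_Ioo fun t ht => ?_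
    by_cases hst : s < t
    · simp only [indicator_of_mem (mem_Ioi.2 hst), kk, if_pos (And.intro hs.1 hst)]
      rw [Real.div_rpow hs.1.le ht.1.le, Real.rpow_neg ht.1.le]
      push_cast
      rw [div_eq_mul_inv]
      ring
    · have hn : t ∉ Ioi s := hst
      simp only [indicator_of_notMem hn, kk, if_neg (fun h : 0 < s ∧ s < t => hst h.2)]
      simp
  rw [h4]
  ring

/-- the integral operator -/
noncomputable def KK (ν : ℝ) (h : ℝ × ℝ → ℂ) (x : ℝ × ℝ) : ℂ :=
  ∫ t, ((kk ν x.1 t : ℝ) : ℂ) * h (t, x.2) ∂μI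

lemma KK_aesm (ν : ℝ) (h : ℝ × ℝ → ℂ) (hh : AEStronglyMeasurable h μQ) :
    AEStronglyMeasurable (KK ν h) μQ := by
  unfold KK
  have h1 : AEStronglyMeasurable (fun y : (ℝ × ℝ) × ℝ => ((kk ν y.1.1 y.2 : ℝ) : ℂ) *
      h (y.2, y.1.2)) (μQ.prod μI) := by
    refine AEStronglyMeasurable.mul ?_ ?_
    · have : Measurable fun y : (ℝ × ℝ) × ℝ => ((kk ν y.1.1 y.2 : ℝ) : ℂ) :=
        Complex.measurable_ofReal.comp ((kk_meas ν).comp
          ((measurable_fst.comp measurable_fst).prodMk measurable_snd))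
      exact this.aestronglyMeasurable
    · unfold μQ at hh ⊢
      have h2 : AEStronglyMeasurable (h ∘ Prod.swap) (μI.prod μI) :=
        hh.comp_quasiMeasurePreserving
          (Measure.measurePreserving_swap (μ := μI) (ν := μI)).quasiMeasurePreserving
      have h3 := h2.comp_quasiMeasurePreserving
        (Measure.quasiMeasurePreserving_snd (μ := μI) (ν := μI.prod μI))
      exact h3.comp_quasiMeasurePreserving
        (measurePreserving_prodAssoc μI μI μI).quasiMeasurePreserving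
  exact h1.integral_prod_right'

lemma sections {h : ℝ × ℝ → ℂ} (hh : MemLp h 2 μQ) :
    ∀ᵐ s ∂μI, MemLp (fun r => h (s, r)) 2 μI := by
  have h1 := (memLp_two_iff_integrable_sq_norm hh.1).1 hh
  have hh1 := hh.1
  unfold μQ at h1 hh1
  filter_upwards [h1.prod_right_ae, hh1.prodMk_left] with s h2 h3
  exact (memLp_two_iff_integrable_sq_norm h3).2 h2

lemma sections' {h : ℝ × ℝ → ℂ} (hh : MemLp h 2 μQ) :
    ∀ᵐ r ∂μI, Integrable (fun t => h (t, r)) μI := by
  have hh' : MemLp (h ∘ Prod.swap) 2 μQ := by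
    unfold μQ at hh ⊢
    exact hh.comp_measurePreserving Measure.measurePreserving_swap
  filter_upwards [sections hh'] with r hr
  exact hr.integrable one_le_two

lemma mul_prod {p a : ℝ → ℂ} (hp : MemLp p 2 μI) (ha : MemLp a 2 μI) :
    MemLp (fun x : ℝ × ℝ => p x.1 * a x.2) 2 μQ := by
  have hm : AEStronglyMeasurable (fun x : ℝ × ℝ => p x.1 * a x.2) μQ := by
    unfold μQ
    exact (hp.1.comp_fst).mul ha.1.comp_snd
  rw [memLp_two_iff_integrable_sq_norm hm]
  have h1 := (memLp_two_iff_integrable_sq_norm hp.1).1 hp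
  have h2 := (memLp_two_iff_integrable_sq_norm ha.1).1 ha
  have h3 := h1.mul_prod h2
  unfold μQ
  refine h3.congr (Eventually.of_forall fun x => ?_)
  simp only [norm_mul, mul_pow]

end PosAux

open PosAux

theorem taskPos : TaskPos := by
  intro hInt hHS ν hν C hC ε hε
  have hν0 : 0 ≤ ν := by linarith
  obtain ⟨N, p, hp, hS⟩ := hHS (kk ν) (kk_meas ν) (kk_le ν hν0) C hC ε hε
  have hsν : MemLp (fun s : ℝ => ((s ^ ν : ℝ) : ℂ)) 2 μI := by
    refine MemLp.of_bound (C := 1) ?_ ?_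
    · have : Measurable fun t : ℝ => ((t ^ ν : ℝ) : ℂ) :=
        Complex.measurable_ofReal.comp (measurable_id.pow_const _)
      exact this.aestronglyMeasurable
    · unfold μI
      refine (ae_restrict_iff' measurableSet_Ioo).2 (Eventually.of_forall fun t ht => ?_)
      rw [Complex.norm_real, Real.norm_eq_abs, abs_of_nonneg (Real.rpow_nonneg ht.1.le _)]
      exact Real.rpow_le_one ht.1.le ht.2.le hν0
  refine ⟨N + 1, Fin.cons (fun s : ℝ => ((s ^ ν : ℝ) : ℂ)) p, ?_, ?_⟩
  · intro i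
    refine Fin.cases ?_ (fun j => ?_) i
    · simpa using hsν
    · simpa using hp j
  rintro c ⟨h, hc, hh, hcC, hhC, hw⟩
  obtain ⟨e, -, he⟩ := hInt ν c h hc hh hw
  -- the kernel operator applied to `-h`
  have hhn : MemLp (fun x => -h x) 2 μQ := hh.neg
  have hhnC : eLpNorm (fun x => -h x) 2 μQ ≤ ENNReal.ofReal C := by
    have := eLpNorm_neg h 2 μQ
    change eLpNorm (-h) 2 μQ ≤ _
    rw [this]
    exact hhC
  obtain ⟨α, hα, hαe⟩ := hS (KK ν (fun x => -h x)) ⟨fun x => -h x, hhn, hhnC, rfl⟩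
  have hsum : MemLp (fun x : ℝ × ℝ => ∑ i, p i x.1 * α i x.2) 2 μQ := by
    have := memLp_finsetSum' (μ := μQ) (p := 2) Finset.univ
      (f := fun i (x : ℝ × ℝ) => p i x.1 * α i x.2) (fun i _ => mul_prod (hp i) (hα i))
    refine this.congr_norm ?_ ?_
    · refine (this.1).congr (Eventually.of_forall fun x => ?_)
      simp
    · refine Eventually.of_forall fun x => ?_
      simp
  have hKK : MemLp (KK ν (fun x => -h x)) 2 μQ := by
    have h1 : MemLp (fun x : ℝ × ℝ => KK ν (fun x => -h x) x - ∑ i, p i x.1 * α i x.2) 2 μQ :=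
      ⟨(KK_aesm ν _ hhn.1).sub hsum.1, hαe.trans_lt ENNReal.ofReal_lt_top⟩
    refine (h1.add hsum).congr_norm (KK_aesm ν _ hhn.1) (Eventually.of_forall fun x => ?_)
    simp
  -- the decomposition
  set e1 : ℝ → ℂ := fun r => e r + ∫ t in (1/2 : ℝ)..1, ((t ^ (-ν) : ℝ) : ℂ) * h (t, r) with he1
  have hdec : ∀ᵐ x ∂μQ, c x = ((x.1 ^ ν : ℝ) : ℂ) * e1 x.2 + KK ν (fun x => -h x) x := by
    have hx1 : ∀ᵐ x ∂μQ, x.1 ∈ Ioo (0:ℝ) 1 := by
      have h0 : ∀ᵐ s ∂μI, s ∈ Ioo (0:ℝ) 1 := ae_restrict_mem measurableSet_Ioo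
      unfold μQ
      exact Measure.quasiMeasurePreserving_fst.ae h0
    have hx2 : ∀ᵐ x ∂μQ, Integrable (fun t => h (t, x.2)) μI := by
      have h0 := sections' hh
      unfold μQ
      exact Measure.quasiMeasurePreserving_snd.ae h0
    filter_upwards [he, hx1, hx2] with x h1 h2 h3
    rw [h1, mul_add, key ν hν0 _ h3 x.1 h2, he1]
    have h4 : KK ν (fun x => -h x) x = -∫ t, ((kk ν x.1 t : ℝ) : ℂ) * h (t, x.2) ∂μI := by
      unfold KK
      rw [← integral_neg]
      congr 1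
      funext t
      ring
    rw [h4]
    ring
  have he1L : MemLp e1 2 μI := by
    have hG : MemLp (fun x => c x - KK ν (fun x => -h x) x) 2 μQ := hc.sub hKK
    have h1 := sections hG
    have h2 : ∀ᵐ s ∂μI, ∀ᵐ r ∂μI, c (s, r) = ((s ^ ν : ℝ) : ℂ) * e1 r +
        KK ν (fun x => -h x) (s, r) := by
      have hdec' := hdec
      unfold μQ at hdec'
      exact Measure.ae_ae_of_ae_prod hdec'
    have h3 : ∀ᵐ s ∂μI, s ∈ Ioo (0:ℝ) 1 := ae_restrict_mem measurableSet_Ioo
    have hne : NeBot (ae μI) := by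
      rw [ae_neBot]
      unfold μI
      intro h0
      have := congrArg (fun m : Measure ℝ => m univ) h0
      simp at this
    obtain ⟨s, hs1, hs2, hs3⟩ := (h1.and (h2.and h3)).exists
    have hs0 : ((s ^ ν : ℝ) : ℂ) ≠ 0 := by
      exact_mod_cast (Real.rpow_pos_of_pos hs3.1 ν).ne'
    have h5 := hs1.const_mul (((s ^ ν : ℝ) : ℂ)⁻¹)
    refine (memLp_congr_ae ?_).1 h5
    filter_upwards [hs2] with r hr
    simp only [hr]
    field_simp
    ring
  refine ⟨Fin.cons e1 α, ?_, ?_⟩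
  · intro i
    refine Fin.cases ?_ (fun j => ?_) i
    · simpa using he1L
    · simpa using hα j
  · refine le_trans (le_of_eq ?_) hαe
    refine eLpNorm_congr_ae ?_
    filter_upwards [hdec] with x hx
    rw [Fin.sum_univ_succ]
    simp only [Fin.cons_zero, Fin.cons_succ]
    rw [hx]
    ring

end Pool.Agent.H903HT
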