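import Pool.Agent.H903HT.Stmts

/-!
Task TB of project H903-HT: a bounded set of functions on the square which is approximated by finite
sums `p_i(s) α_i(ρ)` and by finite sums `α_i(s) q_i(ρ)` is totally bounded.
-/

set_option autoImplicit false

open MeasureTheory Filter Topology Set
open scoped ContDiff InnerProductSpace

namespace Pool.Agent.H903HT

namespace TBaux

instance : SigmaFinite μI := by unfold μI; infer_instance
instance : SFinite μI := inferInstance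

/-- a bounded set which is close to finite dimensional subspaces is totally bounded -/
lemma tb_of_fd {X : Type*} [NormedAddCommGroup X] [NormedSpace ℂ X] (S : Set X) (C : ℝ)
    (hS : ∀ c ∈ S, ‖c‖ ≤ C)
    (h : ∀ ε > 0, ∃ V : Submodule ℂ X, FiniteDimensional ℂ V ∧ ∀ c ∈ S, ∃ v ∈ V, ‖c - v‖ ≤ ε) :
    TotallyBounded S := by
  rw [Metric.totallyBounded_iff]
  intro ε hε
  obtain ⟨V, hV, hV2⟩ := h (ε / 3) (by positivity)
  have hp : ProperSpace V := FiniteDimensional.proper ℂ V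
  have hK : IsCompact ((fun v : V => (v : X)) '' Metric.closedBall (0 : V) (C + ε / 3)) :=
    (isCompact_closedBall _ _).image continuous_subtype_val
  obtain ⟨t, ht, htK⟩ := Metric.totallyBounded_iff.1 hK.totallyBounded (ε / 3) (by positivity)
  refine ⟨t, ht, ?_⟩
  intro c hc
  obtain ⟨v, hv, hcv⟩ := hV2 c hc
  have h1 : ‖v‖ ≤ C + ε / 3 := by
    calc ‖v‖ = ‖c - (c - v)‖ := by rw [sub_sub_cancel]
      _ ≤ ‖c‖ + ‖c - v‖ := norm_sub_le _ _
      _ ≤ C + ε / 3 := add_le_add (hS c hc) hcv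
  have h2 : v ∈ (fun v : V => (v : X)) '' Metric.closedBall (0 : V) (C + ε / 3) := by
    refine ⟨⟨v, hv⟩, ?_, rfl⟩
    rw [mem_closedBall_zero_iff]
    exact h1
  obtain ⟨y, hy, hvy⟩ := mem_iUnion₂.1 (htK h2)
  refine mem_iUnion₂.2 ⟨y, hy, ?_⟩
  rw [Metric.mem_ball] at hvy ⊢
  rw [dist_eq_norm] at hvy ⊢
  calc ‖c - y‖ = ‖(c - v) + (v - y)‖ := by rw [sub_add_sub_cancel]
    _ ≤ ‖c - v‖ + ‖v - y‖ := norm_add_le _ _
    _ < ε := by linarith

lemma ae_fst {f g : ℝ → ℂ} (h : f =ᵐ[μI] g) :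
    (fun x : ℝ × ℝ => f x.1) =ᵐ[μQ] fun x => g x.1 :=
  Measure.quasiMeasurePreserving_fst.ae_eq_comp h

lemma ae_snd {f g : ℝ → ℂ} (h : f =ᵐ[μI] g) :
    (fun x : ℝ × ℝ => f x.2) =ᵐ[μQ] fun x => g x.2 :=
  Measure.quasiMeasurePreserving_snd.ae_eq_comp h

lemma memLp_tens {p α : ℝ → ℂ} (hp : MemLp p 2 μI) (hα : MemLp α 2 μI) :
    MemLp (fun x : ℝ × ℝ => p x.1 * α x.2) 2 μQ := by
  have hm : AEStronglyMeasurable (fun x : ℝ × ℝ => p x.1 * α x.2) (μI.prod μI) :=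
    hp.1.comp_fst.mul hα.1.comp_snd
  have h1 : Integrable (fun x : ℝ × ℝ => ‖p x.1‖ ^ 2 * ‖α x.2‖ ^ 2) (μI.prod μI) :=
    ((memLp_two_iff_integrable_sq_norm hp.1).1 hp).mul_prod
      ((memLp_two_iff_integrable_sq_norm hα.1).1 hα)
  unfold μQ
  rw [memLp_two_iff_integrable_sq_norm hm]
  refine h1.congr (ae_of_all _ fun x => ?_)
  simp only [norm_mul, mul_pow]

/-- `p(s) α(ρ)` -/
noncomputable def tens (p α : Lp ℂ 2 μI) : Lp ℂ 2 μQ :=
  (memLp_tens (Lp.memLp p) (Lp.memLp α)).toLp _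

lemma tens_coe (p α : Lp ℂ 2 μI) : tens p α =ᵐ[μQ] fun x => p x.1 * α x.2 := MemLp.coeFn_toLp _

lemma tens_add_left (p p' α : Lp ℂ 2 μI) : tens (p + p') α = tens p α + tens p' α := by
  apply Lp.ext
  filter_upwards [tens_coe (p + p') α, tens_coe p α, tens_coe p' α,
    Lp.coeFn_add (tens p α) (tens p' α), ae_fst (Lp.coeFn_add p p')] with x h1 h2 h3 h4 h5
  rw [h1, h4, Pi.add_apply, h2, h3, h5, Pi.add_apply, add_mul]

lemma tens_add_right (p α α' : Lp ℂ 2 μI) : tens p (α + α') = tens p α + tens p α' := by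
  apply Lp.ext
  filter_upwards [tens_coe p (α + α'), tens_coe p α, tens_coe p α',
    Lp.coeFn_add (tens p α) (tens p α'), ae_snd (Lp.coeFn_add α α')] with x h1 h2 h3 h4 h5
  rw [h1, h4, Pi.add_apply, h2, h3, h5, Pi.add_apply, mul_add]

lemma tens_smul_left (a : ℂ) (p α : Lp ℂ 2 μI) : tens (a • p) α = a • tens p α := by
  apply Lp.ext
  filter_upwards [tens_coe (a • p) α, tens_coe p α, Lp.coeFn_smul a (tens p α),
    ae_fst (Lp.coeFn_smul a p)] with x h1 h2 h4 h5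
  rw [h1, h4, Pi.smul_apply, h2, h5, Pi.smul_apply, smul_eq_mul, smul_eq_mul, mul_assoc]

lemma tens_smul_right (a : ℂ) (p α : Lp ℂ 2 μI) : tens p (a • α) = a • tens p α := by
  apply Lp.ext
  filter_upwards [tens_coe p (a • α), tens_coe p α, Lp.coeFn_smul a (tens p α),
    ae_snd (Lp.coeFn_smul a α)] with x h1 h2 h4 h5
  rw [h1, h4, Pi.smul_apply, h2, h5, Pi.smul_apply, smul_eq_mul, smul_eq_mul]
  ring

lemma inner_tens (p α β q : Lp ℂ 2 μI) :
    inner ℂ (tens p α) (tens β q) = inner ℂ p β * inner ℂ α q := by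
  rw [L2.inner_def, L2.inner_def, L2.inner_def]
  have h1 : ∫ x, inner ℂ (tens p α x) (tens β q x) ∂μQ =
      ∫ x : ℝ × ℝ, inner ℂ (p x.1) (β x.1) * inner ℂ (α x.2) (q x.2) ∂μQ := by
    apply integral_congr_ae
    filter_upwards [tens_coe p α, tens_coe β q] with x h1 h2
    rw [h1, h2]
    simp only [RCLike.inner_apply, map_mul]
    ring
  rw [h1]
  exact integral_prod_mul (μ := μI) (ν := μI) (fun s => inner ℂ (p s) (β s))
    (fun t => inner ℂ (α t) (q t))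

/-- the bilinear map -/
noncomputable def B : Lp ℂ 2 μI →ₗ[ℂ] Lp ℂ 2 μI →ₗ[ℂ] Lp ℂ 2 μQ :=
  LinearMap.mk₂ ℂ tens tens_add_left tens_smul_left tens_add_right tens_smul_right

lemma B_apply (p α : Lp ℂ 2 μI) : B p α = tens p α := rfl

lemma norm_tens (p α : Lp ℂ 2 μI) : ‖tens p α‖ = ‖p‖ * ‖α‖ := by
  have h1 : ‖tens p α‖ ^ 2 = (‖p‖ * ‖α‖) ^ 2 := by
    have h2 := inner_tens p α p α
    rw [inner_self_eq_norm_sq_to_K, inner_self_eq_norm_sq_to_K, inner_self_eq_norm_sq_to_K] at h2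
    rw [mul_pow]
    exact_mod_cast h2
  exact (pow_left_inj₀ (norm_nonneg _) (by positivity) two_ne_zero).1 h1

noncomputable def J (e : Lp ℂ 2 μI) : Lp ℂ 2 μI →L[ℂ] Lp ℂ 2 μQ :=
  (B e).mkContinuous ‖e‖ (fun α => (norm_tens e α).le)

lemma J_apply (e α : Lp ℂ 2 μI) : J e α = tens e α := rfl

lemma J_adj (e β q : Lp ℂ 2 μI) :
    ContinuousLinearMap.adjoint (J e) (tens β q) = (inner ℂ e β : ℂ) • q := by
  apply ext_inner_left ℂ
  intro v
  rw [ContinuousLinearMap.adjoint_inner_right, J_apply, inner_tens, inner_smul_right]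

lemma coeFn_sum' {ι : Type*} (s : Finset ι) (f : ι → Lp ℂ 2 μQ) :
    ⇑(∑ i ∈ s, f i) =ᵐ[μQ] fun x => ∑ i ∈ s, f i x := by
  classical
  induction s using Finset.induction_on with
  | empty =>
    simp only [Finset.sum_empty]
    exact Lp.coeFn_zero _ _ _
  | insert a s ha ih =>
    rw [Finset.sum_insert ha]
    filter_upwards [Lp.coeFn_add (f a) (∑ i ∈ s, f i), ih] with x h1 h2
    rw [h1, Pi.add_apply, h2, Finset.sum_insert ha]

lemma norm_sub_le_of {c w : Lp ℂ 2 μQ} {f : ℝ × ℝ → ℂ} (hw : w =ᵐ[μQ] f) {ε : ℝ} (hε : 0 ≤ ε)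
    (h : eLpNorm (fun x : ℝ × ℝ => c x - f x) 2 μQ ≤ ENNReal.ofReal ε) : ‖c - w‖ ≤ ε := by
  rw [Lp.norm_def]
  apply ENNReal.toReal_le_of_le_ofReal hε
  refine le_trans (le_of_eq ?_) h
  apply eLpNorm_congr_ae
  filter_upwards [Lp.coeFn_sub c w, hw] with x h1 h2
  rw [h1, Pi.sub_apply, h2]

end TBaux

open TBaux

theorem taskTB : TaskTB := by
  intro S C hC hA1 hA2
  apply tb_of_fd S C hC
  intro ε hε
  obtain ⟨N, p, hp, h1⟩ := hA1 (ε / 3) (by positivity)
  obtain ⟨M, q, hq, h2⟩ := hA2 (ε / 3) (by positivity)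
  let P1 : Fin N → Lp ℂ 2 μI := fun i => (hp i).toLp (p i)
  let Q1 : Fin M → Lp ℂ 2 μI := fun i => (hq i).toLp (q i)
  let A : Submodule ℂ (Lp ℂ 2 μI) := Submodule.span ℂ (Set.range P1)
  have hfd : FiniteDimensional ℂ A := FiniteDimensional.span_of_finite ℂ (Set.finite_range P1)
  let b := stdOrthonormalBasis ℂ A
  let e : Fin (Module.finrank ℂ A) → Lp ℂ 2 μI := fun k => (b k : Lp ℂ 2 μI)
  have he : ∀ k l, inner ℂ (e k) (e l) = if k = l then (1 : ℂ) else 0 := by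
    intro k l
    have := orthonormal_iff_ite.1 b.orthonormal k l
    rwa [Submodule.coe_inner] at this
  have hes : ∀ i, ∑ k, (inner ℂ (e k) (P1 i) : ℂ) • e k = P1 i := by
    intro i
    have hi : P1 i ∈ A := Submodule.subset_span ⟨i, rfl⟩
    have h3 := b.sum_repr' ⟨P1 i, hi⟩
    have h4 := congrArg (fun x : A => (x : Lp ℂ 2 μI)) h3
    simp only [Submodule.coe_sum, Submodule.coe_smul, Submodule.coe_inner] at h4
    exact h4
  let P : Lp ℂ 2 μQ →L[ℂ] Lp ℂ 2 μQ := ∑ k, J (e k) ∘L ContinuousLinearMap.adjoint (J (e k))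
  have hP : ∀ x, P x = ∑ k, J (e k) (ContinuousLinearMap.adjoint (J (e k)) x) := by
    intro x
    simp only [P, ContinuousLinearMap.sum_apply, ContinuousLinearMap.comp_apply]
  have hJJ : ∀ k l (α : Lp ℂ 2 μI), ContinuousLinearMap.adjoint (J (e k)) (J (e l) α) =
      (if k = l then (1 : ℂ) else 0) • α := by
    intro k l α
    rw [J_apply, J_adj, he]
  have hJP : ∀ k x, ContinuousLinearMap.adjoint (J (e k)) (P x) =
      ContinuousLinearMap.adjoint (J (e k)) x := by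
    intro k x
    rw [hP, map_sum]
    simp only [hJJ, ite_smul, one_smul, zero_smul, Finset.sum_ite_eq, Finset.mem_univ, if_true]
  have hPn : ∀ x, ‖P x‖ ≤ ‖x‖ := by
    intro x
    have h3 : inner ℂ (P x) (P x) = inner ℂ (P x) x := by
      have h4 : ∀ y, inner ℂ (P x) y = ∑ k, inner ℂ (ContinuousLinearMap.adjoint (J (e k)) x)
          (ContinuousLinearMap.adjoint (J (e k)) y) := by
        intro y
        rw [hP, sum_inner]
        apply Finset.sum_congr rfl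
        intro k _
        rw [ContinuousLinearMap.adjoint_inner_right]
      rw [h4, h4]
      simp only [hJP]
    have h5 : ‖P x‖ ^ 2 ≤ ‖P x‖ * ‖x‖ := by
      have h6 : ‖P x‖ ^ 2 = ‖(inner ℂ (P x) (P x) : ℂ)‖ := by
        rw [inner_self_eq_norm_sq_to_K]
        simp
      rw [h6, h3]
      exact norm_inner_le_norm _ _
    by_contra hcon
    push Not at hcon
    have h7 : 0 < ‖P x‖ := lt_of_le_of_lt (norm_nonneg _) hcon
    nlinarith
  have hPt : ∀ (β q : Lp ℂ 2 μI), P (tens β q) = ∑ k, (inner ℂ (e k) β : ℂ) • tens (e k) q := by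
    intro β q
    rw [hP]
    apply Finset.sum_congr rfl
    intro k _
    rw [J_adj, map_smul, J_apply]
  let V : Submodule ℂ (Lp ℂ 2 μQ) := Submodule.span ℂ
    (Set.range fun kj : Fin (Module.finrank ℂ A) × Fin M => tens (e kj.1) (Q1 kj.2))
  refine ⟨V, FiniteDimensional.span_of_finite ℂ (Set.finite_range _), ?_⟩
  intro c hc
  obtain ⟨α, hα, h3⟩ := h1 _ ⟨c, hc, rfl⟩
  obtain ⟨β, hβ, h4⟩ := h2 _ ⟨c, hc, rfl⟩
  let α1 : Fin N → Lp ℂ 2 μI := fun i => (hα i).toLp (α i)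
  let β1 : Fin M → Lp ℂ 2 μI := fun i => (hβ i).toLp (β i)
  let w1 : Lp ℂ 2 μQ := ∑ i, tens (P1 i) (α1 i)
  let w2 : Lp ℂ 2 μQ := ∑ i, tens (β1 i) (Q1 i)
  have hw1 : w1 =ᵐ[μQ] fun x => ∑ i, p i x.1 * α i x.2 := by
    have h5 : ∀ i, ∀ᵐ x ∂μQ, tens (P1 i) (α1 i) x = p i x.1 * α i x.2 := by
      intro i
      filter_upwards [tens_coe (P1 i) (α1 i), ae_fst (hp i).coeFn_toLp,
        ae_snd (hα i).coeFn_toLp] with x g1 g2 g3
      rw [g1, ← g2, ← g3]
    filter_upwards [coeFn_sum' Finset.univ fun i => tens (P1 i) (α1 i), ae_all_iff.2 h5]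
      with x g1 g2
    rw [g1]
    exact Finset.sum_congr rfl fun i _ => g2 i
  have hw2 : w2 =ᵐ[μQ] fun x => ∑ i, β i x.1 * q i x.2 := by
    have h5 : ∀ i, ∀ᵐ x ∂μQ, tens (β1 i) (Q1 i) x = β i x.1 * q i x.2 := by
      intro i
      filter_upwards [tens_coe (β1 i) (Q1 i), ae_fst (hβ i).coeFn_toLp,
        ae_snd (hq i).coeFn_toLp] with x g1 g2 g3
      rw [g1, ← g2, ← g3]
    filter_upwards [coeFn_sum' Finset.univ fun i => tens (β1 i) (Q1 i), ae_all_iff.2 h5]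
      with x g1 g2
    rw [g1]
    exact Finset.sum_congr rfl fun i _ => g2 i
  have d1 : ‖c - w1‖ ≤ ε / 3 := norm_sub_le_of hw1 (by positivity) h3
  have d2 : ‖c - w2‖ ≤ ε / 3 := norm_sub_le_of hw2 (by positivity) h4
  have hPw1 : P w1 = w1 := by
    simp only [w1, map_sum]
    apply Finset.sum_congr rfl
    intro i _
    rw [hPt]
    have h5 : tens (∑ k, (inner ℂ (e k) (P1 i) : ℂ) • e k) (α1 i) =
        ∑ k, (inner ℂ (e k) (P1 i) : ℂ) • tens (e k) (α1 i) := by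
      rw [← B_apply, map_sum, LinearMap.sum_apply]
      apply Finset.sum_congr rfl
      intro k _
      rw [map_smul, LinearMap.smul_apply, B_apply]
    rw [← h5, hes]
  refine ⟨P w2, ?_, ?_⟩
  · simp only [w2, map_sum]
    apply Submodule.sum_mem
    intro j _
    rw [hPt]
    apply Submodule.sum_mem
    intro k _
    apply Submodule.smul_mem
    exact Submodule.subset_span ⟨(k, j), rfl⟩
  · have h5 : c - P w2 = (c - w1) + P (w1 - w2) := by
      rw [map_sub, hPw1]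
      abel
    have h6 : ‖w1 - w2‖ ≤ ε / 3 + ε / 3 := by
      have h7 : w1 - w2 = (c - w2) - (c - w1) := by abel
      rw [h7]
      exact (norm_sub_le _ _).trans (add_le_add d2 d1)
    calc ‖c - P w2‖ ≤ ‖c - w1‖ + ‖P (w1 - w2)‖ := by
          rw [h5]
          exact norm_add_le _ _
      _ ≤ ε / 3 + (ε / 3 + ε / 3) := add_le_add d1 ((hPn _).trans h6)
      _ = ε := by ring

end Pool.Agent.H903HT
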