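import Pool.Agent.H903HT.Stmts

set_option autoImplicit false

open MeasureTheory Filter Topology Set

namespace Pool.Agent.H903HT

section adj

variable {H0 H1 : Type} [NormedAddCommGroup H0] [InnerProductSpace ℂ H0]
  [NormedAddCommGroup H1] [InnerProductSpace ℂ H1]

/-- the adjoint graph as a submodule -/
def adjSub (Γ : Submodule ℂ (H0 × H1)) : Submodule ℂ (H1 × H0) where
  carrier := {p | ∀ q ∈ Γ, inner ℂ q.2 p.1 = inner ℂ q.1 p.2}
  zero_mem' := by
    intro q _
    simp
  add_mem' := by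
    intro a b ha hb q hq
    have h1 := ha q hq
    have h2 := hb q hq
    simp only [Prod.fst_add, Prod.snd_add, inner_add_right]
    rw [h1, h2]
  smul_mem' := by
    intro c a ha q hq
    have h1 := ha q hq
    simp only [Prod.smul_fst, Prod.smul_snd, inner_smul_right]
    rw [h1]

theorem mem_adjSub {Γ : Submodule ℂ (H0 × H1)} {p : H1 × H0} :
    p ∈ adjSub Γ ↔ ∀ q ∈ Γ, inner ℂ q.2 p.1 = inner ℂ q.1 p.2 := Iff.rfl

theorem isClosed_adjSub (Γ : Submodule ℂ (H0 × H1)) :
    IsClosed ((adjSub Γ : Submodule ℂ (H1 × H0)) : Set (H1 × H0)) := by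
  have : ((adjSub Γ : Submodule ℂ (H1 × H0)) : Set (H1 × H0)) =
      ⋂ q ∈ Γ, {p : H1 × H0 | inner ℂ q.2 p.1 = inner ℂ q.1 p.2} := by
    ext p
    simp only [SetLike.mem_coe, mem_adjSub, Set.mem_iInter, Set.mem_setOf_eq]
  rw [this]
  refine isClosed_iInter fun q => isClosed_iInter fun _ => ?_
  exact isClosed_eq (continuous_const.inner continuous_fst) (continuous_const.inner continuous_snd)

theorem adjSub_single {Γ : Submodule ℂ (H0 × H1)}
    (hd : Dense {u : H0 | ∃ f : H1, (u, f) ∈ Γ}) (v : H0) (hv : ((0 : H1), v) ∈ adjSub Γ) :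
    v = 0 := by
  have hcl : IsClosed {u : H0 | inner ℂ u v = 0} :=
    isClosed_eq (continuous_id.inner continuous_const) continuous_const
  have hsub : {u : H0 | ∃ f : H1, (u, f) ∈ Γ} ⊆ {u : H0 | inner ℂ u v = 0} := by
    rintro u ⟨f, hf⟩
    have h := hv (u, f) hf
    simp only [inner_zero_right] at h
    exact h.symm
  have huniv : ∀ u : H0, u ∈ {u : H0 | inner ℂ u v = 0} := by
    intro u
    have := closure_minimal hsub hcl (hd u)
    exact this
  have := huniv v
  exact inner_self_eq_zero.1 this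

end adj

section adj2

variable {H0 H1 : Type} [NormedAddCommGroup H0] [InnerProductSpace ℂ H0] [CompleteSpace H0]
  [NormedAddCommGroup H1] [InnerProductSpace ℂ H1] [CompleteSpace H1]

theorem adj_adjSub {Γ : Submodule ℂ (H0 × H1)} (hcl : IsClosed (Γ : Set (H0 × H1))) :
    (adjSub (adjSub Γ) : Set (H0 × H1)) = (Γ : Set (H0 × H1)) := by
  apply Set.Subset.antisymm
  · rintro ⟨u, f⟩ huf
    set K : Submodule ℂ (WithLp 2 (H0 × H1)) :=
      Γ.comap (WithLp.linearEquiv 2 ℂ (H0 × H1)).toLinearMap with hK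
    have hKcl : IsClosed (K : Set (WithLp 2 (H0 × H1))) := by
      have : (K : Set (WithLp 2 (H0 × H1))) =
          (WithLp.ofLp : WithLp 2 (H0 × H1) → H0 × H1) ⁻¹' (Γ : Set (H0 × H1)) := rfl
      rw [this]
      exact hcl.preimage (WithLp.prod_continuous_ofLp 2 H0 H1)
    have hKK : Kᗮᗮ = K := by
      rw [Submodule.orthogonal_orthogonal_eq_closure]
      exact hKcl.submodule_topologicalClosure_eq
    have hmem : (WithLp.toLp 2 (u, f) : WithLp 2 (H0 × H1)) ∈ Kᗮᗮ := by
      rw [Submodule.mem_orthogonal]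
      intro w hw
      rw [Submodule.mem_orthogonal] at hw
      have hadj : (w.ofLp.2, -w.ofLp.1) ∈ adjSub Γ := by
        intro q hq
        have h := hw (WithLp.toLp 2 q) hq
        rw [WithLp.prod_inner_apply] at h
        simp only [inner_neg_right]
        have h' : inner ℂ q.1 w.ofLp.1 + inner ℂ q.2 w.ofLp.2 = (0 : ℂ) := h
        linear_combination h'
      have h2 := huf _ hadj
      simp only [inner_neg_left] at h2
      rw [WithLp.prod_inner_apply]
      show inner ℂ w.ofLp.1 u + inner ℂ w.ofLp.2 f = 0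
      linear_combination -h2
    rw [hKK] at hmem
    exact hmem
  · intro q hq p hp
    have h := hp q hq
    have h' := congrArg (starRingEnd ℂ) h
    rw [inner_conj_symm, inner_conj_symm] at h'
    exact h'.symm

theorem adjSub_dense {Γ : Submodule ℂ (H0 × H1)} (hΓ : ClosedOp Γ) :
    Dense {f : H1 | ∃ v : H0, (f, v) ∈ adjSub Γ} := by
  set D : Submodule ℂ H1 := (adjSub Γ).map (LinearMap.fst ℂ H1 H0) with hD
  have hDset : (D : Set H1) = {f : H1 | ∃ v : H0, (f, v) ∈ adjSub Γ} := by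
    ext f
    constructor
    · rintro ⟨⟨f', v⟩, hp, rfl⟩
      exact ⟨v, hp⟩
    · rintro ⟨v, hv⟩
      exact ⟨(f, v), hv, rfl⟩
  rw [← hDset]
  rw [Submodule.dense_iff_topologicalClosure_eq_top, Submodule.topologicalClosure_eq_top_iff]
  rw [Submodule.eq_bot_iff]
  intro f0 hf0
  rw [Submodule.mem_orthogonal] at hf0
  have hmem : ((0 : H0), f0) ∈ adjSub (adjSub Γ) := by
    intro p hp
    have h1 : inner ℂ p.1 f0 = (0 : ℂ) := by
      apply hf0
      rw [← SetLike.mem_coe, hDset]
      exact ⟨p.2, hp⟩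
    simp only [inner_zero_right]
    exact h1.symm
  have hmem' : ((0 : H0), f0) ∈ (Γ : Set (H0 × H1)) := by
    rw [← adj_adjSub hΓ.closed]
    exact hmem
  exact hΓ.single f0 hmem'

end adj2

theorem taskAdj : TaskAdj := by
  intro H0 H1 _ _ _ _ _ _ Γ hΓ
  refine ⟨adjSub Γ, rfl, ⟨isClosed_adjSub Γ, ?_, adjSub_dense hΓ⟩, ?_⟩
  · intro v hv
    exact adjSub_single hΓ.dense v hv
  · exact adj_adjSub hΓ.closed

end Pool.Agent.H903HT
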