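import Pool.Agent.H903HT.Stmts

set_option autoImplicit false

open MeasureTheory Filter Topology Set
open scoped ContDiff

namespace Pool.Agent.H903HT

namespace Closed0

theorem isOpen_T : IsOpen T :=
  (isOpen_lt (continuous_fst.norm) (continuous_snd.norm)).inter
    (isOpen_lt (continuous_snd.norm) continuous_const)

theorem T_sub : T ⊆ Metric.ball (0 : ℂ × ℂ) 1 := by
  intro z hz
  rw [mem_ball_zero_iff, Prod.norm_def]
  exact max_lt (hz.1.trans hz.2) hz.2

theorem volume_T_lt_top : volume T < ⊤ :=
  (measure_mono T_sub).trans_lt measure_ball_lt_top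

instance : IsFiniteMeasure μT := ⟨by
  unfold μT
  rw [Measure.restrict_apply_univ]
  exact volume_T_lt_top⟩

/-- pairing with a continuous compactly supported function is an inner product -/
theorem exists_pair (φ : ℂ × ℂ → ℂ) (hc : Continuous φ) (hs : HasCompactSupport φ) :
    ∃ g : L2, ∀ u : L2, ∫ z, u z * φ z ∂μT = inner ℂ g u := by
  have hc' : Continuous (fun z => (starRingEnd ℂ) (φ z)) := by fun_prop
  have hs' : HasCompactSupport (fun z => (starRingEnd ℂ) (φ z)) :=
    hs.comp_left (g := fun w => (starRingEnd ℂ) w) (by simp)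
  have hm : MemLp (fun z => (starRingEnd ℂ) (φ z)) 2 μT :=
    hc'.memLp_of_hasCompactSupport hs'
  refine ⟨hm.toLp _, fun u => ?_⟩
  rw [L2.inner_def]
  apply integral_congr_ae
  filter_upwards [hm.coeFn_toLp] with z hz
  rw [hz]
  simp [RCLike.inner_apply]

theorem continuous_dbar (v w : ℂ × ℂ) {φ : ℂ × ℂ → ℂ} (h : ContDiff ℝ ∞ φ) :
    Continuous fun z => (fderiv ℝ φ z v + Complex.I * fderiv ℝ φ z w) / 2 := by
  have h1 : Continuous (fderiv ℝ φ) := h.continuous_fderiv (by simp)
  fun_prop

theorem support_dbar (v w : ℂ × ℂ) {φ : ℂ × ℂ → ℂ} (h : HasCompactSupport φ) :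
    HasCompactSupport fun z => (fderiv ℝ φ z v + Complex.I * fderiv ℝ φ z w) / 2 :=
  (h.fderiv (𝕜 := ℝ)).comp_left (g := fun A : (ℂ × ℂ) →L[ℝ] ℂ => (A v + Complex.I * A w) / 2)
    (by simp)

theorem pair_dbar1 (φ : ℂ × ℂ → ℂ) (h : Test φ) :
    ∃ g : L2, ∀ u : L2, ∫ z, u z * dbar1 φ z ∂μT = inner ℂ g u :=
  exists_pair _ (continuous_dbar _ _ h.1) (support_dbar _ _ h.2.1)

theorem pair_dbar2 (φ : ℂ × ℂ → ℂ) (h : Test φ) :
    ∃ g : L2, ∀ u : L2, ∫ z, u z * dbar2 φ z ∂μT = inner ℂ g u :=
  exists_pair _ (continuous_dbar _ _ h.1) (support_dbar _ _ h.2.1)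

theorem pair_self (φ : ℂ × ℂ → ℂ) (h : Test φ) :
    ∃ g : L2, ∀ u : L2, ∫ z, u z * φ z ∂μT = inner ℂ g u :=
  exists_pair _ h.1.continuous h.2.1

/-- a function whose pairings with all test functions vanish is zero a.e. -/
theorem ae_zero (F : ℂ × ℂ → ℂ) (hi : Integrable F (volume.restrict T))
    (h : ∀ φ, Test φ → ∫ z, F z * φ z ∂(volume.restrict T) = 0) :
    F =ᵐ[volume.restrict T] 0 := by
  have hi' : IntegrableOn F T volume := hi
  have key := isOpen_T.ae_eq_zero_of_integral_contDiff_smul_eq_zero (μ := volume)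
    (f := F) hi'.locallyIntegrableOn ?_
  · rw [Filter.EventuallyEq, ae_restrict_iff' isOpen_T.measurableSet]
    filter_upwards [key] with x hx hxT
    exact hx hxT
  · intro g hg hgs hgT
    have hT : Test (fun z => ((g z : ℝ) : ℂ)) := by
      refine ⟨Complex.ofRealCLM.contDiff.comp hg, ?_, ?_⟩
      · exact hgs.comp_left (g := fun x : ℝ => (x : ℂ)) (by simp)
      · refine (closure_mono ?_).trans hgT
        intro z hz
        simp only [Function.mem_support, ne_eq, Complex.ofReal_eq_zero] at hz ⊢
        exact hz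
    have h1 := h _ hT
    have h2 : ∫ z, F z * ((g z : ℝ) : ℂ) ∂(volume.restrict T) = ∫ z, g z • F z ∂volume := by
      rw [← setIntegral_eq_integral_of_forall_compl_eq_zero (s := T) (μ := volume)
        (f := fun z => g z • F z)]
      · apply integral_congr_ae
        filter_upwards with z
        simp only [Complex.real_smul]
        rw [mul_comm]
      · intro z hz
        have : g z = 0 := by
          by_contra hne
          exact hz (hgT (subset_tsupport _ hne))
        simp [this]
    rw [← h2]
    exact h1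

/-- a function whose pairings with all test functions vanish is zero -/
theorem eq_zero (f : L2) (h : ∀ φ, Test φ → ∫ z, f z * φ z ∂μT = 0) : f = 0 := by
  have hi : Integrable f μT := (Lp.memLp f).integrable (by norm_num)
  rw [Lp.eq_zero_iff_ae_eq_zero]
  exact ae_zero _ hi h

end Closed0

open Closed0 in
theorem taskClosed0 : TaskClosed0 := by
  classical
  choose! A1 hA1 using pair_dbar1
  choose! A2 hA2 using pair_dbar2
  choose! B hB using pair_self
  have key : ∀ u : L2, ∀ f : L21, DbarFun u f ↔
      (∀ φ, Test φ → inner ℂ (A1 φ) u = -inner ℂ (B φ) f.fst) ∧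
      (∀ φ, Test φ → inner ℂ (A2 φ) u = -inner ℂ (B φ) f.snd) := by
    intro u f
    unfold DbarFun
    refine and_congr ?_ ?_
    · refine forall_congr' fun φ => forall_congr' fun hφ => ?_
      rw [hA1 φ hφ u, hB φ hφ f.fst]
    · refine forall_congr' fun φ => forall_congr' fun hφ => ?_
      rw [hA2 φ hφ u, hB φ hφ f.snd]
  let Γ : Submodule ℂ (L2 × L21) :=
    { carrier := {p | DbarFun p.1 p.2}
      zero_mem' := by
        rw [mem_ofPred, key]
        constructor <;> intro φ _ <;> simp
      add_mem' := by
        intro p q hp hq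
        rw [mem_ofPred, key] at hp hq ⊢
        constructor <;> intro φ hφ
        · simp only [Prod.fst_add, Prod.snd_add, WithLp.add_fst, inner_add_right]
          rw [hp.1 φ hφ, hq.1 φ hφ]
          ring
        · simp only [Prod.fst_add, Prod.snd_add, WithLp.add_snd, inner_add_right]
          rw [hp.2 φ hφ, hq.2 φ hφ]
          ring
      smul_mem' := by
        intro c p hp
        rw [mem_ofPred, key] at hp ⊢
        constructor <;> intro φ hφ
        · simp only [Prod.smul_fst, Prod.smul_snd, WithLp.smul_fst, inner_smul_right]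
          rw [hp.1 φ hφ]
          ring
        · simp only [Prod.smul_fst, Prod.smul_snd, WithLp.smul_snd, inner_smul_right]
          rw [hp.2 φ hφ]
          ring }
  refine ⟨Γ, rfl, ?_, ?_⟩
  · have cf : Continuous fun p : L2 × L21 => p.2.fst :=
      continuous_fst.comp ((WithLp.prod_continuous_ofLp 2 L2 L2).comp continuous_snd)
    have cs : Continuous fun p : L2 × L21 => p.2.snd :=
      continuous_snd.comp ((WithLp.prod_continuous_ofLp 2 L2 L2).comp continuous_snd)
    have hset : (Γ : Set (L2 × L21)) =
        (⋂ φ, ⋂ (_ : Test φ), {p : L2 × L21 | inner ℂ (A1 φ) p.1 = -inner ℂ (B φ) p.2.fst}) ∩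
        (⋂ φ, ⋂ (_ : Test φ), {p : L2 × L21 | inner ℂ (A2 φ) p.1 = -inner ℂ (B φ) p.2.snd}) := by
      ext p
      simp only [mem_inter_iff, mem_iInter]
      exact key p.1 p.2
    rw [hset]
    apply IsClosed.inter
    · refine isClosed_iInter fun φ => isClosed_iInter fun _ => ?_
      exact isClosed_eq (Continuous.inner continuous_const continuous_fst)
        (Continuous.inner continuous_const cf).neg
    · refine isClosed_iInter fun φ => isClosed_iInter fun _ => ?_
      exact isClosed_eq (Continuous.inner continuous_const continuous_fst)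
        (Continuous.inner continuous_const cs).neg
  · intro f hf
    have hf' : DbarFun 0 f := hf
    have h1 : f.fst = 0 := by
      apply Closed0.eq_zero
      intro φ hφ
      have := ((key 0 f).1 hf').1 φ hφ
      rw [inner_zero_right] at this
      rw [hB φ hφ]
      exact (neg_eq_zero.1 this.symm)
    have h2 : f.snd = 0 := by
      apply Closed0.eq_zero
      intro φ hφ
      have := ((key 0 f).1 hf').2 φ hφ
      rw [inner_zero_right] at this
      rw [hB φ hφ]
      exact (neg_eq_zero.1 this.symm)
    apply WithLp.ofLp_injective 2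
    exact Prod.ext h1 h2

end Pool.Agent.H903HT
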