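import Pool.Agent.H903HT.Stmts

set_option autoImplicit false

open MeasureTheory Filter Topology Set
open scoped ContDiff

namespace Pool.Agent.H903HT

namespace CplxAux

lemma hasFDerivAt_apply {φ : ℂ × ℂ → ℂ} (hφ : ContDiff ℝ ∞ φ) (z w : ℂ × ℂ) :
    HasFDerivAt (fun z => fderiv ℝ φ z w)
      ((ContinuousLinearMap.apply ℝ ℂ w).comp (fderiv ℝ (fderiv ℝ φ) z)) z := by
  have h1 : ContDiff ℝ ∞ (fderiv ℝ φ) := hφ.fderiv_right (m := ∞) le_rfl
  have h2 : HasFDerivAt (fderiv ℝ φ) (fderiv ℝ (fderiv ℝ φ) z) z :=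
    (h1.differentiable (by simp) z).hasFDerivAt
  exact (ContinuousLinearMap.apply ℝ ℂ w).hasFDerivAt.comp z h2

lemma symm2 {φ : ℂ × ℂ → ℂ} (hφ : ContDiff ℝ ∞ φ) (z v w : ℂ × ℂ) :
    fderiv ℝ (fderiv ℝ φ) z v w = fderiv ℝ (fderiv ℝ φ) z w v := by
  have h1 : ContDiff ℝ ∞ (fderiv ℝ φ) := hφ.fderiv_right (m := ∞) le_rfl
  have h2 : HasFDerivAt (fderiv ℝ φ) (fderiv ℝ (fderiv ℝ φ) z) z :=
    (h1.differentiable (by simp) z).hasFDerivAt
  exact second_derivative_symmetric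
    (fun y => (hφ.differentiable (by simp) y).hasFDerivAt) h2 v w

/-- the operator `(∂_a + I ∂_b) / 2` -/
noncomputable def dd (a b : ℂ × ℂ) (φ : ℂ × ℂ → ℂ) (z : ℂ × ℂ) : ℂ :=
  (fderiv ℝ φ z a + Complex.I * fderiv ℝ φ z b) / 2

lemma fderiv_dd {φ : ℂ × ℂ → ℂ} (hφ : ContDiff ℝ ∞ φ) (a b z v : ℂ × ℂ) :
    fderiv ℝ (dd a b φ) z v =
      (fderiv ℝ (fderiv ℝ φ) z v a + Complex.I * fderiv ℝ (fderiv ℝ φ) z v b) / 2 := by
  have h1 := hasFDerivAt_apply hφ z a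
  have h2 := hasFDerivAt_apply hφ z b
  have h3 := ((h1.add (h2.const_mul Complex.I)).mul_const ((2 : ℂ)⁻¹))
  have h4 : (fun y => ((fun z => fderiv ℝ φ z a) + fun y => Complex.I * fderiv ℝ φ y b) y *
      (2 : ℂ)⁻¹) = dd a b φ := by
    funext y
    simp [dd, div_eq_mul_inv]
  rw [h4] at h3
  rw [h3.fderiv]
  simp [div_eq_mul_inv]
  ring

lemma dd_comm {φ : ℂ × ℂ → ℂ} (hφ : ContDiff ℝ ∞ φ) (a b c d z : ℂ × ℂ) :
    dd a b (dd c d φ) z = dd c d (dd a b φ) z := by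
  show (fderiv ℝ (dd c d φ) z a + Complex.I * fderiv ℝ (dd c d φ) z b) / 2 =
    (fderiv ℝ (dd a b φ) z c + Complex.I * fderiv ℝ (dd a b φ) z d) / 2
  rw [fderiv_dd hφ, fderiv_dd hφ, fderiv_dd hφ, fderiv_dd hφ, symm2 hφ z a c, symm2 hφ z a d,
    symm2 hφ z b c, symm2 hφ z b d]
  ring

lemma test_dd {φ : ℂ × ℂ → ℂ} (hφ : Test φ) (a b : ℂ × ℂ) : Test (dd a b φ) := by
  obtain ⟨h1, h2, h3⟩ := hφ
  have hs : Function.support (dd a b φ) ⊆ tsupport φ := by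
    intro z hz
    by_contra hcon
    apply hz
    have : fderiv ℝ φ z = 0 := fderiv_of_notMem_tsupport ℝ hcon
    simp [dd, this]
  refine ⟨?_, h2.mono' hs, ?_⟩
  · have h4 : ContDiff ℝ ∞ (fderiv ℝ φ) := h1.fderiv_right (m := ∞) le_rfl
    unfold dd
    exact ((h4.clm_apply contDiff_const).add
      (contDiff_const.mul (h4.clm_apply contDiff_const))).div_const 2
  · exact (closure_minimal hs (isClosed_tsupport φ)).trans h3

lemma integrable_mul_test (f : L2) {φ : ℂ × ℂ → ℂ} (hφ : Test φ) :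
    Integrable (fun z => f z * φ z) μT := by
  have hf : MemLp (fun z => f z) 2 μT := Lp.memLp f
  have : IsFiniteMeasureOnCompacts μT := by unfold μT; infer_instance
  have hg : MemLp φ 2 μT := hφ.1.continuous.memLp_of_hasCompactSupport hφ.2.1
  exact hf.integrable_mul hg

end CplxAux

open CplxAux in
theorem taskComplex : TaskComplex := by
  intro u F hF φ hφ
  have e1 : dbar1 φ = dd ((1 : ℂ), (0 : ℂ)) (Complex.I, (0 : ℂ)) φ := rfl
  have e2 : dbar2 φ = dd ((0 : ℂ), (1 : ℂ)) ((0 : ℂ), Complex.I) φ := rfl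
  have t1 : Test (dbar1 φ) := by rw [e1]; exact test_dd hφ _ _
  have t2 : Test (dbar2 φ) := by rw [e2]; exact test_dd hφ _ _
  have k1 := hF.1 _ t2
  have k2 := hF.2 _ t1
  have k3 : dbar1 (dbar2 φ) = dbar2 (dbar1 φ) := by
    funext z
    exact dd_comm hφ.1 _ _ _ _ z
  rw [k3] at k1
  rw [integral_sub (integrable_mul_test _ t1) (integrable_mul_test _ t2)]
  have k4 : ∫ z, (0 : L2) z * φ z ∂μT = 0 := by
    have : (fun z => (0 : L2) z * φ z) =ᵐ[μT] fun _ => (0 : ℂ) := by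
      filter_upwards [Lp.coeFn_zero ℂ 2 μT] with z hz
      rw [hz]; simp
    rw [integral_congr_ae this]; simp
  rw [k4, neg_zero]
  rw [k1] at k2
  have := neg_inj.mp k2
  rw [this, sub_self]

end Pool.Agent.H903HT
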