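import Pool.Agent.H903HT.Stmts

open scoped InnerProductSpace

namespace Pool.Agent.H903HT

theorem taskCore : TaskCore := by
  intro H0 H1 _ _ _ _ _ _ Γ hΓ htot f hf
  set K : Submodule ℂ (WithLp 2 (H0 × H1)) :=
    Γ.comap (WithLp.linearEquiv 2 ℂ (H0 × H1)).toLinearMap with hK
  have memK : ∀ x : WithLp 2 (H0 × H1), x ∈ K ↔ (x.fst, x.snd) ∈ Γ := fun x => Iff.rfl
  have hKc : IsClosed (K : Set (WithLp 2 (H0 × H1))) := by
    have : (K : Set (WithLp 2 (H0 × H1))) = (fun x => WithLp.ofLp x) ⁻¹' (Γ : Set (H0 × H1)) := rfl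
    rw [this]
    exact hΓ.closed.preimage (WithLp.prod_continuous_ofLp 2 H0 H1)
  set S : Set (WithLp 2 (H0 × H1)) :=
    {x | ∃ l : ℝ, (x.fst, x.snd) ∈ Γ ∧ (x.snd, (l : ℂ) • x.fst) ∈ Adj Γ} with hS
  set E : Submodule ℂ (WithLp 2 (H0 × H1)) := Submodule.span ℂ S with hE
  have hEK : E ≤ K := by
    rw [hE, Submodule.span_le]
    rintro x ⟨l, h1, h2⟩
    exact (memK x).2 h1
  have hPK : E.topologicalClosure ≤ K := Submodule.topologicalClosure_minimal _ hEK hKc
  -- no vector of `K` is orthogonal to `E`
  have key : ∀ x ∈ K, x ∈ Eᗮ → x = 0 := by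
    intro x hxK hxE
    have hx1 : (x.fst, x.snd) ∈ Γ := (memK x).1 hxK
    have horth : ∀ u ∈ Eig Γ, inner ℂ u x.fst = 0 := by
      rintro u ⟨l, F, huF, hFl⟩
      have h0 : inner ℂ (WithLp.toLp 2 (u, F)) x = 0 := by
        rw [Submodule.mem_orthogonal] at hxE
        exact hxE _ (Submodule.subset_span ⟨l, huF, hFl⟩)
      rw [WithLp.prod_inner_apply] at h0
      have h0' : inner ℂ u x.fst + inner ℂ F x.snd = 0 := h0
      have h1 : inner ℂ x.snd F = inner ℂ x.fst ((l : ℂ) • u) := hFl _ hx1
      have h2 : inner ℂ F x.snd = (l : ℂ) * inner ℂ u x.fst := by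
        rw [← inner_conj_symm, h1, inner_smul_right, map_mul, inner_conj_symm, Complex.conj_ofReal]
      have h3 : ((1 : ℂ) + (l : ℂ)) * inner ℂ u x.fst = 0 := by
        rw [h2] at h0'
        linear_combination h0'
      rcases mul_eq_zero.1 h3 with h4 | h4
      · -- `l = -1`, so `u = 0`
        have h5 : inner ℂ F F = inner ℂ u ((l : ℂ) • u) := hFl _ huF
        rw [inner_smul_right, inner_self_eq_norm_sq_to_K, inner_self_eq_norm_sq_to_K] at h5
        have h6 : ‖F‖ ^ 2 = l * ‖u‖ ^ 2 := by
          have h5' : ((‖F‖ ^ 2 : ℝ) : ℂ) = ((l * ‖u‖ ^ 2 : ℝ) : ℂ) := by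
            push_cast
            exact h5
          exact_mod_cast h5'
        have h7 : l = -1 := by
          have : ((1 + l : ℝ) : ℂ) = 0 := by push_cast; exact h4
          have : (1 + l : ℝ) = 0 := by exact_mod_cast this
          linarith
        have h8 : ‖u‖ ^ 2 = 0 := by
          rw [h7] at h6
          nlinarith [sq_nonneg ‖F‖, sq_nonneg ‖u‖]
        have h9 : u = 0 := by
          have := pow_eq_zero_iff (two_ne_zero) |>.1 h8
          exact norm_eq_zero.1 this
        rw [h9, inner_zero_left]
      · exact h4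
    have hx2 : x.fst = 0 := by
      have h1 : x.fst ∈ (Submodule.span ℂ (Eig Γ))ᗮ := by
        rw [Submodule.mem_orthogonal]
        intro u hu
        induction hu using Submodule.span_induction with
        | mem u hu => exact horth u hu
        | zero => exact inner_zero_left _
        | add a b _ _ ha hb => rw [inner_add_left, ha, hb, add_zero]
        | smul c a _ ha => rw [inner_smul_left, ha, mul_zero]
      rw [← Submodule.orthogonal_closure, htot, Submodule.top_orthogonal_eq_bot] at h1
      exact (Submodule.mem_bot ℂ).1 h1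
    have hx3 : x.snd = 0 := by
      apply hΓ.single
      rw [hx2] at hx1
      exact hx1
    have hx4 : x.ofLp = 0 := Prod.ext hx2 hx3
    have : x = WithLp.toLp 2 x.ofLp := rfl
    rw [this, hx4]
    rfl
  -- so `E` is dense in `K`
  have hdense : K ≤ E.topologicalClosure := by
    intro x hx
    have : CompleteSpace E.topologicalClosure :=
      (Submodule.isClosed_topologicalClosure E).completeSpace_coe
    have h1 : x - E.topologicalClosure.starProjection x ∈ E.topologicalClosureᗮ :=
      Submodule.sub_starProjection_mem_orthogonal x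
    have h2 : E.topologicalClosure.starProjection x ∈ E.topologicalClosure :=
      Submodule.starProjection_apply_mem _ x
    have h3 : x - E.topologicalClosure.starProjection x = 0 := by
      apply key
      · exact K.sub_mem hx (hPK h2)
      · rw [Submodule.orthogonal_closure] at h1
        exact h1
    rw [sub_eq_zero.1 h3]
    exact h2
  -- conclusion
  have hψ : WithLp.toLp 2 ((0 : H0), f) ∈ E.topologicalClosureᗮ := by
    rw [Submodule.orthogonal_closure, Submodule.mem_orthogonal]
    intro u hu
    induction hu using Submodule.span_induction with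
    | mem u hu =>
      obtain ⟨l, h1, h2⟩ := hu
      rw [WithLp.prod_inner_apply]
      have := hf l u.fst u.snd h1 h2
      change inner ℂ u.fst (0 : H0) + inner ℂ u.snd f = 0
      rw [this, inner_zero_right, add_zero]
    | zero => exact inner_zero_left _
    | add a b _ _ ha hb => rw [inner_add_left, ha, hb, add_zero]
    | smul c a _ ha => rw [inner_smul_left, ha, mul_zero]
  intro q hq
  have h1 : WithLp.toLp 2 q ∈ E.topologicalClosure := hdense hq
  have h2 := (Submodule.mem_orthogonal _ _).1 hψ _ h1
  rw [WithLp.prod_inner_apply] at h2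
  have h3 : inner ℂ q.1 (0 : H0) + inner ℂ q.2 f = 0 := h2
  rw [inner_zero_right, zero_add] at h3
  change inner ℂ q.2 f = inner ℂ q.1 (0 : H0)
  rw [h3, inner_zero_right]

end Pool.Agent.H903HT
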