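import Pool.Agent.H903HT.Stmts

set_option autoImplicit false

open MeasureTheory Filter Topology Set
open scoped ContDiff ENNReal

namespace Pool.Agent.H903HT

namespace IsoAux

theorem measurable_Pt : Measurable Pt := by
  unfold Pt
  fun_prop

theorem measurable_dens : Measurable
    (fun x : (ℝ × ℝ) × (ℝ × ℝ) => ENNReal.ofReal (x.1.1 * x.1.2 ^ 3)) := by
  fun_prop

theorem ae_Q : ∀ᵐ x ∂μQ, x ∈ Ioo (0:ℝ) 1 ×ˢ Ioo (0:ℝ) 1 := by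
  unfold μQ μI
  rw [Measure.prod_restrict]
  exact ae_restrict_mem (measurableSet_Ioo.prod measurableSet_Ioo)

instance : SFinite μI := by unfold μI; infer_instance
instance : SFinite μQ := by unfold μQ; infer_instance
instance : SFinite μΘ := by unfold μΘ; infer_instance

theorem ae_P : ∀ᵐ x ∂(μQ.prod (μΘ.prod μΘ)), x.1 ∈ Ioo (0:ℝ) 1 ×ˢ Ioo (0:ℝ) 1 :=
  Measure.quasiMeasurePreserving_fst.ae ae_Q

theorem pull (hP : TaskPolar) {p : ℂ × ℂ → Prop} (h : ∀ᵐ z ∂μT, p z) :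
    ∀ᵐ x ∂(μQ.prod (μΘ.prod μΘ)), p (Pt x) := by
  unfold TaskPolar at hP
  rw [← hP] at h
  have h2 := ae_of_ae_map measurable_Pt.aemeasurable h
  rw [ae_withDensity_iff measurable_dens] at h2
  filter_upwards [h2, ae_P] with x hx hx'
  refine hx ?_
  rw [Ne, ENNReal.ofReal_eq_zero, not_le]
  have h3 : 0 < x.1.1 := hx'.1.1
  have h4 : 0 < x.1.2 := hx'.2.1
  positivity

theorem norm_chi (m n : ℤ) (θ : ℝ × ℝ) : ‖chi m n θ‖ = 1 := by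
  unfold chi
  exact Complex.norm_exp_ofReal_mul_I _

theorem norm_fac_sq {x : ℝ × ℝ} (h1 : 0 ≤ x.1) (h2 : 0 ≤ x.2) :
    ‖fac x‖ ^ 2 = 4 * Real.pi ^ 2 * (x.1 * x.2 ^ 3) := by
  unfold fac
  rw [Complex.norm_real, Real.norm_eq_abs, sq_abs]
  have h3 : Real.sqrt x.1 ^ 2 = x.1 := Real.sq_sqrt h1
  have h4 : Real.sqrt x.2 ^ 2 = x.2 := Real.sq_sqrt h2
  calc (2 * Real.pi * Real.sqrt x.1 * (x.2 * Real.sqrt x.2)) ^ 2
      = 4 * Real.pi ^ 2 * (Real.sqrt x.1 ^ 2 * x.2 ^ 2 * Real.sqrt x.2 ^ 2) := by ring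
    _ = 4 * Real.pi ^ 2 * (x.1 * x.2 ^ 3) := by rw [h3, h4]; ring

theorem key_pt {w d : ℂ} {x : (ℝ × ℝ) × (ℝ × ℝ)} {m n : ℤ}
    (hx : x.1 ∈ Ioo (0:ℝ) 1 ×ˢ Ioo (0:ℝ) 1) (h : fac x.1 * w = chi m n x.2 * d) :
    ENNReal.ofReal (x.1.1 * x.1.2 ^ 3) * ‖w‖ₑ ^ (2:ℝ) =
      ‖d‖ₑ ^ (2:ℝ) * ENNReal.ofReal (1 / (4 * Real.pi ^ 2)) := by
  have h1 : 0 < x.1.1 := hx.1.1
  have h2 : 0 < x.1.2 := hx.2.1
  have h3 : ‖fac x.1‖ * ‖w‖ = ‖d‖ := by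
    rw [← norm_mul, h, norm_mul, norm_chi, one_mul]
  have h4 : ‖d‖ ^ 2 = 4 * Real.pi ^ 2 * (x.1.1 * x.1.2 ^ 3) * ‖w‖ ^ 2 := by
    rw [← h3, mul_pow, norm_fac_sq h1.le h2.le]
  rw [← ofReal_norm, ← ofReal_norm, ENNReal.ofReal_rpow_of_nonneg (norm_nonneg _) (by norm_num),
    ENNReal.ofReal_rpow_of_nonneg (norm_nonneg _) (by norm_num),
    ← ENNReal.ofReal_mul (by positivity), ← ENNReal.ofReal_mul (by positivity)]
  congr 1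
  rw [Real.rpow_two, Real.rpow_two, h4]
  have h5 : Real.pi ≠ 0 := Real.pi_ne_zero
  field_simp

theorem total : ∫⁻ _ : ℝ × ℝ, ENNReal.ofReal (1 / (4 * Real.pi ^ 2)) ∂(μΘ.prod μΘ) = 1 := by
  rw [lintegral_const]
  have h1 : μΘ univ = ENNReal.ofReal (2 * Real.pi) := by
    unfold μΘ
    rw [Measure.restrict_apply_univ, Real.volume_Ioo]
    congr 1
    ring
  rw [← univ_prod_univ, Measure.prod_prod, h1, ← ENNReal.ofReal_mul (by positivity),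
    ← ENNReal.ofReal_mul (by positivity), ← ENNReal.ofReal_one]
  congr 1
  have h5 : Real.pi ≠ 0 := Real.pi_ne_zero
  field_simp
  norm_num

end IsoAux

open IsoAux in
theorem taskIso : TaskIso := by
  intro hP m n u u' c c' h h'
  have hsub : ∀ᵐ x ∂(μQ.prod (μΘ.prod μΘ)), (u - u' : L2) (Pt x) = u (Pt x) - u' (Pt x) :=
    pull hP (p := fun z => (u - u' : L2) z = u z - u' z) (Lp.coeFn_sub u u')
  have hsubc : ∀ᵐ x ∂(μQ.prod (μΘ.prod μΘ)), (c - c' : Lp ℂ 2 μQ) x.1 = c x.1 - c' x.1 :=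
    Measure.quasiMeasurePreserving_fst.ae (Lp.coeFn_sub c c')
  have hkey : ∀ᵐ x ∂(μQ.prod (μΘ.prod μΘ)),
      ENNReal.ofReal (x.1.1 * x.1.2 ^ 3) * ‖(u - u' : L2) (Pt x)‖ₑ ^ (2:ℝ) =
        ‖(c - c' : Lp ℂ 2 μQ) x.1‖ₑ ^ (2:ℝ) * ENNReal.ofReal (1 / (4 * Real.pi ^ 2)) := by
    filter_upwards [h, h', hsub, hsubc, ae_P] with x h1 h2 h3 h4 h5
    refine key_pt (m := m) (n := n) h5 ?_
    rw [h3, h4, mul_sub, mul_sub, h1, h2]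
  have hmain : ∫⁻ z, ‖(u - u' : L2) z‖ₑ ^ (2:ℝ) ∂μT =
      ∫⁻ x, ‖(c - c' : Lp ℂ 2 μQ) x‖ₑ ^ (2:ℝ) ∂μQ := by
    have hP' := hP
    unfold TaskPolar at hP'
    have hae : AEMeasurable (fun z => ‖(u - u' : L2) z‖ₑ ^ (2:ℝ)) μT :=
      ((Lp.aestronglyMeasurable (u - u')).enorm).pow_const _
    have hae2 : AEMeasurable (fun z => ‖(u - u' : L2) z‖ₑ ^ (2:ℝ))
        (Measure.map Pt ((μQ.prod (μΘ.prod μΘ)).withDensity
          fun x => ENNReal.ofReal (x.1.1 * x.1.2 ^ 3))) := by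
      rw [hP']
      exact hae
    calc ∫⁻ z, ‖(u - u' : L2) z‖ₑ ^ (2:ℝ) ∂μT
        = ∫⁻ z, ‖(u - u' : L2) z‖ₑ ^ (2:ℝ) ∂(Measure.map Pt ((μQ.prod (μΘ.prod μΘ)).withDensity
          fun x => ENNReal.ofReal (x.1.1 * x.1.2 ^ 3))) := by
          have hG : ∀ G : ℂ × ℂ → ℝ≥0∞, ∫⁻ z, G z ∂μT = ∫⁻ z, G z ∂(Measure.map Pt
              ((μQ.prod (μΘ.prod μΘ)).withDensity
                fun x => ENNReal.ofReal (x.1.1 * x.1.2 ^ 3))) := fun G => by rw [hP']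
          exact hG _
      _ = ∫⁻ x, ‖(u - u' : L2) (Pt x)‖ₑ ^ (2:ℝ) ∂((μQ.prod (μΘ.prod μΘ)).withDensity
          fun x => ENNReal.ofReal (x.1.1 * x.1.2 ^ 3)) :=
          lintegral_map' hae2 measurable_Pt.aemeasurable
      _ = ∫⁻ x, ENNReal.ofReal (x.1.1 * x.1.2 ^ 3) * ‖(u - u' : L2) (Pt x)‖ₑ ^ (2:ℝ)
          ∂(μQ.prod (μΘ.prod μΘ)) :=
          lintegral_withDensity_eq_lintegral_mul₀' measurable_dens.aemeasurable
            (hae2.comp_aemeasurable measurable_Pt.aemeasurable)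
      _ = ∫⁻ x, ‖(c - c' : Lp ℂ 2 μQ) x.1‖ₑ ^ (2:ℝ) * ENNReal.ofReal (1 / (4 * Real.pi ^ 2))
          ∂(μQ.prod (μΘ.prod μΘ)) := lintegral_congr_ae hkey
      _ = (∫⁻ x, ‖(c - c' : Lp ℂ 2 μQ) x‖ₑ ^ (2:ℝ) ∂μQ) *
          ∫⁻ _ : ℝ × ℝ, ENNReal.ofReal (1 / (4 * Real.pi ^ 2)) ∂(μΘ.prod μΘ) :=
          lintegral_prod_mul (f := fun x => ‖(c - c' : Lp ℂ 2 μQ) x‖ₑ ^ (2:ℝ))
            (g := fun _ => ENNReal.ofReal (1 / (4 * Real.pi ^ 2)))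
            (((Lp.aestronglyMeasurable (c - c')).enorm).pow_const _) aemeasurable_const
      _ = _ := by rw [total, mul_one]
  rw [Lp.norm_def, Lp.norm_def, eLpNorm_eq_lintegral_rpow_enorm_toReal (by norm_num) (by norm_num),
    eLpNorm_eq_lintegral_rpow_enorm_toReal (by norm_num) (by norm_num)]
  simp only [ENNReal.toReal_ofNat]
  rw [hmain]

end Pool.Agent.H903HT
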