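import Pool.Agent.H903HT.Stmts

/-! TP2. functions in a mode have a profile. -/

set_option autoImplicit false

open MeasureTheory Filter Topology Set
open scoped ContDiff ENNReal

namespace Pool.Agent.H903HT

namespace ProfileT

theorem chi_add (m n : ℤ) (θ τ : ℝ × ℝ) : chi m n (θ + τ) = chi m n θ * chi m n τ := by
  unfold chi
  rw [← Complex.exp_add]
  congr 1
  simp only [Prod.fst_add, Prod.snd_add]
  push_cast
  ring

theorem chi_neg_mul (m n : ℤ) (θ : ℝ × ℝ) : chi (-m) (-n) θ * chi m n θ = 1 := by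
  unfold chi
  rw [← Complex.exp_add, ← Complex.exp_zero]
  congr 1
  push_cast
  ring

theorem chi_circle (m n : ℤ) (τ : ℝ × ℝ) :
    ((Circle.exp τ.1 : Circle) : ℂ) ^ m * ((Circle.exp τ.2 : Circle) : ℂ) ^ n = chi m n τ := by
  rw [Circle.coe_exp, Circle.coe_exp, ← Complex.exp_int_mul, ← Complex.exp_int_mul,
    ← Complex.exp_add]
  unfold chi
  congr 1
  push_cast
  ring

theorem Pt_add (p θ τ : ℝ × ℝ) : Pt (p, θ + τ) =
    (((Circle.exp τ.1 : Circle) : ℂ) * (Pt (p, θ)).1,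
      ((Circle.exp τ.2 : Circle) : ℂ) * (Pt (p, θ)).2) := by
  unfold Pt
  simp only [Circle.coe_exp, Prod.fst_add, Prod.snd_add]
  refine Prod.ext ?_ ?_
  · simp only
    push_cast
    rw [add_mul, Complex.exp_add]
    ring
  · simp only
    push_cast
    rw [add_mul, Complex.exp_add]
    ring

theorem norm_chi (m n : ℤ) (θ : ℝ × ℝ) : ‖chi m n θ‖ = 1 := by
  unfold chi
  exact Complex.norm_exp_ofReal_mul_I _

theorem continuous_Pt : Continuous Pt := by
  unfold Pt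
  fun_prop

theorem continuous_chi (m n : ℤ) : Continuous (chi m n) := by
  unfold chi
  fun_prop

theorem continuous_fac : Continuous fac := by
  unfold fac
  fun_prop

/-- the big measure -/
noncomputable def M : Measure ((ℝ × ℝ) × (ℝ × ℝ)) := μQ.prod (μΘ.prod μΘ)

/-- the density -/
noncomputable def w (x : (ℝ × ℝ) × (ℝ × ℝ)) : ℝ≥0∞ := ENNReal.ofReal (x.1.1 * x.1.2 ^ 3)

theorem measurable_w : Measurable w := by
  unfold w
  refine ENNReal.measurable_ofReal.comp ?_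
  fun_prop

instance : IsFiniteMeasure μI := by unfold μI; infer_instance
instance : IsFiniteMeasure μΘ := by unfold μΘ; infer_instance
instance : IsFiniteMeasure μQ := by unfold μQ; infer_instance
instance : IsFiniteMeasure M := by unfold M; infer_instance

theorem μQ_eq : μQ = (volume : Measure (ℝ × ℝ)).restrict (Ioo (0:ℝ) 1 ×ˢ Ioo (0:ℝ) 1) := by
  unfold μQ μI
  rw [Measure.prod_restrict, Measure.volume_eq_prod]

theorem μΘ_eq : μΘ.prod μΘ = (volume : Measure (ℝ × ℝ)).restrict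
    (Ioo (-Real.pi) Real.pi ×ˢ Ioo (-Real.pi) Real.pi) := by
  unfold μΘ
  rw [Measure.prod_restrict, Measure.volume_eq_prod]

theorem ae_mem : ∀ᵐ x ∂M, x.1 ∈ Ioo (0:ℝ) 1 ×ˢ Ioo (0:ℝ) 1 := by
  have h : ∀ᵐ p ∂μQ, p ∈ Ioo (0:ℝ) 1 ×ˢ Ioo (0:ℝ) 1 := by
    rw [μQ_eq]
    exact ae_restrict_mem (measurableSet_Ioo.prod measurableSet_Ioo)
  exact Measure.quasiMeasurePreserving_fst.ae h

theorem Θ_univ : (μΘ.prod μΘ) univ = ENNReal.ofReal (4 * Real.pi ^ 2) := by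
  rw [← Set.univ_prod_univ, Measure.prod_prod]
  unfold μΘ
  rw [Measure.restrict_apply_univ, Real.volume_Ioo,
    ← ENNReal.ofReal_mul (by linarith [Real.pi_pos])]
  congr 1
  ring

theorem Θ_real : (μΘ.prod μΘ).real univ = 4 * Real.pi ^ 2 := by
  rw [Measure.real, Θ_univ, ENNReal.toReal_ofReal (by positivity)]

variable (m n : ℤ) (u : L2)

/-- the normalised function -/
noncomputable def G (x : (ℝ × ℝ) × (ℝ × ℝ)) : ℂ := chi (-m) (-n) x.2 * (fac x.1 * u (Pt x))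

theorem sm_G : StronglyMeasurable (G m n u) := by
  unfold G
  refine StronglyMeasurable.mul ?_ (StronglyMeasurable.mul ?_ ?_)
  · exact ((continuous_chi (-m) (-n)).comp continuous_snd).stronglyMeasurable
  · exact (continuous_fac.comp continuous_fst).stronglyMeasurable
  · exact (Lp.stronglyMeasurable u).comp_measurable continuous_Pt.measurable

theorem G_shift (hP : TaskPolar) (hu : Mode m n u) (τ : ℝ × ℝ) :
    ∀ᵐ x ∂M, G m n u (x.1, x.2 + τ) = G m n u x := by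
  have h1 : ∀ᵐ z ∂(Measure.map Pt (M.withDensity w)),
      u (((Circle.exp τ.1 : Circle) : ℂ) * z.1, ((Circle.exp τ.2 : Circle) : ℂ) * z.2) =
      ((Circle.exp τ.1 : Circle) : ℂ) ^ m * ((Circle.exp τ.2 : Circle) : ℂ) ^ n * u z := by
    rw [show Measure.map Pt (M.withDensity w) = μT from hP]
    exact hu (Circle.exp τ.1) (Circle.exp τ.2)
  have h2 := ae_of_ae_map continuous_Pt.measurable.aemeasurable h1
  have h3 : ∀ᵐ x ∂M, w x ≠ 0 → u (((Circle.exp τ.1 : Circle) : ℂ) * (Pt x).1,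
      ((Circle.exp τ.2 : Circle) : ℂ) * (Pt x).2) =
      ((Circle.exp τ.1 : Circle) : ℂ) ^ m * ((Circle.exp τ.2 : Circle) : ℂ) ^ n * u (Pt x) :=
    (ae_withDensity_iff measurable_w).1 h2
  filter_upwards [h3, ae_mem] with x hx hm
  have hw : w x ≠ 0 := by
    have h0 := hm.1.1
    have h0' := hm.2.1
    unfold w
    rw [Ne, ENNReal.ofReal_eq_zero, not_le]
    have : 0 < x.1.2 ^ 3 := by positivity
    exact mul_pos h0 this
  have h4 := hx hw
  rw [chi_circle] at h4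
  unfold G
  rw [Pt_add x.1 x.2 τ, Prod.mk.eta]
  simp only
  rw [h4, chi_add]
  have h5 := chi_neg_mul m n τ
  linear_combination (chi (-m) (-n) x.2 * fac x.1 * u (Pt x)) * h5

/-- the average -/
noncomputable def c0 (p : ℝ × ℝ) : ℂ :=
  (((4 * Real.pi ^ 2)⁻¹ : ℝ) : ℂ) * ∫ σ, G m n u (p, σ) ∂(μΘ.prod μΘ)

theorem sm_c0 : StronglyMeasurable (c0 m n u) := by
  unfold c0
  exact (StronglyMeasurable.integral_prod_right' (sm_G m n u)).const_mul _

theorem G_eq (hP : TaskPolar) (hu : Mode m n u) : ∀ᵐ x ∂M, G m n u x = c0 m n u x.1 := by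
  have hmeas : MeasurableSet {y : ((ℝ × ℝ) × (ℝ × ℝ)) × (ℝ × ℝ) |
      G m n u (y.1.1, y.1.2 + y.2) = G m n u y.1} := by
    refine StronglyMeasurable.measurableSet_eq_fun ?_ ?_
    · exact (sm_G m n u).comp_measurable (by fun_prop)
    · exact (sm_G m n u).comp_measurable measurable_fst
  have h1 : ∀ᵐ x ∂M, ∀ᵐ τ ∂(volume : Measure (ℝ × ℝ)), G m n u (x.1, x.2 + τ) = G m n u x := by
    rw [Measure.ae_ae_comm hmeas]
    exact Eventually.of_forall fun τ => G_shift m n u hP hu τ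
  have h2 : ∀ᵐ x ∂M, ∀ᵐ σ ∂(volume : Measure (ℝ × ℝ)), G m n u (x.1, σ) = G m n u x := by
    filter_upwards [h1] with x hx
    have h3 := (measurePreserving_add_left (volume : Measure (ℝ × ℝ))
      (-x.2)).quasiMeasurePreserving.ae hx
    filter_upwards [h3] with σ hσ
    rw [add_neg_cancel_left] at hσ
    exact hσ
  filter_upwards [h2] with x hx
  have h4 : ∀ᵐ σ ∂(μΘ.prod μΘ), G m n u (x.1, σ) = G m n u x := by
    rw [μΘ_eq]
    exact ae_restrict_of_ae hx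
  unfold c0
  rw [integral_congr_ae h4, integral_const, Θ_real, Complex.real_smul, ← mul_assoc,
    ← Complex.ofReal_mul, inv_mul_cancel₀ (by positivity), Complex.ofReal_one, one_mul]

theorem enorm_G (x : (ℝ × ℝ) × (ℝ × ℝ)) (hx : x.1 ∈ Ioo (0:ℝ) 1 ×ˢ Ioo (0:ℝ) 1) :
    ‖G m n u x‖ₑ ^ 2 = ENNReal.ofReal (4 * Real.pi ^ 2) * (w x * ‖u (Pt x)‖ₑ ^ 2) := by
  unfold G w
  have h0 := hx.1.1
  have h0' := hx.2.1
  have e1 : ‖chi (-m) (-n) x.2‖ₑ = 1 := by
    rw [← ofReal_norm, norm_chi, ENNReal.ofReal_one]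
  have e2 : ‖fac x.1‖ₑ ^ 2 = ENNReal.ofReal (4 * Real.pi ^ 2) *
      ENNReal.ofReal (x.1.1 * x.1.2 ^ 3) := by
    rw [← ofReal_norm, ← ENNReal.ofReal_pow (norm_nonneg _),
      ← ENNReal.ofReal_mul (by positivity)]
    congr 1
    unfold fac
    rw [Complex.norm_real, Real.norm_eq_abs, sq_abs]
    have s1 := Real.mul_self_sqrt h0.le
    have s2 := Real.mul_self_sqrt h0'.le
    calc (2 * Real.pi * √x.1.1 * (x.1.2 * √x.1.2)) ^ 2
        = 4 * Real.pi ^ 2 * ((√x.1.1 * √x.1.1) * (x.1.2 ^ 2 * (√x.1.2 * √x.1.2))) := by ring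
      _ = 4 * Real.pi ^ 2 * (x.1.1 * x.1.2 ^ 3) := by rw [s1, s2]; ring
  rw [enorm_mul, enorm_mul, e1, one_mul, mul_pow, e2, mul_assoc]

omit m n u in
theorem lint_T (hP : TaskPolar) (f : ℂ × ℂ → ℝ≥0∞) (hf : Measurable f) :
    ∫⁻ z, f z ∂μT = ∫⁻ x, w x * f (Pt x) ∂M := by
  rw [← show Measure.map Pt (M.withDensity w) = μT from hP,
    lintegral_map hf continuous_Pt.measurable]
  exact lintegral_withDensity_eq_lintegral_mul M measurable_w (hf.comp continuous_Pt.measurable)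

theorem memLp_c0 (hP : TaskPolar) (hu : Mode m n u) : MemLp (c0 m n u) 2 μQ := by
  refine ⟨(sm_c0 m n u).aestronglyMeasurable, ?_⟩
  rw [eLpNorm_lt_top_iff_lintegral_rpow_enorm_lt_top (by norm_num) (by norm_num)]
  simp only [ENNReal.toReal_ofNat, ENNReal.rpow_ofNat]
  have h1 : ∫⁻ x, ‖u x‖ₑ ^ 2 ∂μT < ⊤ := by
    have := (Lp.memLp u).2
    rw [eLpNorm_lt_top_iff_lintegral_rpow_enorm_lt_top (by norm_num) (by norm_num)] at this
    simpa only [ENNReal.toReal_ofNat, ENNReal.rpow_ofNat] using this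
  have hum : Measurable fun z => ‖u z‖ₑ ^ 2 :=
    ((Lp.stronglyMeasurable u).enorm).pow_const 2
  have h2 : ∫⁻ x, w x * ‖u (Pt x)‖ₑ ^ 2 ∂M = ∫⁻ x, ‖u x‖ₑ ^ 2 ∂μT := by
    exact (lint_T hP _ hum).symm
  have h3 : ∫⁻ x, ‖G m n u x‖ₑ ^ 2 ∂M = ENNReal.ofReal (4 * Real.pi ^ 2) *
      ∫⁻ x, ‖u x‖ₑ ^ 2 ∂μT := by
    rw [← h2, ← lintegral_const_mul (f := fun x => w x * ‖u (Pt x)‖ₑ ^ 2) _
      (measurable_w.mul (hum.comp continuous_Pt.measurable))]
    refine lintegral_congr_ae ?_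
    filter_upwards [ae_mem] with x hx
    exact enorm_G m n u x hx
  have h4 : ∫⁻ x, ‖G m n u x‖ₑ ^ 2 ∂M = ∫⁻ x, ‖c0 m n u x.1‖ₑ ^ 2 ∂M := by
    refine lintegral_congr_ae ?_
    filter_upwards [G_eq m n u hP hu] with x hx
    rw [hx]
  have hcm : Measurable fun p => ‖c0 m n u p‖ₑ ^ 2 :=
    ((sm_c0 m n u).enorm).pow_const 2
  have h5 : ∫⁻ x, ‖c0 m n u x.1‖ₑ ^ 2 ∂M =
      ENNReal.ofReal (4 * Real.pi ^ 2) * ∫⁻ p, ‖c0 m n u p‖ₑ ^ 2 ∂μQ := by
    unfold M
    rw [lintegral_prod (fun x : (ℝ × ℝ) × (ℝ × ℝ) => ‖c0 m n u x.1‖ₑ ^ 2)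
      (hcm.comp measurable_fst).aemeasurable]
    simp only [lintegral_const, Θ_univ]
    rw [lintegral_mul_const _ hcm, mul_comm]
  rw [h4, h5] at h3
  have hpi : ENNReal.ofReal (4 * Real.pi ^ 2) ≠ 0 := by
    rw [Ne, ENNReal.ofReal_eq_zero, not_le]
    positivity
  have h6 := (ENNReal.mul_right_inj hpi ENNReal.ofReal_ne_top).1 h3
  rw [h6]
  exact h1

end ProfileT

open ProfileT in
theorem taskProfile : TaskProfile := by
  intro hP m n u hu
  have hc := memLp_c0 m n u hP hu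
  refine ⟨hc.toLp (c0 m n u), ?_⟩
  have h1 : ∀ᵐ x ∂M, (hc.toLp (c0 m n u)) x.1 = c0 m n u x.1 :=
    Measure.quasiMeasurePreserving_fst.ae hc.coeFn_toLp
  have h2 := G_eq m n u hP hu
  change ∀ᵐ x ∂M, fac x.1 * u (Pt x) = chi m n x.2 * (hc.toLp (c0 m n u)) x.1
  filter_upwards [h1, h2] with x h1 h2
  rw [h1, ← h2]
  unfold G
  linear_combination (-(fac x.1 * u (Pt x))) * chi_neg_mul m n x.2

end Pool.Agent.H903HT
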