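import Pool.Agent.H903HT.Stmts

/-! Proof of `TaskResolvent`. -/

set_option autoImplicit false

namespace Pool.Agent.H903HT

theorem taskResolvent : TaskResolvent := by
  intro H0 H1 _ _ _ _ _ _ Γ hΓ
  let e := WithLp.prodContinuousLinearEquiv 2 ℂ H0 H1
  let K : Submodule ℂ (WithLp 2 (H0 × H1)) := Γ.comap (e : WithLp 2 (H0 × H1) →L[ℂ] H0 × H1).toLinearMap
  have hKcl : IsClosed (K : Set (WithLp 2 (H0 × H1))) := by
    have : (K : Set (WithLp 2 (H0 × H1))) = e ⁻¹' (Γ : Set (H0 × H1)) := rfl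
    rw [this]
    exact hΓ.closed.preimage e.continuous
  have : CompleteSpace K := hKcl.completeSpace_coe
  have hmemK : ∀ x : WithLp 2 (H0 × H1), x ∈ K ↔ (x.fst, x.snd) ∈ Γ := fun x => Iff.rfl
  let i : H0 →L[ℂ] WithLp 2 (H0 × H1) :=
    (e.symm : H0 × H1 →L[ℂ] WithLp 2 (H0 × H1)) ∘L ContinuousLinearMap.inl ℂ H0 H1
  have hi1 : ∀ h, (i h).fst = h := fun h => rfl
  have hi2 : ∀ h, (i h).snd = 0 := fun h => rfl
  let R : H0 →L[ℂ] H0 := WithLp.fstL 2 ℂ H0 H1 ∘L (K.starProjection ∘L i)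
  have hR : ∀ h, R h = (K.starProjection (i h)).fst := fun h => rfl
  have hinner : ∀ (x : WithLp 2 (H0 × H1)) (h : H0), inner ℂ x (i h) = inner ℂ x.fst h := by
    intro x h
    rw [WithLp.prod_inner_apply]
    have h1 : inner ℂ x.snd (i h).snd = 0 := by rw [hi2, inner_zero_right]
    have h2 : inner ℂ x.fst (i h).fst = inner ℂ x.fst h := by rw [hi1]
    exact (congrArg₂ (· + ·) h2 h1).trans (add_zero _)
  have hinner' : ∀ (x : WithLp 2 (H0 × H1)) (h : H0), inner ℂ (i h) x = inner ℂ h x.fst := by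
    intro x h
    rw [← inner_conj_symm, hinner, inner_conj_symm]
  have h3 : ∀ h, ∃ (F : H1) (v : H0), (R h, F) ∈ Γ ∧ (F, v) ∈ Adj Γ ∧ R h + v = h ∧
      ‖R h‖ ^ 2 + ‖F‖ ^ 2 ≤ ‖h‖ ^ 2 := by
    intro h
    refine ⟨(K.starProjection (i h)).snd, h - R h, ?_, ?_, by abel, ?_⟩
    · exact (hmemK _).1 (K.starProjection_apply_mem (i h))
    · intro q hq
      have hqK : e.symm q ∈ K := hq
      have h4 := Submodule.inner_right_of_mem_orthogonal hqK
        (K.sub_starProjection_mem_orthogonal (i h))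
      rw [inner_sub_right, hinner, WithLp.prod_inner_apply] at h4
      have h5 : inner ℂ q.1 h - (inner ℂ q.1 (R h) + inner ℂ q.2 (K.starProjection (i h)).snd) = 0 :=
        h4
      rw [inner_sub_right]
      linear_combination -h5
    · have h4 := K.norm_starProjection_apply_le (i h)
      have h5 := WithLp.prod_norm_sq_eq_of_L2 (K.starProjection (i h))
      have h6 := WithLp.prod_norm_sq_eq_of_L2 (i h)
      rw [hi2, norm_zero, hi1] at h6
      rw [hR, ← h5]
      calc ‖K.starProjection (i h)‖ ^ 2 ≤ ‖i h‖ ^ 2 := by gcongr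
        _ = ‖h‖ ^ 2 := by rw [h6]; ring
  refine ⟨R, ?_, ?_, h3, ?_⟩
  · intro x y
    show inner ℂ (R x) y = inner ℂ x (R y)
    rw [hR, hR, ← hinner, ← hinner']
    exact K.inner_starProjection_left_eq_right (i x) (i y)
  · intro h hh
    obtain ⟨F, v, h4, h5, h6, -⟩ := h3 h
    rw [hh] at h4 h6
    rw [zero_add] at h6
    subst h6
    have hF := hΓ.single F h4
    subst hF
    refine hΓ.dense.eq_zero_of_inner_right ℂ fun u hu => ?_
    obtain ⟨f, hf⟩ := hu
    have := h5 (u, f) hf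
    simpa using this.symm
  · intro u F v huF hFv
    have hmem : e.symm (u, F) ∈ K := huF
    have h4 : K.starProjection (i (u + v)) = e.symm (u, F) := by
      refine Submodule.eq_starProjection_of_mem_orthogonal hmem ?_
      rw [Submodule.mem_orthogonal]
      intro x hx
      have h5 : inner ℂ x.snd F = inner ℂ x.fst v := hFv (x.fst, x.snd) hx
      rw [inner_sub_right, hinner, WithLp.prod_inner_apply]
      show inner ℂ x.fst (u + v) - (inner ℂ x.fst u + inner ℂ x.snd F) = 0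
      rw [h5, inner_add_right]
      ring
    rw [hR, h4]
    rfl

end Pool.Agent.H903HT
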