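import Pool.Agent.H903HT.Stmts

set_option autoImplicit false

open MeasureTheory Filter Topology Set
open scoped ContDiff

namespace Pool.Agent.H903HT

namespace TF

/-- the function `conj z / |z|` -/
noncomputable def un (z : ℂ) : ℂ := (starRingEnd ℂ) z * ((‖z‖⁻¹ : ℝ) : ℂ)

/-- the test function -/
noncomputable def Ph (m n : ℤ) (η : ℝ × ℝ → ℂ) (z : ℂ × ℂ) : ℂ :=
  un z.1 ^ m * un z.2 ^ n * η (‖z.1‖ * ‖z.2‖⁻¹, ‖z.2‖)

lemma contDiffAt_norm' {z : ℂ} (hz : z ≠ 0) : ContDiffAt ℝ ∞ (fun w : ℂ => ‖w‖) z :=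
  contDiffAt_norm ℝ hz

lemma contDiffAt_un {z : ℂ} (hz : z ≠ 0) : ContDiffAt ℝ ∞ un z := by
  have h1 : ContDiffAt ℝ ∞ (fun w : ℂ => ‖w‖⁻¹) z :=
    (contDiffAt_norm' hz).inv (norm_ne_zero_iff.2 hz)
  have h2 : ContDiffAt ℝ ∞ (fun w : ℂ => ((‖w‖⁻¹ : ℝ) : ℂ)) z :=
    (Complex.ofRealCLM.contDiff.contDiffAt).comp z h1
  have h3 : ContDiffAt ℝ ∞ (fun w : ℂ => (starRingEnd ℂ) w) z :=
    Complex.conjCLE.contDiff.contDiffAt
  exact h3.mul h2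

lemma un_ne_zero {z : ℂ} (hz : z ≠ 0) : un z ≠ 0 := by
  unfold un
  refine mul_ne_zero ?_ ?_
  · simpa using hz
  · simpa using hz

lemma contDiffAt_zpow {E : Type} [NormedAddCommGroup E] [NormedSpace ℝ E] {f : E → ℂ} {z : E}
    (hf : ContDiffAt ℝ ∞ f z) (h0 : f z ≠ 0) (m : ℤ) : ContDiffAt ℝ ∞ (fun w => f w ^ m) z := by
  rcases m with (k|k)
  · simpa using hf.pow k
  · simp only [zpow_negSucc]
    exact (hf.pow (k+1)).inv (pow_ne_zero _ h0)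

lemma contDiffAt_Ph (m n : ℤ) {η : ℝ × ℝ → ℂ} (hη : ContDiff ℝ ∞ η) {z : ℂ × ℂ}
    (h1 : z.1 ≠ 0) (h2 : z.2 ≠ 0) : ContDiffAt ℝ ∞ (Ph m n η) z := by
  have e1 : ContDiffAt ℝ ∞ (fun w : ℂ × ℂ => un w.1) z :=
    (contDiffAt_un h1).comp z contDiffAt_fst
  have e2 : ContDiffAt ℝ ∞ (fun w : ℂ × ℂ => un w.2) z :=
    (contDiffAt_un h2).comp z contDiffAt_snd
  have n1 : ContDiffAt ℝ ∞ (fun w : ℂ × ℂ => ‖w.1‖) z :=
    (contDiffAt_norm' h1).comp z contDiffAt_fst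
  have n2 : ContDiffAt ℝ ∞ (fun w : ℂ × ℂ => ‖w.2‖) z :=
    (contDiffAt_norm' h2).comp z contDiffAt_snd
  have e3 : ContDiffAt ℝ ∞ (fun w : ℂ × ℂ => ((‖w.1‖ * ‖w.2‖⁻¹, ‖w.2‖) : ℝ × ℝ)) z :=
    (n1.mul (n2.inv (norm_ne_zero_iff.2 h2))).prodMk n2
  have e4 : ContDiffAt ℝ ∞ (fun w : ℂ × ℂ => η (‖w.1‖ * ‖w.2‖⁻¹, ‖w.2‖)) z :=
    hη.contDiffAt.comp z e3
  exact ((contDiffAt_zpow e1 (un_ne_zero h1) m).mul (contDiffAt_zpow e2 (un_ne_zero h2) n)).mul e4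

/-- the compact set containing the support -/
def KK (η : ℝ × ℝ → ℂ) : Set (ℂ × ℂ) :=
  (fun p : (ℝ × ℝ) × (ℂ × ℂ) => (((p.1.1 * p.1.2 : ℝ) : ℂ) * p.2.1, ((p.1.2 : ℝ) : ℂ) * p.2.2)) ''
    (tsupport η ×ˢ (Metric.sphere (0:ℂ) 1 ×ˢ Metric.sphere (0:ℂ) 1))

lemma isCompact_KK {η : ℝ × ℝ → ℂ} (h : HasCompactSupport η) : IsCompact (KK η) := by
  refine IsCompact.image (h.isCompact.prod ((isCompact_sphere _ _).prod (isCompact_sphere _ _))) ?_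
  fun_prop

lemma KK_sub {η : ℝ × ℝ → ℂ} (h : tsupport η ⊆ Ioo (0:ℝ) 1 ×ˢ Ioo (0:ℝ) 1) {z : ℂ × ℂ}
    (hz : z ∈ KK η) : z ∈ T ∧ z.1 ≠ 0 ∧ z.2 ≠ 0 := by
  obtain ⟨⟨⟨s, r⟩, ⟨a, b⟩⟩, ⟨hp, ha, hb⟩, rfl⟩ := hz
  obtain ⟨⟨hs0, hs1⟩, hr0, hr1⟩ := h hp
  simp only [mem_sphere_zero_iff_norm] at ha hb
  simp only at hs0 hs1 hr0 hr1
  have e1 : ‖((s * r : ℝ) : ℂ) * a‖ = s * r := by
    rw [norm_mul, ha, mul_one, Complex.norm_real, Real.norm_of_nonneg (by positivity)]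
  have e2 : ‖((r : ℝ) : ℂ) * b‖ = r := by
    rw [norm_mul, hb, mul_one, Complex.norm_real, Real.norm_of_nonneg hr0.le]
  refine ⟨⟨?_, ?_⟩, ?_, ?_⟩
  · change ‖((s * r : ℝ) : ℂ) * a‖ < ‖((r : ℝ) : ℂ) * b‖
    rw [e1, e2]
    nlinarith
  · change ‖((r : ℝ) : ℂ) * b‖ < 1
    rw [e2]; exact hr1
  · rw [← norm_ne_zero_iff]
    change ‖((s * r : ℝ) : ℂ) * a‖ ≠ 0
    rw [e1]; positivity
  · rw [← norm_ne_zero_iff]
    change ‖((r : ℝ) : ℂ) * b‖ ≠ 0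
    rw [e2]; positivity

lemma supp_sub (m n : ℤ) {η : ℝ × ℝ → ℂ} (h : tsupport η ⊆ Ioo (0:ℝ) 1 ×ˢ Ioo (0:ℝ) 1) :
    Function.support (Ph m n η) ⊆ KK η := by
  intro z hz
  have hη : η (‖z.1‖ * ‖z.2‖⁻¹, ‖z.2‖) ≠ 0 := by
    intro h0
    apply hz
    simp only [Ph, h0, mul_zero]
  have hmem : ((‖z.1‖ * ‖z.2‖⁻¹, ‖z.2‖) : ℝ × ℝ) ∈ tsupport η := subset_tsupport _ hη
  obtain ⟨⟨hs0, hs1⟩, hr0, hr1⟩ := h hmem
  simp only at hs0 hs1 hr0 hr1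
  have hz2 : z.2 ≠ 0 := by
    rw [← norm_ne_zero_iff]; exact hr0.ne'
  have hz1 : z.1 ≠ 0 := by
    intro h0
    rw [h0] at hs0
    simp at hs0
  have n1 : ‖z.1‖ ≠ 0 := norm_ne_zero_iff.2 hz1
  have n2 : ‖z.2‖ ≠ 0 := norm_ne_zero_iff.2 hz2
  refine ⟨((‖z.1‖ * ‖z.2‖⁻¹, ‖z.2‖), (z.1 * ((‖z.1‖⁻¹ : ℝ) : ℂ), z.2 * ((‖z.2‖⁻¹ : ℝ) : ℂ))),
    ⟨hmem, ?_, ?_⟩, ?_⟩
  · simp only [mem_sphere_zero_iff_norm, norm_mul, Complex.norm_real, norm_inv, norm_norm]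
    exact mul_inv_cancel₀ n1
  · simp only [mem_sphere_zero_iff_norm, norm_mul, Complex.norm_real, norm_inv, norm_norm]
    exact mul_inv_cancel₀ n2
  · have c1 : ((‖z.1‖ : ℝ) : ℂ) ≠ 0 := by exact_mod_cast n1
    have c2 : ((‖z.2‖ : ℝ) : ℂ) ≠ 0 := by exact_mod_cast n2
    ext
    · simp only
      push_cast
      field_simp
    · simp only
      push_cast
      field_simp

lemma test_Ph (m n : ℤ) {η : ℝ × ℝ → ℂ} (hη : TestQ η) : Test (Ph m n η) := by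
  obtain ⟨hs, hc, hsub⟩ := hη
  have hK := isCompact_KK hc
  have hts : tsupport (Ph m n η) ⊆ KK η := closure_minimal (supp_sub m n hsub) hK.isClosed
  refine ⟨?_, ?_, ?_⟩
  · rw [contDiff_iff_contDiffAt]
    intro z
    by_cases hz : z ∈ tsupport (Ph m n η)
    · obtain ⟨-, h1, h2⟩ := KK_sub hsub (hts hz)
      exact contDiffAt_Ph m n hs h1 h2
    · have h0 : Ph m n η =ᶠ[𝓝 z] fun _ => 0 := notMem_tsupport_iff_eventuallyEq.1 hz
      exact contDiffAt_const.congr_of_eventuallyEq h0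
  · exact hK.of_isClosed_subset (isClosed_tsupport _) hts
  · exact fun z hz => (KK_sub hsub (hts hz)).1

lemma norm_pt1 {x : (ℝ × ℝ) × (ℝ × ℝ)} (hx : x.1 ∈ Ioo (0:ℝ) 1 ×ˢ Ioo (0:ℝ) 1) :
    ‖(Pt x).1‖ = x.1.1 * x.1.2 := by
  obtain ⟨⟨hs0, hs1⟩, hr0, hr1⟩ := hx
  simp only [Pt]
  rw [norm_mul, Complex.norm_exp_ofReal_mul_I, mul_one, Complex.norm_real,
    Real.norm_of_nonneg (by positivity)]

lemma norm_pt2 {x : (ℝ × ℝ) × (ℝ × ℝ)} (hx : x.1 ∈ Ioo (0:ℝ) 1 ×ˢ Ioo (0:ℝ) 1) :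
    ‖(Pt x).2‖ = x.1.2 := by
  obtain ⟨⟨hs0, hs1⟩, hr0, hr1⟩ := hx
  simp only [Pt]
  rw [norm_mul, Complex.norm_exp_ofReal_mul_I, mul_one, Complex.norm_real,
    Real.norm_of_nonneg hr0.le]

lemma un_polar {r θ : ℝ} (hr : 0 < r) :
    un ((r : ℂ) * Complex.exp (θ * Complex.I)) = Complex.exp (-(θ * Complex.I)) := by
  unfold un
  rw [norm_mul, Complex.norm_exp_ofReal_mul_I, mul_one, Complex.norm_real,
    Real.norm_of_nonneg hr.le, map_mul, Complex.conj_ofReal, ← Complex.exp_conj, map_mul,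
    Complex.conj_I, Complex.conj_ofReal]
  have : (r : ℂ) ≠ 0 := by exact_mod_cast hr.ne'
  push_cast
  rw [mul_neg]
  field_simp

lemma Ph_Pt (m n : ℤ) (η : ℝ × ℝ → ℂ) {x : (ℝ × ℝ) × (ℝ × ℝ)}
    (hx : x.1 ∈ Ioo (0:ℝ) 1 ×ˢ Ioo (0:ℝ) 1) : Ph m n η (Pt x) = chi (-m) (-n) x.2 * η x.1 := by
  have h1 := norm_pt1 hx
  have h2 := norm_pt2 hx
  have hx' := hx
  obtain ⟨⟨hs0, hs1⟩, hr0, hr1⟩ := hx'
  have u1 : un (Pt x).1 = Complex.exp (-(x.2.1 * Complex.I)) := un_polar (mul_pos hs0 hr0)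
  have u2 : un (Pt x).2 = Complex.exp (-(x.2.2 * Complex.I)) := un_polar hr0
  unfold Ph
  rw [h1, h2, u1, u2]
  have e : x.1.1 * x.1.2 * x.1.2⁻¹ = x.1.1 := by
    field_simp
  rw [e, ← Complex.exp_int_mul, ← Complex.exp_int_mul, ← Complex.exp_add]
  unfold chi
  congr 2
  push_cast
  ring

lemma rot (A : ℂ →L[ℝ] ℂ) (θ : ℝ) :
    A 1 + Complex.I * A Complex.I = Complex.exp (θ * Complex.I) *
      (A (Complex.exp (θ * Complex.I)) + Complex.I * A (Complex.I * Complex.exp (θ * Complex.I))) := by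
  have h : ∀ w : ℂ, A w = (w.re : ℂ) * A 1 + (w.im : ℂ) * A Complex.I := by
    intro w
    have e : w = w.re • (1 : ℂ) + w.im • Complex.I := by
      simp
    conv_lhs => rw [e]
    rw [map_add, map_smul, map_smul, Complex.real_smul, Complex.real_smul]
  rw [h (Complex.exp (θ * Complex.I)), h (Complex.I * Complex.exp (θ * Complex.I))]
  have e1 : (Complex.I * Complex.exp (θ * Complex.I)).re = -Real.sin θ := by
    rw [Complex.I_mul_re, Complex.exp_ofReal_mul_I_im]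
  have e2 : (Complex.I * Complex.exp (θ * Complex.I)).im = Real.cos θ := by
    rw [Complex.I_mul_im, Complex.exp_ofReal_mul_I_re]
  rw [e1, e2, Complex.exp_ofReal_mul_I_re, Complex.exp_ofReal_mul_I_im, Complex.exp_mul_I]
  have e3 : (Real.cos θ : ℂ) ^ 2 + (Real.sin θ : ℂ) ^ 2 = 1 := by
    exact_mod_cast Real.cos_sq_add_sin_sq θ
  push_cast at e3 ⊢
  have hI : Complex.I ^ 2 = -1 := Complex.I_sq
  linear_combination (-(A 1) - Complex.I * A Complex.I) * e3 +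
    (Complex.sin θ ^ 2 * A 1 - Complex.sin θ * Complex.cos θ * A Complex.I) * hI

lemma chi_one1 (m n : ℤ) (θ : ℝ × ℝ) :
    chi (-m + 1) (-n) θ = Complex.exp (θ.1 * Complex.I) * chi (-m) (-n) θ := by
  unfold chi
  rw [← Complex.exp_add]
  congr 1
  push_cast
  ring

lemma chi_one2 (m n : ℤ) (θ : ℝ × ℝ) :
    chi (-m) (-n + 1) θ = Complex.exp (θ.2 * Complex.I) * chi (-m) (-n) θ := by
  unfold chi
  rw [← Complex.exp_add]
  congr 1
  push_cast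
  ring

section der

variable (m n : ℤ) {η : ℝ × ℝ → ℂ} (hη : ContDiff ℝ ∞ η) {s r a b : ℝ}
  (hs : s ∈ Ioo (0:ℝ) 1) (hr : r ∈ Ioo (0:ℝ) 1)

include hs hr in
lemma pt_ne1 : (Pt ((s, r), (a, b))).1 ≠ 0 := by
  rw [← norm_ne_zero_iff, norm_pt1 (x := ((s, r), (a, b))) ⟨hs, hr⟩]
  exact (mul_pos hs.1 hr.1).ne'

include hs hr in
lemma pt_ne2 : (Pt ((s, r), (a, b))).2 ≠ 0 := by
  rw [← norm_ne_zero_iff, norm_pt2 (x := ((s, r), (a, b))) ⟨hs, hr⟩]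
  exact hr.1.ne'

include hη hs hr in
lemma fd : HasFDerivAt (Ph m n η) (fderiv ℝ (Ph m n η) (Pt ((s, r), (a, b))))
    (Pt ((s, r), (a, b))) :=
  ((contDiffAt_Ph m n hη (pt_ne1 hs hr) (pt_ne2 hs hr)).differentiableAt (by simp)).hasFDerivAt

lemma exp_der (a : ℝ) : HasDerivAt (fun t : ℝ => Complex.exp (((t : ℝ) : ℂ) * Complex.I))
    (Complex.I * Complex.exp ((a : ℂ) * Complex.I)) a := by
  have h1 : HasDerivAt (fun t : ℝ => ((t : ℝ) : ℂ) * Complex.I) Complex.I a := by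
    simpa using (Complex.ofRealCLM.hasDerivAt (x := a)).mul_const Complex.I
  have h2 := h1.cexp
  rwa [mul_comm] at h2

lemma ofReal_der (a : ℝ) : HasDerivAt (fun t : ℝ => ((t : ℝ) : ℂ)) 1 a := by
  simpa using (hasDerivAt_id a).ofReal_comp

lemma c1_der : HasDerivAt (fun t : ℝ => Pt ((t, r), (a, b)))
    ((r : ℂ) * Complex.exp ((a : ℂ) * Complex.I), 0) s := by
  change HasDerivAt (fun t : ℝ => (((t * r : ℝ) : ℂ) * Complex.exp ((a : ℂ) * Complex.I),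
    ((r : ℝ) : ℂ) * Complex.exp ((b : ℂ) * Complex.I))) _ s
  refine HasDerivAt.prodMk ?_ (hasDerivAt_const _ _)
  simp only [Complex.ofReal_mul]
  simpa using ((ofReal_der s).mul_const (r : ℂ)).mul_const (Complex.exp ((a : ℂ) * Complex.I))

lemma c2_der : HasDerivAt (fun t : ℝ => Pt ((s, r), (t, b)))
    (((s * r : ℝ) : ℂ) * (Complex.I * Complex.exp ((a : ℂ) * Complex.I)), 0) a := by
  change HasDerivAt (fun t : ℝ => (((s * r : ℝ) : ℂ) * Complex.exp ((t : ℂ) * Complex.I),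
    ((r : ℝ) : ℂ) * Complex.exp ((b : ℂ) * Complex.I))) _ a
  refine HasDerivAt.prodMk ?_ (hasDerivAt_const _ _)
  exact (exp_der a).const_mul _

lemma c3_der : HasDerivAt (fun t : ℝ => Pt ((s, t), (a, b)))
    ((s : ℂ) * Complex.exp ((a : ℂ) * Complex.I), Complex.exp ((b : ℂ) * Complex.I)) r := by
  change HasDerivAt (fun t : ℝ => (((s * t : ℝ) : ℂ) * Complex.exp ((a : ℂ) * Complex.I),
    ((t : ℝ) : ℂ) * Complex.exp ((b : ℂ) * Complex.I))) _ r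
  refine HasDerivAt.prodMk ?_ ?_
  · simp only [Complex.ofReal_mul]
    simpa using ((ofReal_der r).const_mul (s : ℂ)).mul_const (Complex.exp ((a : ℂ) * Complex.I))
  · simpa using (ofReal_der r).mul_const (Complex.exp ((b : ℂ) * Complex.I))

lemma c4_der : HasDerivAt (fun t : ℝ => Pt ((s, r), (a, t)))
    (0, ((r : ℝ) : ℂ) * (Complex.I * Complex.exp ((b : ℂ) * Complex.I))) b := by
  change HasDerivAt (fun t : ℝ => (((s * r : ℝ) : ℂ) * Complex.exp ((a : ℂ) * Complex.I),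
    ((r : ℝ) : ℂ) * Complex.exp ((t : ℂ) * Complex.I))) _ b
  refine HasDerivAt.prodMk (hasDerivAt_const _ _) ?_
  exact (exp_der b).const_mul _

include hη hs hr in
lemma L1 : fderiv ℝ (Ph m n η) (Pt ((s, r), (a, b)))
      ((r : ℂ) * Complex.exp ((a : ℂ) * Complex.I), 0)
    = chi (-m) (-n) (a, b) * fderiv ℝ η (s, r) ((1:ℝ), (0:ℝ)) := by
  have h1 := (fd m n hη hs hr (a := a) (b := b)).comp_hasDerivAt s (c1_der (r := r) (a := a) (b := b))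
  have h2 : HasDerivAt (fun t : ℝ => ((t, r) : ℝ × ℝ)) ((1:ℝ), (0:ℝ)) s :=
    (hasDerivAt_id s).prodMk (hasDerivAt_const _ _)
  have h3 : HasFDerivAt η (fderiv ℝ η (s, r)) (s, r) :=
    (hη.differentiable (by simp)).differentiableAt.hasFDerivAt
  have h4 := (h3.comp_hasDerivAt s h2).const_mul (chi (-m) (-n) (a, b))
  have h5 : (Ph m n η ∘ fun t : ℝ => Pt ((t, r), (a, b))) =ᶠ[𝓝 s]
      fun t => chi (-m) (-n) (a, b) * (η ∘ fun t : ℝ => ((t, r) : ℝ × ℝ)) t := by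
    filter_upwards [isOpen_Ioo.mem_nhds hs] with t ht
    exact Ph_Pt m n η (x := ((t, r), (a, b))) ⟨ht, hr⟩
  exact h1.unique (h4.congr_of_eventuallyEq h5)

include hη hs hr in
lemma L3 : fderiv ℝ (Ph m n η) (Pt ((s, r), (a, b)))
      ((s : ℂ) * Complex.exp ((a : ℂ) * Complex.I), Complex.exp ((b : ℂ) * Complex.I))
    = chi (-m) (-n) (a, b) * fderiv ℝ η (s, r) ((0:ℝ), (1:ℝ)) := by
  have h1 := (fd m n hη hs hr (a := a) (b := b)).comp_hasDerivAt r (c3_der (s := s) (a := a) (b := b))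
  have h2 : HasDerivAt (fun t : ℝ => ((s, t) : ℝ × ℝ)) ((0:ℝ), (1:ℝ)) r :=
    (hasDerivAt_const _ _).prodMk (hasDerivAt_id r)
  have h3 : HasFDerivAt η (fderiv ℝ η (s, r)) (s, r) :=
    (hη.differentiable (by simp)).differentiableAt.hasFDerivAt
  have h4 := (h3.comp_hasDerivAt r h2).const_mul (chi (-m) (-n) (a, b))
  have h5 : (Ph m n η ∘ fun t : ℝ => Pt ((s, t), (a, b))) =ᶠ[𝓝 r]
      fun t => chi (-m) (-n) (a, b) * (η ∘ fun t : ℝ => ((s, t) : ℝ × ℝ)) t := by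
    filter_upwards [isOpen_Ioo.mem_nhds hr] with t ht
    exact Ph_Pt m n η (x := ((s, t), (a, b))) ⟨hs, ht⟩
  exact h1.unique (h4.congr_of_eventuallyEq h5)

lemma chi_der1 : HasDerivAt (fun t : ℝ => chi (-m) (-n) (t, b))
    (-(m : ℂ) * Complex.I * chi (-m) (-n) (a, b)) a := by
  unfold chi
  have h0 : HasDerivAt (fun t : ℝ => (((((-m : ℤ) : ℝ) * t + ((-n : ℤ) : ℝ) * b : ℝ)) : ℂ) * Complex.I)
      (-(m : ℂ) * Complex.I) a := by
    have h1 : HasDerivAt (fun t : ℝ => (((-m : ℤ) : ℝ) * t + ((-n : ℤ) : ℝ) * b : ℝ))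
        (((-m : ℤ) : ℝ)) a := by
      simpa using ((hasDerivAt_id a).const_mul ((-m : ℤ) : ℝ)).add_const (((-n : ℤ) : ℝ) * b)
    have h2 := (h1.ofReal_comp).mul_const Complex.I
    simpa using h2
  have h3 := h0.cexp
  have e : Complex.exp (((((-m : ℤ) : ℝ) * a + ((-n : ℤ) : ℝ) * b : ℝ) : ℂ) * Complex.I) *
      (-(m : ℂ) * Complex.I) = -(m : ℂ) * Complex.I *
      Complex.exp (((((-m : ℤ) : ℝ) * a + ((-n : ℤ) : ℝ) * b : ℝ) : ℂ) * Complex.I) := mul_comm _ _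
  rw [e] at h3
  exact h3

lemma chi_der2 : HasDerivAt (fun t : ℝ => chi (-m) (-n) (a, t))
    (-(n : ℂ) * Complex.I * chi (-m) (-n) (a, b)) b := by
  unfold chi
  have h0 : HasDerivAt (fun t : ℝ => (((((-m : ℤ) : ℝ) * a + ((-n : ℤ) : ℝ) * t : ℝ)) : ℂ) * Complex.I)
      (-(n : ℂ) * Complex.I) b := by
    have h1 : HasDerivAt (fun t : ℝ => (((-m : ℤ) : ℝ) * a + ((-n : ℤ) : ℝ) * t : ℝ))
        (((-n : ℤ) : ℝ)) b := by
      simpa using ((hasDerivAt_id b).const_mul ((-n : ℤ) : ℝ)).const_add (((-m : ℤ) : ℝ) * a)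
    have h2 := (h1.ofReal_comp).mul_const Complex.I
    simpa using h2
  have h3 := h0.cexp
  have e : Complex.exp (((((-m : ℤ) : ℝ) * a + ((-n : ℤ) : ℝ) * b : ℝ) : ℂ) * Complex.I) *
      (-(n : ℂ) * Complex.I) = -(n : ℂ) * Complex.I *
      Complex.exp (((((-m : ℤ) : ℝ) * a + ((-n : ℤ) : ℝ) * b : ℝ) : ℂ) * Complex.I) := mul_comm _ _
  rw [e] at h3
  exact h3

include hη hs hr in
lemma L2' : fderiv ℝ (Ph m n η) (Pt ((s, r), (a, b)))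
      (((s * r : ℝ) : ℂ) * (Complex.I * Complex.exp ((a : ℂ) * Complex.I)), 0)
    = -(m : ℂ) * Complex.I * chi (-m) (-n) (a, b) * η (s, r) := by
  have h1 := (fd m n hη hs hr (a := a) (b := b)).comp_hasDerivAt a (c2_der (s := s) (r := r) (b := b))
  have h4 := (chi_der1 m n (a := a) (b := b)).mul_const (η (s, r))
  have h5 : (Ph m n η ∘ fun t : ℝ => Pt ((s, r), (t, b))) =ᶠ[𝓝 a]
      fun t => chi (-m) (-n) (t, b) * η (s, r) := by
    refine Filter.Eventually.of_forall fun t => ?_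
    exact Ph_Pt m n η (x := ((s, r), (t, b))) ⟨hs, hr⟩
  exact h1.unique (h4.congr_of_eventuallyEq h5)

include hη hs hr in
lemma L4 : fderiv ℝ (Ph m n η) (Pt ((s, r), (a, b)))
      (0, ((r : ℝ) : ℂ) * (Complex.I * Complex.exp ((b : ℂ) * Complex.I)))
    = -(n : ℂ) * Complex.I * chi (-m) (-n) (a, b) * η (s, r) := by
  have h1 := (fd m n hη hs hr (a := a) (b := b)).comp_hasDerivAt b (c4_der (s := s) (r := r) (a := a))
  have h4 := (chi_der2 m n (a := a) (b := b)).mul_const (η (s, r))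
  have h5 : (Ph m n η ∘ fun t : ℝ => Pt ((s, r), (a, t))) =ᶠ[𝓝 b]
      fun t => chi (-m) (-n) (a, t) * η (s, r) := by
    refine Filter.Eventually.of_forall fun t => ?_
    exact Ph_Pt m n η (x := ((s, r), (a, t))) ⟨hs, hr⟩
  exact h1.unique (h4.congr_of_eventuallyEq h5)

end der

section fin

variable (m n : ℤ) {η : ℝ × ℝ → ℂ} (hη : ContDiff ℝ ∞ η) {s r a b : ℝ}
  (hs : s ∈ Ioo (0:ℝ) 1) (hr : r ∈ Ioo (0:ℝ) 1)

include hη hs hr in
lemma d1 : dbar1 (Ph m n η) (Pt ((s, r), (a, b))) =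
    chi (-m + 1) (-n) (a, b) * ((1 / (2 * r) : ℝ) *
      (fderiv ℝ η (s, r) ((1:ℝ), (0:ℝ)) + (m / s : ℝ) * η (s, r))) := by
  set L := fderiv ℝ (Ph m n η) (Pt ((s, r), (a, b))) with hL
  have hrot := rot (L.comp (ContinuousLinearMap.inl ℝ ℂ ℂ)) a
  simp only [ContinuousLinearMap.comp_apply, ContinuousLinearMap.inl_apply] at hrot
  have h1 : L ((r : ℂ) * Complex.exp ((a : ℂ) * Complex.I), 0)
      = chi (-m) (-n) (a, b) * fderiv ℝ η (s, r) ((1:ℝ), (0:ℝ)) := L1 m n hη hs hr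
  have h2 : L (((s * r : ℝ) : ℂ) * (Complex.I * Complex.exp ((a : ℂ) * Complex.I)), 0)
      = -(m : ℂ) * Complex.I * chi (-m) (-n) (a, b) * η (s, r) := L2' m n hη hs hr
  have e1 : (((r : ℂ) * Complex.exp ((a : ℂ) * Complex.I), 0) : ℂ × ℂ)
      = r • ((Complex.exp ((a : ℂ) * Complex.I), 0) : ℂ × ℂ) := by
    ext <;> simp
  have e2 : ((((s * r : ℝ) : ℂ) * (Complex.I * Complex.exp ((a : ℂ) * Complex.I)), 0) : ℂ × ℂ)
      = (s * r) • ((Complex.I * Complex.exp ((a : ℂ) * Complex.I), 0) : ℂ × ℂ) := by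
    ext <;> simp
  rw [e1, map_smul, Complex.real_smul] at h1
  rw [e2, map_smul, Complex.real_smul] at h2
  have hr0 : (r : ℂ) ≠ 0 := by exact_mod_cast hr.1.ne'
  have hs0 : (s : ℂ) ≠ 0 := by exact_mod_cast hs.1.ne'
  have h1' : L (Complex.exp ((a : ℂ) * Complex.I), 0)
      = chi (-m) (-n) (a, b) * fderiv ℝ η (s, r) ((1:ℝ), (0:ℝ)) / r := by
    rw [eq_div_iff hr0, ← h1]; ring
  have h2' : L (Complex.I * Complex.exp ((a : ℂ) * Complex.I), 0)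
      = -(m : ℂ) * Complex.I * chi (-m) (-n) (a, b) * η (s, r) / (s * r) := by
    rw [eq_div_iff (mul_ne_zero hs0 hr0), ← h2]; push_cast; ring
  unfold dbar1
  rw [← hL, hrot, h1', h2', chi_one1]
  push_cast
  field_simp
  linear_combination (-(chi (-m) (-n) (a, b)) * (m : ℂ) * η (s, r)) * Complex.I_sq

include hη hs hr in
lemma d2 : dbar2 (Ph m n η) (Pt ((s, r), (a, b))) =
    chi (-m) (-n + 1) (a, b) * ((1 / 2 : ℝ) *
      (fderiv ℝ η (s, r) ((0:ℝ), (1:ℝ)) - (s / r : ℝ) * fderiv ℝ η (s, r) ((1:ℝ), (0:ℝ))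
        + (n / r : ℝ) * η (s, r))) := by
  set L := fderiv ℝ (Ph m n η) (Pt ((s, r), (a, b))) with hL
  have hrot := rot (L.comp (ContinuousLinearMap.inr ℝ ℂ ℂ)) b
  simp only [ContinuousLinearMap.comp_apply, ContinuousLinearMap.inr_apply] at hrot
  have h1 : L ((r : ℂ) * Complex.exp ((a : ℂ) * Complex.I), 0)
      = chi (-m) (-n) (a, b) * fderiv ℝ η (s, r) ((1:ℝ), (0:ℝ)) := L1 m n hη hs hr
  have h3 : L ((s : ℂ) * Complex.exp ((a : ℂ) * Complex.I), Complex.exp ((b : ℂ) * Complex.I))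
      = chi (-m) (-n) (a, b) * fderiv ℝ η (s, r) ((0:ℝ), (1:ℝ)) := L3 m n hη hs hr
  have h4 : L (0, ((r : ℝ) : ℂ) * (Complex.I * Complex.exp ((b : ℂ) * Complex.I)))
      = -(n : ℂ) * Complex.I * chi (-m) (-n) (a, b) * η (s, r) := L4 m n hη hs hr
  have e1 : (((r : ℂ) * Complex.exp ((a : ℂ) * Complex.I), 0) : ℂ × ℂ)
      = r • ((Complex.exp ((a : ℂ) * Complex.I), 0) : ℂ × ℂ) := by
    ext <;> simp
  have e3 : (((s : ℂ) * Complex.exp ((a : ℂ) * Complex.I),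
      Complex.exp ((b : ℂ) * Complex.I)) : ℂ × ℂ)
      = s • ((Complex.exp ((a : ℂ) * Complex.I), 0) : ℂ × ℂ)
        + (0, Complex.exp ((b : ℂ) * Complex.I)) := by
    ext <;> simp
  have e4 : ((0, ((r : ℝ) : ℂ) * (Complex.I * Complex.exp ((b : ℂ) * Complex.I))) : ℂ × ℂ)
      = r • ((0, Complex.I * Complex.exp ((b : ℂ) * Complex.I)) : ℂ × ℂ) := by
    ext <;> simp
  rw [e1, map_smul, Complex.real_smul] at h1
  rw [e3, map_add, map_smul, Complex.real_smul] at h3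
  rw [e4, map_smul, Complex.real_smul] at h4
  have hr0 : (r : ℂ) ≠ 0 := by exact_mod_cast hr.1.ne'
  have h1' : L (Complex.exp ((a : ℂ) * Complex.I), 0)
      = chi (-m) (-n) (a, b) * fderiv ℝ η (s, r) ((1:ℝ), (0:ℝ)) / r := by
    rw [eq_div_iff hr0, ← h1]; ring
  have h3' : L (0, Complex.exp ((b : ℂ) * Complex.I))
      = chi (-m) (-n) (a, b) * fderiv ℝ η (s, r) ((0:ℝ), (1:ℝ)) -
        s * (chi (-m) (-n) (a, b) * fderiv ℝ η (s, r) ((1:ℝ), (0:ℝ)) / r) := by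
    rw [← h3, h1']; ring
  have h4' : L (0, Complex.I * Complex.exp ((b : ℂ) * Complex.I))
      = -(n : ℂ) * Complex.I * chi (-m) (-n) (a, b) * η (s, r) / r := by
    rw [eq_div_iff hr0, ← h4]; ring
  unfold dbar2
  rw [← hL, hrot, h3', h4', chi_one2]
  push_cast
  field_simp
  linear_combination (-(chi (-m) (-n) (a, b)) * (n : ℂ) * η (s, r)) * Complex.I_sq

end fin

end TF

/-- TP7. test functions in a mode. -/
theorem taskTestFun : TaskTestFun := by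
  intro m n η hη
  refine ⟨TF.Ph m n η, TF.test_Ph m n hη, ?_⟩
  rintro ⟨⟨s, r⟩, ⟨a, b⟩⟩ ⟨hs, hr⟩
  exact ⟨TF.Ph_Pt m n η ⟨hs, hr⟩, TF.d1 m n hη.1 hs hr, TF.d2 m n hη.1 hs hr⟩

end Pool.Agent.H903HT
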