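import Pool.Agent.H903HT.Stmts

/-!
# Project H903-HT, task Weak: the weak equations for the profile
-/

set_option autoImplicit false

open MeasureTheory Filter Topology Set
open scoped ContDiff

namespace Pool.Agent.H903HT

/-- The open unit square. -/
abbrev SQ : Set (ℝ × ℝ) := Ioo (0 : ℝ) 1 ×ˢ Ioo (0 : ℝ) 1

theorem muQ_eq : μQ = (volume : Measure (ℝ × ℝ)).restrict SQ := by
  unfold μQ μI
  rw [Measure.prod_restrict, Measure.volume_eq_prod]

theorem ae_sq : ∀ᵐ x ∂μQ, x ∈ SQ := by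
  rw [muQ_eq]
  exact ae_restrict_mem (measurableSet_Ioo.prod measurableSet_Ioo)

instance finI : IsFiniteMeasure μI := by
  unfold μI
  infer_instance

instance finQ : IsFiniteMeasure μQ := by
  unfold μQ
  infer_instance

theorem line_deriv {φ : ℝ × ℝ → ℂ} {x : ℝ × ℝ} (h : DifferentiableAt ℝ φ x) (v : ℝ × ℝ) :
    HasDerivAt (fun t : ℝ => φ (x + t • v)) (fderiv ℝ φ x v) 0 := by
  have h1 : HasDerivAt (fun t : ℝ => x + t • v) v 0 := by
    have := ((hasDerivAt_id (0 : ℝ)).smul_const v).const_add x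
    simpa using this
  have hg' : HasFDerivAt φ (fderiv ℝ φ x) ((fun t : ℝ => x + t • v) 0) := by
    simp only [zero_smul, add_zero]
    exact h.hasFDerivAt
  exact HasFDerivAt.comp_hasDerivAt (l := φ) (f := fun t : ℝ => x + t • v) (0 : ℝ) hg' h1

/-- The product rule along a line. -/
theorem fderiv_mul_line {w φ : ℝ × ℝ → ℂ} {x v : ℝ × ℝ} {w' : ℂ} (hφ : DifferentiableAt ℝ φ x)
    (hη : DifferentiableAt ℝ (fun x => w x * φ x) x)
    (hw : HasDerivAt (fun t : ℝ => w (x + t • v)) w' 0) :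
    fderiv ℝ (fun x => w x * φ x) x v = w' * φ x + w x * fderiv ℝ φ x v := by
  have h1 := line_deriv hη v
  have h2 := hw.mul (line_deriv hφ v)
  have h3 := h1.unique h2
  simpa using h3

/-- The first weight. -/
noncomputable def w1 (x : ℝ × ℝ) : ℂ := (((Real.pi * (√x.1 * √x.2))⁻¹ : ℝ) : ℂ)

/-- The second weight. -/
noncomputable def w2 (x : ℝ × ℝ) : ℂ := (((Real.pi * (√x.1 * (x.2 * √x.2)))⁻¹ : ℝ) : ℂ)

theorem w1_smooth : ContDiffOn ℝ ∞ w1 SQ := by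
  unfold w1
  refine Complex.ofRealCLM.contDiff.comp_contDiffOn ?_
  refine ContDiffOn.inv ?_ ?_
  · refine contDiffOn_const.mul (ContDiffOn.mul ?_ ?_)
    · exact contDiff_fst.contDiffOn.sqrt fun x hx => (ne_of_gt hx.1.1)
    · exact contDiff_snd.contDiffOn.sqrt fun x hx => (ne_of_gt hx.2.1)
  · intro x hx
    have := Real.sqrt_pos.2 hx.1.1
    have := Real.sqrt_pos.2 hx.2.1
    have := Real.pi_pos
    positivity

theorem w2_smooth : ContDiffOn ℝ ∞ w2 SQ := by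
  unfold w2
  refine Complex.ofRealCLM.contDiff.comp_contDiffOn ?_
  refine ContDiffOn.inv ?_ ?_
  · refine contDiffOn_const.mul (ContDiffOn.mul ?_ (contDiff_snd.contDiffOn.mul ?_))
    · exact contDiff_fst.contDiffOn.sqrt fun x hx => (ne_of_gt hx.1.1)
    · exact contDiff_snd.contDiffOn.sqrt fun x hx => (ne_of_gt hx.2.1)
  · intro x hx
    have := Real.sqrt_pos.2 hx.1.1
    have := Real.sqrt_pos.2 hx.2.1
    have h2 : 0 < x.2 := hx.2.1
    have := Real.pi_pos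
    positivity

theorem w1_deriv {x : ℝ × ℝ} (hx : x ∈ SQ) :
    HasDerivAt (fun t : ℝ => w1 (x + t • ((1 : ℝ), (0 : ℝ)))) (((-(1 / (2 * x.1)) : ℝ) : ℂ) * w1 x) 0 := by
  have h1 : 0 < x.1 := hx.1.1
  have h2 : 0 < x.2 := hx.2.1
  have hs1 := Real.sqrt_pos.2 h1
  have hs2 := Real.sqrt_pos.2 h2
  have hp := Real.pi_pos
  have hq1 := Real.mul_self_sqrt h1.le
  have e : (fun t : ℝ => w1 (x + t • ((1 : ℝ), (0 : ℝ)))) =
      fun t : ℝ => (((Real.pi * (√(x.1 + t) * √x.2))⁻¹ : ℝ) : ℂ) := by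
    funext t
    unfold w1
    simp
  rw [e]
  have d0 : HasDerivAt (fun t : ℝ => x.1 + t) 1 0 := by
    simpa using (hasDerivAt_id (0 : ℝ)).const_add x.1
  have d1 := d0.sqrt (by simp [h1.ne'])
  have d2 := (((d1.mul_const (√x.2)).const_mul Real.pi).inv (by simp only [add_zero]; positivity))
  have d3 := d2.ofReal_comp
  refine d3.congr_deriv ?_
  unfold w1
  rw [← Complex.ofReal_mul]
  congr 1
  simp only [add_zero]
  have hx1 : x.1 = √x.1 * √x.1 := hq1.symm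
  set σ := √x.1 with hσ
  rw [hx1]
  field_simp

theorem w2_deriv {x : ℝ × ℝ} (hx : x ∈ SQ) :
    HasDerivAt (fun t : ℝ => w2 (x + t • ((0 : ℝ), (1 : ℝ)))) (((-(3 / (2 * x.2)) : ℝ) : ℂ) * w2 x) 0 := by
  have h1 : 0 < x.1 := hx.1.1
  have h2 : 0 < x.2 := hx.2.1
  have hs1 := Real.sqrt_pos.2 h1
  have hs2 := Real.sqrt_pos.2 h2
  have hp := Real.pi_pos
  have hq2 := Real.mul_self_sqrt h2.le
  have e : (fun t : ℝ => w2 (x + t • ((0 : ℝ), (1 : ℝ)))) =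
      fun t : ℝ => (((Real.pi * (√x.1 * ((x.2 + t) * √(x.2 + t))))⁻¹ : ℝ) : ℂ) := by
    funext t
    unfold w2
    simp
  rw [e]
  have d0 : HasDerivAt (fun t : ℝ => x.2 + t) 1 0 := by
    simpa using (hasDerivAt_id (0 : ℝ)).const_add x.2
  have d1 := d0.sqrt (by simp [h2.ne'])
  have d01 : HasDerivAt (fun t : ℝ => (x.2 + t) * √(x.2 + t))
      (1 * √(x.2 + 0) + (x.2 + 0) * (1 / (2 * √(x.2 + 0)))) 0 := d0.mul d1
  have d2 := (((d01.const_mul (√x.1)).const_mul Real.pi).inv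
    (by simp only [add_zero]; positivity))
  have d3 := d2.ofReal_comp
  refine d3.congr_deriv ?_
  unfold w2
  rw [← Complex.ofReal_mul]
  congr 1
  simp only [add_zero]
  have hx2 : x.2 = √x.2 * √x.2 := hq2.symm
  set σ := √x.2 with hσ
  rw [hx2]
  field_simp
  ring

/-- Multiplication by a bounded function. -/
theorem mul_lp (b : ℝ × ℝ → ℝ) (hb : Measurable b) (hb1 : ∀ x ∈ SQ, |b x| ≤ 1) (h : Lp ℂ 2 μQ) :
    ∃ h' : Lp ℂ 2 μQ, ‖h'‖ ≤ 2 * ‖h‖ ∧ ∀ᵐ x ∂μQ, h' x = ((2 * b x : ℝ) : ℂ) * h x := by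
  have hm : AEStronglyMeasurable (fun x => ((2 * b x : ℝ) : ℂ) * h x) μQ :=
    (Complex.measurable_ofReal.comp (hb.const_mul 2)).aestronglyMeasurable.mul
      (Lp.aestronglyMeasurable h)
  have hle : ∀ᵐ x ∂μQ, ‖((2 * b x : ℝ) : ℂ) * h x‖ ≤ 2 * ‖h x‖ := by
    filter_upwards [ae_sq] with x hx
    rw [norm_mul, Complex.norm_real, Real.norm_eq_abs, abs_mul, abs_of_pos (two_pos)]
    have := hb1 x hx
    exact mul_le_mul_of_nonneg_right (by linarith) (norm_nonneg _)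
  have hmem : MemLp (fun x => ((2 * b x : ℝ) : ℂ) * h x) 2 μQ :=
    MemLp.of_le_mul (Lp.memLp h) hm hle
  refine ⟨hmem.toLp _, ?_, hmem.coeFn_toLp⟩
  refine Lp.norm_le_mul_norm_of_ae_le_mul ?_
  filter_upwards [hmem.coeFn_toLp, hle] with x h1 h2
  rw [h1]
  exact h2

theorem dbar1_cont {Φ : ℂ × ℂ → ℂ} (h : ContDiff ℝ ∞ Φ) : Continuous (dbar1 Φ) := by
  have hc := h.continuous_fderiv (n := ∞) (by simp)
  unfold dbar1
  exact ((hc.clm_apply continuous_const).add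
    (continuous_const.mul (hc.clm_apply continuous_const))).div_const _

theorem dbar2_cont {Φ : ℂ × ℂ → ℂ} (h : ContDiff ℝ ∞ Φ) : Continuous (dbar2 Φ) := by
  have hc := h.continuous_fderiv (n := ∞) (by simp)
  unfold dbar2
  exact ((hc.clm_apply continuous_const).add
    (continuous_const.mul (hc.clm_apply continuous_const))).div_const _

theorem fderiv_zero {Φ : ℂ × ℂ → ℂ} {z : ℂ × ℂ} (h : z ∉ tsupport Φ) : fderiv ℝ Φ z = 0 := by
  by_contra h1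
  exact h (support_fderiv_subset ℝ h1)

theorem dbar1_comp {Φ : ℂ × ℂ → ℂ} (h : HasCompactSupport Φ) : HasCompactSupport (dbar1 Φ) :=
  HasCompactSupport.intro h fun z hz => by
    unfold dbar1
    rw [fderiv_zero hz]
    simp

theorem dbar2_comp {Φ : ℂ × ℂ → ℂ} (h : HasCompactSupport Φ) : HasCompactSupport (dbar2 Φ) :=
  HasCompactSupport.intro h fun z hz => by
    unfold dbar2
    rw [fderiv_zero hz]
    simp

theorem int_T (u : L2) {Ψ : ℂ × ℂ → ℂ} (h1 : Continuous Ψ) (h2 : HasCompactSupport Ψ) :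
    Integrable (fun z => u z * Ψ z) μT := by
  have hm : MemLp Ψ 2 μT := by
    unfold μT
    exact (h1.memLp_of_hasCompactSupport h2).restrict T
  exact (Lp.memLp u).integrable_mul hm

theorem int_Q (h : Lp ℂ 2 μQ) {φ : ℝ × ℝ → ℂ} (hφ : TestQ φ) :
    Integrable (fun x => h x * φ x) μQ := by
  have hm : MemLp φ 2 μQ := hφ.1.continuous.memLp_of_hasCompactSupport hφ.2.1
  exact (Lp.memLp h).integrable_mul hm

theorem fd_meas {η : ℝ × ℝ → ℂ} (hη : TestQ η) (v : ℝ × ℝ) :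
    Measurable fun x => fderiv ℝ η x v :=
  ((hη.1.continuous_fderiv (by simp)).clm_apply continuous_const).measurable

theorem weak1 (hP : TaskPolar) (hPair : TaskPair) (hF : TaskFourier) (hM : TaskMulTest)
    (hT : TaskTestFun) (m n : ℤ) (u : L2) (F : L21) (c : Lp ℂ 2 μQ) (hu : DbarFun u F)
    (hc : Prof m n u c) : ∃ h1 : Lp ℂ 2 μQ, ‖h1‖ ≤ 2 * ‖F.fst‖ ∧ Weak1 (m + 1 / 2) c h1 := by
  obtain ⟨h, hh, hF1⟩ := hF hP (m + 1) n F.fst
  obtain ⟨h', hh', he⟩ := mul_lp (fun x => x.2) measurable_snd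
    (fun x hx => by rw [abs_of_pos hx.2.1]; exact hx.2.2.le) h
  refine ⟨h', by linarith, fun φ hφ => ?_⟩
  have hη : TestQ (fun x => w1 x * φ x) := hM w1 φ hφ w1_smooth
  obtain ⟨Φ, hΦ, hΦ2⟩ := hT (m + 1) n _ hη
  set η : ℝ × ℝ → ℂ := fun x => w1 x * φ x with hηd
  have p1 := hPair hP m n u c hc (dbar1 Φ)
    (fun x => ((1 / (2 * x.2) : ℝ) : ℂ) * (fderiv ℝ η x ((1 : ℝ), (0 : ℝ)) +
      ((((m + 1 : ℤ) : ℝ) / x.1 : ℝ) : ℂ) * η x)) (dbar1_cont hΦ.1).measurable ?_ ?_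
  rotate_left
  · have m1 := fd_meas hη ((1 : ℝ), (0 : ℝ))
    have m2 := hη.1.continuous.measurable
    have m3 : Measurable fun x : ℝ × ℝ => ((1 / (2 * x.2) : ℝ) : ℂ) :=
      Complex.measurable_ofReal.comp ((measurable_snd.const_mul 2).const_div 1)
    have m4 : Measurable fun x : ℝ × ℝ => ((((m + 1 : ℤ) : ℝ) / x.1 : ℝ) : ℂ) :=
      Complex.measurable_ofReal.comp (measurable_fst.const_div _)
    exact m3.mul (m1.add (m4.mul m2))
  · intro x hx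
    have := (hΦ2 x hx).2.1
    rw [this]
    have e : -(m + 1) + 1 = -m := by ring
    rw [e]
  have p2 := hu.1 Φ hΦ
  have p3 := hF1 Φ η hΦ hη (fun x hx => (hΦ2 x hx).1)
  rw [p1, p3] at p2
  have e1 : ∫ x, c x * (fderiv ℝ φ x ((1 : ℝ), (0 : ℝ)) + (((((m : ℝ) + 1 / 2) / x.1 : ℝ)) : ℂ) * φ x) ∂μQ =
      ∫ x, c x * (fac x * (((1 / (2 * x.2) : ℝ) : ℂ) * (fderiv ℝ η x ((1 : ℝ), (0 : ℝ)) +
      ((((m + 1 : ℤ) : ℝ) / x.1 : ℝ) : ℂ) * η x))) ∂μQ := by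
    refine integral_congr_ae ?_
    filter_upwards [ae_sq] with x hx
    have h1 : 0 < x.1 := hx.1.1
    have h2 : 0 < x.2 := hx.2.1
    have hs1 := Real.sqrt_pos.2 h1
    have hs2 := Real.sqrt_pos.2 h2
    have hp := Real.pi_pos
    have hd : fderiv ℝ η x ((1 : ℝ), (0 : ℝ)) =
        ((-(1 / (2 * x.1)) : ℝ) : ℂ) * w1 x * φ x + w1 x * fderiv ℝ φ x ((1 : ℝ), (0 : ℝ)) :=
      fderiv_mul_line (hφ.1.differentiable (by simp) x) (hη.1.differentiable (by simp) x)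
        (w1_deriv hx)
    rw [hd]
    have hw : fac x * ((1 / (2 * x.2) : ℝ) : ℂ) * w1 x = 1 := by
      unfold fac w1
      rw [← Complex.ofReal_mul, ← Complex.ofReal_mul, ← Complex.ofReal_one]
      congr 1
      field_simp
    have hx1 : (x.1 : ℂ) ≠ 0 := by exact_mod_cast h1.ne'
    congr 1
    rw [hηd]
    simp only
    have e2 : fac x * (((1 / (2 * x.2) : ℝ) : ℂ) * (((-(1 / (2 * x.1)) : ℝ) : ℂ) * w1 x * φ x +
        w1 x * fderiv ℝ φ x ((1 : ℝ), (0 : ℝ)) + ((((m + 1 : ℤ) : ℝ) / x.1 : ℝ) : ℂ) *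
          (w1 x * φ x))) = (fac x * ((1 / (2 * x.2) : ℝ) : ℂ) * w1 x) *
        (((-(1 / (2 * x.1)) : ℝ) : ℂ) * φ x + fderiv ℝ φ x ((1 : ℝ), (0 : ℝ)) +
          ((((m + 1 : ℤ) : ℝ) / x.1 : ℝ) : ℂ) * φ x) := by ring
    rw [e2, hw, one_mul]
    push_cast
    field_simp
    ring
  have e2 : ∫ x, h' x * φ x ∂μQ = ∫ x, h x * (fac x * η x) ∂μQ := by
    refine integral_congr_ae ?_
    filter_upwards [ae_sq, he] with x hx hex
    have h1 : 0 < x.1 := hx.1.1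
    have h2 : 0 < x.2 := hx.2.1
    have hs1 := Real.sqrt_pos.2 h1
    have hs2 := Real.sqrt_pos.2 h2
    have hp := Real.pi_pos
    rw [hex]
    have hw : fac x * w1 x = ((2 * x.2 : ℝ) : ℂ) := by
      unfold fac w1
      rw [← Complex.ofReal_mul]
      congr 1
      field_simp
    rw [hηd]
    simp only
    rw [← mul_assoc (fac x), hw]
    ring
  rw [e1, e2]
  exact p2

theorem weak2 (hP : TaskPolar) (hPair : TaskPair) (hF : TaskFourier) (hM : TaskMulTest)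
    (hT : TaskTestFun) (m n : ℤ) (u : L2) (F : L21) (c : Lp ℂ 2 μQ) (hu : DbarFun u F)
    (hc : Prof m n u c) : ∃ h2 : Lp ℂ 2 μQ, ‖h2‖ ≤ 2 * ‖F.fst‖ + 2 * ‖F.snd‖ ∧
      Weak2 (m + n + 3 / 2) c h2 := by
  obtain ⟨ha, hha, hFa⟩ := hF hP (m + 1) n F.fst
  obtain ⟨hb, hhb, hFb⟩ := hF hP m (n + 1) F.snd
  obtain ⟨ha', hha', hea⟩ := mul_lp (fun x => x.1) measurable_fst
    (fun x hx => by rw [abs_of_pos hx.1.1]; exact hx.1.2.le) ha
  obtain ⟨hb', hhb', heb⟩ := mul_lp (fun _ => 1) measurable_const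
    (fun x hx => by simp) hb
  refine ⟨ha' + hb', (norm_add_le _ _).trans (by linarith), fun φ hφ => ?_⟩
  have hη : TestQ (fun x => w2 x * φ x) := hM w2 φ hφ w2_smooth
  have hη' : TestQ (fun x => (x.1 : ℂ) * (w2 x * φ x)) :=
    hM (fun x => (x.1 : ℂ)) _ hη (Complex.ofRealCLM.contDiff.comp contDiff_fst).contDiffOn
  obtain ⟨Φ1, hΦ1, hΦ12⟩ := hT (m + 1) n _ hη'
  obtain ⟨Φ2, hΦ2, hΦ22⟩ := hT m (n + 1) _ hη
  set η : ℝ × ℝ → ℂ := fun x => w2 x * φ x with hηd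
  set η' : ℝ × ℝ → ℂ := fun x => (x.1 : ℂ) * η x with hηd'
  have p1 := hPair hP m n u c hc (fun z => dbar1 Φ1 z + dbar2 Φ2 z)
    (fun x => ((1 / (2 * x.2) : ℝ) : ℂ) * (fderiv ℝ η' x ((1 : ℝ), (0 : ℝ)) +
      ((((m + 1 : ℤ) : ℝ) / x.1 : ℝ) : ℂ) * η' x) + ((1 / 2 : ℝ) : ℂ) *
      (fderiv ℝ η x ((0:ℝ), (1:ℝ)) - ((x.1 / x.2 : ℝ) : ℂ) * fderiv ℝ η x ((1:ℝ), (0:ℝ))
        + ((((n + 1 : ℤ) : ℝ) / x.2 : ℝ) : ℂ) * η x))
    ((dbar1_cont hΦ1.1).add (dbar2_cont hΦ2.1)).measurable ?_ ?_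
  rotate_left
  · have m1 := fd_meas hη' ((1 : ℝ), (0 : ℝ))
    have m2 := hη'.1.continuous.measurable
    have m3 : Measurable fun x : ℝ × ℝ => ((1 / (2 * x.2) : ℝ) : ℂ) :=
      Complex.measurable_ofReal.comp ((measurable_snd.const_mul 2).const_div 1)
    have m4 : Measurable fun x : ℝ × ℝ => ((((m + 1 : ℤ) : ℝ) / x.1 : ℝ) : ℂ) :=
      Complex.measurable_ofReal.comp (measurable_fst.const_div _)
    have m5 := fd_meas hη ((1 : ℝ), (0 : ℝ))
    have m6 := fd_meas hη ((0 : ℝ), (1 : ℝ))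
    have m7 := hη.1.continuous.measurable
    have m8 : Measurable fun x : ℝ × ℝ => ((((n + 1 : ℤ) : ℝ) / x.2 : ℝ) : ℂ) :=
      Complex.measurable_ofReal.comp (measurable_snd.const_div _)
    have m9 : Measurable fun x : ℝ × ℝ => ((x.1 / x.2 : ℝ) : ℂ) :=
      Complex.measurable_ofReal.comp (measurable_fst.div measurable_snd)
    exact (m3.mul (m1.add (m4.mul m2))).add (((m6.sub (m9.mul m5)).add (m8.mul m7)).const_mul _)
  · intro x hx
    have e1 := (hΦ12 x hx).2.1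
    have e2 := (hΦ22 x hx).2.2
    rw [e1, e2]
    have e : -(m + 1) + 1 = -m := by ring
    have e' : -(n + 1) + 1 = -n := by ring
    rw [e, e']
    ring
  have p2 := hu.1 Φ1 hΦ1
  have p2' := hu.2 Φ2 hΦ2
  have p3 := hFa Φ1 η' hΦ1 hη' (fun x hx => (hΦ12 x hx).1)
  have p3' := hFb Φ2 η hΦ2 hη (fun x hx => (hΦ22 x hx).1)
  have i1 := int_T u (dbar1_cont hΦ1.1) (dbar1_comp hΦ1.2.1)
  have i2 := int_T u (dbar2_cont hΦ2.1) (dbar2_comp hΦ2.2.1)
  have p4 : ∫ z, u z * (dbar1 Φ1 z + dbar2 Φ2 z) ∂μT =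
      -(∫ x, ha x * (fac x * η' x) ∂μQ + ∫ x, hb x * (fac x * η x) ∂μQ) := by
    have : (fun z => u z * (dbar1 Φ1 z + dbar2 Φ2 z)) =
        fun z => u z * dbar1 Φ1 z + u z * dbar2 Φ2 z := by
      funext z
      ring
    rw [this, integral_add i1 i2, p2, p2', p3, p3']
    ring
  rw [p1] at p4
  have e1 : ∫ x, c x * (fderiv ℝ φ x ((0 : ℝ), (1 : ℝ)) +
        (((((m : ℝ) + n + 3 / 2) / x.2 : ℝ)) : ℂ) * φ x) ∂μQ =
      ∫ x, c x * (fac x * (((1 / (2 * x.2) : ℝ) : ℂ) * (fderiv ℝ η' x ((1 : ℝ), (0 : ℝ)) +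
      ((((m + 1 : ℤ) : ℝ) / x.1 : ℝ) : ℂ) * η' x) + ((1 / 2 : ℝ) : ℂ) *
      (fderiv ℝ η x ((0:ℝ), (1:ℝ)) - ((x.1 / x.2 : ℝ) : ℂ) * fderiv ℝ η x ((1:ℝ), (0:ℝ))
        + ((((n + 1 : ℤ) : ℝ) / x.2 : ℝ) : ℂ) * η x))) ∂μQ := by
    refine integral_congr_ae ?_
    filter_upwards [ae_sq] with x hx
    have h1 : 0 < x.1 := hx.1.1
    have h2 : 0 < x.2 := hx.2.1
    have hs1 := Real.sqrt_pos.2 h1
    have hs2 := Real.sqrt_pos.2 h2
    have hp := Real.pi_pos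
    have hd : fderiv ℝ η x ((0 : ℝ), (1 : ℝ)) =
        ((-(3 / (2 * x.2)) : ℝ) : ℂ) * w2 x * φ x + w2 x * fderiv ℝ φ x ((0 : ℝ), (1 : ℝ)) :=
      fderiv_mul_line (hφ.1.differentiable (by simp) x) (hη.1.differentiable (by simp) x)
        (w2_deriv hx)
    have hd' : fderiv ℝ η' x ((1 : ℝ), (0 : ℝ)) =
        1 * η x + (x.1 : ℂ) * fderiv ℝ η x ((1 : ℝ), (0 : ℝ)) := by
      refine fderiv_mul_line (w := fun x : ℝ × ℝ => (x.1 : ℂ)) (hη.1.differentiable (by simp) x)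
        (hη'.1.differentiable (by simp) x) ?_
      have d0 : HasDerivAt (fun t : ℝ => x.1 + t) 1 0 := by
        simpa using (hasDerivAt_id (0 : ℝ)).const_add x.1
      have := d0.ofReal_comp
      simpa using this
    rw [hd', hd]
    have hw : fac x * ((1 / 2 : ℝ) : ℂ) * w2 x = 1 := by
      unfold fac w2
      rw [← Complex.ofReal_mul, ← Complex.ofReal_mul, ← Complex.ofReal_one]
      congr 1
      field_simp
    have hx1 : (x.1 : ℂ) ≠ 0 := by exact_mod_cast h1.ne'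
    have hx2 : (x.2 : ℂ) ≠ 0 := by exact_mod_cast h2.ne'
    congr 1
    have e0 : η' x = (x.1 : ℂ) * η x := rfl
    have e00 : η x = w2 x * φ x := rfl
    rw [e0]
    set D := fderiv ℝ η x ((1 : ℝ), (0 : ℝ)) with hD
    set E := fderiv ℝ φ x ((0 : ℝ), (1 : ℝ)) with hE
    rw [e00]
    have e2 : fac x * (((1 / (2 * x.2) : ℝ) : ℂ) * (1 * (w2 x * φ x) + (x.1 : ℂ) * D +
        ((((m + 1 : ℤ) : ℝ) / x.1 : ℝ) : ℂ) * ((x.1 : ℂ) * (w2 x * φ x))) + ((1 / 2 : ℝ) : ℂ) *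
        (((-(3 / (2 * x.2)) : ℝ) : ℂ) * w2 x * φ x + w2 x * E - ((x.1 / x.2 : ℝ) : ℂ) * D +
          ((((n + 1 : ℤ) : ℝ) / x.2 : ℝ) : ℂ) * (w2 x * φ x))) =
        (fac x * ((1 / 2 : ℝ) : ℂ) * w2 x) * (E + (((((m : ℝ) + n + 3 / 2) / x.2 : ℝ)) : ℂ) * φ x) := by
      push_cast
      field_simp
      ring
    rw [e2, hw, one_mul]
  have j1 := int_Q ha' hφ
  have j2 := int_Q hb' hφ
  have e2 : ∫ x, (ha' + hb' : Lp ℂ 2 μQ) x * φ x ∂μQ =
      ∫ x, ha x * (fac x * η' x) ∂μQ + ∫ x, hb x * (fac x * η x) ∂μQ := by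
    have f1 : ∫ x, (ha' + hb' : Lp ℂ 2 μQ) x * φ x ∂μQ = ∫ x, (ha' x * φ x + hb' x * φ x) ∂μQ := by
      refine integral_congr_ae ?_
      filter_upwards [Lp.coeFn_add ha' hb'] with x hx
      rw [hx, Pi.add_apply]
      ring
    rw [f1, integral_add j1 j2]
    congr 1
    · refine integral_congr_ae ?_
      filter_upwards [ae_sq, hea] with x hx hex
      have h1 : 0 < x.1 := hx.1.1
      have h2 : 0 < x.2 := hx.2.1
      have hs1 := Real.sqrt_pos.2 h1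
      have hs2 := Real.sqrt_pos.2 h2
      have hp := Real.pi_pos
      rw [hex]
      have hw : fac x * w2 x = ((2 : ℝ) : ℂ) := by
        unfold fac w2
        rw [← Complex.ofReal_mul]
        congr 1
        field_simp
      have e0 : η' x = (x.1 : ℂ) * (w2 x * φ x) := rfl
      rw [e0]
      have : fac x * ((x.1 : ℂ) * (w2 x * φ x)) = (fac x * w2 x) * ((x.1 : ℂ) * φ x) := by ring
      rw [this, hw]
      push_cast
      ring
    · refine integral_congr_ae ?_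
      filter_upwards [ae_sq, heb] with x hx hex
      have h1 : 0 < x.1 := hx.1.1
      have h2 : 0 < x.2 := hx.2.1
      have hs1 := Real.sqrt_pos.2 h1
      have hs2 := Real.sqrt_pos.2 h2
      have hp := Real.pi_pos
      rw [hex]
      have hw : fac x * w2 x = ((2 : ℝ) : ℂ) := by
        unfold fac w2
        rw [← Complex.ofReal_mul]
        congr 1
        field_simp
      have e0 : η x = w2 x * φ x := rfl
      rw [e0, ← mul_assoc (fac x), hw]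
      push_cast
      ring
  rw [e1, e2]
  exact p4

/-- The weak equations for the profile. -/
theorem taskWeak : TaskWeak := by
  intro hP hPair hF hM hT m n u F c hu hc
  obtain ⟨h1, n1, k1⟩ := weak1 hP hPair hF hM hT m n u F c hu hc
  obtain ⟨h2, n2, k2⟩ := weak2 hP hPair hF hM hT m n u F c hu hc
  have f1 : ‖F.fst‖ ≤ ‖F‖ := WithLp.norm_fst_le _ F
  have f2 : ‖F.snd‖ ≤ ‖F‖ := WithLp.norm_snd_le _ F
  have f0 := norm_nonneg F
  exact ⟨h1, h2, by linarith, by linarith, k1, k2⟩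

end Pool.Agent.H903HT
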